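import Pool.Agent.NUM.Stmts
import Pool.Agent.SRF.Stmts

/-!
Module BLK of squad NUM: subtraction of an effective divisor, by jumps.
-/

set_option autoImplicit false

noncomputable section

namespace Pool.Agent.NUM

open Pool.Agent.SRF Filter

namespace BLK_

variable (T : Sf)

lemma dv_pr (e : T.P) : T.Dv (T.pr e) := by
  classical
  refine (Set.finite_singleton e).subset fun O hO => ?_
  by_contra h
  apply hO
  unfold Sf.pr
  rw [if_neg]
  exact h

lemma dv_add {D E : T.P → ℤ} (hD : T.Dv D) (hE : T.Dv E) : T.Dv (D + E) :=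
  (hD.union hE).subset (Function.support_add D E)

lemma dv_sub {D E : T.P → ℤ} (hD : T.Dv D) (hE : T.Dv E) : T.Dv (D - E) :=
  (hD.union hE).subset (Function.support_sub D E)

lemma dv_smul (c : ℤ) {D : T.P → ℤ} (hD : T.Dv D) : T.Dv (c • D) :=
  hD.subset (Function.support_const_smul_subset c D)

lemma dv_H (hSUP : SRF.Stmt_SUP) : T.Dv T.H := by
  have hx : T.x ≠ 0 := T.surf.indep.ne_zero 0
  have hy : T.y ≠ 0 := T.surf.indep.ne_zero 1
  refine ((hSUP T.k T.F T.x T.y T.surf T.x hx).union (hSUP T.k T.F T.x T.y T.surf T.y hy)).subset ?_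
  intro O hO
  by_contra h
  apply hO
  simp only [Set.mem_union, Set.mem_ofPred_eq, not_or, not_not] at h
  show SRF.H T.k T.x T.y O = 0
  unfold SRF.H
  rw [h.1, h.2]
  simp

/-- induction over effective divisors -/
lemma ind {p : (T.P → ℤ) → Prop} (h0 : p 0)
    (h1 : ∀ (Q : T.P → ℤ) (e : T.P), T.Dv Q → 0 ≤ Q → p Q → p (Q + T.pr e)) :
    ∀ Q : T.P → ℤ, T.Dv Q → 0 ≤ Q → p Q := by
  classical
  have key : ∀ S : Finset T.P, ∀ Q : T.P → ℤ, (∀ O, Q O ≠ 0 → O ∈ S) → 0 ≤ Q → p Q := by
    intro S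
    induction S using Finset.induction_on with
    | empty =>
      intro Q hQ _
      have : Q = 0 := by
        funext O
        by_contra h
        exact absurd (hQ O h) (Finset.notMem_empty O)
      rw [this]
      exact h0
    | insert e S _ ih =>
      intro Q hQ hQ0
      obtain ⟨Q', hQ'⟩ : ∃ Q' : T.P → ℤ, Q' = fun O => if O = e then 0 else Q O := ⟨_, rfl⟩
      have hs : ∀ O, Q' O ≠ 0 → O ∈ S := by
        intro O hO
        rw [hQ'] at hO
        by_cases h : O = e
        · simp [h] at hO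
        · simp only [h, if_false] at hO
          exact Finset.mem_of_mem_insert_of_ne (hQ O hO) h
      have hn : 0 ≤ Q' := by
        intro O
        rw [hQ']
        by_cases h : O = e
        · simp [h]
        · simp only [h, if_false]
          exact hQ0 O
      have hpr : (0 : T.P → ℤ) ≤ T.pr e := by
        intro O
        unfold Sf.pr
        split_ifs
        · exact zero_le_one
        · exact le_rfl
      have hdv : T.Dv Q' := (S.finite_toSet).subset fun O hO => hs O hO
      have hm : ∀ m : ℕ, p (Q' + (m : ℤ) • T.pr e) := by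
        intro m
        induction m with
        | zero =>
          have : Q' + ((0 : ℕ) : ℤ) • T.pr e = Q' := by simp
          rw [this]
          exact ih Q' hs hn
        | succ m ihm =>
          have : Q' + ((m + 1 : ℕ) : ℤ) • T.pr e = (Q' + (m : ℤ) • T.pr e) + T.pr e := by
            push_cast
            rw [add_smul, one_smul, add_assoc]
          rw [this]
          refine h1 _ e (dv_add T hdv (dv_smul T _ (dv_pr T e))) ?_ ihm
          exact add_nonneg hn (smul_nonneg (by positivity) hpr)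
      have heq : Q = Q' + (((Q e).toNat : ℕ) : ℤ) • T.pr e := by
        funext O
        rw [hQ']
        show Q O = (if O = e then 0 else Q O) + (((Q e).toNat : ℕ) : ℤ) • T.pr e O
        unfold Sf.pr
        by_cases h : O = e
        · subst h
          simp only [if_true]
          rw [Int.toNat_of_nonneg (hQ0 O)]
          simp
        · simp [h]
      rw [heq]
      exact hm _
  intro Q hQ hQ0
  exact key hQ.toFinset Q (fun O hO => (Set.Finite.mem_toFinset hQ).2 hO) hQ0

lemma sum_step (Q : T.P → ℤ) (hQ : T.Dv Q) (e : T.P) (g : T.P → ℤ) :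
    ∑ᶠ O, (Q + T.pr e) O * g O = ∑ᶠ O, Q O * g O + g e := by
  classical
  have h1 : (fun O => (Q + T.pr e) O * g O) = fun O => Q O * g O + T.pr e O * g O := by
    funext O
    rw [Pi.add_apply, add_mul]
  have h2 : (Function.support fun O => Q O * g O).Finite :=
    hQ.subset fun O hO => left_ne_zero_of_mul hO
  have h3 : (Function.support fun O => T.pr e O * g O).Finite :=
    (dv_pr T e).subset fun O hO => left_ne_zero_of_mul hO
  have h4 : ∑ᶠ O, T.pr e O * g O = g e := by
    rw [finsum_eq_single _ e]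
    · unfold Sf.pr
      simp
    · intro O hO
      unfold Sf.pr
      simp [hO]
  rw [h1, finsum_add_distrib h2 h3, h4]

end BLK_

open BLK_ in
theorem blk_proof (hMUL : Stmt_MUL) (hAVD : SRF.Stmt_AVD) (_hFDL : SRF.Stmt_FDL)
    (hSUP : SRF.Stmt_SUP) : Stmt_BLK := by
  classical
  intro T Q hQ hQ0
  have hH := dv_H T hSUP
  have : Infinite T.k := inferInstance
  have key : ∃ c₀ : ℕ, ∀ c : ℕ, c₀ ≤ c → ∀ D : T.P → ℤ, T.Dv D →
      ∑ᶠ e, Q e * T.sl e (D - (c : ℤ) • T.H) ≤ T.hh D - T.hh (D - Q) ∧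
      T.hh D - T.hh (D - Q) ≤ ∑ᶠ e, Q e * T.sl e (D + (c : ℤ) • T.H) := by
    refine ind T (p := fun Q => ∃ c₀ : ℕ, ∀ c : ℕ, c₀ ≤ c → ∀ D : T.P → ℤ, T.Dv D →
      ∑ᶠ e, Q e * T.sl e (D - (c : ℤ) • T.H) ≤ T.hh D - T.hh (D - Q) ∧
      T.hh D - T.hh (D - Q) ≤ ∑ᶠ e, Q e * T.sl e (D + (c : ℤ) • T.H)) ?_ ?_ Q hQ hQ0
    · refine ⟨0, fun c _ D _ => ?_⟩
      simp
    · intro Q e hQ hQ0 ⟨c₀, hc₀⟩
      obtain ⟨a₁, ha₁⟩ := hAVD T.k T.F T.x T.y T.surf Q hQ {e} (Set.finite_singleton e)
      obtain ⟨a₂, ha₂⟩ := hAVD T.k T.F T.x T.y T.surf (-Q) (by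
        refine hQ.subset fun O hO => ?_
        simpa using hO) {e} (Set.finite_singleton e)
      refine ⟨c₀ + a₁ + a₂, fun c hc D hD => ?_⟩
      obtain ⟨h1, h2⟩ := hc₀ c (by omega) D hD
      rw [sum_step T Q hQ e, sum_step T Q hQ e]
      have h3 : T.hh D - T.hh (D - (Q + T.pr e)) = (T.hh D - T.hh (D - Q)) + T.sl e (D - Q) := by
        unfold Sf.sl
        rw [sub_sub D Q]
        ring
      rw [h3]
      constructor
      · refine add_le_add h1 ?_
        obtain ⟨f, hf0, hf, hfe⟩ := ha₁ c (by omega)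
        have h4 := hMUL T e (D - (c : ℤ) • T.H) ((c : ℤ) • T.H - Q) f
          (dv_sub T hD (dv_smul T _ hH)) (dv_sub T (dv_smul T _ hH) hQ) hf0 hf (by
            have h5 := hfe e rfl
            show SRF.ord e.1 f = -((c : ℤ) * SRF.H T.k T.x T.y e - Q e)
            rw [h5]
            ring)
        have h6 : D - (c : ℤ) • T.H + ((c : ℤ) • T.H - Q) = D - Q := by abel
        rwa [h6] at h4
      · refine add_le_add h2 ?_
        obtain ⟨f, hf0, hf, hfe⟩ := ha₂ c (by omega)
        have hfun : (fun O => (c : ℤ) * SRF.H T.k T.x T.y O - (-Q) O) = (c : ℤ) • T.H + Q := by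
          funext O
          show (c : ℤ) * SRF.H T.k T.x T.y O - (-Q O) = (c : ℤ) * SRF.H T.k T.x T.y O + Q O
          ring
        rw [hfun] at hf
        have h4 := hMUL T e (D - Q) ((c : ℤ) • T.H + Q) f
          (dv_sub T hD hQ) (dv_add T (dv_smul T _ hH) hQ) hf0 hf (by
            have h5 := hfe e rfl
            show SRF.ord e.1 f = -((c : ℤ) * SRF.H T.k T.x T.y e + Q e)
            rw [h5]
            show -Q e - (c : ℤ) * SRF.H T.k T.x T.y e = _
            ring)
        have h6 : D - Q + ((c : ℤ) • T.H + Q) = D + (c : ℤ) • T.H := by abel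
        rwa [h6] at h4
  obtain ⟨c₀, hc₀⟩ := key
  exact ⟨c₀, fun D hD => hc₀ c₀ le_rfl D hD⟩

end Pool.Agent.NUM
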