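import Pool.Agent.NUM.Defs

/-!
# Statements of the numerics
-/

set_option autoImplicit false

noncomputable section

namespace Pool.Agent.NUM

open Pool.Agent.SRF Filter

namespace Sf

variable (T : Sf)

/-- The constants in the discrete valuation ring of a prime divisor. -/
def cst (e : T.P) : T.k →+* e.1 :=
  (algebraMap T.k T.F).codRestrict e.1 fun c => e.2.const_mem T.k T.x T.y c

instance algO (e : T.P) : Algebra T.k e.1 := (T.cst e).toAlgebra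

/-- linear forms -/
def Lin (u : T.F) : Prop := u ∈ Submodule.span T.k ({1, T.x, T.y} : Set T.F)

/-- **Tube**: the real divisor `X` of maximal poles along the tube `S` (up to the factor `2`). -/
structure Tub (N : ℝ) (S : Set T.P) (X : T.P → ℝ) : Prop where
  nonneg : ∀ e, 0 ≤ X e
  supp : ∀ e, X e ≠ 0 → e ∈ S
  fin : (Function.support X).Finite
  ww : ∀ n : ℕ, T.WW S n = T.L ((n : ℤ) • T.H + T.fl (2 * n) X)
  deg : ∑ᶠ e, X e * T.degc e = 2 * N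
  bet : ∀ ε : ℝ, 0 < ε → ∃ m : ℕ, 1 ≤ m ∧ ∃ (Q : T.P → ℤ) (β : T.F), β ≠ 0 ∧
    β ∈ T.L ((m : ℤ) • T.H + Q) ∧ (∀ e, Q e ≠ 0 → T.o e β = - (m * T.H e) - Q e) ∧
    (∀ e, (2 - ε) * m * X e ≤ Q e) ∧ ∀ e, (Q e : ℝ) ≤ 2 * m * X e

/-- `Tub` with an inequality for the degree -/
structure Tub0 (N : ℝ) (S : Set T.P) (X : T.P → ℝ) : Prop where
  nonneg : ∀ e, 0 ≤ X e
  supp : ∀ e, X e ≠ 0 → e ∈ S
  fin : (Function.support X).Finite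
  ww : ∀ n : ℕ, T.WW S n = T.L ((n : ℤ) • T.H + T.fl (2 * n) X)
  degle : ∑ᶠ e, X e * T.degc e ≤ 2 * N
  bet : ∀ ε : ℝ, 0 < ε → ∃ m : ℕ, 1 ≤ m ∧ ∃ (Q : T.P → ℤ) (β : T.F), β ≠ 0 ∧
    β ∈ T.L ((m : ℤ) • T.H + Q) ∧ (∀ e, Q e ≠ 0 → T.o e β = - (m * T.H e) - Q e) ∧
    (∀ e, (2 - ε) * m * X e ≤ Q e) ∧ ∀ e, (Q e : ℝ) ≤ 2 * m * X e

/-- `ρ_j (M_i) ≥ 4 N` (crossing pair) -/
def Rho (N : ℝ) (Xi Xj : T.P → ℝ) : Prop :=
  ∀ ε : ℝ, 0 < ε → ∀ᶠ n : ℕ in atTop,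
    (4 * N - ε) * n ≤ ∑ᶠ e, Xj e * (T.sl e ((n : ℤ) • T.H + T.fl (2 * n) Xi) : ℝ)

/-- round up -/
def cl (n : ℕ) (X : T.P → ℝ) : T.P → ℤ := fun O => ⌈(n : ℝ) * X O⌉

end Sf

/-! ## general facts about surfaces -/

/-- MUL: multiplication by a function with exact order at `e`. -/
def Stmt_MUL : Prop :=
  ∀ (T : Sf) (e : T.P) (D E : T.P → ℤ) (f : T.F), T.Dv D → T.Dv E → f ≠ 0 → f ∈ T.L E →
    T.o e f = - E e → T.sl e D ≤ T.sl e (D + E)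

/-- MLN: multiplication by a linear form. -/
def Stmt_MLN : Prop :=
  ∀ (T : Sf) (e : T.P) (D : T.P → ℤ), T.Dv D → ∀ n : ℕ, T.sl e D ≤ T.sl e (D + (n : ℤ) • T.H)

/-- HOPL: Hopf's lemma in a field extension of an algebraically closed field. -/
def Stmt_HOPL : Prop :=
  ∀ (k κ : Type) [Field k] [IsAlgClosed k] [Field κ] [Algebra k κ] (A B C : Submodule k κ),
    FiniteDimensional k A → FiniteDimensional k B → FiniteDimensional k C →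
    A ≠ ⊥ → B ≠ ⊥ → (∀ a ∈ A, ∀ b ∈ B, a * b ∈ C) →
    Module.finrank k A + Module.finrank k B ≤ Module.finrank k C + 1

/-- HOPF: superadditivity of the jumps. -/
def Stmt_HOPF : Prop :=
  ∀ (T : Sf) (e : T.P) (D D' : T.P → ℤ), T.Dv D → T.Dv D' → 1 ≤ T.sl e D → 1 ≤ T.sl e D' →
    T.sl e D + T.sl e D' - 1 ≤ T.sl e (D + D')

/-- BLK: subtraction of an effective divisor, by jumps. -/
def Stmt_BLK : Prop :=
  ∀ (T : Sf) (Q : T.P → ℤ), T.Dv Q → 0 ≤ Q → ∃ c : ℕ, ∀ D : T.P → ℤ, T.Dv D →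
    ∑ᶠ e, Q e * T.sl e (D - (c : ℤ) • T.H) ≤ T.hh D - T.hh (D - Q) ∧
    T.hh D - T.hh (D - Q) ≤ ∑ᶠ e, Q e * T.sl e (D + (c : ℤ) • T.H)

/-- UPS: `R` blocks. -/
def Stmt_UPS : Prop :=
  ∀ (T : Sf) (Q : T.P → ℤ) (m : ℕ) (β : T.F), T.Dv Q → 0 ≤ Q → β ≠ 0 →
    β ∈ T.L ((m : ℤ) • T.H + Q) → (∀ e, Q e ≠ 0 → T.o e β = - (m * T.H e) - Q e) →
    ∃ c : ℕ, ∀ (D : T.P → ℤ), T.Dv D → ∀ R : ℕ,
      ∑ ρ ∈ Finset.range R, ∑ᶠ e, Q e * T.sl e (D - ((c + (ρ + 1) * m : ℕ) : ℤ) • T.H) ≤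
          T.hh (D + (R : ℤ) • Q) - T.hh D ∧
      T.hh D - T.hh (D - (R : ℤ) • Q) ≤
          ∑ ρ ∈ Finset.range R, ∑ᶠ e, Q e * T.sl e (D + ((c + ρ * m : ℕ) : ℤ) • T.H)

/-- CRV: functions on a curve with bounded poles. -/
def Stmt_CRV : Prop :=
  ∀ (k κ : Type) [Field k] [Field κ] [Algebra k κ] (t : κ), Transcendental k t →
    FiniteDimensional (IntermediateField.adjoin k ({t} : Set κ)) κ → ∀ (n : ℕ)
    (U : Submodule k κ), FiniteDimensional k U →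
    (∀ g ∈ U, IsIntegral (Algebra.adjoin k ({t} : Set κ)) g ∧
      IsIntegral (Algebra.adjoin k ({t⁻¹} : Set κ)) (g * t⁻¹ ^ n)) →
    Module.finrank k U ≤ Module.finrank (IntermediateField.adjoin k ({t} : Set κ)) κ * (n + 1)

/-- RCV: the residue field of a prime divisor: two linear forms without common zero on the curve;
`t` is the residue of `v / u`. -/
def Stmt_RCV : Prop :=
  ∀ (T : Sf) (e : T.P), ∃ (u v : T.F) (t : IsLocalRing.ResidueField e.1), T.Lin u ∧ T.Lin v ∧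
    u ≠ 0 ∧ v ≠ 0 ∧ T.o e u = - T.H e ∧ T.o e v = - T.H e ∧
    (∀ h : v / u ∈ e.1, t = IsLocalRing.residue e.1 ⟨v / u, h⟩) ∧
    Transcendental T.k t ∧
    FiniteDimensional (IntermediateField.adjoin T.k ({t} : Set (IsLocalRing.ResidueField e.1)))
      (IsLocalRing.ResidueField e.1) ∧
    ∀ j : Fin 3, ∃ (n : ℕ) (c : ℕ → Polynomial T.k), 1 ≤ n ∧ (∀ i, (c i).natDegree ≤ i) ∧
      ∀ h : (z T.x T.y j / u) ^ n + ∑ i ∈ Finset.Icc 1 n,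
          Polynomial.aeval (v / u) (c i) * (z T.x T.y j / u) ^ (n - i) ∈ e.1,
        IsLocalRing.residue e.1 ⟨_, h⟩ = 0

/-- DEG: every prime divisor has a degree. -/
def Stmt_DEG : Prop := ∀ (T : Sf) (e : T.P), T.IsDeg e (T.degc e)

/-- TRD: a common denominator for the sections of all degrees. -/
def Stmt_TRD : Prop :=
  ∀ (T : Sf), ∃ (d c δ : ℕ) (b : Fin d → T.F) (Δ : MvPolynomial (Fin 2) T.k),
    (d : ℤ) = T.dg ∧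
    LinearIndependent (IntermediateField.adjoin T.k ({T.x, T.y} : Set T.F)) b ∧
    (∀ i, b i ∈ T.L ((c : ℤ) • T.H)) ∧ Δ ≠ 0 ∧ Δ.totalDegree ≤ δ ∧
    ∀ (n : ℕ), ∀ a ∈ T.L ((n : ℤ) • T.H), ∃ q : Fin d → MvPolynomial (Fin 2) T.k,
      (∀ i, (q i).totalDegree ≤ n + δ) ∧
      MvPolynomial.aeval ![T.x, T.y] Δ * a = ∑ i, MvPolynomial.aeval ![T.x, T.y] (q i) * b i

/-- HIL: the Hilbert function of the surface. -/
def Stmt_HIL : Prop :=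
  ∀ (T : Sf), ∃ C : ℤ, ∀ n : ℕ,
    |T.hh (((n : ℤ) + 1) • T.H) - T.hh ((n : ℤ) • T.H) - T.dg * n| ≤ C

/-- DGH: the degree of the divisor of a section. -/
def Stmt_DGH : Prop :=
  ∀ (T : Sf) (m : ℕ) (h : T.F), h ≠ 0 → h ∈ T.L ((m : ℤ) • T.H) →
    ∑ᶠ e, (T.o e h + m * T.H e) * T.degc e ≤ m * T.dg

/-- RAM: irreducible plane curves outside the discriminant have reduced preimage. -/
def Stmt_RAM : Prop :=
  ∀ (T : Sf), ∃ Δ : MvPolynomial (Fin 2) T.k, Δ ≠ 0 ∧ ∀ G : MvPolynomial (Fin 2) T.k,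
    Irreducible G → ¬ G ∣ Δ → ∀ e : T.P, T.H e = 0 →
      T.o e (MvPolynomial.aeval ![T.x, T.y] G) ≤ 1

/-- NLT: the relative order of a polynomial at the primes at infinity is zero. -/
def Stmt_NLT : Prop :=
  ∀ (T : Sf) (G : MvPolynomial (Fin 2) T.k), G ≠ 0 → ∀ e : T.P, 0 < T.H e →
    T.o e (MvPolynomial.aeval ![T.x, T.y] G) = - (G.totalDegree * T.H e)

/-- RAL: lines which avoid finitely many curves, with reduced preimage. -/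
def Stmt_RAL : Prop :=
  ∀ (T : Sf) (E : Finset T.P), ∃ c : T.k, T.x - algebraMap T.k T.F c ≠ 0 ∧
    T.x - algebraMap T.k T.F c ∈ T.L T.H ∧
    (∀ g : T.P, T.o g (T.x - algebraMap T.k T.F c) + T.H g ≤ 1) ∧
    ∀ g ∈ E, T.o g (T.x - algebraMap T.k T.F c) = - T.H g

/-- RAC: almost every prime divisor lies over a plane curve with reduced preimage. -/
def Stmt_RAC : Prop :=
  ∀ (T : Sf), ∃ B : Finset T.P, ∀ e : T.P, e ∉ B → ∃ (δ : ℕ) (G : T.F), 1 ≤ δ ∧ G ≠ 0 ∧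
    G ∈ T.L ((δ : ℤ) • T.H) ∧ (∀ g : T.P, T.o g G + δ * T.H g ≤ 1) ∧
    T.o e G + δ * T.H e = 1 ∧ (δ : ℤ) ≤ T.degc e

/-- UNI: functions with a simple pole along `e` only, of degree bounded by the degree of `e`. -/
def Stmt_UNI : Prop :=
  ∀ (T : Sf), ∃ (B : Finset T.P) (C : ℕ), ∀ e : T.P, e ∉ B → ∃ n : ℕ, (n : ℤ) ≤ C * T.degc e ∧
    ∃ u : T.F, u ≠ 0 ∧ u ∈ T.L ((n : ℤ) • T.H + T.pr e) ∧ T.o e u = - (n * T.H e) - 1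

/-- SPH: superadditivity of `hh D - hh (D - H)`. -/
def Stmt_SPH : Prop :=
  ∀ (T : Sf) (D D' : T.P → ℤ), T.Dv D → T.Dv D' → (∃ f ∈ T.L D, f ≠ 0) →
    (∃ f ∈ T.L D', f ≠ 0) →
    (T.hh D - T.hh (D - T.H)) + (T.hh D' - T.hh (D' - T.H)) ≤
      T.hh (D + D') - T.hh (D + D' - T.H) + T.dg

/-- MLH: monotony of `hh D - hh (D - H)`. -/
def Stmt_MLH : Prop :=
  ∀ (T : Sf) (D E : T.P → ℤ) (w : T.F), T.Dv D → T.Dv E → w ≠ 0 → w ∈ T.L E →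
    T.hh D - T.hh (D - T.H) ≤ T.hh (D + E) - T.hh (D + E - T.H)

/-- PSL: a real divisor `R` such that the volumes of `t H + R` and `t H - R` are at least
`t² H²` for large `t` is pseudo-effective. -/
def Stmt_PSL : Prop :=
  ∀ (T : Sf) (R : T.P → ℝ), (Function.support R).Finite →
    (∃ M₀ : ℕ, ∀ M : ℕ, M₀ ≤ M → ∀ ε : ℝ, 0 < ε → ∀ᶠ n : ℕ in atTop,
      ((T.dg : ℝ) * M ^ 2 / 2 - ε) * n ^ 2 ≤ (T.hh (((M * n : ℕ) : ℤ) • T.H + T.fl n R) : ℝ)) →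
    (∃ M₀ : ℕ, ∀ M : ℕ, M₀ ≤ M → ∀ ε : ℝ, 0 < ε → ∀ᶠ n : ℕ in atTop,
      ((T.dg : ℝ) * M ^ 2 / 2 - ε) * n ^ 2 ≤ (T.hh (((M * n : ℕ) : ℤ) • T.H + T.fl n (-R)) : ℝ)) →
    T.PsEff R

/-! ## the tubes -/

/-- PBD: the poles of one section. -/
def Stmt_PBD : Prop :=
  ∀ (T : Sf) (J : Type) (cr : J → J → Prop) (Tb : J → Set T.P) (N : ℝ),
    T.NumIn cr Tb N → ∀ (j : J) (m : ℕ) (β : T.F), 1 ≤ m → β ≠ 0 → β ∈ T.WW (Tb j) m →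
    ∀ E : Finset T.P, (∀ e ∈ E, e ∈ Tb j) → (∀ e ∈ E, 0 ≤ - T.o e β - m * T.H e) →
      ((∑ e ∈ E, (- T.o e β - m * T.H e) * T.degc e : ℤ) : ℝ) ≤ 4 * N * m

/-- TUA: the real divisors of the tubes. -/
def Stmt_TUA : Prop :=
  ∀ (T : Sf) (J : Type) (cr : J → J → Prop) (Tb : J → Set T.P) (N : ℝ),
    T.NumIn cr Tb N → ∀ j : J, ∃ X : T.P → ℝ, T.Tub0 N (Tb j) X

/-- TUB: their degree. -/
def Stmt_TUB : Prop :=
  ∀ (T : Sf) (J : Type) (cr : J → J → Prop) (Tb : J → Set T.P) (N : ℝ),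
    T.NumIn cr Tb N → ∀ (j : J) (X : T.P → ℝ), T.Tub0 N (Tb j) X → T.Tub N (Tb j) X

/-- RHO: crossing tubes. -/
def Stmt_RHO : Prop :=
  ∀ (T : Sf) (J : Type) (cr : J → J → Prop) (Tb : J → Set T.P) (N : ℝ),
    T.NumIn cr Tb N → ∀ (i j : J) (Xi Xj : T.P → ℝ), cr i j → T.Tub N (Tb i) Xi →
      T.Tub N (Tb j) Xj → T.Rho N Xi Xj

/-- POS: one more tube with poles. -/
def Stmt_POS : Prop :=
  ∀ (T : Sf) (J : Type) [DecidableEq J] (Tb : J → Set T.P) (N : ℝ) (X : J → T.P → ℝ)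
    (A A' : Finset J) (j : J), 0 ≤ N → A' ⊆ A → j ∉ A → (∀ i ∈ A, T.Tub N (Tb i) (X i)) →
    T.Tub N (Tb j) (X j) → (∀ i ∈ A, ∀ e, X i e ≠ 0 → X j e = 0) →
    (∀ i ∈ A', T.Rho N (X i) (X j)) →
    ∃ M₀ : ℕ, ∀ M : ℕ, M₀ ≤ M → ∀ ε : ℝ, 0 < ε → ∀ᶠ n : ℕ in atTop,
      (N * (2 * M - 1 / 2 + A'.card) - ε) * n ^ 2 ≤
        ((T.hh (((M * n : ℕ) : ℤ) • T.H + ∑ i ∈ A, T.fl n (X i) + T.fl n (X j)) -
          T.hh (((M * n : ℕ) : ℤ) • T.H + ∑ i ∈ A, T.fl n (X i)) : ℤ) : ℝ)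

/-- ZES: one more tube with zeros. -/
def Stmt_ZES : Prop :=
  ∀ (T : Sf) (J : Type) [DecidableEq J] (Tb : J → Set T.P) (N : ℝ) (X : J → T.P → ℝ)
    (A B B' : Finset J) (j : J), 0 ≤ N → B' ⊆ B → j ∉ A → j ∉ B →
    (∀ i ∈ A, T.Tub N (Tb i) (X i)) → (∀ i ∈ B, T.Tub N (Tb i) (X i)) →
    T.Tub N (Tb j) (X j) → (∀ i ∈ A ∪ B, ∀ e, X i e ≠ 0 → X j e = 0) →
    (∀ i ∈ A, ∀ e e', X j e ≠ 0 → X i e' ≠ 0 → T.NoMeet e e') →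
    (∀ i ∈ B', T.Rho N (X i) (X j)) →
    ∃ M₀ : ℕ, ∀ M : ℕ, M₀ ≤ M → ∀ ε : ℝ, 0 < ε → ∀ᶠ n : ℕ in atTop,
      ((T.hh (((M * n : ℕ) : ℤ) • T.H + ∑ i ∈ A, T.fl n (X i) - ∑ i ∈ B, T.cl n (X i)) -
          T.hh (((M * n : ℕ) : ℤ) • T.H + ∑ i ∈ A, T.fl n (X i) - ∑ i ∈ B, T.cl n (X i) -
            T.cl n (X j)) : ℤ) : ℝ) ≤
        (N * (2 * M + 1 / 2 - B'.card) + ε) * n ^ 2

/-- VOL: the volumes of `M H + ∑_A X_j - ∑_B X_j` for large `M`. -/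
def Stmt_VOL : Prop :=
  ∀ (T : Sf) (J : Type) [Fintype J] (cr : J → J → Prop) (Tb : J → Set T.P) (N : ℝ),
    T.NumIn cr Tb N → ∀ X : J → T.P → ℝ, (∀ j, T.Tub N (Tb j) (X j)) →
    ∀ A B : Finset J, Disjoint A B → (∀ i ∈ A, ∀ j ∈ B, ¬ cr i j ∧ ¬ cr j i) →
    ∃ M₀ : ℕ, ∀ M : ℕ, M₀ ≤ M → ∀ ε : ℝ, 0 < ε → ∀ᶠ n : ℕ in atTop,
      (N * (20 * M ^ 2 + 4 * M * ((A.card : ℝ) - B.card) - A.card - B.card +
        Sf.ncr cr A + Sf.ncr cr B) / 2 - ε) * n ^ 2 ≤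
      (T.hh (((M * n : ℕ) : ℤ) • T.H + ∑ i ∈ A, T.fl n (X i) - ∑ i ∈ B, T.cl n (X i)) : ℝ)

/-- FINAL: the output. -/
def Stmt_NUM : Prop :=
  ∀ (T : Sf) (J : Type) [Fintype J] (cr : J → J → Prop) (Tb : J → Set T.P) (N : ℝ),
    T.NumIn cr Tb N → ∃ X : J → T.P → ℝ, T.NumOut cr Tb N X

end Pool.Agent.NUM
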