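/-
MP_db3ab1_ag, squad NUM, module CRV (helper89).
-/
import Pool.Agent.NUM.Stmts
import Pool.Agent.SRF.Stmts

set_option autoImplicit false
set_option linter.style.longLine false

noncomputable section

namespace Pool.Agent.NUM

open Pool.Agent.SRF Filter

namespace CRV_

open IntermediateField.algebraAdjoinAdjoin

section

variable {k κ : Type} [Field k] [Field κ] [Algebra k κ]

/-- the elements integral over `k[s]` -/
def Int (k : Type) {κ : Type} [Field k] [Field κ] [Algebra k κ] (s : κ) : Submodule k κ :=
  ((integralClosure (Algebra.adjoin k ({s} : Set κ)) κ).restrictScalars k).toSubmodule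

theorem mem_Int {s g : κ} : g ∈ Int k s ↔ IsIntegral (Algebra.adjoin k ({s} : Set κ)) g := Iff.rfl

theorem mul_mem_Int {s g : κ} {a : κ} (ha : a ∈ Algebra.adjoin k ({s} : Set κ))
    (hg : g ∈ Int k s) : a * g ∈ Int k s := by
  rw [mem_Int] at hg ⊢
  have h1 : IsIntegral (Algebra.adjoin k ({s} : Set κ))
      (algebraMap (Algebra.adjoin k ({s} : Set κ)) κ ⟨a, ha⟩) := isIntegral_algebraMap
  exact h1.mul hg

/-- `k[s]` is integrally closed -/
theorem intClosed {s : κ} (hs : Transcendental k s) :
    IsIntegrallyClosed (Algebra.adjoin k ({s} : Set κ)) := by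
  have e : Polynomial k ≃ₐ[k] Algebra.adjoin k ({s} : Set κ) :=
    (AlgEquiv.ofInjective (Polynomial.aeval s) (transcendental_iff_injective.1 hs)).trans
      (Subalgebra.equivOfEq _ _ (Algebra.adjoin_singleton_eq_range_aeval k s).symm)
  exact IsIntegrallyClosed.of_equiv e.toRingEquiv

theorem norm_mem_aux {s : κ} (hs : Transcendental k s) (g : κ) (hg : g ∈ Int k s) :
    ((Algebra.norm (IntermediateField.adjoin k ({s} : Set κ)) g :
      IntermediateField.adjoin k ({s} : Set κ)) : κ) ∈ Algebra.adjoin k ({s} : Set κ) := by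
  have h1 : IsIntegral (Algebra.adjoin k ({s} : Set κ))
      (Algebra.norm (IntermediateField.adjoin k ({s} : Set κ)) g) :=
    Algebra.isIntegral_norm _ hg
  have := intClosed hs
  obtain ⟨y, hy⟩ := IsIntegrallyClosed.isIntegral_iff.1 h1
  rw [← hy]
  exact y.2

theorem norm_mem {s : κ} (hs : Transcendental k s) (g : κ) (hg : g ∈ Int k s)
    (L : IntermediateField k κ) (hL : L = IntermediateField.adjoin k ({s} : Set κ)) :
    ((Algebra.norm L g : L) : κ) ∈ Algebra.adjoin k ({s} : Set κ) := by
  subst hL
  exact norm_mem_aux hs g hg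

theorem adjoin_inv (t : κ) : IntermediateField.adjoin k ({t⁻¹} : Set κ) =
    IntermediateField.adjoin k ({t} : Set κ) := by
  apply le_antisymm
  · rw [IntermediateField.adjoin_simple_le_iff]
    exact inv_mem (IntermediateField.mem_adjoin_simple_self k t)
  · rw [IntermediateField.adjoin_simple_le_iff]
    have := inv_mem (IntermediateField.mem_adjoin_simple_self k t⁻¹)
    rwa [inv_inv] at this

/-- an element of `k[t] ∩ t⁻¹ k[t⁻¹]` is zero -/
theorem poly_zero {t : κ} (ht : Transcendental k t) (d : ℕ) (hd : 1 ≤ d) (p q : Polynomial k)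
    (h : Polynomial.aeval t p * t ^ d = Polynomial.aeval t⁻¹ q) : p = 0 := by
  have ht0 : t ≠ 0 := fun h0 => ht (by rw [h0]; exact isAlgebraic_zero)
  set m := q.natDegree with hm
  let r : Polynomial k := ∑ i ∈ Finset.range (m + 1), Polynomial.C (q.coeff i) * Polynomial.X ^ (m - i)
  have hr : Polynomial.aeval t r = Polynomial.aeval t⁻¹ q * t ^ m := by
    have h1 : Polynomial.aeval t⁻¹ q = ∑ i ∈ Finset.range (m + 1), algebraMap k κ (q.coeff i) * t⁻¹ ^ i := by
      rw [Polynomial.aeval_eq_sum_range]
      exact Finset.sum_congr rfl fun i _ => by rw [Algebra.smul_def]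
    rw [h1, Finset.sum_mul, map_sum]
    refine Finset.sum_congr rfl fun i hi => ?_
    rw [map_mul, Polynomial.aeval_C, map_pow, Polynomial.aeval_X, mul_assoc]
    congr 1
    have hi' : i ≤ m := Nat.lt_succ_iff.1 (Finset.mem_range.1 hi)
    rw [inv_pow, eq_comm, inv_mul_eq_iff_eq_mul₀ (pow_ne_zero _ ht0), ← pow_add]
    congr 1
    omega
  have hdeg : r.natDegree ≤ m := by
    apply Polynomial.natDegree_sum_le_of_forall_le
    intro i _
    exact (Polynomial.natDegree_C_mul_X_pow_le _ _).trans (by omega)
  have heq : p * Polynomial.X ^ (d + m) = r := by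
    apply transcendental_iff_injective.1 ht
    rw [map_mul, map_pow, Polynomial.aeval_X, hr, ← h, pow_add]
    ring
  by_contra hp
  have h2 := congrArg Polynomial.natDegree heq
  rw [Polynomial.natDegree_mul (hp) (pow_ne_zero _ Polynomial.X_ne_zero),
    Polynomial.natDegree_X_pow] at h2
  omega

/-- no functions vanishing at infinity -/
theorem vanish {t : κ} (ht : Transcendental k t)
    [FiniteDimensional (IntermediateField.adjoin k ({t} : Set κ)) κ] (g : κ) (h1 : g ∈ Int k t)
    (h2 : g * t ∈ Int k t⁻¹) : g = 0 := by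
  have ht' : Transcendental k t⁻¹ := fun h => ht (by simpa using h.inv)
  have g1 := norm_mem ht g h1 _ rfl
  have g2 := norm_mem ht' (g * t) h2 _ (adjoin_inv t).symm
  set L := IntermediateField.adjoin k ({t} : Set κ) with hL
  have htL : t ∈ L := IntermediateField.mem_adjoin_simple_self k t
  have g3 : Algebra.norm L (g * t) = Algebra.norm L g * (⟨t, htL⟩ : L) ^ Module.finrank L κ := by
    rw [map_mul]
    congr 1
    exact Algebra.norm_algebraMap (⟨t, htL⟩ : L)
  rw [g3] at g2
  rw [Algebra.adjoin_singleton_eq_range_aeval] at g1 g2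
  obtain ⟨p, hp⟩ := g1
  obtain ⟨q, hq⟩ := g2
  have hp' : Polynomial.aeval t p = ((Algebra.norm L g : L) : κ) := hp
  have hq' : Polynomial.aeval t⁻¹ q = ((Algebra.norm L g : L) : κ) * t ^ Module.finrank L κ := hq
  rw [← hp'] at hq'
  have hd : 1 ≤ Module.finrank L κ := Module.finrank_pos
  have h0 := poly_zero ht _ hd p q hq'.symm
  rw [h0, map_zero] at hp'
  have h3 : Algebra.norm L g = 0 := Subtype.ext hp'.symm
  exact Algebra.norm_eq_zero_iff.1 h3

/-- divisibility of the coefficients of a relation -/
theorem rel_dvd {s : κ} (hs0 : s ≠ 0) {r : ℕ} (v : Fin r → κ) (hv : LinearIndependent k v)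
    (hvI : ∀ i, v i ∈ Int k s)
    (h : ∀ w ∈ Submodule.span k (Set.range v), ∀ u ∈ Int k s, w = s * u → w = 0) (N : ℕ) :
    ∀ p : Fin r → Polynomial k, ∑ i, Polynomial.aeval s (p i) * v i = 0 →
      ∀ i, Polynomial.X ^ N ∣ p i := by
  induction N with
  | zero => exact fun p _ i => by rw [pow_zero]; exact one_dvd _
  | succ N ih =>
    intro p hp
    have hdec : ∀ i, p i = Polynomial.C ((p i).coeff 0) + Polynomial.X * (p i).divX := by
      intro i
      rw [mul_comm, add_comm]
      exact (Polynomial.divX_mul_X_add (p i)).symm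
    have hsum : ∑ i, (p i).coeff 0 • v i = s * (- ∑ i, Polynomial.aeval s (p i).divX * v i) := by
      have h1 : ∑ i, Polynomial.aeval s (p i) * v i = ∑ i, (p i).coeff 0 • v i +
          s * ∑ i, Polynomial.aeval s (p i).divX * v i := by
        rw [Finset.mul_sum, ← Finset.sum_add_distrib]
        refine Finset.sum_congr rfl fun i _ => ?_
        conv_lhs => rw [hdec i]
        rw [map_add, Polynomial.aeval_C, map_mul, Polynomial.aeval_X, Algebra.smul_def]
        ring
      rw [hp] at h1
      linear_combination - h1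
    have hz : ∑ i, (p i).coeff 0 • v i = 0 := by
      refine h _ ?_ _ ?_ hsum
      · exact Submodule.sum_mem _ fun i _ => Submodule.smul_mem _ _
          (Submodule.subset_span ⟨i, rfl⟩)
      · refine neg_mem (Submodule.sum_mem _ fun i _ => mul_mem_Int ?_ (hvI i))
        rw [Algebra.adjoin_singleton_eq_range_aeval]
        exact ⟨_, rfl⟩
    have hc : ∀ i, (p i).coeff 0 = 0 := Fintype.linearIndependent_iff.1 hv _ hz
    have hrel : ∑ i, Polynomial.aeval s (p i).divX * v i = 0 := by
      rw [hz] at hsum
      have := (mul_eq_zero.1 hsum.symm).resolve_left hs0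
      exact neg_eq_zero.1 this
    intro i
    have h2 := ih (fun i => (p i).divX) hrel i
    have h3 : p i = Polynomial.X * (p i).divX := by
      conv_lhs => rw [hdec i, hc i, Polynomial.C_0, zero_add]
    rw [h3, pow_succ']
    exact mul_dvd_mul_left _ h2

/-- first estimate -/
theorem est1 {s : κ} (hs : Transcendental k s)
    [FiniteDimensional (IntermediateField.adjoin k ({s} : Set κ)) κ] (W : Submodule k κ)
    [FiniteDimensional k W] (hW : W ≤ Int k s)
    (h : ∀ w ∈ W, ∀ u ∈ Int k s, w = s * u → w = 0) :
    Module.finrank k W ≤ Module.finrank (IntermediateField.adjoin k ({s} : Set κ)) κ := by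
  have hs0 : s ≠ 0 := fun h0 => hs (by rw [h0]; exact isAlgebraic_zero)
  let b := Module.finBasis k W
  let v : Fin (Module.finrank k W) → κ := fun i => (b i : κ)
  have hv : LinearIndependent k v := b.linearIndependent.map' W.subtype (Submodule.ker_subtype W)
  have hvI : ∀ i, v i ∈ Int k s := fun i => hW (b i).2
  have hspan : Submodule.span k (Set.range v) ≤ W := by
    rw [Submodule.span_le]
    rintro _ ⟨i, rfl⟩
    exact (b i).2
  have hA : LinearIndependent (Algebra.adjoin k ({s} : Set κ)) v := by
    rw [Fintype.linearIndependent_iff]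
    intro g hg
    have hp : ∀ i, ∃ p : Polynomial k, Polynomial.aeval s p = (g i : κ) := by
      intro i
      have h1 : ∀ x ∈ Algebra.adjoin k ({s} : Set κ), ∃ p : Polynomial k,
          Polynomial.aeval s p = x := by
        intro x hx
        rw [Algebra.adjoin_singleton_eq_range_aeval] at hx
        exact hx
      exact h1 _ (g i).2
    choose p hp using hp
    have hrel : ∑ i, Polynomial.aeval s (p i) * v i = 0 := by
      rw [← hg]
      refine Finset.sum_congr rfl fun i _ => ?_
      rw [hp i]
      rfl
    intro i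
    have hpi : p i = 0 := by
      ext n
      have h1 := rel_dvd hs0 v hv hvI (fun w hw => h w (hspan hw)) (n + 1) p hrel i
      rw [Polynomial.coeff_zero]
      exact (Polynomial.X_pow_dvd_iff.1 h1) n (Nat.lt_succ_self n)
    apply Subtype.ext
    rw [← hp i, hpi, map_zero]
    rfl
  have hL : LinearIndependent (IntermediateField.adjoin k ({s} : Set κ)) v :=
    (LinearIndependent.iff_fractionRing (Algebra.adjoin k ({s} : Set κ))
      (IntermediateField.adjoin k ({s} : Set κ))).1 hA
  have := hL.fintype_card_le_finrank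
  rwa [Fintype.card_fin] at this

/-- second estimate -/
theorem est2 {s : κ} (hs : Transcendental k s)
    [FiniteDimensional (IntermediateField.adjoin k ({s} : Set κ)) κ] (m : ℕ) :
    ∀ (W : Submodule k κ), FiniteDimensional k W → W ≤ Int k s →
    (∀ w ∈ W, ∀ u ∈ Int k s, w = s ^ m * u → w = 0) →
    Module.finrank k W ≤ Module.finrank (IntermediateField.adjoin k ({s} : Set κ)) κ * m := by
  have hs0 : s ≠ 0 := fun h0 => hs (by rw [h0]; exact isAlgebraic_zero)
  induction m with
  | zero =>
    intro W _ hW h
    have : W = ⊥ := by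
      rw [Submodule.eq_bot_iff]
      intro w hw
      exact h w hw w (hW hw) (by rw [pow_zero, one_mul])
    rw [this, finrank_bot]
    exact Nat.zero_le _
  | succ m ih =>
    intro W hfin hW h
    let X : Submodule k κ := W.comap (LinearMap.mulLeft k s) ⊓ Int k s
    have hXs : ∀ u : X, s * (u : κ) ∈ W := fun u => u.2.1
    let f : X →ₗ[k] W := LinearMap.codRestrict W ((LinearMap.mulLeft k s).comp X.subtype) hXs
    have hf : Function.Injective f := by
      intro u u' hu
      have h1 : s * (u : κ) = s * (u' : κ) := congrArg Subtype.val hu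
      exact Subtype.ext (mul_left_cancel₀ hs0 h1)
    have hXfin : FiniteDimensional k X := FiniteDimensional.of_injective f hf
    obtain ⟨D, hD⟩ := Submodule.exists_isCompl (LinearMap.range f)
    have e1 := Submodule.finrank_add_eq_of_isCompl hD
    rw [LinearMap.finrank_range_of_inj hf] at e1
    have e2 : Module.finrank k (D.map W.subtype) = Module.finrank k D :=
      Submodule.finrank_map_subtype_eq W D
    have e3 : Module.finrank k (D.map W.subtype) ≤
        Module.finrank (IntermediateField.adjoin k ({s} : Set κ)) κ := by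
      apply est1 hs
      · rintro _ ⟨w, -, rfl⟩
        exact hW w.2
      · rintro _ ⟨w, hw, rfl⟩ u hu hwu
        have hwu' : (w : κ) = s * u := hwu
        have h1 : w ∈ LinearMap.range f := by
          refine ⟨⟨u, ?_, hu⟩, Subtype.ext hwu'.symm⟩
          change s * u ∈ W
          rw [← hwu']
          exact w.2
        have h2 : w ∈ (LinearMap.range f) ⊓ D := ⟨h1, hw⟩
        rw [hD.inf_eq_bot, Submodule.mem_bot] at h2
        rw [h2, map_zero]
    have e4 : Module.finrank k X ≤
        Module.finrank (IntermediateField.adjoin k ({s} : Set κ)) κ * m := by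
      refine ih X hXfin (fun x hx => hx.2) ?_
      intro w hw u hu hwu
      have h1 : s * w = 0 := by
        refine h _ hw.1 u hu ?_
        change s * w = _
        rw [hwu, pow_succ']
        ring
      exact (mul_eq_zero.1 h1).resolve_left hs0
    rw [mul_add, mul_one]
    omega

end

end CRV_

open CRV_ in
theorem crv_proof : Stmt_CRV := by
  intro k κ _ _ _ t ht hfin n U hU h
  have ht' : Transcendental k t⁻¹ := fun h => ht (by simpa using h.inv)
  have ht0 : t ≠ 0 := fun h0 => ht (by rw [h0]; exact isAlgebraic_zero)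
  have key : ∀ L : IntermediateField k κ, L = IntermediateField.adjoin k ({t} : Set κ) →
      FiniteDimensional L κ ∧ Module.finrank L κ =
        Module.finrank (IntermediateField.adjoin k ({t} : Set κ)) κ := by
    rintro _ rfl
    exact ⟨hfin, rfl⟩
  obtain ⟨hfin', hd⟩ := key _ (adjoin_inv t)
  let f : κ →ₗ[k] κ := LinearMap.mulLeft k (t⁻¹ ^ n)
  have hf : Function.Injective f := by
    intro x y hxy
    exact mul_left_cancel₀ (pow_ne_zero n (inv_ne_zero ht0)) hxy
  have e1 : Module.finrank k (U.map f) = Module.finrank k U :=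
    (Submodule.equivMapOfInjective f hf U).finrank_eq.symm
  rw [← e1, ← hd]
  refine est2 ht' (n + 1) (U.map f) (Module.Finite.map U f) ?_ ?_
  · rintro _ ⟨g, hg, rfl⟩
    rw [mem_Int]
    have := (h g hg).2
    rw [mul_comm] at this
    exact this
  · rintro _ ⟨g, hg, rfl⟩ u hu hgu
    have hgu' : t⁻¹ ^ n * g = t⁻¹ ^ (n + 1) * u := hgu
    have h1 : g = t⁻¹ * u := by
      rw [pow_succ, mul_assoc] at hgu'
      exact mul_left_cancel₀ (pow_ne_zero n (inv_ne_zero ht0)) hgu'
    have h2 : g * t = u := by
      rw [h1]
      field_simp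
    have h3 : g = 0 := vanish ht g (h g hg).1 (by rw [h2]; exact hu)
    rw [h3, map_zero]

end Pool.Agent.NUM
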