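import Pool.Agent.NUM.Stmts
import Pool.Agent.SRF.Stmts

/-!
# DEG: every prime divisor has a degree
-/

set_option autoImplicit false

noncomputable section

namespace Pool.Agent.NUM

open Pool.Agent.SRF Filter

namespace DEG_

/-! ### general algebra -/

/-- an element of a field is integral over a subalgebra if it belongs to all valuation rings above -/
theorem isIntegral_of_val {k κ : Type} [Field k] [Field κ] [Algebra k κ] (A : Subalgebra k κ)
    (g : κ) (h : ∀ R : ValuationSubring κ, (∀ a ∈ A, a ∈ R) → g ∈ R) : IsIntegral A g := by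
  have h1 := iInf_valuationSubring_superset (K := κ) (s := (A : Set κ))
  have h2 : g ∈ (⨅ V : {V : ValuationSubring κ // (A : Set κ) ⊆ V.toSubring}, V.1.toSubring) := by
    rw [Subring.mem_iInf]
    rintro ⟨V, hV⟩
    exact h V (fun a ha => hV ha)
  rw [h1] at h2
  have h3 : IsIntegral (Subring.closure (A : Set κ)) g := h2
  obtain ⟨p, hp, hp0⟩ := h3
  have hle : Subring.closure (A : Set κ) ≤ A.toSubring := Subring.closure_le.mpr (fun a ha => ha)
  refine ⟨p.map (Subring.inclusion hle), hp.map _, ?_⟩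
  rw [Polynomial.eval₂_map]
  exact hp0

theorem mem_of_isIntegral {k κ : Type} [Field k] [Field κ] [Algebra k κ] (A : Subalgebra k κ)
    (g : κ) (hg : IsIntegral A g) (R : ValuationSubring κ) (h : ∀ a ∈ A, a ∈ R) : g ∈ R := by
  obtain ⟨p, hp, hp0⟩ := hg
  have hle : A.toSubring ≤ R.toSubring := h
  have h3 : IsIntegral R g := by
    refine ⟨p.map (Subring.inclusion hle), hp.map _, ?_⟩
    rw [Polynomial.eval₂_map]
    exact hp0
  obtain ⟨y, hy⟩ := IsIntegrallyClosed.isIntegral_iff.mp h3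
  rw [← hy]
  exact y.2

theorem isIntegral_of_eq {A B : Type} [CommRing A] [CommRing B] [Nontrivial A] [Algebra A B]
    (r : B) (n : ℕ) (a : ℕ → A)
    (h : r ^ n + ∑ i ∈ Finset.Icc 1 n, algebraMap A B (a i) * r ^ (n - i) = 0) :
    IsIntegral A r := by
  refine ⟨Polynomial.X ^ n + ∑ i ∈ Finset.Icc 1 n, Polynomial.C (a i) * Polynomial.X ^ (n - i),
    ?_, ?_⟩
  · apply Polynomial.monic_X_pow_add
    refine lt_of_le_of_lt (Polynomial.degree_sum_le _ _) ?_
    rw [Finset.sup_lt_iff (by exact WithBot.bot_lt_coe n)]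
    intro i hi
    rw [Finset.mem_Icc] at hi
    refine lt_of_le_of_lt (Polynomial.degree_C_mul_X_pow_le _ _) ?_
    exact_mod_cast (by omega : n - i < n)
  · rw [← Polynomial.aeval_def]
    simp only [map_add, map_pow, Polynomial.aeval_X, map_sum, map_mul, Polynomial.aeval_C]
    exact h

/-- powers of a transcendental element are linearly independent -/
theorem pow_indep {k κ : Type} [Field k] [Field κ] [Algebra k κ] (t : κ)
    (ht : Transcendental k t) : LinearIndependent k (fun l : ℕ => t ^ l) := by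
  have h1 := (Polynomial.basisMonomials k).linearIndependent.map'
    (Polynomial.aeval (R := k) t).toLinearMap
    (LinearMap.ker_eq_bot.mpr (transcendental_iff_injective.mp ht))
  have h2 : ((Polynomial.aeval (R := k) t).toLinearMap ∘ (Polynomial.basisMonomials k)) =
      fun l : ℕ => t ^ l := by
    funext l
    rw [Function.comp_apply, Polynomial.coe_basisMonomials]
    change Polynomial.aeval t (Polynomial.monomial l (1 : k)) = _
    rw [Polynomial.aeval_monomial, map_one, one_mul]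
  rw [← h2]
  exact h1

/-- a subring with fraction field `κ` spans `κ` over a subfield of finite index -/
theorem span_top {K κ : Type} [Field K] [Field κ] [Algebra K κ] [FiniteDimensional K κ]
    (A : Subring κ) (hA : ∀ f : κ, ∃ a ∈ A, ∃ b ∈ A, b ≠ 0 ∧ f = a / b) :
    Submodule.span K (A : Set κ) = ⊤ := by
  rw [eq_top_iff]
  have h1 := Algebra.adjoin_eq_span (R := K) (A : Set κ)
  have h2 : (Submonoid.closure (A : Set κ) : Set κ) = A := by
    have : Submonoid.closure (A : Set κ) = A.toSubmonoid := Submonoid.closure_eq A.toSubmonoid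
    rw [this]; rfl
  rw [h2] at h1
  rw [← h1]
  intro f _
  obtain ⟨a, ha, b, hb, hb0, rfl⟩ := hA f
  rw [Subalgebra.mem_toSubmodule, div_eq_mul_inv]
  refine mul_mem (Algebra.subset_adjoin ha) ?_
  exact (Algebra.adjoin K (A : Set κ)).inv_mem_of_algebraic
    (x := ⟨b, Algebra.subset_adjoin hb⟩) (Algebra.IsAlgebraic.isAlgebraic b)

/-! ### the residue field of a prime divisor -/

section

variable (T : Sf) (e : T.P)

/-- the residue field -/
abbrev κ : Type := IsLocalRing.ResidueField e.1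

/-- the inclusion of the discrete valuation ring -/
def inc : e.1 →ₐ[T.k] T.F := { e.1.subtype with commutes' := fun _ => rfl }

/-- the residue map -/
def rs : e.1 →ₐ[T.k] κ T e := IsScalarTower.toAlgHom T.k e.1 (κ T e)

theorem rs_apply (f : e.1) : rs T e f = IsLocalRing.residue e.1 f := rfl

theorem mem_iff (f : T.F) (hf : f ≠ 0) : f ∈ e.1 ↔ 0 ≤ T.o e f := e.isOrd.mem f hf

theorem o_div (f g : T.F) (hf : f ≠ 0) (hg : g ≠ 0) : T.o e (f / g) = T.o e f - T.o e g := by
  rw [div_eq_mul_inv]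
  change SRF.ord e.1 _ = _
  rw [e.isOrd.mul _ _ hf (inv_ne_zero hg), e.isOrd.inv hg]
  rfl

theorem o_mul (f g : T.F) (hf : f ≠ 0) (hg : g ≠ 0) : T.o e (f * g) = T.o e f + T.o e g :=
  e.isOrd.mul _ _ hf hg

theorem o_pow (f : T.F) (hf : f ≠ 0) (n : ℕ) : T.o e (f ^ n) = n * T.o e f :=
  e.isOrd.pow hf n

/-- the residue of an element of the discrete valuation ring vanishes iff its order is positive -/
theorem rs_eq_zero (f : T.F) (h : f ∈ e.1) (hf : f ≠ 0) :
    rs T e ⟨f, h⟩ = 0 ↔ 1 ≤ T.o e f := by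
  rw [rs_apply, IsLocalRing.residue_eq_zero_iff, IsLocalRing.mem_maximalIdeal, mem_nonunits_iff]
  have h1 : IsUnit (⟨f, h⟩ : e.1) ↔ f⁻¹ ∈ e.1 := by
    constructor
    · rintro ⟨u, hu⟩
      have h2 : ((u : e.1) : T.F) * (((u⁻¹ : (e.1)ˣ) : e.1) : T.F) = 1 := by
        have h0 : (u : e.1) * ((u⁻¹ : (e.1)ˣ) : e.1) = 1 := Units.mul_inv u
        exact_mod_cast congrArg Subtype.val h0
      rw [hu] at h2
      rw [inv_eq_of_mul_eq_one_right h2]
      exact ((u⁻¹ : (e.1)ˣ) : e.1).2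
    · intro h2
      exact IsUnit.of_mul_eq_one (⟨f⁻¹, h2⟩ : e.1) (Subtype.ext (by simp [hf]))
  rw [h1, mem_iff T e _ (inv_ne_zero hf)]
  have h2 : T.o e f⁻¹ = - T.o e f := e.isOrd.inv hf
  have h3 := (mem_iff T e f hf).mp h
  rw [h2]
  omega

theorem div_mem (D : T.P → ℤ) (w : T.F) (hw : w ≠ 0) (hwD : T.o e w = - D e) (f : T.F)
    (hf : f ∈ T.L D) : f / w ∈ e.1 := by
  rcases hf with hf | hf
  · rw [hf, zero_div]; exact zero_mem _
  · by_cases h0 : f = 0
    · rw [h0, zero_div]; exact zero_mem _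
    rw [mem_iff T e _ (div_ne_zero h0 hw), o_div T e f w h0 hw]
    have := hf e
    have h2 : T.o e f = SRF.ord e.1 f := rfl
    rw [hwD, h2]
    omega

/-- the residues of the sections of `D` divided by `w` -/
def psi (D : T.P → ℤ) (w : T.F) (hw : w ≠ 0) (hwD : T.o e w = - D e) :
    T.L D →ₗ[T.k] κ T e where
  toFun f := rs T e ⟨f.1 / w, div_mem T e D w hw hwD f.1 f.2⟩
  map_add' f g := by
    rw [← map_add]
    congr 1
    apply Subtype.ext
    change (f.1 + g.1) / w = f.1 / w + g.1 / w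
    rw [add_div]
  map_smul' c f := by
    rw [RingHom.id_apply, ← map_smul]
    congr 1
    apply Subtype.ext
    rw [Algebra.smul_def]
    change (c • f.1) / w = algebraMap T.k T.F c * (f.1 / w)
    rw [Algebra.smul_def, mul_div_assoc]

theorem psi_apply (D : T.P → ℤ) (w : T.F) (hw : w ≠ 0) (hwD : T.o e w = - D e) (f : T.F)
    (hf : f ∈ T.L D) :
    psi T e D w hw hwD ⟨f, hf⟩ = rs T e ⟨f / w, div_mem T e D w hw hwD f hf⟩ := rfl

theorem pr_self : T.pr e e = 1 := by
  simp [Sf.pr]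

theorem pr_ne (O : T.P) (h : O ≠ e) : T.pr e O = 0 := by
  simp [Sf.pr, h]

theorem ker_psi (D : T.P → ℤ) (w : T.F) (hw : w ≠ 0) (hwD : T.o e w = - D e) :
    (LinearMap.ker (psi T e D w hw hwD)).map (T.L D).subtype = T.L (D - T.pr e) := by
  ext f
  rw [Submodule.mem_map]
  constructor
  · rintro ⟨⟨f, hf⟩, h1, rfl⟩
    rw [LinearMap.mem_ker, psi_apply] at h1
    change f ∈ _
    by_cases h0 : f = 0
    · rw [h0]; exact zero_mem _
    rw [rs_eq_zero T e _ _ (div_ne_zero h0 hw), o_div T e f w h0 hw, hwD] at h1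
    right
    intro O
    by_cases hO : O = e
    · subst hO
      rw [Pi.sub_apply, pr_self]
      change _ ≤ T.o O f
      omega
    · rw [Pi.sub_apply, pr_ne T e O hO, sub_zero]
      exact (hf.resolve_left h0) O
  · intro hf
    have hf' : f ∈ T.L D := by
      rcases hf with hf | hf
      · exact Or.inl hf
      · right
        intro O
        have := hf O
        by_cases hO : O = e
        · subst hO
          rw [Pi.sub_apply, pr_self] at this
          omega
        · rw [Pi.sub_apply, pr_ne T e O hO, sub_zero] at this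
          exact this
    refine ⟨⟨f, hf'⟩, ?_, rfl⟩
    rw [LinearMap.mem_ker]
    by_cases h0 : f = 0
    · subst h0
      exact map_zero (psi T e D w hw hwD)
    rw [psi_apply, rs_eq_zero T e _ _ (div_ne_zero h0 hw), o_div T e f w h0 hw, hwD]
    have := (hf.resolve_left h0) e
    rw [Pi.sub_apply, pr_self] at this
    change _ ≤ T.o e f at this
    omega

theorem fin_L (hFDL : SRF.Stmt_FDL) (D : T.P → ℤ) (hD : T.Dv D) :
    FiniteDimensional T.k (T.L D) :=
  hFDL T.k T.F T.x T.y T.surf D hD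

/-- the jump is the dimension of the space of residues -/
theorem sl_eq (hFDL : SRF.Stmt_FDL) (D : T.P → ℤ) (hD : T.Dv D) (w : T.F) (hw : w ≠ 0)
    (hwD : T.o e w = - D e) :
    T.sl e D = (Module.finrank T.k (LinearMap.range (psi T e D w hw hwD)) : ℤ) := by
  have := fin_L T hFDL D hD
  have h1 := LinearMap.finrank_range_add_finrank_ker (psi T e D w hw hwD)
  have h2 : Module.finrank T.k (LinearMap.ker (psi T e D w hw hwD)) =
      Module.finrank T.k (T.L (D - T.pr e)) := by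
    rw [← ker_psi T e D w hw hwD, Submodule.finrank_map_subtype_eq]
  unfold Sf.sl Sf.hh
  rw [← h2, ← h1]
  push_cast
  ring

/-! ### integrality -/

/-- the composite of a valuation ring of the residue field with the prime divisor -/
def comp (R : ValuationSubring (κ T e)) : ValuationSubring T.F where
  carrier := {f | ∃ h : f ∈ e.1, rs T e ⟨f, h⟩ ∈ R}
  mul_mem' := by
    rintro f g ⟨hf, hf'⟩ ⟨hg, hg'⟩
    refine ⟨mul_mem hf hg, ?_⟩
    have : (⟨f * g, mul_mem hf hg⟩ : e.1) = ⟨f, hf⟩ * ⟨g, hg⟩ := rfl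
    rw [this, map_mul]
    exact mul_mem hf' hg'
  one_mem' := ⟨one_mem _, by
    have : (⟨1, one_mem _⟩ : e.1) = 1 := rfl
    rw [this, map_one]
    exact one_mem _⟩
  add_mem' := by
    rintro f g ⟨hf, hf'⟩ ⟨hg, hg'⟩
    refine ⟨add_mem hf hg, ?_⟩
    have : (⟨f + g, add_mem hf hg⟩ : e.1) = ⟨f, hf⟩ + ⟨g, hg⟩ := rfl
    rw [this, map_add]
    exact add_mem hf' hg'
  zero_mem' := ⟨zero_mem _, by
    have : (⟨0, zero_mem _⟩ : e.1) = 0 := rfl
    rw [this, map_zero]
    exact zero_mem _⟩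
  neg_mem' := by
    rintro f ⟨hf, hf'⟩
    refine ⟨neg_mem hf, ?_⟩
    have : (⟨-f, neg_mem hf⟩ : e.1) = -⟨f, hf⟩ := rfl
    rw [this, map_neg]
    exact neg_mem hf'
  mem_or_inv_mem' := by
    have key : ∀ f : T.F, f ∈ e.1 → (∃ h : f ∈ e.1, rs T e ⟨f, h⟩ ∈ R) ∨
        (∃ h : f⁻¹ ∈ e.1, rs T e ⟨f⁻¹, h⟩ ∈ R) := by
      intro f hf
      rcases R.mem_or_inv_mem (rs T e ⟨f, hf⟩) with h1 | h1
      · exact Or.inl ⟨hf, h1⟩
      by_cases h0 : rs T e ⟨f, hf⟩ = 0
      · left
        refine ⟨hf, ?_⟩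
        rw [h0]; exact zero_mem _
      right
      have hf0 : f ≠ 0 := by
        rintro rfl
        apply h0
        have : (⟨0, hf⟩ : e.1) = 0 := rfl
        rw [this, map_zero]
      have h2 : T.o e f = 0 := by
        have h3 := (mem_iff T e f hf0).mp hf
        have h4 := mt (rs_eq_zero T e f hf hf0).mpr h0
        omega
      have h5 : f⁻¹ ∈ e.1 := by
        rw [mem_iff T e _ (inv_ne_zero hf0)]
        have h6 : T.o e f⁻¹ = - T.o e f := e.isOrd.inv hf0
        omega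
      refine ⟨h5, ?_⟩
      have h6 : rs T e ⟨f, hf⟩ * rs T e ⟨f⁻¹, h5⟩ = 1 := by
        rw [← map_mul]
        have : (⟨f, hf⟩ * ⟨f⁻¹, h5⟩ : e.1) = 1 := Subtype.ext (mul_inv_cancel₀ hf0)
        rw [this, map_one]
      rw [← inv_eq_of_mul_eq_one_right h6]
      exact h1
    intro f
    rcases e.1.mem_or_inv_mem f with hf | hf
    · exact key f hf
    · rcases key f⁻¹ hf with h1 | ⟨h1, h2⟩
      · exact Or.inr h1
      · left
        rw [Set.mem_ofPred_eq]
        have h3 : ∀ g : T.F, g = f⁻¹⁻¹ → ∃ h : g ∈ e.1, rs T e ⟨g, h⟩ ∈ R := by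
          rintro g rfl
          exact ⟨h1, h2⟩
        exact h3 f (inv_inv f).symm

theorem mem_comp (R : ValuationSubring (κ T e)) (f : T.F) :
    f ∈ comp T e R ↔ ∃ h : f ∈ e.1, rs T e ⟨f, h⟩ ∈ R := Iff.rfl

/-- linear forms are sections of `H` -/
theorem lin_mem (hHCH : SRF.Stmt_HCH) (u : T.F) (hu : T.Lin u) : u ∈ T.L T.H := by
  have h : (Submodule.span T.k ({1, T.x, T.y} : Set T.F)) ≤ T.L T.H := by
    rw [Submodule.span_le]
    have h1 : ∀ j : Fin 3, z T.x T.y j ∈ T.L T.H := by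
      intro j
      right
      intro O
      have := (hHCH T.k T.F T.x T.y T.surf O).2.1 j
      linarith
    rintro a (rfl | rfl | rfl)
    · exact h1 0
    · exact h1 1
    · exact h1 2
  exact h hu

theorem lin_ord (hHCH : SRF.Stmt_HCH) (u : T.F) (hu : T.Lin u) (hu0 : u ≠ 0) (O : T.P) :
    - T.H O ≤ T.o O u :=
  (lin_mem T hHCH u hu).resolve_left hu0 O

/-- linear forms divided by a coordinate belong to the chart -/
theorem lin_chart (u : T.F) (hu : T.Lin u) (i : Fin 3) :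
    u / z T.x T.y i ∈ chart T.k T.x T.y i := by
  have h1 : u / z T.x T.y i ∈ base T.k T.x T.y i := by
    have hj : ∀ j : Fin 3, z T.x T.y j / z T.x T.y i ∈ base T.k T.x T.y i := fun j =>
      Algebra.subset_adjoin ⟨j, rfl⟩
    unfold Sf.Lin at hu
    induction hu using Submodule.span_induction with
    | mem a ha =>
      rcases ha with rfl | rfl | rfl
      · exact hj 0
      · exact hj 1
      · exact hj 2
    | zero => rw [zero_div]; exact zero_mem _
    | add a b _ _ ha hb => rw [add_div]; exact add_mem ha hb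
    | smul c a _ ha =>
      rw [Algebra.smul_def, mul_div_assoc, ← Algebra.smul_def]
      exact Subalgebra.smul_mem _ ha c
  exact isIntegral_algebraMap (R := base T.k T.x T.y i) (A := T.F) (x := ⟨_, h1⟩)

/-- the residues of sections are integral over the affine line -/
theorem integ (hAX1 : SRF.Stmt_AX1) (hAX3 : SRF.Stmt_AX3) (hTHC : SRF.Stmt_THC)
    (hHCH : SRF.Stmt_HCH) (hCEN : SRF.Stmt_CEN) (hz : ∀ i, z T.x T.y i ≠ 0) (u : T.F)
    (t : κ T e) (hu : T.Lin u) (hu0 : u ≠ 0)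
    (hzu : ∀ j, z T.x T.y j / u ∈ e.1)
    (hint : ∀ j, IsIntegral (Algebra.adjoin T.k ({t} : Set (κ T e)))
      (rs T e ⟨z T.x T.y j / u, hzu j⟩))
    (n : ℕ) (D : T.P → ℤ)
    (hDO : ∀ O, n * T.H O < D O → T.NoMeet e O) (f : T.F) (hf : f ∈ T.L D)
    (hfe : f / u ^ n ∈ e.1) :
    IsIntegral (Algebra.adjoin T.k ({t} : Set (κ T e))) (rs T e ⟨f / u ^ n, hfe⟩) := by
  apply isIntegral_of_val
  intro R hR
  -- the composite
  have hc : ∀ c : T.k, algebraMap T.k T.F c ∈ comp T e R := by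
    intro c
    rw [mem_comp]
    refine ⟨e.2.const_mem T.k T.x T.y c, ?_⟩
    have h1 : rs T e ⟨algebraMap T.k T.F c, e.2.const_mem T.k T.x T.y c⟩ =
        algebraMap T.k (κ T e) c := (rs T e).commutes c
    rw [h1]
    exact hR _ (Subalgebra.algebraMap_mem _ c)
  have hle : comp T e R ≤ e.1 := fun f hf => hf.1
  have hthr := hAX3 T.k T.F T.x T.y T.surf (comp T e R) hc e hle
  have hzV : ∀ j, z T.x T.y j / u ∈ comp T e R := fun j =>
    ⟨hzu j, mem_of_isIntegral _ _ (hint j) R hR⟩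
  obtain ⟨i, hi⟩ := (hCEN T.k T.F T.x T.y T.surf (comp T e R) hc).1
  have hall : ∀ O : T.P, thr T.k T.x T.y O.1 (comp T e R) → f / u ^ n ∈ O.1 := by
    intro O hO
    obtain ⟨hO1, hO2⟩ := hTHC T.k T.F T.x T.y T.surf O (comp T e R) hc hO i hi
    by_cases h0 : f = 0
    · rw [h0, zero_div]; exact zero_mem _
    have hui := lin_chart T u hu i
    have h1 : (u / z T.x T.y i)⁻¹ ∈ O.1 := by
      by_contra hcon
      apply hO2 _ hui (div_ne_zero hu0 (hz i)) hcon
      rw [inv_div]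
      exact hzV i
    have h2 : T.o O (u / z T.x T.y i) = 0 := by
      have h3 := (mem_iff T O _ (div_ne_zero hu0 (hz i))).mp (hO1 hui)
      have h4 := (mem_iff T O _ (inv_ne_zero (div_ne_zero hu0 (hz i)))).mp h1
      have h5 : T.o O (u / z T.x T.y i)⁻¹ = - T.o O (u / z T.x T.y i) :=
        O.isOrd.inv (div_ne_zero hu0 (hz i))
      omega
    rw [o_div T O _ _ hu0 (hz i)] at h2
    have h3 : T.H O = - T.o O (z T.x T.y i) :=
      ((hHCH T.k T.F T.x T.y T.surf O).2.2 i).mp hO1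
    have h4 : D O ≤ n * T.H O := by
      by_contra hcon
      push Not at hcon
      exact hDO O hcon (comp T e R) hc ⟨hthr, hO⟩
    have h5 := hf.resolve_left h0 O
    change _ ≤ T.o O f at h5
    rw [mem_iff T O _ (div_ne_zero h0 (pow_ne_zero n hu0)), o_div T O _ _ h0 (pow_ne_zero n hu0),
      o_pow T O _ hu0]
    have h6 : T.o O u = - T.H O := by omega
    rw [h6]
    linarith
  obtain ⟨h1, h2⟩ := hAX1 T.k T.F T.x T.y T.surf (comp T e R) hc _ hall
  exact h2

/-! ### the lower bound -/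

theorem x_ne : T.x ≠ 0 := by
  have := T.surf.indep.ne_zero (0 : Fin 2)
  simpa using this

theorem y_ne : T.y ≠ 0 := by
  have := T.surf.indep.ne_zero (1 : Fin 2)
  simpa using this

theorem z_ne (i : Fin 3) : z T.x T.y i ≠ 0 := by
  have h1 := x_ne T
  have h2 := y_ne T
  fin_cases i
  · exact one_ne_zero
  · exact h1
  · exact h2

theorem dv_H (hSUP : SRF.Stmt_SUP) (n : ℤ) : T.Dv (n • T.H) := by
  have h1 := hSUP T.k T.F T.x T.y T.surf T.x (x_ne T)
  have h2 := hSUP T.k T.F T.x T.y T.surf T.y (y_ne T)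
  refine (h1.union h2).subset ?_
  intro O hO
  rw [Function.mem_support] at hO
  by_contra hcon
  rw [Set.mem_union, not_or, Set.mem_ofPred_eq, Set.mem_ofPred_eq, not_not, not_not] at hcon
  apply hO
  rw [Pi.smul_apply]
  change n • (max 0 (max (- SRF.ord O.1 T.x) (- SRF.ord O.1 T.y))) = 0
  rw [hcon.1, hcon.2]
  simp

theorem lower_aux (hFDL : SRF.Stmt_FDL) (hLIH : SRF.Stmt_LIH) (hHCH : SRF.Stmt_HCH)
    (hSUP : SRF.Stmt_SUP) (u v : T.F) (t : κ T e) (hu : T.Lin u) (hv : T.Lin v) (hu0 : u ≠ 0)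
    (hv0 : v ≠ 0) (hue : T.o e u = - T.H e) (hvu : v / u ∈ e.1)
    (ht : rs T e ⟨v / u, hvu⟩ = t) (htr : Transcendental T.k t)
    (hfin : FiniteDimensional (IntermediateField.adjoin T.k ({t} : Set (κ T e))) (κ T e)) :
    ∃ c : ℕ, ∀ n : ℕ, c ≤ n →
      (((n - c + 1) * Module.finrank (IntermediateField.adjoin T.k ({t} : Set (κ T e)))
        (κ T e) : ℕ) : ℤ) ≤ T.sl e ((n : ℤ) • T.H) := by
  classical
  obtain ⟨-, i, hi, hfrac⟩ := e.2
  set K := IntermediateField.adjoin T.k ({t} : Set (κ T e)) with hK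
  let A : Subring (κ T e) :=
    ((chart T.k T.x T.y i).comap e.1.subtype).map (IsLocalRing.residue e.1)
  have hAmem : ∀ a : κ T e, a ∈ A ↔ ∃ f : e.1, (f : T.F) ∈ chart T.k T.x T.y i ∧
      rs T e f = a := fun a => Iff.rfl
  have hA : ∀ f : κ T e, ∃ a ∈ A, ∃ b ∈ A, b ≠ 0 ∧ f = a / b := by
    intro f
    obtain ⟨f', rfl⟩ := IsLocalRing.residue_surjective (R := e.1) f
    obtain ⟨a, ha, b, hb, hb0, hbi, hf⟩ := hfrac f'.1 f'.2
    have h1 : rs T e ⟨b, hi hb⟩ * rs T e ⟨b⁻¹, hbi⟩ = 1 := by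
      rw [← map_mul]
      have : (⟨b, hi hb⟩ * ⟨b⁻¹, hbi⟩ : e.1) = 1 := Subtype.ext (mul_inv_cancel₀ hb0)
      rw [this, map_one]
    have h2 : rs T e ⟨b, hi hb⟩ ≠ 0 := left_ne_zero_of_mul_eq_one h1
    refine ⟨rs T e ⟨a, hi ha⟩, (hAmem _).mpr ⟨_, ha, rfl⟩, rs T e ⟨b, hi hb⟩,
      (hAmem _).mpr ⟨_, hb, rfl⟩, h2, ?_⟩
    rw [eq_div_iff h2, ← rs_apply, ← map_mul]
    congr 1
    apply Subtype.ext
    change f'.1 * b = a
    rw [hf, div_mul_cancel₀ _ hb0]
  have hspan := span_top (K := K) A hA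
  let bas := Module.Basis.ofSpan (K := K) (s := (A : Set (κ T e))) (by rw [hspan])
  have : Finite _ := Module.Finite.finite_basis bas
  have : Fintype _ := Fintype.ofFinite ↑((linearIndepOn_empty K id).extend (Set.empty_subset (A : Set (κ T e))))
  have hcard := Module.finrank_eq_card_basis bas
  have hbA : ∀ j, ∃ f : e.1, (f : T.F) ∈ chart T.k T.x T.y i ∧ rs T e f = bas j := by
    intro j
    have := Module.Basis.ofSpan_subset (K := K) (s := (A : Set (κ T e))) (by rw [hspan])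
      ⟨j, rfl⟩
    exact (hAmem _).mp this
  choose a ha1 ha2 using hbA
  have hM := fun j => hLIH T.k T.F T.x T.y T.surf i (a j) (ha1 j)
  choose M hM using hM
  have hz := z_ne T
  have hze : T.o e (z T.x T.y i) = - T.H e := by
    have := ((hHCH T.k T.F T.x T.y T.surf e).2.2 i).mp hi
    change _ = - T.o e (z T.x T.y i) at this
    linarith
  have hzu : z T.x T.y i / u ∈ e.1 := by
    rw [mem_iff T e _ (div_ne_zero (hz i) hu0), o_div T e _ _ (hz i) hu0, hze, hue]
    simp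
  have hr : rs T e ⟨z T.x T.y i / u, hzu⟩ ≠ 0 := by
    rw [Ne, rs_eq_zero T e _ _ (div_ne_zero (hz i) hu0), o_div T e _ _ (hz i) hu0, hze, hue]
    simp
  refine ⟨∑ j, M j, fun n hn => ?_⟩
  set c := ∑ j, M j with hc
  have hcM : ∀ j, M j ≤ c := fun j =>
    Finset.single_le_sum (f := M) (fun _ _ => Nat.zero_le _) (Finset.mem_univ j)
  have hwD : T.o e (u ^ n) = - (((n : ℤ) • T.H) e) := by
    rw [o_pow T e u hu0, hue, Pi.smul_apply, smul_eq_mul]
    ring
  rw [sl_eq T e hFDL _ (dv_H T hSUP n) (u ^ n) (pow_ne_zero n hu0) hwD]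
  -- the sections
  have hF : ∀ (l : Fin (n - c + 1)) (j), (a j : T.F) * z T.x T.y i ^ c * u ^ (n - c - l) * v ^ (l : ℕ) ∈
      T.L ((n : ℤ) • T.H) := by
    intro l j
    have h1 := hM j c (hcM j)
    rcases h1 with h1 | h1
    · left
      rw [h1, zero_mul, zero_mul]
    by_cases h0 : (a j : T.F) * z T.x T.y i ^ c = 0
    · left
      rw [h0, zero_mul, zero_mul]
    right
    intro O
    have h2 := lin_ord T hHCH u hu hu0 O
    have h3 := lin_ord T hHCH v hv hv0 O
    have h4 := h1 O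
    change _ ≤ T.o O _ at h4
    change _ ≤ T.o O _
    rw [o_mul T O _ _ (mul_ne_zero h0 (pow_ne_zero _ hu0)) (pow_ne_zero _ hv0),
      o_mul T O _ _ h0 (pow_ne_zero _ hu0), o_pow T O _ hu0, o_pow T O _ hv0, Pi.smul_apply,
      smul_eq_mul]
    have h5 : (l : ℕ) ≤ n - c := by omega
    have h6 : ((n - c - l : ℕ) : ℤ) + c + (l : ℕ) = n := by omega
    have h7 : ((n - c - l : ℕ) : ℤ) * (- T.H O) ≤ ((n - c - l : ℕ) : ℤ) * T.o O u :=
      mul_le_mul_of_nonneg_left h2 (by positivity)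
    have h8 : ((l : ℕ) : ℤ) * (- T.H O) ≤ ((l : ℕ) : ℤ) * T.o O v :=
      mul_le_mul_of_nonneg_left h3 (by positivity)
    have h9 : (n : ℤ) * T.H O = ((n - c - l : ℕ) : ℤ) * T.H O + c * T.H O + (l : ℕ) * T.H O := by
      rw [← h6]; ring
    change -((c : ℤ) * T.H O) ≤ _ at h4
    linarith
  let Φ : Fin (n - c + 1) × ↑((linearIndepOn_empty K id).extend (Set.empty_subset (A : Set (κ T e)))) →
      LinearMap.range (psi T e ((n : ℤ) • T.H) (u ^ n) (pow_ne_zero n hu0) hwD) := fun p =>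
    ⟨psi T e _ _ _ _ ⟨_, hF p.1 p.2⟩, LinearMap.mem_range_self _ _⟩
  have hΦ : ∀ p, (Φ p : κ T e) =
      rs T e ⟨z T.x T.y i / u, hzu⟩ ^ c * (t ^ (p.1 : ℕ) * bas p.2) := by
    intro p
    change psi T e _ _ _ _ ⟨_, hF p.1 p.2⟩ = _
    rw [psi_apply, ← ha2, ← ht, ← map_pow, ← map_pow, ← map_mul, ← map_mul]
    congr 1
    apply Subtype.ext
    change (a p.2 : T.F) * z T.x T.y i ^ c * u ^ (n - c - p.1) * v ^ (p.1 : ℕ) / u ^ n =
      (z T.x T.y i / u) ^ c * ((v / u) ^ (p.1 : ℕ) * (a p.2 : T.F))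
    have h6 : n = (n - c - p.1) + c + (p.1 : ℕ) := by have := p.1.2; omega
    have h7 : u ^ n = u ^ (n - c - p.1) * u ^ c * u ^ (p.1 : ℕ) := by
      rw [← pow_add, ← pow_add, ← h6]
    rw [h7, div_pow, div_pow]
    have h8 : u ^ (n - c - p.1) ≠ 0 := pow_ne_zero _ hu0
    have h9 : u ^ c ≠ 0 := pow_ne_zero _ hu0
    have h10 : u ^ (p.1 : ℕ) ≠ 0 := pow_ne_zero _ hu0
    field_simp
  have hind : LinearIndependent T.k Φ := by
    apply LinearIndependent.of_comp (Submodule.subtype _)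
    have hτ : t ∈ K := IntermediateField.mem_adjoin_simple_self T.k t
    have h1 : LinearIndependent T.k (fun l : Fin (n - c + 1) => (⟨t, hτ⟩ : K) ^ (l : ℕ)) := by
      apply LinearIndependent.of_comp K.val.toLinearMap
      exact (pow_indep t htr).comp (fun l : Fin (n - c + 1) => (l : ℕ)) Fin.val_injective
    have h2 := linearIndependent_smul h1 bas.linearIndependent
    have h3 := h2.map' (LinearMap.mulLeft T.k (rs T e ⟨z T.x T.y i / u, hzu⟩ ^ c))
      (LinearMap.ker_eq_bot.mpr (mul_right_injective₀ (pow_ne_zero c hr)))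
    have h4 : (⇑(Submodule.subtype (LinearMap.range
        (psi T e ((n : ℤ) • T.H) (u ^ n) (pow_ne_zero n hu0) hwD))) ∘ Φ) =
        ⇑(LinearMap.mulLeft T.k (rs T e ⟨z T.x T.y i / u, hzu⟩ ^ c)) ∘
          fun p : Fin (n - c + 1) × _ => (⟨t, hτ⟩ : K) ^ (p.1 : ℕ) • bas p.2 := by
      funext p
      exact hΦ p
    rw [h4]
    exact h3
  have := fin_L T hFDL _ (dv_H T hSUP n)
  have h1 := hind.fintype_card_le_finrank
  rw [Fintype.card_prod, Fintype.card_fin] at h1
  rw [hcard]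
  exact_mod_cast h1

/-! ### the integral equations -/

theorem eqn (u v : T.F) (t : κ T e) (hvu : v / u ∈ e.1) (ht : rs T e ⟨v / u, hvu⟩ = t)
    (w : T.F) (hw : w ∈ e.1) (n : ℕ) (c : ℕ → Polynomial T.k)
    (h : ∀ h : w ^ n + ∑ i ∈ Finset.Icc 1 n,
          Polynomial.aeval (v / u) (c i) * w ^ (n - i) ∈ e.1,
        IsLocalRing.residue e.1 ⟨_, h⟩ = 0) :
    rs T e ⟨w, hw⟩ ^ n + ∑ i ∈ Finset.Icc 1 n,
      Polynomial.aeval t (c i) * rs T e ⟨w, hw⟩ ^ (n - i) = 0 := by
  let E : e.1 := (⟨w, hw⟩ : e.1) ^ n + ∑ i ∈ Finset.Icc 1 n,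
    Polynomial.aeval (⟨v / u, hvu⟩ : e.1) (c i) * (⟨w, hw⟩ : e.1) ^ (n - i)
  have h1 : inc T e E = w ^ n + ∑ i ∈ Finset.Icc 1 n,
      Polynomial.aeval (v / u) (c i) * w ^ (n - i) := by
    simp only [E, map_add, map_pow, map_sum, map_mul, ← Polynomial.aeval_algHom_apply]
    rfl
  have h2 : rs T e E = rs T e ⟨w, hw⟩ ^ n + ∑ i ∈ Finset.Icc 1 n,
      Polynomial.aeval t (c i) * rs T e ⟨w, hw⟩ ^ (n - i) := by
    simp only [E, map_add, map_pow, map_sum, map_mul, ← Polynomial.aeval_algHom_apply, ht]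
  rw [← h2]
  have h3 : w ^ n + ∑ i ∈ Finset.Icc 1 n,
      Polynomial.aeval (v / u) (c i) * w ^ (n - i) ∈ e.1 := by
    rw [← h1]; exact E.2
  have h4 := h h3
  rw [rs_apply, ← h4]
  congr 1
  exact Subtype.ext h1

theorem int_u {k κ : Type} [Field k] [Field κ] [Algebra k κ] (t r : κ) (n : ℕ)
    (c : ℕ → Polynomial k)
    (h : r ^ n + ∑ i ∈ Finset.Icc 1 n, Polynomial.aeval t (c i) * r ^ (n - i) = 0) :
    IsIntegral (Algebra.adjoin k ({t} : Set κ)) r :=
  isIntegral_of_eq (A := Algebra.adjoin k ({t} : Set κ)) r n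
    (fun i => ⟨Polynomial.aeval t (c i), Polynomial.aeval_mem_adjoin_singleton k t⟩) h

theorem int_v {k κ : Type} [Field k] [Field κ] [Algebra k κ] (t r : κ) (ht : t ≠ 0) (n : ℕ)
    (c : ℕ → Polynomial k) (hc : ∀ i, (c i).natDegree ≤ i)
    (h : r ^ n + ∑ i ∈ Finset.Icc 1 n, Polynomial.aeval t (c i) * r ^ (n - i) = 0) :
    IsIntegral (Algebra.adjoin k ({t⁻¹} : Set κ)) (r * t⁻¹) := by
  refine isIntegral_of_eq (A := Algebra.adjoin k ({t⁻¹} : Set κ)) (r * t⁻¹) n
    (fun i => ⟨Polynomial.aeval t⁻¹ ((c i).reflect i), Polynomial.aeval_mem_adjoin_singleton k t⁻¹⟩)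
    ?_
  have h1 : ∀ i, Polynomial.aeval t⁻¹ ((c i).reflect i) = Polynomial.aeval t (c i) * t⁻¹ ^ i := by
    intro i
    let _ := invertibleOfNonzero ht
    have h2 := Polynomial.eval₂_reflect_mul_pow (algebraMap k κ) t i (c i) (hc i)
    rw [invOf_eq_inv] at h2
    rw [Polynomial.aeval_def, Polynomial.aeval_def, ← h2, mul_assoc, ← mul_pow, mul_inv_cancel₀ ht,
      one_pow, mul_one]
  have h3 : (r * t⁻¹) ^ n + ∑ i ∈ Finset.Icc 1 n,
      Polynomial.aeval t⁻¹ ((c i).reflect i) * (r * t⁻¹) ^ (n - i) =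
      (r ^ n + ∑ i ∈ Finset.Icc 1 n, Polynomial.aeval t (c i) * r ^ (n - i)) * t⁻¹ ^ n := by
    rw [add_mul, Finset.sum_mul, mul_pow]
    congr 1
    apply Finset.sum_congr rfl
    intro i hi
    rw [Finset.mem_Icc] at hi
    rw [h1, mul_pow]
    have h4 : t⁻¹ ^ n = t⁻¹ ^ i * t⁻¹ ^ (n - i) := by
      rw [← pow_add]; congr 1; omega
    rw [h4]
    ring
  rw [h, zero_mul] at h3
  exact h3

end

end DEG_

open DEG_ in
theorem deg_proof (hRCV : Stmt_RCV) (hCRV : Stmt_CRV) (hFDL : SRF.Stmt_FDL)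
    (hLIH : SRF.Stmt_LIH) (hAX1 : SRF.Stmt_AX1) (hAX3 : SRF.Stmt_AX3) (hTHC : SRF.Stmt_THC)
    (hHCH : SRF.Stmt_HCH) (hCEN : SRF.Stmt_CEN) (hSUP : SRF.Stmt_SUP) : Stmt_DEG := by
  intro T e
  suffices h : ∃ d, T.IsDeg e d by
    unfold Sf.degc
    rw [dif_pos h]
    exact h.choose_spec
  obtain ⟨u, v, t, hu, hv, hu0, hv0, hue, hve, ht, htr, hfin, heq⟩ := hRCV T e
  have hz := DEG_.z_ne T
  have hze : ∀ j, - T.H e ≤ T.o e (z T.x T.y j) := by
    intro j
    have := (hHCH T.k T.F T.x T.y T.surf e).2.1 j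
    change 0 ≤ T.o e (z T.x T.y j) + T.H e at this
    linarith
  have hvu : v / u ∈ e.1 := by
    rw [mem_iff T e _ (div_ne_zero hv0 hu0), o_div T e _ _ hv0 hu0, hve, hue]
    simp
  have huv : u / v ∈ e.1 := by
    rw [mem_iff T e _ (div_ne_zero hu0 hv0), o_div T e _ _ hu0 hv0, hve, hue]
    simp
  have hzu : ∀ j, z T.x T.y j / u ∈ e.1 := by
    intro j
    rw [mem_iff T e _ (div_ne_zero (hz j) hu0), o_div T e _ _ (hz j) hu0, hue]
    linarith [hze j]
  have hzv : ∀ j, z T.x T.y j / v ∈ e.1 := by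
    intro j
    rw [mem_iff T e _ (div_ne_zero (hz j) hv0), o_div T e _ _ (hz j) hv0, hve]
    linarith [hze j]
  have ht' : rs T e ⟨v / u, hvu⟩ = t := (ht hvu).symm
  have ht0 : t ≠ 0 := by
    rintro rfl
    exact htr isAlgebraic_zero
  have htinv : rs T e ⟨u / v, huv⟩ = t⁻¹ := by
    rw [eq_comm]
    apply inv_eq_of_mul_eq_one_right
    rw [← ht', ← map_mul]
    have : (⟨v / u, hvu⟩ * ⟨u / v, huv⟩ : e.1) = 1 := Subtype.ext (by
      change v / u * (u / v) = 1
      field_simp)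
    rw [this, map_one]
  have hintu : ∀ j, IsIntegral (Algebra.adjoin T.k ({t} : Set (DEG_.κ T e)))
      (rs T e ⟨z T.x T.y j / u, hzu j⟩) := by
    intro j
    obtain ⟨n, c, -, -, h⟩ := heq j
    exact int_u t _ n c (eqn T e u v t hvu ht' _ (hzu j) n c h)
  have hintv : ∀ j, IsIntegral (Algebra.adjoin T.k ({t⁻¹} : Set (DEG_.κ T e)))
      (rs T e ⟨z T.x T.y j / v, hzv j⟩) := by
    intro j
    obtain ⟨n, c, -, hdeg, h⟩ := heq j
    have h1 := int_v t _ ht0 n c hdeg (eqn T e u v t hvu ht' _ (hzu j) n c h)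
    have h2 : rs T e ⟨z T.x T.y j / v, hzv j⟩ = rs T e ⟨z T.x T.y j / u, hzu j⟩ * t⁻¹ := by
      rw [← htinv, ← map_mul]
      congr 1
      apply Subtype.ext
      change z T.x T.y j / v = z T.x T.y j / u * (u / v)
      field_simp
    rw [h2]
    exact h1
  set d := Module.finrank (IntermediateField.adjoin T.k ({t} : Set (DEG_.κ T e)))
    (DEG_.κ T e) with hd
  have hdpos : 1 ≤ d := Module.finrank_pos
  refine ⟨(d : ℤ), by exact_mod_cast hdpos, ?_, ?_⟩
  · obtain ⟨c, hc⟩ := lower_aux T e hFDL hLIH hHCH hSUP u v t hu hv hu0 hv0 hue hvu ht' htr hfin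
    refine ⟨(d : ℤ) * c, fun n => ?_⟩
    by_cases hn : c ≤ n
    · refine le_trans ?_ (hc n hn)
      push_cast [Nat.cast_sub hn]
      have : (0 : ℤ) ≤ d := by positivity
      nlinarith
    · have h1 : (d : ℤ) * n ≤ d * c := mul_le_mul_of_nonneg_left (by
        push Not at hn; exact_mod_cast hn.le) (by positivity)
      have hwD : T.o e (u ^ n) = - (((n : ℤ) • T.H) e) := by
        rw [o_pow T e u hu0, hue, Pi.smul_apply, smul_eq_mul]
        ring
      rw [sl_eq T e hFDL _ (dv_H T hSUP n) (u ^ n) (pow_ne_zero n hu0) hwD]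
      have : (0 : ℤ) ≤ (Module.finrank T.k (LinearMap.range
        (psi T e ((n : ℤ) • T.H) (u ^ n) (pow_ne_zero n hu0) hwD)) : ℤ) := by positivity
      linarith
  · intro n D hD hDe hDO
    have hwD : T.o e (u ^ n) = - D e := by
      rw [o_pow T e u hu0, hue, hDe]
      ring
    have hwD' : T.o e (v ^ n) = - D e := by
      rw [o_pow T e v hv0, hve, hDe]
      ring
    rw [sl_eq T e hFDL D hD (u ^ n) (pow_ne_zero n hu0) hwD]
    have := fin_L T hFDL D hD
    have h1 := hCRV T.k (DEG_.κ T e) t htr hfin n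
      (LinearMap.range (psi T e D (u ^ n) (pow_ne_zero n hu0) hwD)) inferInstance (by
        rintro g ⟨⟨f, hf⟩, rfl⟩
        have hfu := div_mem T e D (u ^ n) (pow_ne_zero n hu0) hwD f hf
        have hfv := div_mem T e D (v ^ n) (pow_ne_zero n hv0) hwD' f hf
        constructor
        · exact integ T e hAX1 hAX3 hTHC hHCH hCEN hz u t hu hu0 hzu hintu n D hDO f hf hfu
        · have h2 := integ T e hAX1 hAX3 hTHC hHCH hCEN hz v t⁻¹ hv hv0 hzv hintv n D hDO f hf hfv
          have h3 : psi T e D (u ^ n) (pow_ne_zero n hu0) hwD ⟨f, hf⟩ * t⁻¹ ^ n =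
              rs T e ⟨f / v ^ n, hfv⟩ := by
            rw [psi_apply, ← htinv, ← map_pow, ← map_mul]
            congr 1
            apply Subtype.ext
            change f / u ^ n * (u / v) ^ n = f / v ^ n
            rw [div_pow]
            have := pow_ne_zero n hu0
            have := pow_ne_zero n hv0
            field_simp
          rw [h3]
          exact h2)
    rw [← hd] at h1
    exact_mod_cast h1

end Pool.Agent.NUM
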