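import Pool.Agent.NUM.Stmts
import Pool.Agent.SRF.Stmts

set_option autoImplicit false

noncomputable section

namespace Pool.Agent.NUM

open Pool.Agent.SRF Filter

namespace DGH_

variable (T : Sf)

theorem H_nonneg (O : T.P) : 0 ≤ T.H O := le_max_left _ _

theorem H_supp (hSUP : SRF.Stmt_SUP) : T.Dv T.H := by
  have hx : T.x ≠ 0 := by
    have := T.surf.indep.ne_zero (0 : Fin 2); simpa using this
  have hy : T.y ≠ 0 := by
    have := T.surf.indep.ne_zero (1 : Fin 2); simpa using this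
  refine ((hSUP T.k T.F T.x T.y T.surf T.x hx).union
    (hSUP T.k T.F T.x T.y T.surf T.y hy)).subset ?_
  intro O hO
  by_contra h
  have h1 : SRF.ord O.1 T.x = 0 := by
    by_contra h1; exact h (Or.inl h1)
  have h2 : SRF.ord O.1 T.y = 0 := by
    by_contra h2; exact h (Or.inr h2)
  apply hO
  change max 0 (max (- ord O.1 T.x) (- ord O.1 T.y)) = 0
  rw [h1, h2]; simp

theorem mL {D : T.P → ℤ} {f : T.F} (h : f ∈ T.L D) (h0 : f ≠ 0) (O : T.P) :
    - D O ≤ ord O.1 f := Or.resolve_left h h0 O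

theorem dv_smul (hSUP : SRF.Stmt_SUP) (n : ℤ) : T.Dv (n • T.H) :=
  (H_supp T hSUP).subset fun O hO h => hO (by
    change n • T.H O = 0
    rw [h]; simp)

/-- multiplication by a function -/
theorem hh_mul (h : T.F) (h0 : h ≠ 0) (D D' : T.P → ℤ)
    (hD : ∀ O : T.P, D O = D' O + T.o O h) : T.hh D = T.hh D' := by
  have hi : Function.Injective (LinearMap.mulLeft T.k h) := fun a b hab => by
    have : h * a = h * b := hab
    exact mul_left_cancel₀ h0 this
  have hmap : (T.L D).map (LinearMap.mulLeft T.k h) = T.L D' := by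
    ext f
    constructor
    · rintro ⟨g, hg, rfl⟩
      change h * g ∈ T.L D'
      by_cases hg0 : g = 0
      · rw [hg0, mul_zero]; exact Submodule.zero_mem _
      right
      intro O
      rw [O.isOrd.mul _ _ h0 hg0]
      have h1 := mL T hg hg0 O
      have h2 := hD O
      have h3 : T.o O h = ord O.1 h := rfl
      omega
    · intro hf
      refine ⟨h⁻¹ * f, ?_, ?_⟩
      · by_cases hf0 : f = 0
        · rw [hf0, mul_zero]; exact Submodule.zero_mem _
        right
        intro O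
        rw [O.isOrd.mul _ _ (inv_ne_zero h0) hf0, O.isOrd.inv h0]
        have h1 := mL T hf hf0 O
        have h2 := hD O
        have h3 : T.o O h = ord O.1 h := rfl
        omega
      · change h * (h⁻¹ * f) = f
        rw [mul_inv_cancel_left₀ h0]
  unfold Sf.hh
  rw [← hmap, LinearEquiv.finrank_eq (Submodule.equivMapOfInjective _ hi (T.L D))]

/-- the Hilbert function, upper bound for differences -/
theorem hil_le (hHIL : Stmt_HIL) : ∃ C : ℤ, 0 ≤ C ∧ ∀ n m : ℕ,
    T.hh (((n + m : ℕ) : ℤ) • T.H) - T.hh ((n : ℤ) • T.H) ≤ m * (T.dg * (n + m) + C) := by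
  obtain ⟨C, hC⟩ := hHIL T
  have hdg : 0 ≤ T.dg := Int.natCast_nonneg _
  have hC0 : 0 ≤ C := le_trans (abs_nonneg _) (hC 0)
  refine ⟨C, hC0, fun n m => ?_⟩
  induction m with
  | zero => simp
  | succ m ih =>
    have h1 := (abs_le.mp (hC (n + m))).2
    have h2 : (((n + (m + 1) : ℕ) : ℤ)) • T.H = (((n + m : ℕ) : ℤ) + 1) • T.H := by
      congr 1
    rw [h2]
    push_cast at ih h1 ⊢
    nlinarith

end DGH_

open DGH_ in
theorem dgh_proof (hBLK : Stmt_BLK) (hDEG : Stmt_DEG) (hHIL : Stmt_HIL) (hSUP : SRF.Stmt_SUP)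
    (_hFDL : SRF.Stmt_FDL) : Stmt_DGH := by
  classical
  intro T m h h0 hL
  set G : T.P → ℤ := fun e => T.o e h + m * T.H e with hG
  have hG0 : ∀ e, 0 ≤ G e := by
    intro e
    have h1 := mL T hL h0 e
    have h2 : (((m : ℤ) • T.H) e) = m * T.H e := by simp
    rw [h2] at h1
    have h3 : T.o e h = ord e.1 h := rfl
    simp only [hG]
    omega
  have hGf : T.Dv G := by
    refine ((hSUP T.k T.F T.x T.y T.surf h h0).union (H_supp T hSUP)).subset ?_
    intro e he
    by_contra hcon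
    have h1 : ord e.1 h = 0 := by by_contra h1; exact hcon (Or.inl h1)
    have h2 : T.H e = 0 := by by_contra h2; exact hcon (Or.inr h2)
    apply he
    change ord e.1 h + m * T.H e = 0
    rw [h1, h2]; simp
  obtain ⟨c, hc⟩ := hBLK T G hGf hG0
  obtain ⟨C, hC0, hC⟩ := hil_le T hHIL
  choose K hK using fun e => (hDEG T e).lower
  have hsum : ∀ x : T.P → ℤ, ∑ᶠ e, G e * x e = ∑ e ∈ hGf.toFinset, G e * x e := by
    intro x
    apply finsum_eq_sum_of_support_subset
    intro e he
    rw [Set.Finite.coe_toFinset]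
    intro h1
    exact he (by change G e * x e = 0; rw [h1, zero_mul])
  have hS : ∑ᶠ e, (T.o e h + m * T.H e) * T.degc e = ∑ e ∈ hGf.toFinset, G e * T.degc e :=
    hsum T.degc
  rw [hS]
  by_contra hcon
  push Not at hcon
  set S := ∑ e ∈ hGf.toFinset, G e * T.degc e with hSdef
  set Z := ∑ e ∈ hGf.toFinset, G e * (T.degc e * c + K e) with hZ
  -- the inequality for all large `n`
  have key : ∀ n : ℕ, c ≤ n → m ≤ n → S * n - Z ≤ m * (T.dg * n + C) := by
    intro n hcn hmn
    have h1 := (hc ((n : ℤ) • T.H) (dv_smul T hSUP n)).1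
    rw [hsum] at h1
    have h2 : T.hh (((n - m : ℕ) : ℤ) • T.H) = T.hh ((n : ℤ) • T.H - G) := by
      apply hh_mul T h h0
      intro O
      have e1 : ((((n - m : ℕ) : ℤ) • T.H) O) = ((n : ℤ) - m) * T.H O := by
        rw [Nat.cast_sub hmn]; simp
      have e2 : (((n : ℤ) • T.H - G) O) = n * T.H O - (T.o O h + m * T.H O) := by
        simp [hG]
      rw [e1, e2]; ring
    have h3 := hC (n - m) m
    rw [Nat.sub_add_cancel hmn, h2] at h3
    have h4 : ((n - m : ℕ) : ℤ) + m = n := by omega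
    rw [h4] at h3
    have h5 : S * n - Z ≤ ∑ e ∈ hGf.toFinset, G e * T.sl e ((n : ℤ) • T.H - (c : ℤ) • T.H) := by
      rw [hSdef, hZ, Finset.sum_mul, ← Finset.sum_sub_distrib]
      apply Finset.sum_le_sum
      intro e _
      have h6 := hK e (n - c)
      have h7 : (n : ℤ) • T.H - (c : ℤ) • T.H = ((n - c : ℕ) : ℤ) • T.H := by
        rw [Nat.cast_sub hcn, sub_smul]
      rw [h7]
      have h8 : ((n - c : ℕ) : ℤ) = n - c := Nat.cast_sub hcn
      rw [h8] at h6 ⊢
      have h9 := mul_le_mul_of_nonneg_left h6 (hG0 e)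
      nlinarith
    linarith
  have hn : ∃ n : ℕ, c ≤ n ∧ m ≤ n ∧ Z + m * C < n := by
    refine ⟨c + m + (Z + m * C).toNat + 1, by omega, by omega, ?_⟩
    have := Int.self_le_toNat (Z + m * C)
    push_cast
    omega
  obtain ⟨n, hn1, hn2, hn3⟩ := hn
  have h1 := key n hn1 hn2
  have h2 : (m : ℤ) * T.dg + 1 ≤ S := hcon
  have h3 : ((m : ℤ) * T.dg + 1) * n ≤ S * n := mul_le_mul_of_nonneg_right h2 (by positivity)
  nlinarith

end Pool.Agent.NUM
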