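import Pool.Agent.NUM.Stmts
import Pool.Agent.SRF.Stmts

/-!
HIL: the Hilbert function of the surface.
-/

set_option autoImplicit false

noncomputable section

namespace Pool.Agent.NUM

open Pool.Agent.SRF Filter

namespace HIL_

section
variable (T : Sf)

/-- evaluation of polynomials -/
abbrev ev : MvPolynomial (Fin 2) T.k →ₐ[T.k] T.F := MvPolynomial.aeval ![T.x, T.y]

theorem ev_inj : Function.Injective (ev T) := T.surf.indep

theorem ev_ne {P : MvPolynomial (Fin 2) T.k} (h : P ≠ 0) : ev T P ≠ 0 :=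
  fun h0 => h ((map_eq_zero_iff _ (ev_inj T)).1 h0)

theorem ev_mem (P : MvPolynomial (Fin 2) T.k) :
    ev T P ∈ IntermediateField.adjoin T.k ({T.x, T.y} : Set T.F) := by
  induction P using MvPolynomial.induction_on with
  | C a =>
    rw [MvPolynomial.aeval_C]
    exact (IntermediateField.adjoin T.k ({T.x, T.y} : Set T.F)).algebraMap_mem a
  | add p q hp hq => rw [map_add]; exact add_mem hp hq
  | mul_X p i hp =>
    rw [map_mul, MvPolynomial.aeval_X]
    refine mul_mem hp ?_
    fin_cases i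
    · exact IntermediateField.subset_adjoin _ _ (by simp)
    · exact IntermediateField.subset_adjoin _ _ (by simp)

theorem uniq {d : ℕ} {b : Fin d → T.F}
    (hb : LinearIndependent (IntermediateField.adjoin T.k ({T.x, T.y} : Set T.F)) b)
    (p : Fin d → MvPolynomial (Fin 2) T.k) (h : ∑ i, ev T (p i) * b i = 0) (i : Fin d) :
    p i = 0 := by
  have h1 := linearIndependent_iff'.1 hb Finset.univ (fun i => ⟨ev T (p i), ev_mem T (p i)⟩)
    h i (Finset.mem_univ i)
  have h2 : ev T (p i) = 0 := congrArg Subtype.val h1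
  exact (map_eq_zero_iff _ (ev_inj T)).1 h2

theorem H_nonneg (O : T.P) : 0 ≤ T.H O := le_max_left _ _
theorem ord_x (O : T.P) : - T.H O ≤ T.o O T.x := by
  have : - T.o O T.x ≤ T.H O := (le_max_left _ _).trans (le_max_right _ _)
  linarith
theorem ord_y (O : T.P) : - T.H O ≤ T.o O T.y := by
  have : - T.o O T.y ≤ T.H O := (le_max_right _ _).trans (le_max_right _ _)
  linarith

variable {T}

theorem mem_nH {n : ℕ} {f : T.F} : f ∈ T.L ((n : ℤ) • T.H) ↔
    f = 0 ∨ ∀ O : T.P, - (n * T.H O) ≤ T.o O f := Iff.rfl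

theorem mul_mem_nH {m n : ℕ} {f g : T.F} (hf : f ∈ T.L ((m : ℤ) • T.H))
    (hg : g ∈ T.L ((n : ℤ) • T.H)) : f * g ∈ T.L (((m + n : ℕ) : ℤ) • T.H) := by
  rw [mem_nH] at *
  by_cases h0 : f = 0
  · left; rw [h0, zero_mul]
  by_cases h1 : g = 0
  · left; rw [h1, mul_zero]
  right
  intro O
  have h2 := hf.resolve_left h0 O
  have h3 := hg.resolve_left h1 O
  have h4 : T.o O (f * g) = T.o O f + T.o O g := O.isOrd.mul f g h0 h1
  rw [h4]
  push_cast
  linarith

theorem mono {m n : ℕ} (h : m ≤ n) {f : T.F} (hf : f ∈ T.L ((m : ℤ) • T.H)) :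
    f ∈ T.L ((n : ℤ) • T.H) := by
  rw [mem_nH] at *
  rcases hf with hf | hf
  · exact Or.inl hf
  · right
    intro O
    have h1 := hf O
    have h2 := H_nonneg T O
    have h3 : (m : ℤ) ≤ n := by exact_mod_cast h
    nlinarith

theorem one_mem : (1 : T.F) ∈ T.L (((0 : ℕ) : ℤ) • T.H) := by
  rw [mem_nH]
  right
  intro O
  have : T.o O 1 = 0 := O.isOrd.one
  rw [this]; simp

theorem y_pow (j : ℕ) : T.y ^ j ∈ T.L ((j : ℤ) • T.H) := by
  induction j with
  | zero => rw [pow_zero]; exact one_mem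
  | succ j ih =>
    rw [pow_succ]
    refine mul_mem_nH ih ?_
    rw [mem_nH]
    right
    intro O
    have := ord_y T O
    push_cast
    linarith

theorem poly_mem {m : ℕ} {p : Polynomial T.k} (hp : p.natDegree < m + 1) :
    Polynomial.aeval T.y p ∈ T.L ((m : ℤ) • T.H) := by
  rw [Polynomial.aeval_eq_sum_range' hp]
  refine Submodule.sum_mem _ fun j hj => Submodule.smul_mem _ _ ?_
  exact mono (by have := Finset.mem_range.1 hj; omega) (y_pow j)

/-- evaluation at `x = c0` -/
def e0 (c0 : T.k) : MvPolynomial (Fin 2) T.k →ₐ[T.k] Polynomial T.k :=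
  MvPolynomial.aeval ![Polynomial.C c0, Polynomial.X]

/-- polynomials in `y` -/
def j0 : Polynomial T.k →ₐ[T.k] MvPolynomial (Fin 2) T.k :=
  Polynomial.aeval (MvPolynomial.X 1)

theorem e0_j0 (c0 : T.k) (p : Polynomial T.k) : e0 c0 (j0 p) = p := by
  have : (e0 c0).comp j0 = AlgHom.id T.k (Polynomial T.k) := by
    apply Polynomial.algHom_ext
    simp [e0, j0]
  exact congrArg (fun f => f p) this

theorem ev_j0 (p : Polynomial T.k) : ev T (j0 p) = Polynomial.aeval T.y p := by
  have : (ev T).comp j0 = Polynomial.aeval T.y := by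
    apply Polynomial.algHom_ext
    simp [j0]
  exact congrArg (fun f => f p) this

theorem exists_r (c0 : T.k) (q : MvPolynomial (Fin 2) T.k) : ∃ r,
    q = (MvPolynomial.X 0 - MvPolynomial.C c0) * r + j0 (e0 c0 q) := by
  induction q using MvPolynomial.induction_on with
  | C a => exact ⟨0, by simp [e0, j0, MvPolynomial.algebraMap_eq, Polynomial.aeval_C]⟩
  | add p q hp hq =>
    obtain ⟨r, hr⟩ := hp
    obtain ⟨s, hs⟩ := hq
    refine ⟨r + s, ?_⟩
    rw [map_add, map_add]
    conv_lhs => rw [hr, hs]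
    ring
  | mul_X p i hp =>
    obtain ⟨r, hr⟩ := hp
    fin_cases i
    · refine ⟨r * MvPolynomial.X 0 + j0 (e0 c0 p), ?_⟩
      have h1 : j0 (T := T) (e0 c0 (MvPolynomial.X 0)) = MvPolynomial.C c0 := by
        simp [e0, j0, MvPolynomial.algebraMap_eq]
      simp only [Fin.zero_eta, map_mul]
      rw [h1]
      conv_lhs => rw [hr]
      ring
    · refine ⟨r * MvPolynomial.X 1, ?_⟩
      have h1 : j0 (T := T) (e0 c0 (MvPolynomial.X 1)) = MvPolynomial.X 1 := by
        simp [e0, j0]
      simp only [Fin.mk_one, map_mul]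
      rw [h1]
      conv_lhs => rw [hr]
      ring

theorem memO_of {O : T.P} {f : T.F} (h : f ≠ 0 → 0 ≤ T.o O f) : f ∈ O.1 := by
  by_cases h0 : f = 0
  · rw [h0]; exact O.1.zero_mem
  · rw [O.isOrd.mem _ h0]; exact h h0

theorem ev_memO (O : T.P) (h : T.H O = 0) (P : MvPolynomial (Fin 2) T.k) : ev T P ∈ O.1 := by
  have hx : T.x ∈ O.1 := memO_of fun _ => by
    have := ord_x T O
    rw [h] at this
    simpa using this
  have hy : T.y ∈ O.1 := memO_of fun _ => by
    have := ord_y T O
    rw [h] at this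
    simpa using this
  induction P using MvPolynomial.induction_on with
  | C a => rw [MvPolynomial.aeval_C]; exact O.2.const_mem T.k T.x T.y a
  | add p q hp hq => rw [map_add]; exact O.1.add_mem _ _ hp hq
  | mul_X p i hp =>
    rw [map_mul, MvPolynomial.aeval_X]
    refine O.1.mul_mem _ _ hp ?_
    fin_cases i
    · exact hx
    · exact hy

theorem ord_ev (O : T.P) (h : T.H O = 0) {P : MvPolynomial (Fin 2) T.k} (hP : P ≠ 0) :
    0 ≤ T.o O (ev T P) := (O.isOrd.mem _ (ev_ne T hP)).1 (ev_memO O h P)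

theorem linear_ne (c0 : T.k) :
    (MvPolynomial.X 0 - MvPolynomial.C c0 : MvPolynomial (Fin 2) T.k) ≠ 0 := by
  intro h
  have h1 := congrArg (MvPolynomial.eval (fun _ => c0 + 1)) h
  simp at h1

theorem linear_deg (c0 : T.k) :
    (MvPolynomial.X 0 - MvPolynomial.C c0 : MvPolynomial (Fin 2) T.k).totalDegree = 1 := by
  rw [sub_eq_add_neg, MvPolynomial.totalDegree_add_eq_left_of_totalDegree_lt]
  · exact MvPolynomial.totalDegree_X _
  · rw [MvPolynomial.totalDegree_neg, MvPolynomial.totalDegree_C, MvPolynomial.totalDegree_X]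
    exact one_pos

/-- the denominator is a unit at the primes of the line `x = c0` -/
theorem ord_delta (hNAL : SRF.Stmt_NAL) (hHCH : SRF.Stmt_HCH) (c0 : T.k)
    (Δ : MvPolynomial (Fin 2) T.k) (hΔ : e0 c0 Δ ≠ 0) (O : T.P) (h : T.H O = 0)
    (hl : 0 < T.o O (ev T (MvPolynomial.X 0 - MvPolynomial.C c0))) :
    T.o O (ev T Δ) = 0 := by
  have hΔ0 : Δ ≠ 0 := fun h0 => hΔ (by rw [h0, map_zero])
  have h0 := ord_ev O h hΔ0
  by_contra hne
  have hpos : 0 < T.o O (ev T Δ) := lt_of_le_of_ne h0 (Ne.symm hne)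
  have hchart : chart T.k T.x T.y 0 ≤ O.1.toSubring := by
    rw [((hHCH T.k T.F T.x T.y T.surf O).2.2 0)]
    have h1 : T.o O 1 = 0 := O.isOrd.one
    change T.H O = - T.o O 1
    rw [h1, h]; rfl
  have hq0 : Polynomial.aeval T.y (e0 c0 Δ) ≠ 0 := by
    rw [← ev_j0]
    apply ev_ne
    intro h1
    apply hΔ
    have := congrArg (e0 c0) h1
    rwa [e0_j0, map_zero] at this
  have hqpos : 0 < T.o O (Polynomial.aeval T.y (e0 c0 Δ)) := by
    obtain ⟨r, hr⟩ := exists_r c0 Δ
    rw [← ev_j0] at hq0 ⊢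
    have h1 : ev T (j0 (e0 c0 Δ)) = ev T Δ +
        -(ev T (MvPolynomial.X 0 - MvPolynomial.C c0) * ev T r) := by
      rw [← map_mul, ← map_neg, ← map_add]
      congr 1
      linear_combination -hr
    by_cases hr0 : r = 0
    · rw [hr0, map_zero, mul_zero, neg_zero, add_zero] at h1
      rw [h1]; exact hpos
    · have hln := ev_ne T (linear_ne (T := T) c0)
      have hrn := ev_ne T hr0
      have h2 : 0 < T.o O (-(ev T (MvPolynomial.X 0 - MvPolynomial.C c0) * ev T r)) := by
        have h3 : T.o O (-(ev T (MvPolynomial.X 0 - MvPolynomial.C c0) * ev T r)) =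
            T.o O (ev T (MvPolynomial.X 0 - MvPolynomial.C c0)) + T.o O (ev T r) := by
          rw [← O.isOrd.mul _ _ hln hrn]
          have h4 : -(ev T (MvPolynomial.X 0 - MvPolynomial.C c0) * ev T r) =
              algebraMap T.k T.F (-1) *
                (ev T (MvPolynomial.X 0 - MvPolynomial.C c0) * ev T r) := by simp
          rw [h4]
          change SRF.ord O.1 _ = _
          rw [O.isOrd.mul _ _ (by simp) (mul_ne_zero hln hrn),
            ord_const T.k T.x T.y O (-1) (by simp), zero_add]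
        rw [h3]
        have := ord_ev O h hr0
        linarith
      rw [h1] at hq0 ⊢
      have h5 := O.isOrd.add (ev_ne T hΔ0) (neg_ne_zero.2 (mul_ne_zero hln hrn)) hq0
      exact lt_of_lt_of_le (lt_min hpos h2) h5
  have hnot : ∀ f : T.F, f ≠ 0 → 0 < T.o O f → f⁻¹ ∉ O.1 := by
    intro f hf hf1 hmem
    rw [O.isOrd.mem _ (inv_ne_zero hf), O.isOrd.inv hf] at hmem
    change 0 ≤ - T.o O f at hmem
    linarith
  obtain ⟨j, hj⟩ := hNAL T.k T.F T.x T.y T.surf O 0 hchart
  fin_cases j
  · obtain ⟨h1, -⟩ := hj (Polynomial.X - Polynomial.C 1) (Polynomial.X_sub_C_ne_zero 1)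
    apply h1
    simp [z]
  · obtain ⟨h1, h2⟩ := hj (Polynomial.X - Polynomial.C c0) (Polynomial.X_sub_C_ne_zero c0)
    have h3 : Polynomial.aeval (z T.x T.y 1 / z T.x T.y 0) (Polynomial.X - Polynomial.C c0) =
        ev T (MvPolynomial.X 0 - MvPolynomial.C c0) := by
      simp [z]
    have h4 : (Polynomial.aeval (z T.x T.y 1 / z T.x T.y 0)
      (Polynomial.X - Polynomial.C c0))⁻¹ ∈ O.1 := h2
    rw [h3] at h4
    exact hnot _ (ev_ne T (linear_ne (T := T) c0)) hl h4
  · obtain ⟨h1, h2⟩ := hj (e0 c0 Δ) hΔ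
    have h3 : Polynomial.aeval (z T.x T.y 2 / z T.x T.y 0) (e0 c0 Δ) =
        Polynomial.aeval T.y (e0 c0 Δ) := by
      simp [z]
    have h4 : (Polynomial.aeval (z T.x T.y 2 / z T.x T.y 0) (e0 c0 Δ))⁻¹ ∈ O.1 := h2
    rw [h3] at h4
    exact hnot _ hq0 hqpos h4

end

end HIL_

open HIL_ in
/-- the Hilbert function of the surface -/
theorem hil_proof (hTRD : Stmt_TRD) (hNLT : Stmt_NLT) (hFDL : SRF.Stmt_FDL)
    (hNAL : SRF.Stmt_NAL) (hHCH : SRF.Stmt_HCH) (hSUP : SRF.Stmt_SUP) : Stmt_HIL := by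
  intro T
  obtain ⟨d, c, δ, b, Δ, hd, hb, hbL, hΔ0, hΔδ, hTR⟩ := hTRD T
  haveI : Infinite T.k := IsAlgClosed.instInfinite
  -- the line
  obtain ⟨p0, hp0⟩ : ∃ p0 : Fin 2 → T.k, MvPolynomial.eval p0 Δ ≠ 0 := by
    by_contra hc
    push Not at hc
    exact hΔ0 (MvPolynomial.funext fun p => by rw [hc p, map_zero])
  set c0 := p0 0 with hc0
  have hΔ1 : e0 c0 Δ ≠ 0 := by
    intro h
    apply hp0
    have h1 : ((Polynomial.aeval (p0 1)).comp (e0 c0) : MvPolynomial (Fin 2) T.k →ₐ[T.k] T.k) =
        MvPolynomial.aeval p0 := by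
      apply MvPolynomial.algHom_ext
      intro i
      fin_cases i
      · simp [e0, hc0]
      · simp [e0]
    have h2 : MvPolynomial.aeval p0 Δ = Polynomial.aeval (p0 1) (e0 c0 Δ) := by
      rw [← h1]; rfl
    rw [h, map_zero] at h2
    rw [← MvPolynomial.coe_aeval_eq_eval]
    exact h2
  set lP : MvPolynomial (Fin 2) T.k := MvPolynomial.X 0 - MvPolynomial.C c0 with hlP
  set l : T.F := ev T lP with hl
  have hlPne : lP ≠ 0 := linear_ne c0
  have hlne : l ≠ 0 := ev_ne T hlPne
  have hfd : ∀ n : ℕ, FiniteDimensional T.k (T.L ((n : ℤ) • T.H)) := by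
    intro n
    apply hFDL T.k T.F T.x T.y T.surf
    have hx : T.x ≠ 0 := by
      have := ev_ne T (MvPolynomial.X_ne_zero (R := T.k) (0 : Fin 2))
      simpa using this
    have hy : T.y ≠ 0 := by
      have := ev_ne T (MvPolynomial.X_ne_zero (R := T.k) (1 : Fin 2))
      simpa using this
    refine ((hSUP T.k T.F T.x T.y T.surf T.x hx).union
      (hSUP T.k T.F T.x T.y T.surf T.y hy)).subset ?_
    intro O hO
    by_contra hc
    simp only [Set.mem_union, Set.mem_ofPred_eq, not_or, not_not] at hc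
    apply hO
    change (n : ℤ) * T.H O = 0
    have : T.H O = 0 := by
      change max 0 (max (- ord O.1 T.x) (- ord O.1 T.y)) = 0
      rw [hc.1, hc.2]; simp
    rw [this, mul_zero]
  have hlL : l ∈ T.L (((1 : ℕ) : ℤ) • T.H) := by
    have h1 : l = T.x + algebraMap T.k T.F (-c0) * 1 := by
      rw [hl, hlP]; simp [sub_eq_add_neg]
    rw [h1]
    refine Submodule.add_mem _ ?_ ?_
    · rw [mem_nH]; right; intro O
      have := ord_x T O
      push_cast; linarith
    · rw [← Algebra.smul_def]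
      exact Submodule.smul_mem _ _ (mono (Nat.zero_le 1) one_mem)
  -- lower bound
  have hlow : ∀ n m : ℕ, m + c = n + 1 →
      d * (m + 1) + Module.finrank T.k (T.L ((n : ℤ) • T.H)) ≤
        Module.finrank T.k (T.L (((n + 1 : ℕ) : ℤ) • T.H)) := by
    intro n m hm
    haveI := hfd n
    haveI := hfd (n + 1)
    let Ψ : ((Fin d → Polynomial.degreeLT T.k (m + 1)) × T.L ((n : ℤ) • T.H)) →ₗ[T.k] T.F :=
      LinearMap.coprod
        (∑ i, (LinearMap.mulRight T.k (b i)) ∘ₗ (Polynomial.aeval T.y).toLinearMap ∘ₗ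
          (Polynomial.degreeLT T.k (m + 1)).subtype ∘ₗ LinearMap.proj i)
        ((LinearMap.mulLeft T.k l) ∘ₗ (T.L ((n : ℤ) • T.H)).subtype)
    have hΨ : ∀ v, Ψ v = (∑ i, Polynomial.aeval T.y (v.1 i).1 * b i) + l * v.2.1 := by
      intro v
      simp [Ψ, LinearMap.sum_apply]
    have hmem : ∀ v, Ψ v ∈ T.L (((n + 1 : ℕ) : ℤ) • T.H) := by
      intro v
      rw [hΨ]
      refine Submodule.add_mem _ (Submodule.sum_mem _ fun i _ => ?_) ?_
      · rw [← hm]
        refine mul_mem_nH (poly_mem ?_) (hbL i)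
        have := Polynomial.mem_degreeLT.1 (v.1 i).2
        by_cases h0 : (v.1 i).1 = 0
        · rw [h0]; simp
        · exact (Polynomial.natDegree_lt_iff_degree_lt h0).2 this
      · rw [Nat.add_comm n 1]
        exact mul_mem_nH hlL v.2.2
    let Ψ' := LinearMap.codRestrict (T.L (((n + 1 : ℕ) : ℤ) • T.H)) Ψ hmem
    have hinj : Function.Injective Ψ' := by
      rw [injective_iff_map_eq_zero]
      intro v hv
      have h1 : (∑ i, Polynomial.aeval T.y (v.1 i).1 * b i) + l * v.2.1 = 0 := by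
        rw [← hΨ]; exact congrArg Subtype.val hv
      obtain ⟨q, -, hq⟩ := hTR n v.2.1 v.2.2
      have h2 : ∀ i, Δ * j0 (v.1 i).1 + lP * q i = 0 := by
        apply uniq T hb
        have h3 : ∑ i, ev T (Δ * j0 (v.1 i).1 + lP * q i) * b i =
            ev T Δ * ((∑ i, Polynomial.aeval T.y (v.1 i).1 * b i) + l * v.2.1) := by
          have h4 : ev T Δ * (l * v.2.1) = l * ∑ i, ev T (q i) * b i := by
            rw [← hq]; ring
          rw [mul_add, h4, Finset.mul_sum, Finset.mul_sum, ← Finset.sum_add_distrib]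
          refine Finset.sum_congr rfl fun i _ => ?_
          rw [map_add, map_mul, map_mul, ev_j0, ← hl]
          ring
        rw [h3, h1, mul_zero]
      have h5 : ∀ i, (v.1 i).1 = 0 := by
        intro i
        have h6 := congrArg (e0 c0) (h2 i)
        have h7 : e0 c0 lP = 0 := by simp [e0, hlP]
        rw [map_add, map_mul, map_mul, e0_j0, h7, zero_mul, add_zero, map_zero] at h6
        exact (mul_eq_zero.1 h6).resolve_left hΔ1
      have h8 : v.2.1 = 0 := by
        have h9 : ∑ i, Polynomial.aeval T.y (v.1 i).1 * b i = 0 :=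
          Finset.sum_eq_zero fun i _ => by rw [h5 i, map_zero, zero_mul]
        rw [h9, zero_add] at h1
        exact (mul_eq_zero.1 h1).resolve_left hlne
      refine Prod.ext (funext fun i => Subtype.ext (h5 i)) (Subtype.ext h8)
    have hfin := LinearMap.finrank_le_finrank_of_injective hinj
    rw [Module.finrank_prod, Module.finrank_pi_fintype] at hfin
    have h10 : Module.finrank T.k (Polynomial.degreeLT T.k (m + 1)) = m + 1 := by
      rw [(Polynomial.degreeLTEquiv T.k (m + 1)).finrank_eq]; simp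
    simp only [h10, Finset.sum_const, Finset.card_univ, Fintype.card_fin, smul_eq_mul] at hfin
    exact hfin
  have hlow0 : ∀ n : ℕ, Module.finrank T.k (T.L ((n : ℤ) • T.H)) ≤
        Module.finrank T.k (T.L (((n + 1 : ℕ) : ℤ) • T.H)) := by
    intro n
    haveI := hfd (n + 1)
    exact Submodule.finrank_mono fun f hf => mono (Nat.le_succ n) hf
  -- upper bound
  have hup : ∀ n : ℕ, Module.finrank T.k (T.L (((n + 1 : ℕ) : ℤ) • T.H)) ≤
      d * (n + 1 + δ + 1) + Module.finrank T.k (T.L ((n : ℤ) • T.H)) := by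
    intro n
    haveI := hfd n
    haveI := hfd (n + 1)
    have hΔe : ev T Δ ≠ 0 := ev_ne T hΔ0
    -- the map with denominators
    let M : (Fin d → MvPolynomial (Fin 2) T.k) →ₗ[T.k] T.F :=
      ∑ i, (LinearMap.mulRight T.k ((ev T Δ)⁻¹ * b i)) ∘ₗ (ev T).toLinearMap ∘ₗ
        LinearMap.proj i
    have hM : ∀ q, ev T Δ * M q = ∑ i, ev T (q i) * b i := by
      intro q
      simp only [M, LinearMap.sum_apply, LinearMap.comp_apply, LinearMap.mulRight_apply,
        LinearMap.proj_apply, AlgHom.toLinearMap_apply, Finset.mul_sum]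
      refine Finset.sum_congr rfl fun i _ => ?_
      field_simp
    have hMinj : Function.Injective M := by
      rw [injective_iff_map_eq_zero]
      intro q hq
      funext i
      refine uniq T hb q ?_ i
      rw [← hM, hq, mul_zero]
    let E := LinearEquiv.ofInjective M hMinj
    have hle : ∀ a ∈ T.L (((n + 1 : ℕ) : ℤ) • T.H), ∃ q, M q = a ∧
        ∀ i, (q i).totalDegree ≤ n + 1 + δ := by
      intro a ha
      obtain ⟨q, h1, h2⟩ := hTR (n + 1) a ha
      refine ⟨q, ?_, h1⟩
      apply mul_left_cancel₀ hΔe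
      rw [hM]; exact h2.symm
    have hle' : T.L (((n + 1 : ℕ) : ℤ) • T.H) ≤ LinearMap.range M := fun a ha => by
      obtain ⟨q, h1, -⟩ := hle a ha
      exact ⟨q, h1⟩
    let inv : T.L (((n + 1 : ℕ) : ℤ) • T.H) →ₗ[T.k] (Fin d → MvPolynomial (Fin 2) T.k) :=
      E.symm.toLinearMap ∘ₗ Submodule.inclusion hle'
    have hinv : ∀ a, M (inv a) = a.1 := by
      intro a
      have : E (E.symm (Submodule.inclusion hle' a)) = Submodule.inclusion hle' a :=
        E.apply_symm_apply _
      exact congrArg Subtype.val this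
    have hdeg : ∀ a i, ((inv a) i).totalDegree ≤ n + 1 + δ := by
      intro a i
      obtain ⟨q, h1, h2⟩ := hle a.1 a.2
      have : inv a = q := hMinj (by rw [hinv, h1])
      rw [this]; exact h2 i
    let Θ : T.L (((n + 1 : ℕ) : ℤ) • T.H) →ₗ[T.k]
        (Fin d → Polynomial.degreeLT T.k (n + 1 + δ + 1)) :=
      LinearMap.pi fun i => LinearMap.codRestrict _
        ((e0 c0).toLinearMap ∘ₗ LinearMap.proj i ∘ₗ inv) (by
          intro a
          rw [Polynomial.mem_degreeLT]
          have h1 := MvPolynomial.aeval_natDegree_le (m := n + 1 + δ) (n := 1) ((inv a) i)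
            (hdeg a i) ![Polynomial.C c0, Polynomial.X] (by
              intro j
              fin_cases j
              · simp
              · simp)
          refine lt_of_le_of_lt Polynomial.degree_le_natDegree ?_
          have h2 : ((e0 c0) ((inv a) i)).natDegree ≤ n + 1 + δ := by
            rw [mul_one] at h1; exact h1
          exact_mod_cast Nat.lt_succ_of_le h2)
    have hΘ : ∀ a i, ((Θ a) i).1 = e0 c0 ((inv a) i) := fun a i => rfl
    have hker : ∀ a ∈ LinearMap.ker Θ, l⁻¹ * a.1 ∈ T.L ((n : ℤ) • T.H) := by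
      intro a ha
      have h1 : ∀ i, e0 c0 ((inv a) i) = 0 := by
        intro i
        rw [← hΘ, LinearMap.mem_ker.1 ha]; rfl
      choose r hr using fun i => exists_r c0 ((inv a) i)
      by_cases ha0 : a.1 = 0
      · rw [ha0, mul_zero]; exact Submodule.zero_mem _
      have h2 : ev T Δ * a.1 = l * ∑ i, ev T (r i) * b i := by
        rw [← hinv, hM, Finset.mul_sum]
        refine Finset.sum_congr rfl fun i _ => ?_
        rw [hr i, h1 i, map_zero, add_zero, map_mul, ← hl]
        ring
      rw [mem_nH]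
      right
      intro O
      have h3 : T.o O (l⁻¹ * a.1) = T.o O a.1 - T.o O l := by
        change SRF.ord O.1 _ = SRF.ord O.1 _ - SRF.ord O.1 _
        rw [O.isOrd.mul _ _ (inv_ne_zero hlne) ha0, O.isOrd.inv hlne]
        ring
      have h4 := (mem_nH.1 a.2).resolve_left ha0 O
      rw [h3]
      rcases (H_nonneg T O).lt_or_eq with hH | hH
      · have h5 := hNLT T lP hlPne O hH
        rw [linear_deg] at h5
        have h6 : T.o O l = - (((1 : ℕ) : ℤ) * T.H O) := h5
        rw [h6]
        push_cast at h4 ⊢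
        linarith
      · have hH' : T.H O = 0 := hH.symm
        rw [hH'] at h4 ⊢
        simp only [mul_zero, neg_zero] at h4 ⊢
        have h5 : 0 ≤ T.o O l := ord_ev O hH' hlPne
        rcases h5.lt_or_eq with h5 | h5
        · have h6 := ord_delta hNAL hHCH c0 Δ hΔ1 O hH' h5
          have hsne : ∑ i, ev T (r i) * b i ≠ 0 := by
            intro h0
            rw [h0, mul_zero] at h2
            exact (mul_ne_zero hΔe ha0) h2
          have h7 : ∑ i, ev T (r i) * b i ∈ O.1 := by
            refine O.1.sum_mem fun i _ => ?_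
            refine O.1.mul_mem _ _ (ev_memO O hH' _) (memO_of fun hb0 => ?_)
            have := (mem_nH.1 (hbL i)).resolve_left hb0 O
            rw [hH'] at this
            simpa using this
          rw [O.isOrd.mem _ hsne] at h7
          have h8 : T.o O (ev T Δ) + T.o O a.1 = T.o O l + T.o O (∑ i, ev T (r i) * b i) := by
            have := congrArg (T.o O) h2
            change SRF.ord O.1 _ = SRF.ord O.1 _ at this
            rw [O.isOrd.mul _ _ hΔe ha0, O.isOrd.mul _ _ hlne hsne] at this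
            exact this
          rw [h6] at h8
          change 0 ≤ T.o O _ at h7
          linarith
        · linarith
    let κ : LinearMap.ker Θ →ₗ[T.k] T.L ((n : ℤ) • T.H) :=
      LinearMap.codRestrict _ ((LinearMap.mulLeft T.k l⁻¹) ∘ₗ (T.L _).subtype ∘ₗ
        (LinearMap.ker Θ).subtype) (fun a => hker a.1 a.2)
    have hκ : Function.Injective κ := by
      rw [injective_iff_map_eq_zero]
      intro a ha
      have h1 : l⁻¹ * a.1.1 = 0 := congrArg Subtype.val ha
      have h2 := (mul_eq_zero.1 h1).resolve_left (inv_ne_zero hlne)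
      exact Subtype.ext (Subtype.ext h2)
    have h1 := LinearMap.finrank_le_finrank_of_injective hκ
    have h2 := LinearMap.finrank_range_add_finrank_ker Θ
    have h3 : Module.finrank T.k (LinearMap.range Θ) ≤ d * (n + 1 + δ + 1) := by
      haveI : Module.Finite T.k (Polynomial.degreeLT T.k (n + 1 + δ + 1)) :=
        Module.Finite.equiv (Polynomial.degreeLTEquiv T.k (n + 1 + δ + 1)).symm
      refine (Submodule.finrank_le _).trans ?_
      rw [Module.finrank_pi_fintype]
      have h10 : Module.finrank T.k (Polynomial.degreeLT T.k (n + 1 + δ + 1)) =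
          n + 1 + δ + 1 := by
        rw [(Polynomial.degreeLTEquiv T.k (n + 1 + δ + 1)).finrank_eq]; simp
      simp only [h10, Finset.sum_const, Finset.card_univ, Fintype.card_fin, smul_eq_mul]
      exact le_rfl
    omega
  refine ⟨d * (c + δ + 2), fun n => ?_⟩
  have e1 : ((n : ℤ) + 1) • T.H = ((n + 1 : ℕ) : ℤ) • T.H := by push_cast; rfl
  rw [e1, ← hd]
  unfold Sf.hh
  have hu := hup n
  have hu' : (Module.finrank T.k (T.L (((n + 1 : ℕ) : ℤ) • T.H)) : ℤ) ≤
      d * (n + 1 + δ + 1) + Module.finrank T.k (T.L ((n : ℤ) • T.H)) := by exact_mod_cast hu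
  rw [abs_le]
  have hdc : (0 : ℤ) ≤ (d : ℤ) * c := by positivity
  have hdδ : (0 : ℤ) ≤ (d : ℤ) * δ := by positivity
  have hd0 : (0 : ℤ) ≤ (d : ℤ) := by positivity
  constructor
  · by_cases hcn : c ≤ n + 1
    · obtain ⟨m, hm⟩ := Nat.exists_eq_add_of_le' hcn
      have h1 := hlow n m hm.symm
      have h1' : (d : ℤ) * (m + 1) + Module.finrank T.k (T.L ((n : ℤ) • T.H)) ≤
        Module.finrank T.k (T.L (((n + 1 : ℕ) : ℤ) • T.H)) := by exact_mod_cast h1
      have hm' : (n : ℤ) + 1 = m + c := by exact_mod_cast hm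
      have hm'' : (m : ℤ) = n + 1 - c := by linarith
      rw [hm''] at h1'
      nlinarith
    · have h1 := hlow0 n
      have h1' : (Module.finrank T.k (T.L ((n : ℤ) • T.H)) : ℤ) ≤
        Module.finrank T.k (T.L (((n + 1 : ℕ) : ℤ) • T.H)) := by exact_mod_cast h1
      have h2 : (n : ℤ) ≤ c := by
        have : n < c := by omega
        exact_mod_cast this.le
      have h3 : (d : ℤ) * n ≤ d * c := mul_le_mul_of_nonneg_left h2 hd0
      nlinarith
  · nlinarith

end Pool.Agent.NUM
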