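import Pool.Agent.NUM.Stmts
import Pool.Agent.SRF.Stmts

set_option autoImplicit false

noncomputable section

namespace Pool.Agent.NUM

open Pool.Agent.SRF Filter

namespace HOPF_

variable (T : Sf)

theorem div_mem {e : T.P} {D : T.P → ℤ} {f₀ : T.F} (h0 : f₀ ≠ 0) (h1 : T.o e f₀ = - D e)
    (f : T.F) (hf : f ∈ T.L D) : f / f₀ ∈ e.1 := by
  rcases hf with hf | hf
  · rw [hf, zero_div]; exact zero_mem _
  · by_cases hf0 : f = 0
    · rw [hf0, zero_div]; exact zero_mem _
    · rw [div_eq_mul_inv, e.isOrd.mem _ (mul_ne_zero hf0 (inv_ne_zero h0)),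
        e.isOrd.mul _ _ hf0 (inv_ne_zero h0), e.isOrd.inv h0]
      have h2 := hf e
      have h3 : SRF.ord e.1 f₀ = - D e := h1
      linarith

/-- the residue of `f / f₀` -/
def rmap {e : T.P} {D : T.P → ℤ} {f₀ : T.F} (h0 : f₀ ≠ 0) (h1 : T.o e f₀ = - D e) :
    T.L D →ₗ[T.k] IsLocalRing.ResidueField e.1 where
  toFun f := IsLocalRing.residue e.1 ⟨f.1 / f₀, div_mem T h0 h1 f.1 f.2⟩
  map_add' f g := by
    rw [← map_add]
    congr 1
    apply Subtype.ext
    show (f.1 + g.1) / f₀ = f.1 / f₀ + g.1 / f₀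
    rw [add_div]
  map_smul' c f := by
    rw [Algebra.smul_def]
    have h2 : algebraMap T.k (IsLocalRing.ResidueField e.1) ((RingHom.id T.k) c) =
      IsLocalRing.residue e.1 (algebraMap T.k e.1 c) := rfl
    rw [h2, ← map_mul]
    congr 1
    apply Subtype.ext
    show (c • f.1) / f₀ = algebraMap T.k T.F c * (f.1 / f₀)
    rw [Algebra.smul_def, mul_div_assoc]

theorem rmap_eq_zero {e : T.P} {D : T.P → ℤ} {f₀ : T.F} (h0 : f₀ ≠ 0) (h1 : T.o e f₀ = - D e)
    (f : T.L D) : rmap T h0 h1 f = 0 ↔ f.1 ∈ T.L (D - T.pr e) := by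
  obtain ⟨f, hf⟩ := f
  have h3 : SRF.ord e.1 f₀ = - D e := h1
  show IsLocalRing.residue e.1 ⟨f / f₀, _⟩ = 0 ↔ f ∈ T.L (D - T.pr e)
  rw [IsLocalRing.residue_eq_zero_iff, IsLocalRing.mem_maximalIdeal, mem_nonunits_iff]
  by_cases hf0 : f = 0
  · have h4 : f ∈ T.L (D - T.pr e) := by rw [hf0]; exact Submodule.zero_mem _
    have h5 : (⟨f / f₀, div_mem T h0 h1 f hf⟩ : e.1) = 0 := by
      apply Subtype.ext
      show f / f₀ = 0
      rw [hf0, zero_div]
    rw [h5]
    simp [h4]
  · have hq : f / f₀ ≠ 0 := div_ne_zero hf0 h0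
    have hu : IsUnit (⟨f / f₀, div_mem T h0 h1 f hf⟩ : e.1) ↔ (f / f₀)⁻¹ ∈ e.1 := by
      constructor
      · intro hu
        obtain ⟨b, hb⟩ := hu.exists_right_inv
        have : (f / f₀) * (b : T.F) = 1 := congrArg Subtype.val hb
        rw [inv_eq_of_mul_eq_one_right this]
        exact b.2
      · intro hi
        exact IsUnit.of_mul_eq_one ⟨_, hi⟩ (Subtype.ext (mul_inv_cancel₀ hq))
    have hord : (f / f₀)⁻¹ ∈ e.1 ↔ SRF.ord e.1 f ≤ - D e := by
      rw [e.isOrd.mem _ (inv_ne_zero hq), e.isOrd.inv hq, div_eq_mul_inv,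
        e.isOrd.mul _ _ hf0 (inv_ne_zero h0), e.isOrd.inv h0, h3]
      constructor <;> intro h <;> linarith
    rw [hu, hord, mem_L]
    have hfL := hf.resolve_left hf0
    constructor
    · intro h
      right
      intro O
      show - (D O - T.pr e O) ≤ _
      unfold Sf.pr
      split_ifs with hO
      · subst hO
        push Not at h
        linarith
      · have := hfL O
        linarith
    · intro h
      have h6 := h.resolve_left hf0 e
      have h7 : (D - T.pr e) e = D e - 1 := by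
        show D e - T.pr e e = _
        unfold Sf.pr
        rw [if_pos rfl]
      rw [h7] at h6
      intro h8
      linarith

theorem dv_sub {e : T.P} {D : T.P → ℤ} (hD : T.Dv D) : T.Dv (D - T.pr e) := by
  unfold Sf.Dv at *
  refine (hD.union (Set.finite_singleton e)).subset ?_
  intro O hO
  by_contra h
  rw [Set.mem_union, not_or] at h
  apply hO
  have h1 : D O = 0 := by
    by_contra h2
    exact h.1 h2
  have h2 : O ≠ e := fun h3 => h.2 h3
  show D O - T.pr e O = 0
  unfold Sf.pr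
  rw [if_neg h2, h1, sub_zero]

theorem le_sub {e : T.P} {D : T.P → ℤ} : T.L (D - T.pr e) ≤ T.L D := by
  intro f hf
  rcases hf with hf | hf
  · exact Or.inl hf
  · right
    intro O
    refine le_trans ?_ (hf O)
    show - D O ≤ - (D O - T.pr e O)
    unfold Sf.pr
    split_ifs <;> linarith

theorem fd (hFDL : SRF.Stmt_FDL) {D : T.P → ℤ} (hD : T.Dv D) : FiniteDimensional T.k (T.L D) :=
  hFDL T.k T.F T.x T.y T.surf D hD

theorem finrank_range (hFDL : SRF.Stmt_FDL) {e : T.P} {D : T.P → ℤ} (hD : T.Dv D) {f₀ : T.F}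
    (h0 : f₀ ≠ 0) (h1 : T.o e f₀ = - D e) :
    (Module.finrank T.k (LinearMap.range (rmap T h0 h1)) : ℤ) = T.sl e D ∧
      FiniteDimensional T.k (LinearMap.range (rmap T h0 h1)) := by
  have := fd T hFDL hD
  have := fd T hFDL (dv_sub T (e := e) hD)
  refine ⟨?_, inferInstance⟩
  have h2 := LinearMap.finrank_range_add_finrank_ker (rmap T h0 h1)
  have h3 : LinearMap.ker (rmap T h0 h1) = (T.L (D - T.pr e)).comap (T.L D).subtype := by
    ext f
    rw [LinearMap.mem_ker, rmap_eq_zero]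
    rfl
  have h4 : Module.finrank T.k (LinearMap.ker (rmap T h0 h1)) =
      Module.finrank T.k (T.L (D - T.pr e)) := by
    rw [h3]
    exact (Submodule.comapSubtypeEquivOfLe (le_sub T)).finrank_eq
  unfold Sf.sl Sf.hh
  rw [← h2, h4]
  push_cast
  ring

theorem exists_f {e : T.P} {D : T.P → ℤ} (h : 1 ≤ T.sl e D) :
    ∃ f₀ ∈ T.L D, f₀ ≠ 0 ∧ T.o e f₀ = - D e := by
  have h1 : ¬ T.L D ≤ T.L (D - T.pr e) := by
    intro h2
    have h3 : T.L D = T.L (D - T.pr e) := le_antisymm h2 (le_sub T)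
    unfold Sf.sl Sf.hh at h
    rw [← h3] at h
    linarith
  rw [SetLike.not_le_iff_exists] at h1
  obtain ⟨f, hf, hf'⟩ := h1
  have hf0 : f ≠ 0 := by
    rintro rfl
    exact hf' (Submodule.zero_mem _)
  refine ⟨f, hf, hf0, ?_⟩
  have hfL := hf.resolve_left hf0
  rw [mem_L] at hf'
  push Not at hf'
  obtain ⟨O, hO⟩ := hf'.2
  have h5 : O = e := by
    by_contra hne
    have h6 : (D - T.pr e) O = D O := by
      show D O - T.pr e O = _
      unfold Sf.pr
      rw [if_neg hne, sub_zero]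
    rw [h6] at hO
    exact absurd (hfL O) (not_le.2 hO)
  subst h5
  have h7 : (D - T.pr O) O = D O - 1 := by
    show D O - T.pr O O = _
    unfold Sf.pr
    rw [if_pos rfl]
  rw [h7] at hO
  have := hfL O
  show SRF.ord O.1 f = - D O
  omega

end HOPF_

open HOPF_ in
theorem hopf_proof (hHOPL : Stmt_HOPL) (hFDL : SRF.Stmt_FDL) : Stmt_HOPF := by
  intro T e D D' hD hD' h1 h2
  obtain ⟨f, hf, hf0, hfe⟩ := exists_f T h1
  obtain ⟨g, hg, hg0, hge⟩ := exists_f T h2
  have hfg0 : f * g ≠ 0 := mul_ne_zero hf0 hg0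
  have hfge : T.o e (f * g) = - (D + D') e := by
    show SRF.ord e.1 (f * g) = - (D e + D' e)
    rw [e.isOrd.mul _ _ hf0 hg0]
    have h3 : SRF.ord e.1 f = - D e := hfe
    have h4 : SRF.ord e.1 g = - D' e := hge
    rw [h3, h4]; ring
  have hDD : T.Dv (D + D') := by
    unfold Sf.Dv at *
    refine (hD.union hD').subset (Function.support_add D D')
  obtain ⟨a1, a2⟩ := finrank_range T hFDL hD hf0 hfe
  obtain ⟨b1, b2⟩ := finrank_range T hFDL hD' hg0 hge
  obtain ⟨c1, c2⟩ := finrank_range T hFDL hDD hfg0 hfge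
  have hA : LinearMap.range (rmap T hf0 hfe) ≠ ⊥ := by
    intro h
    rw [h, finrank_bot] at a1
    push_cast at a1
    linarith
  have hB : LinearMap.range (rmap T hg0 hge) ≠ ⊥ := by
    intro h
    rw [h, finrank_bot] at b1
    push_cast at b1
    linarith
  have hmul : ∀ a ∈ LinearMap.range (rmap T hf0 hfe), ∀ b ∈ LinearMap.range (rmap T hg0 hge),
      a * b ∈ LinearMap.range (rmap T hfg0 hfge) := by
    rintro _ ⟨⟨u, hu⟩, rfl⟩ _ ⟨⟨v, hv⟩, rfl⟩
    have huv : u * v ∈ T.L (D + D') := by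
      rcases hu with hu | hu
      · rw [hu, zero_mul]; exact Submodule.zero_mem _
      rcases hv with hv | hv
      · rw [hv, mul_zero]; exact Submodule.zero_mem _
      by_cases hu0 : u = 0
      · rw [hu0, zero_mul]; exact Submodule.zero_mem _
      by_cases hv0 : v = 0
      · rw [hv0, mul_zero]; exact Submodule.zero_mem _
      right
      intro O
      rw [O.isOrd.mul _ _ hu0 hv0]
      have h3 := hu O
      have h4 := hv O
      show - (D O + D' O) ≤ _
      linarith
    refine ⟨⟨u * v, huv⟩, ?_⟩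
    show IsLocalRing.residue e.1 ⟨u * v / (f * g), _⟩ =
      IsLocalRing.residue e.1 ⟨u / f, _⟩ * IsLocalRing.residue e.1 ⟨v / g, _⟩
    rw [← map_mul]
    congr 1
    apply Subtype.ext
    show u * v / (f * g) = u / f * (v / g)
    rw [div_mul_div_comm]
  have key := hHOPL T.k (IsLocalRing.ResidueField e.1) _ _ _ a2 b2 c2 hA hB hmul
  rw [← a1, ← b1, ← c1]
  have : (Module.finrank T.k (LinearMap.range (rmap T hf0 hfe)) : ℤ) +
    Module.finrank T.k (LinearMap.range (rmap T hg0 hge)) ≤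
      Module.finrank T.k (LinearMap.range (rmap T hfg0 hfge)) + 1 := by exact_mod_cast key
  linarith

end Pool.Agent.NUM
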