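import Pool.Agent.NUM.Stmts
import Pool.Agent.SRF.Stmts

set_option autoImplicit false

/-!
# HOPL: Hopf's lemma in a field extension of an algebraically closed field
-/

noncomputable section

namespace Pool.Agent.NUM

namespace HOPL_

variable {k κ : Type} [Field k] [Field κ] [Algebra k κ]

/-- the composite of a valuation ring with a valuation ring of its residue field -/
def comp (W : ValuationSubring κ) (V : ValuationSubring (IsLocalRing.ResidueField W)) :
    ValuationSubring κ where
  carrier := {x | ∃ h : x ∈ W, IsLocalRing.residue W ⟨x, h⟩ ∈ V}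
  mul_mem' := by
    rintro a b ⟨ha, ha'⟩ ⟨hb, hb'⟩
    refine ⟨W.mul_mem _ _ ha hb, ?_⟩
    have : (⟨a * b, W.mul_mem _ _ ha hb⟩ : W) = ⟨a, ha⟩ * ⟨b, hb⟩ := rfl
    rw [this, map_mul]
    exact V.mul_mem _ _ ha' hb'
  one_mem' := ⟨W.one_mem, by
    have : (⟨1, W.one_mem⟩ : W) = 1 := rfl
    rw [this, map_one]; exact V.one_mem⟩
  add_mem' := by
    rintro a b ⟨ha, ha'⟩ ⟨hb, hb'⟩
    refine ⟨W.add_mem _ _ ha hb, ?_⟩
    have : (⟨a + b, W.add_mem _ _ ha hb⟩ : W) = ⟨a, ha⟩ + ⟨b, hb⟩ := rfl
    rw [this, map_add]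
    exact V.add_mem _ _ ha' hb'
  zero_mem' := ⟨W.zero_mem, by
    have : (⟨0, W.zero_mem⟩ : W) = 0 := rfl
    rw [this, map_zero]; exact V.zero_mem⟩
  neg_mem' := by
    rintro a ⟨ha, ha'⟩
    refine ⟨W.neg_mem _ ha, ?_⟩
    have : (⟨-a, W.neg_mem _ ha⟩ : W) = -⟨a, ha⟩ := rfl
    rw [this, map_neg]
    exact V.neg_mem _ ha'
  mem_or_inv_mem' := by
    intro x
    by_cases h0 : x = 0
    · left
      subst h0
      exact ⟨W.zero_mem, by
        have : (⟨0, W.zero_mem⟩ : W) = 0 := rfl
        rw [this, map_zero]; exact V.zero_mem⟩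
    have hnu : ∀ y : κ, ∀ hy : y ∈ W, y⁻¹ ∉ W → IsLocalRing.residue W ⟨y, hy⟩ = 0 := by
      intro y hy hy'
      rw [IsLocalRing.residue_eq_zero_iff, IsLocalRing.mem_maximalIdeal, mem_nonunits_iff]
      intro hu
      obtain ⟨u, hu⟩ := hu
      apply hy'
      have h1 : (u : W) * ((u⁻¹ : Wˣ) : W) = 1 := Units.mul_inv u
      have h2 : y * (((u⁻¹ : Wˣ) : W) : κ) = 1 := by
        have := congrArg (fun w : W => (w : κ)) h1
        rw [hu] at this
        exact this
      rw [inv_eq_of_mul_eq_one_right h2]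
      exact (((u⁻¹ : Wˣ) : W)).2
    by_cases h1 : x ∈ W
    · by_cases h2 : x⁻¹ ∈ W
      · have hmul : IsLocalRing.residue W ⟨x, h1⟩ * IsLocalRing.residue W ⟨x⁻¹, h2⟩ = 1 := by
          rw [← map_mul]
          have : (⟨x, h1⟩ : W) * ⟨x⁻¹, h2⟩ = 1 := Subtype.ext (mul_inv_cancel₀ h0)
          rw [this, map_one]
        rcases V.mem_or_inv_mem (IsLocalRing.residue W ⟨x, h1⟩) with h | h
        · exact Or.inl ⟨h1, h⟩
        · right
          refine ⟨h2, ?_⟩
          rwa [inv_eq_of_mul_eq_one_right hmul] at h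
      · left
        refine ⟨h1, ?_⟩
        rw [hnu x h1 h2]
        exact V.zero_mem
    · right
      have h2 : x⁻¹ ∈ W := (W.mem_or_inv_mem x).resolve_left h1
      refine ⟨h2, ?_⟩
      rw [hnu x⁻¹ h2 (by rwa [inv_inv])]
      exact V.zero_mem

theorem mem_comp (W : ValuationSubring κ) (V : ValuationSubring (IsLocalRing.ResidueField W))
    (x : κ) : x ∈ comp W V ↔ ∃ h : x ∈ W, IsLocalRing.residue W ⟨x, h⟩ ∈ V := Iff.rfl

/-- a minimal valuation ring containing the constants -/
theorem exists_min : ∃ W : ValuationSubring κ, (∀ c : k, algebraMap k κ c ∈ W) ∧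
    ∀ W' : ValuationSubring κ, (∀ c : k, algebraMap k κ c ∈ W') → (W' : Set κ) ⊆ W →
      (W : Set κ) ⊆ W' := by
  let S : Set (Set κ) := {s | ∃ W : ValuationSubring κ, (W : Set κ) = s ∧
    ∀ c : k, algebraMap k κ c ∈ W}
  have hS : S.Nonempty := ⟨_, ⊤, rfl, fun c => ValuationSubring.mem_top _⟩
  obtain ⟨s0, hs0⟩ := hS
  obtain ⟨m, hm1, hm2⟩ := zorn_superset_nonempty S (by
    intro c hc hchain hne
    have hW : ∀ s ∈ c, ∃ W : ValuationSubring κ, (W : Set κ) = s ∧
      ∀ c : k, algebraMap k κ c ∈ W := fun s hs => hc hs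
    let U : ValuationSubring κ :=
      { carrier := ⋂₀ c
        mul_mem' := by
          intro a b ha hb s hs
          obtain ⟨W, rfl, -⟩ := hW s hs
          exact W.mul_mem _ _ (ha _ hs) (hb _ hs)
        one_mem' := by
          intro s hs
          obtain ⟨W, rfl, -⟩ := hW s hs
          exact W.one_mem
        add_mem' := by
          intro a b ha hb s hs
          obtain ⟨W, rfl, -⟩ := hW s hs
          exact W.add_mem _ _ (ha _ hs) (hb _ hs)
        zero_mem' := by
          intro s hs
          obtain ⟨W, rfl, -⟩ := hW s hs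
          exact W.zero_mem
        neg_mem' := by
          intro a ha s hs
          obtain ⟨W, rfl, -⟩ := hW s hs
          exact W.neg_mem _ (ha _ hs)
        mem_or_inv_mem' := by
          intro x
          by_cases h : ∀ s ∈ c, x ∈ s
          · exact Or.inl fun s hs => h s hs
          · right
            push Not at h
            obtain ⟨s1, hs1, hx1⟩ := h
            intro s hs
            obtain ⟨W, hWs, -⟩ := hW s hs
            obtain ⟨W1, hWs1, -⟩ := hW s1 hs1
            rcases hchain.total hs hs1 with h | h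
            · have : x ∉ W := fun hx => hx1 (h (by rw [← hWs]; exact hx))
              rw [← hWs]
              exact (W.mem_or_inv_mem x).resolve_left this
            · have : x ∉ W1 := fun hx => hx1 (by rw [← hWs1]; exact hx)
              have h2 : x⁻¹ ∈ W1 := (W1.mem_or_inv_mem x).resolve_left this
              exact h (by rw [← hWs1]; exact h2) }
    refine ⟨⋂₀ c, ⟨U, rfl, ?_⟩, fun s hs => Set.sInter_subset_of_mem hs⟩
    intro a s hs
    obtain ⟨W, rfl, h⟩ := hW s hs
    exact h a) s0 hs0
  obtain ⟨W, hWm, hWc⟩ := hm2.1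
  refine ⟨W, hWc, ?_⟩
  intro W' hW' hle
  have := hm2.2 ⟨W', rfl, hW'⟩ (by rw [← hWm]; exact hle)
  rw [hWm]
  exact this

theorem exists_res [IsAlgClosed k] : ∃ W : ValuationSubring κ, (∀ c : k, algebraMap k κ c ∈ W) ∧
    ∀ x ∈ W, ∃ c : k, W.valuation (x - algebraMap k κ c) < 1 := by
  obtain ⟨W, hWc, hmin⟩ := exists_min (k := k) (κ := κ)
  refine ⟨W, hWc, ?_⟩
  intro x hx
  let ψ : k →+* W := (algebraMap k κ).codRestrict W.toSubring hWc
  let ρ : k →+* IsLocalRing.ResidueField W := (IsLocalRing.residue W).comp ψ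
  let _ : Algebra k (IsLocalRing.ResidueField W) := ρ.toAlgebra
  let xb : IsLocalRing.ResidueField W := IsLocalRing.residue W ⟨x, hx⟩
  have halg : IsAlgebraic k xb := by
    by_contra htr
    have htr' : Transcendental k xb := htr
    have hinj := transcendental_iff_injective.1 htr'
    have hx0 : xb ≠ 0 := by
      intro h
      apply htr
      rw [h]
      exact isAlgebraic_zero
    let A : Subring (IsLocalRing.ResidueField W) := (Algebra.adjoin k {xb}).toSubring
    have hxA : xb ∈ A := Algebra.subset_adjoin rfl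
    have hI : Ideal.span {(⟨xb, hxA⟩ : A)} ≠ ⊤ := by
      intro h
      rw [Ideal.eq_top_iff_one, Ideal.mem_span_singleton'] at h
      obtain ⟨⟨a, ha⟩, h⟩ := h
      have h1 : a * xb = 1 := congrArg (fun w : A => (w : IsLocalRing.ResidueField W)) h
      have ha' : a ∈ Algebra.adjoin k {xb} := ha
      rw [Algebra.adjoin_singleton_eq_range_aeval] at ha'
      obtain ⟨q, rfl⟩ := ha'
      have h2 : Polynomial.aeval xb (q * Polynomial.X) = Polynomial.aeval xb (1 : Polynomial k) := by
        rw [map_mul, Polynomial.aeval_X, map_one]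
        exact h1
      have h3 := congrArg (Polynomial.eval 0) (hinj h2)
      rw [Polynomial.eval_mul, Polynomial.eval_X, mul_zero, Polynomial.eval_one] at h3
      exact zero_ne_one h3
    obtain ⟨V, hV1, hV2⟩ := Ideal.image_subset_nonunits_valuationSubring _ hI
    have hxV : xb⁻¹ ∉ V := by
      have h1 : xb ∈ V.nonunits := hV2 ⟨_, Ideal.subset_span rfl, rfl⟩
      intro h2
      rw [ValuationSubring.mem_nonunits_iff_exists_mem_maximalIdeal] at h1
      obtain ⟨h3, h4⟩ := h1
      rw [IsLocalRing.mem_maximalIdeal, mem_nonunits_iff] at h4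
      apply h4
      exact IsUnit.of_mul_eq_one ⟨xb⁻¹, h2⟩ (Subtype.ext (mul_inv_cancel₀ hx0))
    have hsub := hmin (comp W V) (by
      intro c
      refine ⟨hWc c, ?_⟩
      have : algebraMap k (IsLocalRing.ResidueField W) c ∈ V :=
        hV1 ((Algebra.adjoin k {xb}).algebraMap_mem c)
      exact this) (by
      rintro y ⟨hy, -⟩
      exact hy)
    -- `x` is a unit of `W`
    have hxu : x⁻¹ ∈ W := by
      by_contra hcon
      apply hx0
      show IsLocalRing.residue W ⟨x, hx⟩ = 0
      rw [IsLocalRing.residue_eq_zero_iff, IsLocalRing.mem_maximalIdeal, mem_nonunits_iff]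
      rintro ⟨u, hu⟩
      apply hcon
      have h1 : (u : W) * ((u⁻¹ : Wˣ) : W) = 1 := Units.mul_inv u
      have h2 : x * (((u⁻¹ : Wˣ) : W) : κ) = 1 := by
        have := congrArg (fun w : W => (w : κ)) h1
        rw [hu] at this
        exact this
      rw [inv_eq_of_mul_eq_one_right h2]
      exact (((u⁻¹ : Wˣ) : W)).2
    obtain ⟨h5, h6⟩ := hsub hxu
    apply hxV
    have hxne : x ≠ 0 := by
      rintro rfl
      apply hx0
      show IsLocalRing.residue W ⟨0, hx⟩ = 0
      have : (⟨0, hx⟩ : W) = 0 := rfl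
      rw [this, map_zero]
    have hmul : IsLocalRing.residue W ⟨x, hx⟩ * IsLocalRing.residue W ⟨x⁻¹, hxu⟩ = 1 := by
      rw [← map_mul]
      have : (⟨x, hx⟩ : W) * ⟨x⁻¹, hxu⟩ = 1 := Subtype.ext (mul_inv_cancel₀ hxne)
      rw [this, map_one]
    show (IsLocalRing.residue W ⟨x, hx⟩)⁻¹ ∈ V
    rw [inv_eq_of_mul_eq_one_right hmul]
    exact h6
  -- algebraic over an algebraically closed field
  obtain ⟨c, hc⟩ : ∃ c : k, algebraMap k (IsLocalRing.ResidueField W) c = xb := by
    have hint : IsIntegral k xb := halg.isIntegral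
    have hdeg := IsAlgClosed.degree_eq_one_of_irreducible k (minpoly.irreducible hint)
    exact minpoly.mem_range_of_degree_eq_one k xb hdeg
  refine ⟨c, ?_⟩
  have h1 : IsLocalRing.residue W (⟨x, hx⟩ - ψ c) = 0 := by
    rw [map_sub]
    have : IsLocalRing.residue W (ψ c) = xb := hc
    rw [this]
    exact sub_self _
  rw [IsLocalRing.residue_eq_zero_iff] at h1
  exact (W.valuation_lt_one_iff _).1 h1

/-- the maximum of the values of a non zero finite dimensional subspace -/
theorem exists_max (W : ValuationSubring κ) (hWc : ∀ c : k, algebraMap k κ c ∈ W)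
    (U : Submodule k κ) (hU : FiniteDimensional k U) (h0 : U ≠ ⊥) :
    ∃ f ∈ U, f ≠ 0 ∧ ∀ g ∈ U, W.valuation g ≤ W.valuation f := by
  classical
  let b := Module.finBasis k U
  have hne : Nonempty (Fin (Module.finrank k U)) := by
    by_contra hcon
    rw [not_nonempty_iff] at hcon
    apply h0
    have : Module.finrank k U = 0 := by
      by_contra h
      exact hcon.false ⟨0, Nat.pos_of_ne_zero h⟩
    rwa [Submodule.finrank_eq_zero] at this
  obtain ⟨i, -, hi⟩ := Finset.exists_max_image Finset.univ (fun i => W.valuation (b i : κ))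
    Finset.univ_nonempty
  refine ⟨b i, (b i).2, ?_, ?_⟩
  · intro h
    exact b.ne_zero i (Subtype.ext h)
  · intro g hg
    have h1 := b.sum_repr ⟨g, hg⟩
    have h2 : g = ∑ j, (b.repr ⟨g, hg⟩ j) • (b j : κ) := by
      conv_lhs => rw [show g = ((⟨g, hg⟩ : U) : κ) from rfl, ← h1]
      rw [Submodule.coe_sum]
      rfl
    rw [h2]
    refine Valuation.map_sum_le W.valuation ?_
    intro j _
    rw [Algebra.smul_def, map_mul]
    calc _ ≤ 1 * W.valuation (b j : κ) := by
          refine mul_le_mul_left ?_ _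
          exact (W.valuation_le_one_iff _).2 (hWc _)
      _ ≤ _ := by rw [one_mul]; exact hi j (Finset.mem_univ _)

/-- the elements of smaller value -/
def lt (W : ValuationSubring κ) (hWc : ∀ c : k, algebraMap k κ c ∈ W) (U : Submodule k κ)
    (f : κ) (hf : f ≠ 0) : Submodule k κ where
  carrier := {g | g ∈ U ∧ W.valuation g < W.valuation f}
  add_mem' := by
    rintro a b ⟨ha, ha'⟩ ⟨hb, hb'⟩
    exact ⟨U.add_mem ha hb, Valuation.map_add_lt _ ha' hb'⟩
  zero_mem' := ⟨U.zero_mem, by
    rw [map_zero]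
    exact zero_lt_iff.2 ((Valuation.ne_zero_iff _).2 hf)⟩
  smul_mem' := by
    rintro c a ⟨ha, ha'⟩
    refine ⟨U.smul_mem _ ha, ?_⟩
    rw [Algebra.smul_def, map_mul]
    calc _ ≤ 1 * W.valuation a := by
          refine mul_le_mul_left ?_ _
          exact (W.valuation_le_one_iff _).2 (hWc _)
      _ < _ := by rw [one_mul]; exact ha'

theorem mem_lt (W : ValuationSubring κ) (hWc : ∀ c : k, algebraMap k κ c ∈ W)
    (U : Submodule k κ) (f : κ) (hf : f ≠ 0) (g : κ) :
    g ∈ lt W hWc U f hf ↔ g ∈ U ∧ W.valuation g < W.valuation f := Iff.rfl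

theorem lt_le (W : ValuationSubring κ) (hWc : ∀ c : k, algebraMap k κ c ∈ W)
    (U : Submodule k κ) (f : κ) (hf : f ≠ 0) : lt W hWc U f hf ≤ U := fun _ h => h.1

theorem finrank_lt_lt (W : ValuationSubring κ) (hWc : ∀ c : k, algebraMap k κ c ∈ W)
    (U : Submodule k κ) [FiniteDimensional k U] (f : κ) (hf : f ≠ 0) (hfU : f ∈ U) :
    Module.finrank k (lt W hWc U f hf) < Module.finrank k U := by
  refine Submodule.finrank_lt_finrank_of_lt (lt_of_le_of_ne (lt_le W hWc U f hf) ?_)
  intro h
  have : f ∈ lt W hWc U f hf := by rw [h]; exact hfU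
  exact lt_irrefl _ this.2

theorem finrank_le_lt (W : ValuationSubring κ) (hWc : ∀ c : k, algebraMap k κ c ∈ W)
    (hres : ∀ x ∈ W, ∃ c : k, W.valuation (x - algebraMap k κ c) < 1)
    (U : Submodule k κ) [FiniteDimensional k U] (f : κ) (hf : f ≠ 0) (_hfU : f ∈ U)
    (hmax : ∀ g ∈ U, W.valuation g ≤ W.valuation f) :
    Module.finrank k U ≤ Module.finrank k (lt W hWc U f hf) + 1 := by
  have hle : U ≤ lt W hWc U f hf ⊔ Submodule.span k {f} := by
    intro g hg
    have hq : g / f ∈ W := by
      rw [← W.valuation_le_one_iff, map_div₀]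
      exact div_le_one_of_le₀ (hmax g hg) zero_le
    obtain ⟨c, hc⟩ := hres _ hq
    rw [Submodule.mem_sup]
    refine ⟨g - c • f, ⟨U.sub_mem hg (U.smul_mem _ _hfU), ?_⟩, c • f,
      Submodule.smul_mem _ _ (Submodule.mem_span_singleton_self f), by abel⟩
    have h1 : g - c • f = (g / f - algebraMap k κ c) * f := by
      rw [Algebra.smul_def]
      field_simp
    rw [h1, map_mul]
    have h2 : 0 < W.valuation f := zero_lt_iff.2 ((Valuation.ne_zero_iff _).2 hf)
    exact mul_lt_of_lt_one_left h2 hc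
  have hfd : FiniteDimensional k (lt W hWc U f hf) :=
    Submodule.finiteDimensional_of_le (lt_le W hWc U f hf)
  calc Module.finrank k U ≤ Module.finrank k ↥(lt W hWc U f hf ⊔ Submodule.span k {f}) :=
        Submodule.finrank_mono hle
    _ ≤ Module.finrank k (lt W hWc U f hf) + Module.finrank k (Submodule.span k {f}) :=
        Submodule.finrank_add_le_finrank_add_finrank _ _
    _ ≤ _ := by
        have := finrank_span_singleton (K := k) hf
        omega

theorem main (W : ValuationSubring κ) (hWc : ∀ c : k, algebraMap k κ c ∈ W)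
    (hres : ∀ x ∈ W, ∃ c : k, W.valuation (x - algebraMap k κ c) < 1) (n : ℕ) :
    ∀ A B C : Submodule k κ, FiniteDimensional k A → FiniteDimensional k B →
    FiniteDimensional k C → A ≠ ⊥ → B ≠ ⊥ → (∀ a ∈ A, ∀ b ∈ B, a * b ∈ C) →
    Module.finrank k A ≤ n + 1 →
    Module.finrank k A + Module.finrank k B ≤ Module.finrank k C + 1 := by
  induction n with
  | zero =>
    intro A B C hA hB hC hA0 hB0 hmul hn
    obtain ⟨a, ha, ha0⟩ := Submodule.exists_mem_ne_zero_of_ne_bot hA0
    have h1 : Module.finrank k B ≤ Module.finrank k C := by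
      let φ : B →ₗ[k] C :=
        { toFun := fun b => ⟨a * b, hmul a ha b b.2⟩
          map_add' := fun b b' => Subtype.ext (mul_add _ _ _)
          map_smul' := fun c b => Subtype.ext (by
            show a * (c • (b : κ)) = c • (a * (b : κ))
            exact mul_smul_comm _ _ _) }
      refine LinearMap.finrank_le_finrank_of_injective (f := φ) ?_
      intro b b' hbb
      have := congrArg (fun w : C => (w : κ)) hbb
      exact Subtype.ext (mul_left_cancel₀ ha0 this)
    omega
  | succ n ih =>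
    intro A B C hA hB hC hA0 hB0 hmul hn
    obtain ⟨f, hfA, hf0, hfmax⟩ := exists_max W hWc A hA hA0
    obtain ⟨g, hgB, hg0, hgmax⟩ := exists_max W hWc B hB hB0
    have h1 := finrank_lt_lt W hWc A f hf0 hfA
    have h2 := finrank_le_lt W hWc hres A f hf0 hfA hfmax
    by_cases hA1 : lt W hWc A f hf0 = ⊥
    · rw [hA1, finrank_bot] at h2
      exact ih A B C hA hB hC hA0 hB0 hmul (by omega)
    · have h3 := finrank_lt_lt W hWc C (f * g) (mul_ne_zero hf0 hg0) (hmul f hfA g hgB)
      have hfd : FiniteDimensional k (lt W hWc A f hf0) :=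
        Submodule.finiteDimensional_of_le (lt_le W hWc A f hf0)
      have hfd' : FiniteDimensional k (lt W hWc C (f * g) (mul_ne_zero hf0 hg0)) :=
        Submodule.finiteDimensional_of_le (lt_le W hWc C (f * g) _)
      have h4 := ih (lt W hWc A f hf0) B (lt W hWc C (f * g) (mul_ne_zero hf0 hg0)) hfd hB hfd'
        hA1 hB0 (by
          rintro a ⟨haA, ha⟩ b hb
          refine ⟨hmul a haA b hb, ?_⟩
          rw [map_mul, map_mul]
          have h5 : 0 < W.valuation g := zero_lt_iff.2 ((Valuation.ne_zero_iff _).2 hg0)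
          calc W.valuation a * W.valuation b ≤ W.valuation a * W.valuation g :=
                mul_le_mul_right (hgmax b hb) _
            _ < W.valuation f * W.valuation g := mul_lt_mul_of_pos_right ha h5) (by omega)
      omega

end HOPL_

theorem hopl_proof : Stmt_HOPL := by
  intro k κ _ _ _ _ A B C hA hB hC hA0 hB0 hmul
  obtain ⟨W, hWc, hres⟩ := HOPL_.exists_res (k := k) (κ := κ)
  exact HOPL_.main W hWc hres (Module.finrank k A) A B C hA hB hC hA0 hB0 hmul (by omega)

end Pool.Agent.NUM
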