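import Pool.Agent.NUM.Stmts
import Pool.Agent.SRF.Stmts

/-!
# MLN: multiplication by a linear form
-/

set_option autoImplicit false

noncomputable section

namespace Pool.Agent.NUM

open Pool.Agent.SRF Filter

theorem mln_proof (hMUL : Stmt_MUL) (hHCH : SRF.Stmt_HCH) (hSUP : SRF.Stmt_SUP) : Stmt_MLN := by
  intro T e D hD n
  obtain ⟨-, i, hi, -⟩ := e.2
  have hx : T.x ≠ 0 := by
    have := T.surf.indep.ne_zero 0
    simpa using this
  have hy : T.y ≠ 0 := by
    have := T.surf.indep.ne_zero 1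
    simpa using this
  have hz : z T.x T.y i ≠ 0 := by
    fin_cases i
    · exact one_ne_zero
    · exact hx
    · exact hy
  have hH : T.Dv ((n : ℤ) • T.H) := by
    refine ((hSUP T.k T.F T.x T.y T.surf T.x hx).union
      (hSUP T.k T.F T.x T.y T.surf T.y hy)).subset ?_
    intro O hO
    by_contra hn
    rw [Set.mem_union, not_or, Set.mem_ofPred_eq, Set.mem_ofPred_eq, not_not, not_not] at hn
    apply hO
    show (n : ℤ) * SRF.H T.k T.x T.y O = 0
    unfold SRF.H
    rw [hn.1, hn.2]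
    simp
  have hpow : ∀ O : T.P, T.o O (z T.x T.y i ^ n) = n * T.o O (z T.x T.y i) := fun O =>
    O.isOrd.pow hz n
  refine hMUL T e D _ (z T.x T.y i ^ n) hD hH (pow_ne_zero n hz) ?_ ?_
  · right
    intro O
    have h1 := (hHCH T.k T.F T.x T.y T.surf O).2.1 i
    change _ ≤ T.o O (z T.x T.y i ^ n)
    rw [hpow O]
    show -((n : ℤ) * SRF.H T.k T.x T.y O) ≤ _
    have h2 : (0 : ℤ) ≤ n := by positivity
    change (0 : ℤ) ≤ T.o O (z T.x T.y i) + _ at h1
    nlinarith
  · have h1 := ((hHCH T.k T.F T.x T.y T.surf e).2.2 i).1 hi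
    rw [hpow e]
    show _ = -((n : ℤ) * SRF.H T.k T.x T.y e)
    rw [h1]
    ring

end Pool.Agent.NUM
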