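import Pool.Agent.NUM.Stmts
import Pool.Agent.SRF.Stmts

/-!
# MUL: multiplication by a function with exact order at `e`
-/

set_option autoImplicit false

noncomputable section

namespace Pool.Agent.NUM

open Pool.Agent.SRF Filter

namespace MUL_

/-- dimension count for an injective linear map -/
theorem dim_le {k V : Type} [Field k] [AddCommGroup V] [Module k V] (A A' B B' : Submodule k V)
    [FiniteDimensional k A] [FiniteDimensional k B] (hB : B' ≤ B)
    (m : V →ₗ[k] V) (hm : Function.Injective m) (h1 : ∀ a ∈ A, m a ∈ B)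
    (h2 : ∀ a ∈ A, m a ∈ B' → a ∈ A') (hA : A' ≤ A) :
    (Module.finrank k A : ℤ) - Module.finrank k A' ≤ Module.finrank k B - Module.finrank k B' := by
  have : FiniteDimensional k B' := Submodule.finiteDimensional_of_le hB
  have : FiniteDimensional k A' := Submodule.finiteDimensional_of_le hA
  have e1 := Submodule.finrank_sup_add_finrank_inf_eq (A.map m) B'
  have e2 : Module.finrank k (A.map m) = Module.finrank k A :=
    (LinearEquiv.finrank_eq (Submodule.equivMapOfInjective m hm A)).symm
  have e3 : Module.finrank k (A'.map m) = Module.finrank k A' :=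
    (LinearEquiv.finrank_eq (Submodule.equivMapOfInjective m hm A')).symm
  have e4 : Module.finrank k ((A.map m) ⊓ B' : Submodule k V) ≤ Module.finrank k (A'.map m) := by
    apply Submodule.finrank_mono
    rintro _ ⟨⟨a, ha, rfl⟩, hb⟩
    exact ⟨a, h2 a ha hb, rfl⟩
  have e5 : Module.finrank k ((A.map m) ⊔ B' : Submodule k V) ≤ Module.finrank k B := by
    apply Submodule.finrank_mono
    refine sup_le ?_ hB
    rintro _ ⟨a, ha, rfl⟩
    exact h1 a ha
  omega

theorem dv_sub_pr (T : Sf) (e : T.P) {D : T.P → ℤ} (hD : T.Dv D) : T.Dv (D - T.pr e) := by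
  refine (hD.union (Set.finite_singleton e)).subset ?_
  intro O hO
  by_contra hn
  rw [Set.mem_union, not_or, Function.notMem_support, Set.mem_singleton_iff] at hn
  apply hO
  show D O - T.pr e O = 0
  unfold Sf.pr
  rw [hn.1, if_neg hn.2, sub_zero]

theorem dv_add (T : Sf) {D E : T.P → ℤ} (hD : T.Dv D) (hE : T.Dv E) : T.Dv (D + E) :=
  (hD.union hE).subset (Function.support_add _ _)

end MUL_

open MUL_ in
theorem mul_proof (hFDL : SRF.Stmt_FDL) : Stmt_MUL := by
  intro T e D E f hD hE hf0 hfE hfe
  have fd : ∀ D : T.P → ℤ, T.Dv D → FiniteDimensional T.k (T.L D) := fun D hD =>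
    hFDL T.k T.F T.x T.y T.surf D hD
  have := fd D hD
  have := fd (D + E) (dv_add T hD hE)
  have hpr : ∀ O, 0 ≤ T.pr e O := by
    intro O
    unfold Sf.pr
    split <;> omega
  have hle : ∀ D : T.P → ℤ, T.L (D - T.pr e) ≤ T.L D := by
    intro D g hg
    rcases hg with h0 | h0
    · exact Or.inl h0
    · right
      intro O
      have h1 := h0 O
      have h2 := hpr O
      simp only [Pi.sub_apply] at h1
      omega
  refine dim_le (T.L D) (T.L (D - T.pr e)) (T.L (D + E)) (T.L (D + E - T.pr e)) (hle _)
    (LinearMap.mulLeft T.k f) (mul_right_injective₀ hf0) ?_ ?_ (hle _)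
  · intro g hg
    rcases hg with h0 | h0
    · left; rw [h0]; simp
    · by_cases hg0 : g = 0
      · left; rw [hg0]; simp
      right
      intro O
      show _ ≤ SRF.ord O.1 (f * g)
      rw [O.isOrd.mul _ _ hf0 hg0]
      have h1 := h0 O
      have h2 := hfE.resolve_left hf0 O
      simp only [Pi.add_apply]
      omega
  · intro g hg hfg
    by_cases hg0 : g = 0
    · left; exact hg0
    right
    intro O
    have h0 := hg.resolve_left hg0
    by_cases hO : O = e
    · subst hO
      have h1 := hfg.resolve_left (mul_ne_zero hf0 hg0) O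
      change _ ≤ SRF.ord O.1 (f * g) at h1
      rw [O.isOrd.mul _ _ hf0 hg0] at h1
      change SRF.ord O.1 f = - E O at hfe
      rw [hfe] at h1
      simp only [Pi.sub_apply, Pi.add_apply] at h1 ⊢
      omega
    · have h1 := h0 O
      have h2 : T.pr e O = 0 := by
        unfold Sf.pr; rw [if_neg hO]
      simp only [Pi.sub_apply, h2]
      omega

end Pool.Agent.NUM
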