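import Pool.Agent.NUM.Stmts
import Pool.Agent.SRF.Stmts

/-!
# NLT: the relative order of a polynomial at the primes at infinity is zero
-/

set_option autoImplicit false

noncomputable section

namespace Pool.Agent.NUM

open Pool.Agent.SRF Filter

namespace NLT_

/-- A unit plus an element of the maximal ideal. -/
theorem ord_add {F : Type} [Field F] {O : ValuationSubring F} {v : F → ℤ} (hv : IsOrd O v)
    (s : F) (hs : s = 0 ∨ 0 < v s) : 1 + s ≠ 0 ∧ v (1 + s) = 0 := by
  rcases hs with hs | hs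
  · rw [hs, add_zero]
    exact ⟨one_ne_zero, hv.one⟩
  have hs0 : s ≠ 0 := by
    rintro rfl
    rw [hv.zero] at hs
    exact lt_irrefl _ hs
  have hneg1 : v (-1 : F) = 0 := by
    have h1 := hv.mul (-1) (-1) (neg_ne_zero.2 one_ne_zero) (neg_ne_zero.2 one_ne_zero)
    rw [neg_mul_neg, one_mul, hv.one] at h1
    linarith
  have h1 : 1 + s ≠ 0 := by
    intro h
    have h2 : s = -1 := by linear_combination h
    rw [h2, hneg1] at hs
    exact lt_irrefl _ hs
  refine ⟨h1, le_antisymm ?_ ?_⟩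
  · by_contra hc
    push Not at hc
    have h3 : v (-s) = v s := by
      have h4 := hv.mul (-1) s (neg_ne_zero.2 one_ne_zero) hs0
      rw [neg_one_mul, hneg1, zero_add] at h4
      exact h4
    have h5 := hv.add h1 (neg_ne_zero.2 hs0) (by
      rw [add_neg_cancel_right]; exact one_ne_zero)
    rw [add_neg_cancel_right, hv.one, h3] at h5
    rcases min_le_iff.1 h5 with h6 | h6
    · linarith
    · linarith
  · have h5 := hv.add one_ne_zero hs0 h1
    rw [hv.one] at h5
    rw [min_eq_left hs.le] at h5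
    exact h5

theorem core {k F : Type} [Field k] [Field F] [Algebra k F] {O : ValuationSubring F} {v : F → ℤ}
    (hv : IsOrd O v) (hk : ∀ c : k, algebraMap k F c ∈ O) (a : Fin 2 → F) (α β : Fin 2)
    (hab : α ≠ β) (ha : a α ≠ 0) (h : ℤ) (hh : 0 < h) (ho : v (a α) = - h)
    (hu : a β / a α ∈ O)
    (hq : ∀ q : Polynomial k, q ≠ 0 → Polynomial.aeval (a β / a α) q ≠ 0 ∧
      (Polynomial.aeval (a β / a α) q)⁻¹ ∈ O)
    (G : MvPolynomial (Fin 2) k) (hG : G ≠ 0) :
    v (MvPolynomial.aeval a G) = - (G.totalDegree * h) := by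
  classical
  set u := a β / a α with hudef
  set w := (a α)⁻¹ with hw
  set d := G.totalDegree with hd
  have hsum : ∀ m : Fin 2 →₀ ℕ, (m.sum fun _ e => e) = m α + m β := by
    intro m
    rw [Finsupp.sum_fintype _ _ (fun _ => rfl), Fin.sum_univ_two]
    fin_cases α <;> fin_cases β
    · exact absurd rfl hab
    · rfl
    · exact add_comm _ _
    · exact absurd rfl hab
  have hprod : ∀ m : Fin 2 →₀ ℕ, ∏ i, a i ^ m i = a α ^ m α * a β ^ m β := by
    intro m
    rw [Fin.prod_univ_two]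
    fin_cases α <;> fin_cases β
    · exact absurd rfl hab
    · rfl
    · exact mul_comm _ _
    · exact absurd rfl hab
  have hle : ∀ m ∈ G.support, m α + m β ≤ d := by
    intro m hm
    rw [← hsum m]
    exact MvPolynomial.le_totalDegree hm
  let t : (Fin 2 →₀ ℕ) → F := fun m =>
    algebraMap k F (MvPolynomial.coeff m G) * w ^ (d - (m α + m β)) * u ^ m β
  have h1 : MvPolynomial.aeval a G = a α ^ d * ∑ m ∈ G.support, t m := by
    rw [MvPolynomial.aeval_def, MvPolynomial.eval₂_eq', Finset.mul_sum]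
    refine Finset.sum_congr rfl fun m hm => ?_
    rw [hprod]
    have h2 := hle m hm
    obtain ⟨r, hr⟩ := Nat.exists_eq_add_of_le h2
    have h3 : d - (m α + m β) = r := by omega
    simp only [t]
    rw [h3, hr, hw, hudef]
    have h4 : a α ^ r ≠ 0 := pow_ne_zero _ ha
    have h5 : a α ^ m β ≠ 0 := pow_ne_zero _ ha
    rw [pow_add, pow_add, inv_pow, div_pow]
    field_simp
  let q : Polynomial k := ∑ m ∈ G.support.filter (fun m => m α + m β = d),
    Polynomial.monomial (m β) (MvPolynomial.coeff m G)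
  have hqu : Polynomial.aeval u q =
      ∑ m ∈ G.support.filter (fun m => m α + m β = d), t m := by
    simp only [q, map_sum, Polynomial.aeval_monomial]
    refine Finset.sum_congr rfl fun m hm => ?_
    have h2 := (Finset.mem_filter.1 hm).2
    simp only [t]
    rw [h2, Nat.sub_self, pow_zero, mul_one]
  have hext : ∀ m m' : Fin 2 →₀ ℕ, m α = m' α → m β = m' β → m = m' := by
    intro m m' h1 h2
    ext i
    have : i = α ∨ i = β := by
      fin_cases α <;> fin_cases β <;> fin_cases i <;> simp_all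
    rcases this with h3 | h3
    · rw [h3, h1]
    · rw [h3, h2]
  have hq0 : q ≠ 0 := by
    obtain ⟨m₀, hm₀, hm₀'⟩ := Finset.exists_mem_eq_sup G.support
      (MvPolynomial.support_nonempty.2 hG) (fun m => m.sum fun _ e => e)
    have h2 : m₀ α + m₀ β = d := by
      rw [← hsum m₀]
      exact hm₀'.symm
    intro h0
    have h3 := congrArg (fun p => Polynomial.coeff p (m₀ β)) h0
    simp only [q, Polynomial.finsetSum_coeff, Polynomial.coeff_monomial,
      Polynomial.coeff_zero] at h3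
    rw [Finset.sum_eq_single m₀] at h3
    · rw [if_pos rfl] at h3
      exact (MvPolynomial.mem_support_iff.1 hm₀) h3
    · intro m hm hne
      rw [if_neg]
      intro h4
      apply hne
      have h5 := (Finset.mem_filter.1 hm).2
      exact hext _ _ (by omega) h4
    · intro h4
      exact absurd (Finset.mem_filter.2 ⟨hm₀, h2⟩) h4
  obtain ⟨hq1, hq2⟩ := hq q hq0
  have hu' : ∀ n : ℕ, u ^ n ∈ O := fun n => pow_mem hu n
  have hwO : w ∈ O := by
    rw [hv.mem _ (inv_ne_zero ha), hv.inv ha, ho]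
    linarith
  have hqO : Polynomial.aeval u q ∈ O := by
    rw [hqu]
    refine sum_mem fun m _ => ?_
    exact mul_mem (mul_mem (hk _) (pow_mem hwO _)) (hu' _)
  have hvq : v (Polynomial.aeval u q) = 0 := by
    have h2 := (hv.mem _ hq1).1 hqO
    have h3 := (hv.mem _ (inv_ne_zero hq1)).1 hq2
    rw [hv.inv hq1] at h3
    linarith
  let S : F := ∑ m ∈ G.support.filter (fun m => ¬ m α + m β = d), t m
  have hS : S * a α ∈ O := by
    rw [Finset.sum_mul]
    refine sum_mem fun m hm => ?_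
    obtain ⟨h2, h3⟩ := Finset.mem_filter.1 hm
    have h4 := hle m h2
    obtain ⟨r, hr⟩ : ∃ r, d - (m α + m β) = r + 1 := ⟨d - (m α + m β) - 1, by omega⟩
    have h5 : t m * a α = algebraMap k F (MvPolynomial.coeff m G) * w ^ r * u ^ m β := by
      simp only [t]
      rw [hr, pow_succ]
      have : w * a α = 1 := inv_mul_cancel₀ ha
      linear_combination (algebraMap k F (MvPolynomial.coeff m G) * w ^ r * u ^ m β) * this
    rw [h5]
    exact mul_mem (mul_mem (hk _) (pow_mem hwO _)) (hu' _)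
  have hsplit : ∑ m ∈ G.support, t m =
      Polynomial.aeval u q * (1 + (Polynomial.aeval u q)⁻¹ * S) := by
    rw [mul_add, mul_one, mul_inv_cancel_left₀ hq1, hqu]
    exact (Finset.sum_filter_add_sum_filter_not _ _ _).symm
  have hs : (Polynomial.aeval u q)⁻¹ * S = 0 ∨ 0 < v ((Polynomial.aeval u q)⁻¹ * S) := by
    by_cases hS0 : S = 0
    · left; rw [hS0, mul_zero]
    right
    have h2 := (hv.mem _ (mul_ne_zero hS0 ha)).1 hS
    rw [hv.mul _ _ hS0 ha, ho] at h2
    rw [hv.mul _ _ (inv_ne_zero hq1) hS0, hv.inv hq1, hvq]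
    linarith
  obtain ⟨h6, h7⟩ := ord_add hv _ hs
  rw [h1, hsplit, hv.mul _ _ (pow_ne_zero _ ha) (mul_ne_zero hq1 h6), hv.mul _ _ hq1 h6, hvq, h7,
    hv.pow ha, ho]
  ring

theorem fin3 : ∀ i j : Fin 3, i ≠ 0 → j ≠ i → j ≠ 0 → (i = 1 ∧ j = 2) ∨ (i = 2 ∧ j = 1) := by
  decide

end NLT_

open NLT_

theorem nlt_proof (hHCH : SRF.Stmt_HCH) (hNAL : SRF.Stmt_NAL) : Stmt_NLT := by
  intro T G hG e he
  obtain ⟨i, hi, -⟩ := e.2.2
  obtain ⟨hH0, hH1, hH2⟩ := hHCH T.k T.F T.x T.y T.surf e
  have hHi := (hH2 i).1 hi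
  obtain ⟨j, hj⟩ := hNAL T.k T.F T.x T.y T.surf e i hi
  change 0 < SRF.H T.k T.x T.y e at he
  change SRF.ord e.1 _ = - (_ * SRF.H T.k T.x T.y e)
  have hk : ∀ c : T.k, algebraMap T.k T.F c ∈ e.1 := fun c => e.2.const_mem T.k T.x T.y c
  have hzi : z T.x T.y i ≠ 0 := by
    intro h0
    rw [h0, e.isOrd.zero, neg_zero] at hHi
    rw [hHi] at he
    exact lt_irrefl _ he
  have hzj : z T.x T.y j / z T.x T.y i ∈ e.1 := by
    apply hi
    change IsIntegral (base T.k T.x T.y i) (z T.x T.y j / z T.x T.y i)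
    exact isIntegral_algebraMap (R := base T.k T.x T.y i) (A := T.F)
      (x := ⟨z T.x T.y j / z T.x T.y i, Algebra.subset_adjoin ⟨j, rfl⟩⟩)
  have hi0 : i ≠ 0 := by
    rintro rfl
    have : z T.x T.y 0 = 1 := rfl
    rw [this, e.isOrd.one, neg_zero] at hHi
    rw [hHi] at he
    exact lt_irrefl _ he
  have hji : j ≠ i := by
    rintro rfl
    have h1 := (hj (Polynomial.X - Polynomial.C 1) (Polynomial.X_sub_C_ne_zero 1)).1
    apply h1
    rw [map_sub, Polynomial.aeval_X, Polynomial.aeval_C, map_one, div_self hzi, sub_self]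
  have hj0 : j ≠ 0 := by
    rintro rfl
    have h1 := (hj Polynomial.X Polynomial.X_ne_zero).2
    rw [Polynomial.aeval_X] at h1
    have h2 : z T.x T.y 0 = 1 := rfl
    rw [h2, one_div, inv_inv, e.isOrd.mem _ hzi] at h1
    rw [hHi] at he
    linarith
  have ho : SRF.ord e.1 (z T.x T.y i) = - SRF.H T.k T.x T.y e := by rw [hHi, neg_neg]
  have hcase : (i = 1 ∧ j = 2) ∨ (i = 2 ∧ j = 1) := fin3 i j hi0 hji hj0
  rcases hcase with ⟨rfl, rfl⟩ | ⟨rfl, rfl⟩
  · exact core e.isOrd hk ![T.x, T.y] 0 1 (by decide) hzi _ he ho hzj hj G hG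
  · exact core e.isOrd hk ![T.x, T.y] 1 0 (by decide) hzi _ he ho hzj hj G hG

end Pool.Agent.NUM
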