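import Pool.Agent.NUM.Stmts
import Pool.Agent.SRF.Stmts

set_option autoImplicit false

noncomputable section

namespace Pool.Agent.NUM

open Pool.Agent.SRF Filter

namespace PBD_

variable (T : Sf)

theorem H_nonneg (O : T.P) : 0 ≤ T.H O := le_max_left _ _

theorem H_supp (hSUP : SRF.Stmt_SUP) : T.Dv T.H := by
  have hx : T.x ≠ 0 := by
    have := T.surf.indep.ne_zero (0 : Fin 2); simpa using this
  have hy : T.y ≠ 0 := by
    have := T.surf.indep.ne_zero (1 : Fin 2); simpa using this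
  refine ((hSUP T.k T.F T.x T.y T.surf T.x hx).union
    (hSUP T.k T.F T.x T.y T.surf T.y hy)).subset ?_
  intro O hO
  by_contra h
  have h1 : SRF.ord O.1 T.x = 0 := by
    by_contra h1; exact h (Or.inl h1)
  have h2 : SRF.ord O.1 T.y = 0 := by
    by_contra h2; exact h (Or.inr h2)
  apply hO
  change max 0 (max (- ord O.1 T.x) (- ord O.1 T.y)) = 0
  rw [h1, h2]; simp

theorem dv_smul (hSUP : SRF.Stmt_SUP) (n : ℤ) : T.Dv (n • T.H) :=
  (H_supp T hSUP).subset fun O hO h => hO (by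
    change n • T.H O = 0
    rw [h]; simp)

theorem dv_pr (e : T.P) : T.Dv (T.pr e) := by
  refine (Set.finite_singleton e).subset fun O hO => ?_
  by_contra h
  apply hO
  have : O ≠ e := h
  simp [Sf.pr, this]

theorem sl_nonneg (hFDL : SRF.Stmt_FDL) (e : T.P) (D : T.P → ℤ) (hD : T.Dv D) :
    0 ≤ T.sl e D := by
  haveI : FiniteDimensional T.k (T.L D) := hFDL T.k T.F T.x T.y T.surf D hD
  have h1 : T.L (D - T.pr e) ≤ T.L D := by
    intro f hf
    rcases hf with hf | hf
    · exact Or.inl hf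
    · right
      intro O
      have h2 := hf O
      have h3 : 0 ≤ T.pr e O := by
        unfold Sf.pr; split_ifs <;> norm_num
      change -(D O - T.pr e O) ≤ _ at h2
      omega
  have h2 := Submodule.finrank_mono h1
  unfold Sf.sl Sf.hh
  have : (Module.finrank T.k (T.L (D - T.pr e)) : ℤ) ≤ Module.finrank T.k (T.L D) := by
    exact_mod_cast h2
  linarith

/-- the Hilbert function, lower bound -/
theorem hil_ge (hHIL : Stmt_HIL) : ∃ C : ℤ, 0 ≤ C ∧ ∀ n : ℕ,
    T.dg * n ^ 2 - C * n ≤ 2 * T.hh ((n : ℤ) • T.H) := by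
  obtain ⟨C, hC⟩ := hHIL T
  have hdg : 0 ≤ T.dg := Int.natCast_nonneg _
  have hC0 : 0 ≤ C := le_trans (abs_nonneg _) (hC 0)
  refine ⟨T.dg + 2 * C, by linarith, fun n => ?_⟩
  induction n with
  | zero =>
    have : 0 ≤ T.hh (((0 : ℕ) : ℤ) • T.H) := Int.natCast_nonneg _
    push_cast at this ⊢
    linarith
  | succ n ih =>
    have h1 := (abs_le.mp (hC n)).1
    have h2 : (((n + 1 : ℕ) : ℤ)) • T.H = ((n : ℤ) + 1) • T.H := by push_cast; rfl
    rw [h2]
    push_cast
    nlinarith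

end PBD_

open PBD_ in
theorem pbd_proof (hUPS : Stmt_UPS) (hDEG : Stmt_DEG) (hHIL : Stmt_HIL) (hSUP : SRF.Stmt_SUP)
    (hFDL : SRF.Stmt_FDL) : Stmt_PBD := by
  classical
  intro T J cr Tb N hIn j m β hm hβ0 hβ E hE hE0
  have hord : ∀ O : T.P, O ∉ Tb j → - ((m : ℤ) * T.H O) ≤ T.o O β :=
    Or.resolve_left hβ hβ0
  set Q : T.P → ℤ := fun e => if e ∈ Tb j then max 0 (- T.o e β - m * T.H e) else 0 with hQ
  have hQ0 : ∀ e, 0 ≤ Q e := by
    intro e
    simp only [hQ]
    split_ifs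
    · exact le_max_left _ _
    · exact le_rfl
  have hQf : T.Dv Q := by
    refine ((hSUP T.k T.F T.x T.y T.surf β hβ0).union (H_supp T hSUP)).subset ?_
    intro e he
    by_contra hcon
    have h1 : T.o e β = 0 := by by_contra h1; exact hcon (Or.inl h1)
    have h2 : T.H e = 0 := by by_contra h2; exact hcon (Or.inr h2)
    apply he
    simp only [hQ, h1, h2]
    simp
  have hβL : β ∈ T.L ((m : ℤ) • T.H + Q) := by
    right
    intro O
    have e1 : (((m : ℤ) • T.H + Q) O) = m * T.H O + Q O := by simp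
    rw [e1]
    change _ ≤ T.o O β
    by_cases hO : O ∈ Tb j
    · have h1 : - T.o O β - m * T.H O ≤ Q O := by
        simp only [hQ, if_pos hO]; exact le_max_right _ _
      linarith
    · have h1 := hord O hO
      have h2 : Q O = 0 := by simp only [hQ, if_neg hO]
      rw [h2]; linarith
  have hex : ∀ e, Q e ≠ 0 → T.o e β = - (m * T.H e) - Q e := by
    intro e he
    by_cases hO : e ∈ Tb j
    · have h1 : Q e = max 0 (- T.o e β - m * T.H e) := by simp only [hQ, if_pos hO]
      rcases max_choice 0 (- T.o e β - m * T.H e) with h | h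
      · rw [h] at h1; exact absurd h1 he
      · rw [h] at h1; rw [h1]; ring
    · exact absurd (by simp only [hQ, if_neg hO]) he
  obtain ⟨c, hc⟩ := hUPS T Q m β hQf hQ0 hβ0 hβL hex
  obtain ⟨C, hC0, hC⟩ := hil_ge T hHIL
  choose K hK using fun e => (hDEG T e).lower
  have hpos : ∀ e, 1 ≤ T.degc e := fun e => (hDEG T e).pos
  have hsl : ∀ e : T.P, ∀ k : ℤ, T.degc e * k - |K e| ≤ T.sl e (k • T.H) := by
    intro e k
    rcases le_or_gt 0 k with hk | hk
    · obtain ⟨n, rfl⟩ := Int.eq_ofNat_of_zero_le hk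
      have h1 := hK e n
      have h2 := le_abs_self (K e)
      linarith
    · have h1 := sl_nonneg T hFDL e (k • T.H) (dv_smul T hSUP k)
      have h2 := hpos e
      have h3 := abs_nonneg (K e)
      nlinarith
  have hsum : ∀ x : T.P → ℤ, ∑ᶠ e, Q e * x e = ∑ e ∈ hQf.toFinset, Q e * x e := by
    intro x
    apply finsum_eq_sum_of_support_subset
    intro e he
    rw [Set.Finite.coe_toFinset]
    intro h1
    exact he (by change Q e * x e = 0; rw [h1, zero_mul])
  set S := ∑ e ∈ hQf.toFinset, Q e * T.degc e with hS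
  set Z := ∑ e ∈ hQf.toFinset, Q e * |K e| with hZ
  have hZ0 : 0 ≤ Z := Finset.sum_nonneg fun e _ => mul_nonneg (hQ0 e) (abs_nonneg _)
  -- the sum over `E`
  have hES : ∑ e ∈ E, (- T.o e β - m * T.H e) * T.degc e ≤ S := by
    have h1 : ∀ e ∈ E, (- T.o e β - m * T.H e) = Q e := by
      intro e he
      simp only [hQ, if_pos (hE e he)]
      rw [max_eq_right (hE0 e he)]
    rw [Finset.sum_congr rfl fun e he => by rw [h1 e he]]
    rw [hS, ← finsum_eq_sum_of_support_subset (fun e => Q e * T.degc e) (s := hQf.toFinset) (by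
      intro e he
      rw [Set.Finite.coe_toFinset]
      intro h1
      exact he (by change Q e * T.degc e = 0; rw [h1, zero_mul]))]
    have h2 : ∑ᶠ e, Q e * T.degc e = ∑ e ∈ hQf.toFinset ∪ E, Q e * T.degc e := by
      apply finsum_eq_sum_of_support_subset
      intro e he
      have : e ∈ hQf.toFinset := by
        rw [Set.Finite.mem_toFinset]
        intro h1
        exact he (by change Q e * T.degc e = 0; rw [h1, zero_mul])
      exact Finset.mem_coe.mpr (Finset.mem_union_left _ this)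
    rw [h2]
    apply Finset.sum_le_sum_of_subset_of_nonneg (Finset.subset_union_right)
    intro e _ _
    exact mul_nonneg (hQ0 e) (by linarith [hpos e])
  -- the inequality for `n = R m`
  have key : ∀ R : ℕ, S * (m * R ^ 2 - (m + 2 * c) * R) - 2 * Z * R ≤
      2 * (T.hh (((R * m : ℕ) : ℤ) • T.H + (R : ℤ) • Q) - T.hh (((R * m : ℕ) : ℤ) • T.H)) := by
    intro R
    have h1 := (hc (((R * m : ℕ) : ℤ) • T.H) (dv_smul T hSUP _) R).1
    have h2 : ∀ ρ ∈ Finset.range R, S * (R * m - (c + (ρ + 1) * m)) - Z ≤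
        ∑ᶠ e, Q e * T.sl e (((R * m : ℕ) : ℤ) • T.H - ((c + (ρ + 1) * m : ℕ) : ℤ) • T.H) := by
      intro ρ _
      rw [hsum, hS, hZ, Finset.sum_mul, ← Finset.sum_sub_distrib]
      apply Finset.sum_le_sum
      intro e _
      have h3 : ((R * m : ℕ) : ℤ) • T.H - ((c + (ρ + 1) * m : ℕ) : ℤ) • T.H =
          ((R : ℤ) * m - (c + (ρ + 1) * m)) • T.H := by
        rw [← sub_smul]; push_cast; rfl
      rw [h3]
      have h4 := mul_le_mul_of_nonneg_left (hsl e ((R : ℤ) * m - (c + (ρ + 1) * m))) (hQ0 e)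
      nlinarith
    have h5 := le_trans (Finset.sum_le_sum h2) h1
    have h6 : 2 * ∑ ρ ∈ Finset.range R, (S * ((R : ℤ) * m - (c + (ρ + 1) * m)) - Z) =
        S * (m * R ^ 2 - (m + 2 * c) * R) - 2 * Z * R := by
      have h7 : ∀ M : ℕ, 2 * ∑ ρ ∈ Finset.range M, (S * ((R : ℤ) * m - (c + (ρ + 1) * m)) - Z) =
          S * (2 * M * (R * m - c) - m * (M * (M + 1))) - 2 * Z * M := by
        intro M
        induction M with
        | zero => simp
        | succ M ih =>
          rw [Finset.sum_range_succ, mul_add, ih]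
          push_cast
          ring
      rw [h7 R]; ring
    linarith
  -- comparison with the count
  refine le_trans (Int.cast_le.mpr hES) ?_
  by_contra hcon
  push Not at hcon
  have hm' : (1 : ℝ) ≤ m := by exact_mod_cast hm
  set δ : ℝ := (S : ℝ) - 4 * N * m with hδ
  have hδ0 : 0 < δ := by rw [hδ]; linarith
  have hε : 0 < δ / (4 * m) := by positivity
  obtain ⟨n₀, hn₀⟩ := eventually_atTop.mp (hIn.up j (δ / (4 * m)) hε)
  have hreal : ∀ R : ℕ, n₀ ≤ R →
      m * δ / 4 * (R : ℝ) ^ 2 ≤ ((S : ℝ) * (m + 2 * c) / 2 + Z + C * m / 2) * R := by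
    intro R hR
    have hRm : n₀ ≤ R * m := le_trans hR (Nat.le_mul_of_pos_right R hm)
    have h1 := hn₀ (R * m) hRm
    haveI := hIn.findim j (R * m)
    have h2 : T.L (((R * m : ℕ) : ℤ) • T.H + (R : ℤ) • Q) ≤ T.WW (Tb j) (R * m) := by
      intro f hf
      rcases hf with hf | hf
      · exact Or.inl hf
      · right
        intro O hO
        have h3 := hf O
        have h4 : Q O = 0 := by simp only [hQ, if_neg hO]
        have h5 : ((((R * m : ℕ) : ℤ) • T.H + (R : ℤ) • Q) O) =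
          ((R * m : ℕ) : ℤ) * T.H O + R * Q O := by simp
        rw [h5, h4, mul_zero, add_zero] at h3
        exact h3
    have h3 := Submodule.finrank_mono h2
    have h4 : ((T.hh (((R * m : ℕ) : ℤ) • T.H + (R : ℤ) • Q) : ℤ) : ℝ) ≤
        (12 * N + δ / (4 * m)) * ((R * m : ℕ) : ℝ) ^ 2 := by
      refine le_trans ?_ h1
      unfold Sf.hh
      rw [Int.cast_natCast]
      exact_mod_cast h3
    have h5 := key R
    have h6 := hC (R * m)
    have h7 : ((S * (m * R ^ 2 - (m + 2 * c) * R) - 2 * Z * R : ℤ) : ℝ) ≤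
        ((2 * (T.hh (((R * m : ℕ) : ℤ) • T.H + (R : ℤ) • Q) -
          T.hh (((R * m : ℕ) : ℤ) • T.H)) : ℤ) : ℝ) := by exact_mod_cast h5
    have h8 : ((T.dg * ((R * m : ℕ) : ℤ) ^ 2 - C * ((R * m : ℕ) : ℤ) : ℤ) : ℝ) ≤
        ((2 * T.hh (((R * m : ℕ) : ℤ) • T.H) : ℤ) : ℝ) := by exact_mod_cast h6
    push_cast at h4 h7 h8
    rw [hIn.deg] at h8
    have h9 : (12 * N + δ / (4 * m)) * ((R : ℝ) * m) ^ 2 =
        12 * N * ((R : ℝ) * m) ^ 2 + δ * m / 4 * R ^ 2 := by
      field_simp
    rw [h9] at h4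
    have h10 : (S : ℝ) = δ + 4 * N * m := by rw [hδ]; ring
    have h11 : (S : ℝ) * m * R ^ 2 = δ * m * R ^ 2 + 4 * N * (R * m) ^ 2 := by
      rw [h10]; ring
    nlinarith
  -- contradiction
  set B : ℝ := (S : ℝ) * (m + 2 * c) / 2 + Z + C * m / 2 with hB
  obtain ⟨R, hR⟩ := exists_nat_gt (B / (m * δ / 4))
  have hmδ : 0 < m * δ / 4 := by positivity
  set R' := max (max R n₀) 1 with hR'
  have h1 := hreal R' (le_trans (le_max_right _ _) (le_max_left _ _))
  have h2 : B / (m * δ / 4) < R' := lt_of_lt_of_le hR (by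
    exact_mod_cast le_trans (le_max_left R n₀) (le_max_left _ _))
  rw [div_lt_iff₀ hmδ] at h2
  have h3 : (1 : ℝ) ≤ R' := by exact_mod_cast le_max_right _ _
  nlinarith

end Pool.Agent.NUM
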