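import Pool.Agent.NUM.Stmts
import Pool.Agent.SRF.Stmts

set_option autoImplicit false

/-!
Module POS of squad NUM: one more tube with poles.
-/

noncomputable section

namespace Pool.Agent.NUM

open Pool.Agent.SRF Filter

namespace POS_

section

variable (T : Sf)

theorem dv_zero : T.Dv 0 := by
  have : Function.support (0 : T.P → ℤ) = ∅ := Function.support_zero
  unfold Sf.Dv
  rw [this]
  exact Set.finite_empty

theorem dv_add {D E : T.P → ℤ} (hD : T.Dv D) (hE : T.Dv E) : T.Dv (D + E) :=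
  (hD.union hE).subset (Function.support_add D E)

theorem dv_sub {D E : T.P → ℤ} (hD : T.Dv D) (hE : T.Dv E) : T.Dv (D - E) :=
  (hD.union hE).subset (Function.support_sub D E)

theorem dv_smul (c : ℤ) {D : T.P → ℤ} (hD : T.Dv D) : T.Dv (c • D) :=
  hD.subset (Function.support_const_smul_subset c D)

theorem dv_sum {J : Type} (B : Finset J) (G : J → T.P → ℤ) (h : ∀ i ∈ B, T.Dv (G i)) :
    T.Dv (∑ i ∈ B, G i) := by
  classical
  induction B using Finset.induction_on with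
  | empty => rw [Finset.sum_empty]; exact dv_zero T
  | insert i B hi ih =>
    rw [Finset.sum_insert hi]
    exact dv_add T (h i (Finset.mem_insert_self _ _))
      (ih fun l hl => h l (Finset.mem_insert_of_mem hl))

theorem dv_H (hSUP : SRF.Stmt_SUP) : T.Dv T.H := by
  have hx : T.x ≠ 0 := T.surf.indep.ne_zero 0
  have hy : T.y ≠ 0 := T.surf.indep.ne_zero 1
  refine ((hSUP T.k T.F T.x T.y T.surf T.x hx).union
    (hSUP T.k T.F T.x T.y T.surf T.y hy)).subset ?_
  intro O hO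
  by_contra h
  apply hO
  simp only [Set.mem_union, Set.mem_ofPred_eq, not_or, not_not] at h
  show SRF.H T.k T.x T.y O = 0
  unfold SRF.H
  rw [h.1, h.2]
  simp

theorem dv_fl (n : ℕ) (X : T.P → ℝ) (hX : (Function.support X).Finite) : T.Dv (T.fl n X) := by
  refine hX.subset ?_
  intro O hO hcon
  apply hO
  show ⌊(n : ℝ) * X O⌋ = 0
  rw [hcon, mul_zero, Int.floor_zero]

theorem hh_mono (hFDL : SRF.Stmt_FDL) {D D' : T.P → ℤ} (hD' : T.Dv D') (h : D ≤ D') :
    T.hh D ≤ T.hh D' := by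
  have hfd : FiniteDimensional T.k (T.L D') := hFDL T.k T.F T.x T.y T.surf D' hD'
  have hle : T.L D ≤ T.L D' := by
    intro f hf
    rcases hf with hf | hf
    · exact Or.inl hf
    · right
      intro O
      have h1 := hf O
      have h2 := h O
      linarith
  have := Submodule.finrank_mono hle
  unfold Sf.hh
  exact_mod_cast this

theorem sl_mono (hMUL : Stmt_MUL) {D D' : T.P → ℤ} (hD : T.Dv D) (hD' : T.Dv D') (h : D ≤ D')
    (e : T.P) (he : D e = D' e) : T.sl e D ≤ T.sl e D' := by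
  have h1 := hMUL T e D (D' - D) 1 hD (dv_sub T hD' hD) one_ne_zero (by
    right
    intro O
    rw [O.isOrd.one]
    have := h O
    show -(D' O - D O) ≤ 0
    linarith) (by
    show SRF.ord e.1 1 = -(D' e - D e)
    rw [e.isOrd.one, he]; ring)
  rwa [add_sub_cancel] at h1

theorem sl_sum (hHOPF : Stmt_HOPF) {J : Type} (e : T.P) (D : T.P → ℤ) (hD : T.Dv D)
    (h1 : 1 ≤ T.sl e D) (B : Finset J) (G : J → T.P → ℤ) (hG : ∀ i ∈ B, T.Dv (G i))
    (hG1 : ∀ i ∈ B, 1 ≤ T.sl e (G i)) :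
    T.sl e D + ∑ i ∈ B, (T.sl e (G i) - 1) ≤ T.sl e (D + ∑ i ∈ B, G i) := by
  classical
  induction B using Finset.induction_on with
  | empty => simp
  | insert i B hi ih =>
    have h2 := ih (fun l hl => hG l (Finset.mem_insert_of_mem hl))
      (fun l hl => hG1 l (Finset.mem_insert_of_mem hl))
    have h3 : 0 ≤ ∑ i ∈ B, (T.sl e (G i) - 1) :=
      Finset.sum_nonneg fun l hl => by
        have := hG1 l (Finset.mem_insert_of_mem hl)
        linarith
    have h4 := hHOPF T e (D + ∑ i ∈ B, G i) (G i)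
      (dv_add T hD (dv_sum T B G fun l hl => hG l (Finset.mem_insert_of_mem hl)))
      (hG i (Finset.mem_insert_self _ _)) (by linarith) (hG1 i (Finset.mem_insert_self _ _))
    rw [Finset.sum_insert hi, Finset.sum_insert hi]
    have h5 : D + (G i + ∑ x ∈ B, G x) = D + ∑ i ∈ B, G i + G i := by abel
    rw [h5]
    linarith

end

/-- the sum over the blocks -/
theorem block_sum (N M n c m a v C e : ℝ) (R : ℕ) :
    ∑ ρ ∈ Finset.range R, (2 * N * (M * n - c - ((ρ : ℝ) + 1) * m - a * v) - C +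
      a * ((4 * N - e) * v)) =
    R * (2 * N * (M * n - c - a * v) - C + a * ((4 * N - e) * v)) - N * m * (R * (R + 1)) := by
  induction R with
  | zero => simp
  | succ R ih =>
    rw [Finset.sum_range_succ, ih]
    push_cast
    ring

/-- the final estimate -/
theorem final_est (N M c m a C ε e1 e2 n u v : ℝ) (hN : 0 ≤ N) (hM : 1 ≤ M) (hc : 0 ≤ c)
    (hm : 0 ≤ m) (ha : 0 ≤ a) (hC : 0 ≤ C) (_hε : 0 < ε) (he1 : 0 ≤ e1) (he1' : e1 ≤ 2)
    (he1g : e1 * (N * (2 * M - 1 / 2 + a)) ≤ ε / 2) (he2 : 0 ≤ e2) (hae2 : a * e2 ≤ ε / 2)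
    (hn : 0 ≤ n) (hu0 : 0 ≤ u) (hu1 : u ≤ n / 2) (hu2 : n / 2 - m ≤ u) (hv0 : 0 ≤ v)
    (hv1 : v ≤ n / 2) (hv2 : n / 2 - 1 / 2 ≤ v)
    (hlarge : 2 * m * (N * (2 * M - 1 / 2 + a)) + (2 * N * c + N * a + N * m + C) ≤ ε / 2 * n) :
    (N * (2 * M - 1 / 2 + a) - ε) * n ^ 2 ≤
      (2 - e1) * (u * (2 * N * (M * n - c - a * v) - C + a * ((4 * N - e2) * v)) -
        N * (u * (u + m))) := by
  set g : ℝ := N * (2 * M - 1 / 2 + a) with hg
  set K : ℝ := 2 * N * c + N * a + N * m + C with hK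
  have hg0 : 0 ≤ g := by
    rw [hg]
    refine mul_nonneg hN ?_
    linarith
  have hK0 : 0 ≤ K := by
    rw [hK]
    positivity
  have hbr : n * g - n * (a * e2 / 2) - K ≤
      2 * N * (M * n - c - a * v) - C + a * ((4 * N - e2) * v) - N * (u + m) := by
    have h1 : N * u ≤ N * (n / 2) := mul_le_mul_of_nonneg_left hu1 hN
    have h2 : N * a * (n / 2 - 1 / 2) ≤ N * a * v :=
      mul_le_mul_of_nonneg_left hv2 (mul_nonneg hN ha)
    have h3 : a * e2 * v ≤ a * e2 * (n / 2) := mul_le_mul_of_nonneg_left hv1 (mul_nonneg ha he2)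
    rw [hg, hK]
    nlinarith
  have h4 : (n / 2 - m) * (n * g) - n / 2 * (n * (a * e2 / 2) + K) ≤
      u * (2 * N * (M * n - c - a * v) - C + a * ((4 * N - e2) * v)) - N * (u * (u + m)) := by
    have h5 : u * (n * g - n * (a * e2 / 2) - K) ≤
        u * (2 * N * (M * n - c - a * v) - C + a * ((4 * N - e2) * v) - N * (u + m)) :=
      mul_le_mul_of_nonneg_left hbr hu0
    have h6 : (n / 2 - m) * (n * g) ≤ u * (n * g) :=
      mul_le_mul_of_nonneg_right hu2 (mul_nonneg hn hg0)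
    have h7 : u * (n * (a * e2 / 2) + K) ≤ n / 2 * (n * (a * e2 / 2) + K) :=
      mul_le_mul_of_nonneg_right hu1 (by positivity)
    linarith
  have h8 : (2 - e1) * ((n / 2 - m) * (n * g) - n / 2 * (n * (a * e2 / 2) + K)) ≤ _ :=
    mul_le_mul_of_nonneg_left h4 (by linarith)
  refine le_trans ?_ h8
  have h9 : (2 - e1) * ((n / 2 - m) * (n * g) - n / 2 * (n * (a * e2 / 2) + K)) =
      n ^ 2 * g - n ^ 2 * (e1 * g / 2) - (2 - e1) * (n ^ 2 * (a * e2 / 4)) -
        (2 - e1) * (n * (m * g + K / 2)) := by ring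
  rw [h9]
  have h10 : (2 - e1) * (n ^ 2 * (a * e2 / 4)) ≤ 2 * (n ^ 2 * (a * e2 / 4)) :=
    mul_le_mul_of_nonneg_right (by linarith) (by positivity)
  have h11 : (2 - e1) * (n * (m * g + K / 2)) ≤ 2 * (n * (m * g + K / 2)) :=
    mul_le_mul_of_nonneg_right (by linarith) (by positivity)
  have h12 : n ^ 2 * (e1 * g) ≤ n ^ 2 * (ε / 2) := mul_le_mul_of_nonneg_left he1g (by positivity)
  have h13 : n ^ 2 * (a * e2) ≤ n ^ 2 * (ε / 2) := mul_le_mul_of_nonneg_left hae2 (by positivity)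
  have h14 : n * (2 * m * g + K) ≤ n * (ε / 2 * n) := mul_le_mul_of_nonneg_left hlarge hn
  nlinarith

end POS_

open POS_ in
theorem pos_proof (hUPS : Stmt_UPS) (hHOPF : Stmt_HOPF) (hMUL : Stmt_MUL) (_hMLN : Stmt_MLN)
    (hDEG : Stmt_DEG) (hSUP : SRF.Stmt_SUP) (hFDL : SRF.Stmt_FDL) : Stmt_POS := by
  classical
  intro T J _ Tb N X A A' j hN hA'A hjA hTub hTubj hdisj hRho
  have hH := dv_H T hSUP
  have hH0 : ∀ O, 0 ≤ T.H O := fun O => le_max_left _ _
  choose Cz hCz using fun e => (hDEG T e).lower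
  let S : Finset T.P := hTubj.fin.toFinset
  have hS : ∀ e, X j e ≠ 0 ↔ e ∈ S := fun e => by
    rw [Set.Finite.mem_toFinset]; rfl
  -- one constant for all `e ∈ S`
  obtain ⟨C, hC⟩ : ∃ C : ℕ, ∀ e ∈ S, Cz e ≤ C := by
    refine ⟨∑ e ∈ S, (Cz e).toNat, ?_⟩
    intro e he
    calc Cz e ≤ ((Cz e).toNat : ℤ) := Int.self_le_toNat _
      _ ≤ _ := by
        exact_mod_cast Finset.single_le_sum (f := fun e => (Cz e).toNat)
          (fun _ _ => Nat.zero_le _) he
  have hdeg : ∀ e ∈ S, ∀ n : ℕ, T.degc e * n - C ≤ T.sl e ((n : ℤ) • T.H) := by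
    intro e he n
    have := hCz e n
    have := hC e he
    linarith
  have hdeg1 : ∀ e, 1 ≤ T.degc e := fun e => (hDEG T e).pos
  have hXj0 : ∀ e, 0 ≤ X j e := hTubj.nonneg
  have hsumdeg : ∑ e ∈ S, X j e * (T.degc e : ℝ) = 2 * N := by
    have h := hTubj.deg
    rw [finsum_eq_sum_of_support_subset (s := S)] at h
    · exact h
    · intro e he
      have : X j e ≠ 0 := fun h0 => he (by show X j e * _ = 0; rw [h0, zero_mul])
      exact (hS e).1 this
  refine ⟨A'.card + 2, ?_⟩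
  intro M hM ε hε
  -- choice of the small constants
  set a : ℝ := (A'.card : ℝ) with ha
  have ha0 : 0 ≤ a := Nat.cast_nonneg _
  have hM1 : (1 : ℝ) ≤ M := by
    have : 1 ≤ M := by omega
    exact_mod_cast this
  set g : ℝ := N * (2 * M - 1 / 2 + a) with hg
  have hg0 : 0 ≤ g := mul_nonneg hN (by linarith)
  obtain ⟨e1, he1, he1', he1g⟩ : ∃ e1 : ℝ, 0 < e1 ∧ e1 ≤ 1 ∧ e1 * g ≤ ε / 2 := by
    refine ⟨min 1 (ε / (2 * (g + 1))), lt_min one_pos (by positivity), min_le_left _ _, ?_⟩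
    calc _ ≤ ε / (2 * (g + 1)) * g := mul_le_mul_of_nonneg_right (min_le_right _ _) hg0
      _ = ε / 2 * (g / (g + 1)) := by field_simp
      _ ≤ ε / 2 * 1 := by
        refine mul_le_mul_of_nonneg_left ?_ (by positivity)
        rw [div_le_one (by positivity)]
        linarith
      _ = _ := mul_one _
  obtain ⟨e2, he2, hae2⟩ : ∃ e2 : ℝ, 0 < e2 ∧ a * e2 ≤ ε / 2 := by
    refine ⟨ε / (2 * (a + 1)), by positivity, ?_⟩
    calc _ = ε / 2 * (a / (a + 1)) := by field_simp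
      _ ≤ ε / 2 * 1 := by
        refine mul_le_mul_of_nonneg_left ?_ (by positivity)
        rw [div_le_one (by positivity)]
        linarith
      _ = _ := mul_one _
  obtain ⟨m, hm, Q, β, hβ0, hβL, hβo, hQ1, hQ2⟩ := hTubj.bet e1 he1
  have hm' : (1 : ℝ) ≤ m := by exact_mod_cast hm
  have hQ0 : ∀ e, 0 ≤ Q e := by
    intro e
    have h1 := hQ1 e
    have h2 : 0 ≤ (2 - e1) * m * X j e :=
      mul_nonneg (mul_nonneg (by linarith) (by linarith)) (hXj0 e)
    have h3 : (0 : ℝ) ≤ Q e := le_trans h2 h1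
    exact_mod_cast h3
  have hQS : ∀ e, Q e ≠ 0 → e ∈ S := by
    intro e he
    rw [← hS]
    intro h0
    apply he
    have h1 := hQ2 e
    rw [h0, mul_zero] at h1
    have h2 : Q e ≤ 0 := by exact_mod_cast h1
    exact le_antisymm h2 (hQ0 e)
  have hQd : T.Dv Q := S.finite_toSet.subset fun e he => hQS e he
  obtain ⟨c, hc⟩ := hUPS T Q m β hQd hQ0 hβ0 hβL hβo
  set C' : ℝ := ∑ e ∈ S, X j e * ((C : ℝ) + a) with hC'
  have hC'0 : 0 ≤ C' := Finset.sum_nonneg fun e _ => mul_nonneg (hXj0 e) (by positivity)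
  -- eventually
  have hhalf : Tendsto (fun n : ℕ => n / 2) atTop atTop :=
    Nat.tendsto_div_const_atTop two_ne_zero
  have hev1 : ∀ᶠ n : ℕ in atTop, ∀ i ∈ A', (4 * N - e2) * ((n / 2 : ℕ) : ℝ) ≤
      ∑ᶠ e, X j e * (T.sl e (((n / 2 : ℕ) : ℤ) • T.H + T.fl (2 * (n / 2)) (X i)) : ℝ) := by
    rw [Finset.eventually_all]
    intro i hi
    exact hhalf.eventually (hRho i hi e2 he2)
  have hev2 : ∀ᶠ n : ℕ in atTop, C + 1 ≤ n / 2 := hhalf.eventually (eventually_ge_atTop _)
  have hev3 : ∀ᶠ n : ℕ in atTop, C + c + 1 ≤ n := eventually_ge_atTop _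
  have hev4 : ∀ᶠ n : ℕ in atTop,
      2 * (m : ℝ) * g + (2 * N * c + N * a + N * m + C') ≤ ε / 2 * n := by
    have h1 : Tendsto (fun n : ℕ => ε / 2 * (n : ℝ)) atTop atTop :=
      tendsto_natCast_atTop_atTop.const_mul_atTop (by positivity)
    exact h1.eventually (eventually_ge_atTop _)
  filter_upwards [hev1, hev2, hev3, hev4] with n h1 h2 h3 h4
  -- notations
  obtain ⟨n', hn'⟩ : ∃ n' : ℕ, n' = n / 2 := ⟨_, rfl⟩
  rw [← hn'] at h1 h2
  obtain ⟨R, hR⟩ : ∃ R : ℕ, R = n / (2 * m) := ⟨_, rfl⟩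
  have hmR : 2 * m * R ≤ n := by rw [hR]; exact Nat.mul_div_le _ _
  have hmR2 : n < 2 * m * (R + 1) := by
    rw [hR]
    exact Nat.lt_mul_div_succ n (by omega)
  have hn1 : 2 * n' ≤ n := by omega
  have hn2 : n ≤ 2 * n' + 1 := by omega
  set Dn : T.P → ℤ := ((M * n : ℕ) : ℤ) • T.H + ∑ i ∈ A, T.fl n (X i) with hDn
  have hDnd : T.Dv Dn := dv_add T (dv_smul T _ hH)
    (dv_sum T A _ fun i hi => dv_fl T n (X i) (hTub i hi).fin)
  have hflj := dv_fl T n (X j) hTubj.fin
  -- replace the floor by `R Q`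
  have hstep1 : T.hh (Dn + (R : ℤ) • Q) ≤ T.hh (Dn + T.fl n (X j)) := by
    refine hh_mono T hFDL (dv_add T hDnd hflj) ?_
    intro O
    show Dn O + (R : ℤ) * Q O ≤ Dn O + ⌊(n : ℝ) * X j O⌋
    have h5 : ((R : ℤ) * Q O) ≤ ⌊(n : ℝ) * X j O⌋ := by
      rw [Int.le_floor]
      push_cast
      have h6 : (R : ℝ) * Q O ≤ R * (2 * m * X j O) :=
        mul_le_mul_of_nonneg_left (hQ2 O) (Nat.cast_nonneg _)
      have h7 : (2 * m * R : ℝ) * X j O ≤ n * X j O := by
        refine mul_le_mul_of_nonneg_right ?_ (hXj0 O)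
        exact_mod_cast hmR
      linarith
    linarith
  have hstep2 := (hc Dn hDnd R).1
  -- the lower bound for one block
  have hblock : ∀ ρ ∈ Finset.range R,
      (2 - e1) * m * (2 * N * (M * n - c - ((ρ : ℝ) + 1) * m - a * n') - C' +
        a * ((4 * N - e2) * n')) ≤
      ((∑ᶠ e, Q e * T.sl e (Dn - ((c + (ρ + 1) * m : ℕ) : ℤ) • T.H) : ℤ) : ℝ) := by
    intro ρ hρ
    rw [Finset.mem_range] at hρ
    have hρm : 2 * ((ρ + 1) * m) ≤ n := by
      calc 2 * ((ρ + 1) * m) ≤ 2 * (R * m) := by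
            refine Nat.mul_le_mul_left _ (Nat.mul_le_mul_right _ hρ)
        _ = 2 * m * R := by ring
        _ ≤ n := hmR
    obtain ⟨k, hk⟩ : ∃ k : ℤ, k = (M * n : ℕ) - (c + (ρ + 1) * m : ℕ) - A'.card * n' := ⟨_, rfl⟩
    have hkC : (C : ℤ) + 1 ≤ k := by
      rw [hk]
      have h5 : (A'.card + 2) * n ≤ M * n := Nat.mul_le_mul_right _ hM
      have h6 : A'.card * n' ≤ A'.card * n := Nat.mul_le_mul_left _ (by omega)
      push_cast at *
      have h5' : ((A'.card : ℤ) + 2) * n ≤ M * n := by exact_mod_cast h5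
      have h6' : (A'.card : ℤ) * n' ≤ A'.card * n := by exact_mod_cast h6
      have h7' : 2 * (((ρ : ℤ) + 1) * m) ≤ n := by exact_mod_cast hρm
      have h8' : (C : ℤ) + c + 1 ≤ n := by exact_mod_cast h3
      nlinarith
    obtain ⟨k', hk'⟩ : ∃ k' : ℕ, (k' : ℤ) = k := ⟨k.toNat, Int.toNat_of_nonneg (by omega)⟩
    have hslice : ∀ e ∈ S, T.degc e * k - C - A'.card +
        ∑ i ∈ A', T.sl e ((n' : ℤ) • T.H + T.fl (2 * n') (X i)) ≤
        T.sl e (Dn - ((c + (ρ + 1) * m : ℕ) : ℤ) • T.H) ∧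
        0 ≤ T.degc e * k - C - A'.card +
        ∑ i ∈ A', T.sl e ((n' : ℤ) • T.H + T.fl (2 * n') (X i)) := by
      intro e he
      have hXe : ∀ i ∈ A, X i e = 0 := by
        intro i hi
        by_contra hcon
        exact ((hS e).2 he) (hdisj i hi e hcon)
      have hfl0 : ∀ i ∈ A, ∀ n : ℕ, T.fl n (X i) e = 0 := by
        intro i hi n
        show ⌊(n : ℝ) * X i e⌋ = 0
        rw [hXe i hi, mul_zero, Int.floor_zero]
      have hflnn : ∀ i ∈ A, ∀ n : ℕ, ∀ O, 0 ≤ T.fl n (X i) O := by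
        intro i hi n O
        exact Int.floor_nonneg.2 (mul_nonneg (Nat.cast_nonneg _) ((hTub i hi).nonneg O))
      have hGd : ∀ i ∈ A', T.Dv ((n' : ℤ) • T.H + T.fl (2 * n') (X i)) := fun i hi =>
        dv_add T (dv_smul T _ hH) (dv_fl T _ _ (hTub i (hA'A hi)).fin)
      have hG1 : ∀ i ∈ A', 1 ≤ T.sl e ((n' : ℤ) • T.H + T.fl (2 * n') (X i)) := by
        intro i hi
        have h5 := sl_mono T hMUL (dv_smul T (n' : ℤ) hH) (hGd i hi) (by
          intro O
          show (n' : ℤ) * T.H O ≤ (n' : ℤ) * T.H O + T.fl (2 * n') (X i) O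
          have := hflnn i (hA'A hi) (2 * n') O
          linarith) e (by
          show (n' : ℤ) * T.H e = (n' : ℤ) * T.H e + T.fl (2 * n') (X i) e
          rw [hfl0 i (hA'A hi), add_zero])
        have h6 := hdeg e he n'
        have h7 : (n' : ℤ) ≤ T.degc e * n' := by
          have := hdeg1 e
          nlinarith [Int.natCast_nonneg n']
        have h8 : (C : ℤ) + 1 ≤ n' := by exact_mod_cast h2
        linarith
      have hk1 : 1 ≤ T.sl e ((k' : ℤ) • T.H) := by
        have h6 := hdeg e he k'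
        rw [hk'] at h6
        have h7 : k ≤ T.degc e * k := by
          have := hdeg1 e
          nlinarith
        rw [hk']
        linarith
      have h9 := sl_sum T hHOPF e ((k' : ℤ) • T.H) (dv_smul T _ hH) hk1 A'
        (fun i => (n' : ℤ) • T.H + T.fl (2 * n') (X i)) hGd hG1
      have h10 : T.sl e ((k' : ℤ) • T.H + ∑ i ∈ A', ((n' : ℤ) • T.H + T.fl (2 * n') (X i))) ≤
          T.sl e (Dn - ((c + (ρ + 1) * m : ℕ) : ℤ) • T.H) := by
        refine sl_mono T hMUL (dv_add T (dv_smul T _ hH) (dv_sum T _ _ hGd))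
          (dv_sub T hDnd (dv_smul T _ hH)) ?_ e ?_
        · intro O
          show (k' : ℤ) * T.H O + (∑ i ∈ A', ((n' : ℤ) • T.H + T.fl (2 * n') (X i))) O ≤
            ((M * n : ℕ) : ℤ) * T.H O + (∑ i ∈ A, T.fl n (X i)) O -
              ((c + (ρ + 1) * m : ℕ) : ℤ) * T.H O
          rw [Finset.sum_apply, Finset.sum_apply]
          have h11 : ∑ i ∈ A', ((n' : ℤ) • T.H + T.fl (2 * n') (X i)) O =
              A'.card * (n' * T.H O) + ∑ i ∈ A', T.fl (2 * n') (X i) O := by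
            rw [← nsmul_eq_mul, ← Finset.sum_const, ← Finset.sum_add_distrib]
            rfl
          have h12 : ∑ i ∈ A', T.fl (2 * n') (X i) O ≤ ∑ i ∈ A, T.fl n (X i) O := by
            calc _ ≤ ∑ i ∈ A', T.fl n (X i) O := by
                  refine Finset.sum_le_sum fun i hi => ?_
                  refine Int.floor_le_floor ?_
                  refine mul_le_mul_of_nonneg_right ?_ ((hTub i (hA'A hi)).nonneg O)
                  exact_mod_cast hn1
              _ ≤ _ := Finset.sum_le_sum_of_subset_of_nonneg hA'A fun i hi _ => hflnn i hi n O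
          rw [h11, hk', hk]
          have h13 : (((M * n : ℕ) : ℤ) - (c + (ρ + 1) * m : ℕ) - A'.card * n') * T.H O +
              (A'.card * (n' * T.H O) + ∑ i ∈ A', T.fl (2 * n') (X i) O) =
              ((M * n : ℕ) : ℤ) * T.H O + ∑ i ∈ A', T.fl (2 * n') (X i) O -
              ((c + (ρ + 1) * m : ℕ) : ℤ) * T.H O := by ring
          rw [h13]
          linarith
        · show (k' : ℤ) * T.H e + (∑ i ∈ A', ((n' : ℤ) • T.H + T.fl (2 * n') (X i))) e =
            ((M * n : ℕ) : ℤ) * T.H e + (∑ i ∈ A, T.fl n (X i)) e -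
              ((c + (ρ + 1) * m : ℕ) : ℤ) * T.H e
          rw [Finset.sum_apply, Finset.sum_apply]
          have h11 : ∑ i ∈ A', ((n' : ℤ) • T.H + T.fl (2 * n') (X i)) e =
              A'.card * (n' * T.H e) := by
            rw [← nsmul_eq_mul, ← Finset.sum_const]
            refine Finset.sum_congr rfl fun i hi => ?_
            show (n' : ℤ) * T.H e + T.fl (2 * n') (X i) e = (n' : ℤ) * T.H e
            rw [hfl0 i (hA'A hi), add_zero]
          have h12 : ∑ i ∈ A, T.fl n (X i) e = 0 :=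
            Finset.sum_eq_zero fun i hi => hfl0 i hi n
          rw [h11, h12, hk', hk]
          ring
      have h14 : ∑ i ∈ A', (T.sl e ((n' : ℤ) • T.H + T.fl (2 * n') (X i)) - 1) =
          ∑ i ∈ A', T.sl e ((n' : ℤ) • T.H + T.fl (2 * n') (X i)) - A'.card := by
        rw [Finset.sum_sub_distrib, Finset.sum_const, nsmul_eq_mul, mul_one]
      have h15 := hdeg e he k'
      rw [hk'] at h15 h9 h10
      have h16 : (0 : ℤ) ≤ ∑ i ∈ A', (T.sl e ((n' : ℤ) • T.H + T.fl (2 * n') (X i)) - 1) :=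
        Finset.sum_nonneg fun i hi => by
          have := hG1 i hi
          linarith
      have h17 : k ≤ T.degc e * k := by
        have := hdeg1 e
        nlinarith
      constructor
      · linarith
      · linarith
    have hsum : ((∑ᶠ e, Q e * T.sl e (Dn - ((c + (ρ + 1) * m : ℕ) : ℤ) • T.H) : ℤ) : ℝ) =
        ∑ e ∈ S, (Q e : ℝ) * (T.sl e (Dn - ((c + (ρ + 1) * m : ℕ) : ℤ) • T.H) : ℝ) := by
      rw [finsum_eq_sum_of_support_subset (s := S)]
      · push_cast
        rfl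
      · intro e he
        apply hQS
        intro h0
        apply he
        show Q e * _ = 0
        rw [h0, zero_mul]
    rw [hsum]
    -- Rho sums over `S`
    have hrho : ∀ i ∈ A', (4 * N - e2) * (n' : ℝ) ≤
        ∑ e ∈ S, X j e * (T.sl e ((n' : ℤ) • T.H + T.fl (2 * n') (X i)) : ℝ) := by
      intro i hi
      have h5 := h1 i hi
      rw [finsum_eq_sum_of_support_subset (s := S)] at h5
      · exact h5
      · intro e he
        rw [Finset.mem_coe, ← hS]
        intro h0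
        apply he
        show X j e * _ = 0
        rw [h0, zero_mul]
    have hlow : ∑ e ∈ S, ((2 - e1) * m * X j e) * ((T.degc e * k - C - A'.card +
        ∑ i ∈ A', T.sl e ((n' : ℤ) • T.H + T.fl (2 * n') (X i)) : ℤ) : ℝ) ≤
        ∑ e ∈ S, (Q e : ℝ) * (T.sl e (Dn - ((c + (ρ + 1) * m : ℕ) : ℤ) • T.H) : ℝ) := by
      refine Finset.sum_le_sum fun e he => ?_
      obtain ⟨h5, h6⟩ := hslice e he
      have h5' : ((T.degc e * k - C - A'.card +
        ∑ i ∈ A', T.sl e ((n' : ℤ) • T.H + T.fl (2 * n') (X i)) : ℤ) : ℝ) ≤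
        (T.sl e (Dn - ((c + (ρ + 1) * m : ℕ) : ℤ) • T.H) : ℝ) := Int.cast_le.2 h5
      have h6' : (0 : ℝ) ≤ ((T.degc e * k - C - A'.card +
        ∑ i ∈ A', T.sl e ((n' : ℤ) • T.H + T.fl (2 * n') (X i)) : ℤ) : ℝ) :=
        Int.cast_nonneg h6
      exact mul_le_mul (hQ1 e) h5' h6' (by exact_mod_cast hQ0 e)
    refine le_trans ?_ hlow
    have hexp : ∑ e ∈ S, ((2 - e1) * m * X j e) * ((T.degc e * k - C - A'.card +
        ∑ i ∈ A', T.sl e ((n' : ℤ) • T.H + T.fl (2 * n') (X i)) : ℤ) : ℝ) =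
        (2 - e1) * m * ((∑ e ∈ S, X j e * (T.degc e : ℝ)) * k - C' + ∑ i ∈ A', ∑ e ∈ S,
          X j e * (T.sl e ((n' : ℤ) • T.H + T.fl (2 * n') (X i)) : ℝ)) := by
      rw [Finset.sum_comm (s := A'), hC', Finset.sum_mul, ← Finset.sum_sub_distrib,
        ← Finset.sum_add_distrib, Finset.mul_sum]
      refine Finset.sum_congr rfl fun e _ => ?_
      push_cast
      rw [← Finset.mul_sum]
      ring
    rw [hexp]
    refine mul_le_mul_of_nonneg_left ?_ (mul_nonneg (by linarith) (by linarith))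
    have hk'' : (k : ℝ) = M * n - c - ((ρ : ℝ) + 1) * m - a * n' := by
      rw [hk]
      push_cast
      ring
    have hsr : a * ((4 * N - e2) * n') ≤ ∑ i ∈ A', ∑ e ∈ S,
          X j e * (T.sl e ((n' : ℤ) • T.H + T.fl (2 * n') (X i)) : ℝ) := by
      rw [ha, ← nsmul_eq_mul, ← Finset.sum_const]
      exact Finset.sum_le_sum hrho
    rw [hsumdeg, hk'']
    linarith
  -- sum over the blocks
  have htot := Finset.sum_le_sum hblock
  rw [← Finset.mul_sum, block_sum] at htot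
  have hcast : ((∑ ρ ∈ Finset.range R, ∑ᶠ e, Q e *
      T.sl e (Dn - ((c + (ρ + 1) * m : ℕ) : ℤ) • T.H) : ℤ) : ℝ) ≤
      ((T.hh (Dn + T.fl n (X j)) - T.hh Dn : ℤ) : ℝ) := by
    refine Int.cast_le.2 ?_
    linarith
  refine le_trans ?_ hcast
  rw [Int.cast_sum]
  refine le_trans ?_ htot
  have hmR' : (m : ℝ) * R ≤ n / 2 := by
    have : (2 * m * R : ℝ) ≤ n := by exact_mod_cast hmR
    linarith
  have hmR2' : (n : ℝ) / 2 - m ≤ m * R := by
    have : (n : ℝ) ≤ 2 * m * (R + 1) := by exact_mod_cast hmR2.le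
    linarith
  have hv1 : (n' : ℝ) ≤ n / 2 := by
    have : (2 * n' : ℝ) ≤ n := by exact_mod_cast hn1
    linarith
  have hv2 : (n : ℝ) / 2 - 1 / 2 ≤ n' := by
    have : (n : ℝ) ≤ 2 * n' + 1 := by exact_mod_cast hn2
    linarith
  have hfin := final_est N M c m a C' ε e1 e2 n (m * R) n' hN hM1 (Nat.cast_nonneg _)
    (Nat.cast_nonneg _) ha0 hC'0 hε he1.le (by linarith) he1g he2.le hae2 (Nat.cast_nonneg _)
    (by positivity) hmR' hmR2' (Nat.cast_nonneg _) hv1 hv2 h4
  refine le_trans hfin (le_of_eq ?_)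
  ring

end Pool.Agent.NUM
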