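import Pool.Agent.NUM.Stmts
import Pool.Agent.SRF.Stmts

/-!
# Numerics, module PSL: pseudo-effectivity from volumes
-/

set_option autoImplicit false

noncomputable section

namespace Pool.Agent.NUM

open Pool.Agent.SRF Filter

namespace PSL_

/-! ### the asymptotic argument -/

theorem sumup (f : ℕ → ℝ) (g B : ℝ) (hg : 0 ≤ g) (q N : ℕ) (hqN : q ≤ N)
    (h : ∀ k, q ≤ k → k < N → f (k + 1) - f k ≤ g * k + B) :
    f N - f q ≤ g * ((N : ℝ) ^ 2 - (q : ℝ) ^ 2) / 2 + ((N : ℝ) - q) * B := by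
  induction N, hqN using Nat.le_induction with
  | base => simp
  | succ N hN ih =>
    have h1 := ih (fun k hk hk' => h k hk (by omega))
    have h2 := h N hN (by omega)
    push_cast
    nlinarith

theorem stepA (g C C₂ : ℝ) (a : ℕ) (hg : 0 < g) (hm : ℕ → ℕ → ℝ)
    (bm : ∀ n, 1 ≤ n → hm n (a * n) ≤ C₂ * (n : ℝ) ^ 2)
    (h2 : ∀ (n k' j : ℕ), a * n ≤ k' →
      (hm n (k' + 1) - hm n k') + g * (j : ℝ) - C ≤ hm n (k' + j + 1) - hm n (k' + j))
    (e2 : ∃ M₀ : ℕ, ∀ M : ℕ, M₀ ≤ M → ∀ ε : ℝ, 0 < ε → ∀ᶠ n : ℕ in atTop,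
      (g * M ^ 2 / 2 - ε) * n ^ 2 ≤ hm n (M * n))
    (ε' : ℝ) (hε' : 0 < ε') : ∃ M : ℕ, a ≤ M ∧ ∀ᶠ n : ℕ in atTop,
      g * (M * n) - ε' * n ≤ hm n (M * n + 1) - hm n (M * n) := by
  obtain ⟨M₀, hM₀⟩ := e2
  obtain ⟨A, hA⟩ := exists_nat_ge (2 * (1 + |C₂|) / ε')
  have hA' : 1 + |C₂| ≤ ε' / 2 * A := by
    rw [div_le_iff₀ hε'] at hA
    linarith
  refine ⟨max M₀ (a + A + 1), le_trans (by omega) (le_max_right _ _), ?_⟩
  set M := max M₀ (a + A + 1) with hMdef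
  have hMa : a + A + 1 ≤ M := le_max_right _ _
  obtain ⟨n₁, hn₁⟩ := exists_nat_ge (2 * C / ε')
  filter_upwards [hM₀ M (le_max_left _ _) 1 one_pos, eventually_ge_atTop 1,
    eventually_ge_atTop n₁] with n hn hn1 hnn
  have hnR : (1 : ℝ) ≤ n := by exact_mod_cast hn1
  have hCn : C ≤ ε' / 2 * n := by
    have h3 : 2 * C / ε' ≤ n := hn₁.trans (by exact_mod_cast hnn)
    rw [div_le_iff₀ hε'] at h3
    linarith
  set l := hm n (M * n + 1) - hm n (M * n) with hl
  have haM : a * n ≤ M * n := Nat.mul_le_mul_right _ (by omega)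
  have key := sumup (hm n) g (l + C - g * (M * n)) hg.le (a * n) (M * n) haM (by
    intro k hk hk'
    have h3 := h2 n k (M * n - k) hk
    have h4 : k + (M * n - k) = M * n := by omega
    rw [h4] at h3
    have h5 : ((M * n - k : ℕ) : ℝ) = M * n - k := by
      rw [Nat.cast_sub hk'.le]; push_cast; ring
    rw [h5] at h3
    rw [← hl] at h3
    linarith)
  push_cast at key
  have hb := bm n hn1
  have hMaR : (a : ℝ) + A + 1 ≤ M := by exact_mod_cast hMa
  have habs : C₂ ≤ |C₂| := le_abs_self _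
  set B := l + C - g * (M * n) with hB
  have h6 : -(1 + |C₂|) * (n : ℝ) ^ 2 ≤ ((M : ℝ) - a) * n * B := by
    have h7 : 0 ≤ g * ((a : ℝ) * n) ^ 2 := by positivity
    nlinarith [sq_nonneg (n : ℝ)]
  have h8 : -(1 + |C₂|) * (n : ℝ) ≤ ((M : ℝ) - a) * B := by
    by_contra hc
    push Not at hc
    have : ((M : ℝ) - a) * B * n < -(1 + |C₂|) * (n : ℝ) * n :=
      mul_lt_mul_of_pos_right hc (by linarith)
    nlinarith
  have hMa0 : (0 : ℝ) < (M : ℝ) - a := by
    have : (0 : ℝ) ≤ A := Nat.cast_nonneg _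
    linarith
  have h9 : -(ε' / 2) * n ≤ B := by
    by_contra hc
    push Not at hc
    have h10 : ((M : ℝ) - a) * B < ((M : ℝ) - a) * (-(ε' / 2) * n) :=
      mul_lt_mul_of_pos_left hc hMa0
    have h11 : (1 + |C₂|) * (n : ℝ) ≤ (ε' / 2 * ((M : ℝ) - a)) * n := by
      apply mul_le_mul_of_nonneg_right _ (by linarith)
      have : ε' / 2 * A ≤ ε' / 2 * ((M : ℝ) - a) :=
        mul_le_mul_of_nonneg_left (by linarith) (by linarith)
      linarith
    nlinarith
  have h12 : l = B - C + g * (M * n) := by rw [hB]; ring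
  rw [h12]
  linarith

theorem core (g C C₂ : ℝ) (a : ℕ) (hg : 0 < g) (hC : 0 ≤ C) (hp hm : ℕ → ℕ → ℝ)
    (nn : ∀ n k, 0 ≤ hp n k)
    (bm : ∀ n, 1 ≤ n → hm n (a * n) ≤ C₂ * (n : ℝ) ^ 2)
    (h1 : ∀ (n k k' : ℕ), a * n ≤ k' → hp n (k + 1) ≠ 0 →
      (hp n (k + 1) - hp n k) + (hm n (k' + 1) - hm n k') ≤ g * ((k : ℝ) + k') + C)
    (h2 : ∀ (n k' j : ℕ), a * n ≤ k' →
      (hm n (k' + 1) - hm n k') + g * (j : ℝ) - C ≤ hm n (k' + j + 1) - hm n (k' + j))
    (e1 : ∃ M₀ : ℕ, ∀ M : ℕ, M₀ ≤ M → ∀ ε : ℝ, 0 < ε → ∀ᶠ n : ℕ in atTop,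
      (g * M ^ 2 / 2 - ε) * n ^ 2 ≤ hp n (M * n))
    (e2 : ∃ M₀ : ℕ, ∀ M : ℕ, M₀ ≤ M → ∀ ε : ℝ, 0 < ε → ∀ᶠ n : ℕ in atTop,
      (g * M ^ 2 / 2 - ε) * n ^ 2 ≤ hm n (M * n))
    (δ : ℝ) (hδ : 0 < δ) :
    ∀ᶠ n : ℕ in atTop, ∀ q : ℕ, δ * n - 1 ≤ q → (q : ℝ) ≤ δ * n → hp n q ≠ 0 := by
  obtain ⟨M₁, hM₁⟩ := e1
  obtain ⟨A, hA⟩ := exists_nat_ge δ
  set M := max M₁ (A + 1) with hMdef
  have hMA : A + 1 ≤ M := le_max_right _ _
  have hMδ : δ ≤ M := hA.trans (by exact_mod_cast (by omega : A ≤ M))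
  have hM1 : (1 : ℝ) ≤ M := by exact_mod_cast (by omega : 1 ≤ M)
  have hM0 : (0 : ℝ) < M := by linarith
  set ε' := g * δ ^ 2 / (32 * M) with hε'def
  have hε' : 0 < ε' := by positivity
  obtain ⟨Mm, haMm, hMm⟩ := stepA g C C₂ a hg hm bm h2 e2 ε' hε'
  obtain ⟨n₁, hn₁⟩ := exists_nat_ge (2 / δ)
  obtain ⟨n₂, hn₂⟩ := exists_nat_gt (16 * M * C / (g * δ ^ 2))
  filter_upwards [hM₁ M (le_max_left _ _) (g * δ ^ 2 / 32) (by positivity), hMm,
    eventually_ge_atTop 1, eventually_ge_atTop n₁, eventually_ge_atTop n₂]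
    with n hn hmn hn1 hnn hnn2 q hq1 hq2 hzero
  have hnR : (1 : ℝ) ≤ n := by exact_mod_cast hn1
  have hδn : 2 ≤ δ * n := by
    have h3 : 2 / δ ≤ n := hn₁.trans (by exact_mod_cast hnn)
    rw [div_le_iff₀ hδ] at h3
    linarith
  have hgd : 0 < g * δ ^ 2 := by positivity
  have hCn : 16 * M * C < g * δ ^ 2 * n := by
    have h3 : 16 * M * C / (g * δ ^ 2) < n := hn₂.trans_le (by exact_mod_cast hnn2)
    rw [div_lt_iff₀ hgd] at h3
    linarith
  have hqM : q ≤ M * n := by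
    have h3 : (q : ℝ) ≤ M * n := hq2.trans (mul_le_mul_of_nonneg_right hMδ (by linarith))
    exact_mod_cast h3
  have hstep : ∀ k, q ≤ k → k < M * n → hp n (k + 1) - hp n k ≤ g * k + (C + ε' * n) := by
    intro k _ _
    by_cases h0 : hp n (k + 1) = 0
    · have h3 := nn n k
      have h4 : 0 ≤ g * (k : ℝ) := by positivity
      have h5 : 0 ≤ ε' * n := by positivity
      rw [h0]
      linarith
    · have h3 := h1 n k (Mm * n) (Nat.mul_le_mul_right _ haMm) h0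
      push_cast at h3
      linarith
  have key := sumup (hp n) g (C + ε' * n) hg.le q (M * n) hqM hstep
  push_cast at key
  rw [hzero] at key
  have hMq : (M : ℝ) * ε' = g * δ ^ 2 / 32 := by
    rw [hε'def]
    field_simp
  have hq3 : δ * n / 2 ≤ q := by linarith
  have hq4 : (δ * n / 2) ^ 2 ≤ (q : ℝ) ^ 2 := by
    apply pow_le_pow_left₀ (by positivity) hq3
  have h7 : ((M : ℝ) * n - q) * (C + ε' * n) ≤ (M : ℝ) * n * (C + ε' * n) := by
    apply mul_le_mul_of_nonneg_right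
    · have : (0 : ℝ) ≤ q := Nat.cast_nonneg _
      linarith
    · positivity
  have h8 : (M : ℝ) * n * (C + ε' * n) = M * C * n + (g * δ ^ 2 / 32) * n ^ 2 := by
    rw [← hMq]; ring
  have h9 : 16 * M * C * n < g * δ ^ 2 * n * n := mul_lt_mul_of_pos_right hCn (by linarith)
  have h10 : g * ((δ * n / 2) ^ 2) ≤ g * (q : ℝ) ^ 2 := mul_le_mul_of_nonneg_left hq4 hg.le
  nlinarith

/-! ### geometry -/

section

variable (T : Sf)

theorem dv_add {D E : T.P → ℤ} (hD : T.Dv D) (hE : T.Dv E) : T.Dv (D + E) :=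
  (hD.union hE).subset (Function.support_add D E)

theorem dv_neg {D : T.P → ℤ} (hD : T.Dv D) : T.Dv (-D) := by
  unfold Sf.Dv
  rw [Function.support_neg]
  exact hD

theorem dv_smul {D : T.P → ℤ} (hD : T.Dv D) (c : ℤ) : T.Dv (c • D) := by
  refine hD.subset fun O hO h => hO ?_
  change c * D O = 0
  rw [h, mul_zero]

theorem dv_H (hSUP : SRF.Stmt_SUP) : T.Dv T.H := by
  have hx := fun (f : T.F) (hf : f ≠ 0) => hSUP T.k T.F T.x T.y T.surf f hf
  have h1 : ∀ f : T.F, {O : T.P | ord O.1 f ≠ 0}.Finite := by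
    intro f
    by_cases hf : f = 0
    · refine Set.finite_empty.subset fun O hO => hO ?_
      rw [hf]
      exact O.isOrd.zero
    · exact hx f hf
  refine ((h1 T.x).union (h1 T.y)).subset fun O hO => ?_
  by_contra hc
  apply hO
  simp only [Set.mem_union, Set.mem_ofPred_eq, not_or, not_not] at hc
  change SRF.H T.k T.x T.y O = 0
  unfold SRF.H
  rw [hc.1, hc.2]
  simp

theorem H_nonneg (O : T.P) : 0 ≤ T.H O := le_max_left _ _

theorem dv_fl (n : ℕ) {R : T.P → ℝ} (hR : (Function.support R).Finite) : T.Dv (T.fl n R) := by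
  refine hR.subset fun O hO h => hO ?_
  change ⌊(n : ℝ) * R O⌋ = 0
  rw [h, mul_zero, Int.floor_zero]

theorem L_mono {D D' : T.P → ℤ} (h : ∀ O, D O ≤ D' O) : T.L D ≤ T.L D' := by
  intro f hf
  rcases hf with hf | hf
  · exact Or.inl hf
  · exact Or.inr fun O => (neg_le_neg (h O)).trans (hf O)

theorem fin_L (hFDL : SRF.Stmt_FDL) {D : T.P → ℤ} (hD : T.Dv D) :
    FiniteDimensional T.k (T.L D) := hFDL T.k T.F T.x T.y T.surf D hD

theorem hh_nonneg (D : T.P → ℤ) : 0 ≤ T.hh D := Int.natCast_nonneg _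

theorem exists_sec {D : T.P → ℤ} (h : T.hh D ≠ 0) : ∃ f ∈ T.L D, f ≠ 0 := by
  by_contra hc
  push Not at hc
  apply h
  have h1 : T.L D = ⊥ := by
    rw [eq_bot_iff]
    intro f hf
    exact hc f hf
  unfold Sf.hh
  rw [h1, finrank_bot]
  rfl

theorem mul_mem_L {D E : T.P → ℤ} {f w : T.F} (hf : f ∈ T.L D) (hw : w ∈ T.L E) :
    w * f ∈ T.L (D + E) := by
  rcases hf with hf | hf
  · left; rw [hf, mul_zero]
  rcases hw with hw | hw
  · left; rw [hw, zero_mul]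
  by_cases h1 : f = 0
  · left; rw [h1, mul_zero]
  by_cases h2 : w = 0
  · left; rw [h2, zero_mul]
  right
  intro O
  rw [O.isOrd.mul _ _ h2 h1]
  have h3 := hf O
  have h4 := hw O
  have h5 : (D + E) O = D O + E O := rfl
  rw [h5]
  omega

theorem pow_mem_L {E : T.P → ℤ} {w : T.F} (hw0 : w ≠ 0) (hw : w ∈ T.L E) (n : ℕ) :
    w ^ n ∈ T.L ((n : ℤ) • E) := by
  right
  intro O
  rw [O.isOrd.pow hw0]
  have h1 := (hw.resolve_left hw0) O
  change -((n : ℤ) * E O) ≤ _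
  have h2 : (n : ℤ) * (-E O) ≤ n * ord O.1 w := mul_le_mul_of_nonneg_left h1 (Int.natCast_nonneg n)
  linarith

theorem hh_le_mul (hFDL : SRF.Stmt_FDL) {D E : T.P → ℤ} (hDE : T.Dv (D + E)) {w : T.F}
    (hw0 : w ≠ 0) (hw : w ∈ T.L E) : T.hh D ≤ T.hh (D + E) := by
  have := fin_L T hFDL hDE
  let φ : T.L D →ₗ[T.k] T.L (D + E) :=
    { toFun := fun f => ⟨w * f.1, mul_mem_L T f.2 hw⟩
      map_add' := fun f g => Subtype.ext (mul_add w f.1 g.1)
      map_smul' := fun c f => Subtype.ext (mul_smul_comm c w f.1) }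
  have hφ : Function.Injective φ := by
    intro f g hfg
    exact Subtype.ext (mul_left_cancel₀ hw0 (congrArg Subtype.val hfg))
  unfold Sf.hh
  exact_mod_cast LinearMap.finrank_le_finrank_of_injective hφ

theorem one_mem_L {E : T.P → ℤ} (h : ∀ O, 0 ≤ E O) : (1 : T.F) ∈ T.L E := by
  right
  intro O
  rw [O.isOrd.one]
  have := h O
  omega

end

end PSL_

open PSL_ in
theorem psl_proof (hHIL : Stmt_HIL) (hSPH : Stmt_SPH) (hMLH : Stmt_MLH) (hAVD : SRF.Stmt_AVD)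
    (hFDL : SRF.Stmt_FDL) (hSUP : SRF.Stmt_SUP) : Stmt_PSL := by
  intro T R hR e1 e2
  have dH := dv_H T hSUP
  obtain ⟨C, hC⟩ := hHIL T
  have hC0 : 0 ≤ C := (abs_nonneg _).trans (hC 0)
  have hg : 1 ≤ T.dg := by
    have h1 := T.surf.fin
    have h2 : 0 < Module.finrank (IntermediateField.adjoin T.k ({T.x, T.y} : Set T.F)) T.F :=
      Module.finrank_pos
    unfold Sf.dg
    exact_mod_cast h2
  have hRn : (Function.support (-R)).Finite := by
    rw [Function.support_neg]; exact hR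
  -- the function with many zeros
  let D₀ : T.P → ℤ := fun O => ⌈|R O|⌉
  have hD₀ : {O | D₀ O ≠ 0}.Finite := by
    refine hR.subset fun O hO h => hO ?_
    change ⌈|R O|⌉ = 0
    rw [h, abs_zero, Int.ceil_zero]
  have hinf : Infinite T.k := inferInstance
  obtain ⟨a, ha⟩ := hAVD T.k T.F T.x T.y T.surf D₀ hD₀ ∅ Set.finite_empty
  obtain ⟨w, hw0, hw, -⟩ := ha a le_rfl
  have hwn : ∀ (n : ℕ) (E : T.P → ℤ), (∀ O, ((a * n : ℕ) : ℤ) * T.H O - n * D₀ O ≤ E O) →
      w ^ n ∈ T.L E := by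
    intro n E hE
    refine L_mono T ?_ (pow_mem_L T hw0 hw n)
    intro O
    refine le_trans (le_of_eq ?_) (hE O)
    change (n : ℤ) * ((a : ℤ) * T.H O - D₀ O) = _
    push_cast
    ring
  have fl1 : ∀ (n : ℕ) O, T.fl n R O ≤ n * D₀ O := by
    intro n O
    have h1 : ((T.fl n R O : ℤ) : ℝ) ≤ n * R O := Int.floor_le _
    have h2 : (n : ℝ) * R O ≤ n * (D₀ O : ℝ) :=
      mul_le_mul_of_nonneg_left ((le_abs_self _).trans (Int.le_ceil _)) (Nat.cast_nonneg n)
    exact_mod_cast h1.trans h2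
  have fl2 : ∀ (n : ℕ) O, T.fl n (-R) O ≤ n * D₀ O := by
    intro n O
    have h1 : ((T.fl n (-R) O : ℤ) : ℝ) ≤ n * (-R) O := Int.floor_le _
    have h2 : (n : ℝ) * (-R) O ≤ n * (D₀ O : ℝ) :=
      mul_le_mul_of_nonneg_left ((neg_le_abs _).trans (Int.le_ceil _)) (Nat.cast_nonneg n)
    exact_mod_cast h1.trans h2
  have fl3 : ∀ (n : ℕ) O, -(n * D₀ O) ≤ T.fl n (-R) O := by
    intro n O
    apply Int.le_floor.2
    push_cast
    have h2 : (n : ℝ) * R O ≤ n * (D₀ O : ℝ) :=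
      mul_le_mul_of_nonneg_left ((le_abs_self _).trans (Int.le_ceil _)) (Nat.cast_nonneg n)
    change _ ≤ (n : ℝ) * (-(R O))
    linarith
  have fl4 : ∀ (n : ℕ) O, T.fl n R O + T.fl n (-R) O ≤ 0 := by
    intro n O
    have h1 : ((T.fl n R O : ℤ) : ℝ) ≤ n * R O := Int.floor_le _
    have h2 : ((T.fl n (-R) O : ℤ) : ℝ) ≤ n * (-(R O)) := Int.floor_le _
    have h3 : ((T.fl n R O + T.fl n (-R) O : ℤ) : ℝ) ≤ ((0 : ℤ) : ℝ) := by
      push_cast
      linarith
    exact_mod_cast h3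
  -- sections of `k' H + fl n (-R)`
  have secm : ∀ (n k : ℕ), a * n ≤ k → ∃ f ∈ T.L ((k : ℤ) • T.H + T.fl n (-R)), f ≠ 0 := by
    intro n k hk
    refine ⟨w ^ n, hwn n _ fun O => ?_, pow_ne_zero n hw0⟩
    have h1 : ((a * n : ℕ) : ℤ) * T.H O ≤ (k : ℤ) * T.H O :=
      mul_le_mul_of_nonneg_right (by exact_mod_cast hk) (H_nonneg T O)
    have h2 := fl3 n O
    change _ ≤ (k : ℤ) * T.H O + T.fl n (-R) O
    linarith
  -- Hilbert function
  let f : ℕ → ℝ := fun j => (T.hh ((j : ℤ) • T.H) : ℝ)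
  have hf1 : ∀ j : ℕ, f (j + 1) - f j ≤ T.dg * j + C := by
    intro j
    have h1 := (abs_le.1 (hC j)).2
    have h2 : T.hh (((j : ℤ) + 1) • T.H) - T.hh ((j : ℤ) • T.H) ≤ T.dg * j + C := by linarith
    have h3 : ((T.hh (((j : ℤ) + 1) • T.H) - T.hh ((j : ℤ) • T.H) : ℤ) : ℝ) ≤
        ((T.dg * j + C : ℤ) : ℝ) := by exact_mod_cast h2
    push_cast at h3
    change (T.hh (((j + 1 : ℕ) : ℤ) • T.H) : ℝ) - _ ≤ _
    push_cast
    exact h3
  have hf2 : ∀ j : ℕ, (T.dg : ℝ) * j - C ≤ f (j + 1) - f j := by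
    intro j
    have h1 := (abs_le.1 (hC j)).1
    have h2 : T.dg * j - C ≤ T.hh (((j : ℤ) + 1) • T.H) - T.hh ((j : ℤ) • T.H) := by linarith
    have h3 : ((T.dg * j - C : ℤ) : ℝ) ≤
        ((T.hh (((j : ℤ) + 1) • T.H) - T.hh ((j : ℤ) • T.H) : ℤ) : ℝ) := by exact_mod_cast h2
    push_cast at h3
    change _ ≤ (T.hh (((j + 1 : ℕ) : ℤ) • T.H) : ℝ) - _
    push_cast
    exact h3
  have hgR : (1 : ℝ) ≤ T.dg := by exact_mod_cast hg
  have hCR : (0 : ℝ) ≤ C := by exact_mod_cast hC0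
  have hf3 : ∀ j : ℕ, f j ≤ f 0 + T.dg * (j : ℝ) ^ 2 / 2 + j * C := by
    intro j
    have h1 := sumup f T.dg C (by linarith) 0 j (Nat.zero_le _) (fun k _ _ => hf1 k)
    push_cast at h1
    linarith
  have hf0 : 0 ≤ f 0 := by
    change (0 : ℝ) ≤ (T.hh (((0 : ℕ) : ℤ) • T.H) : ℝ)
    exact_mod_cast hh_nonneg T _
  have dDm : ∀ (n k : ℕ), T.Dv ((k : ℤ) • T.H + T.fl n (-R)) := fun n k =>
    dv_add T (dv_smul T dH _) (dv_fl T n hRn)
  have dDp : ∀ (n k : ℕ), T.Dv ((k : ℤ) • T.H + T.fl n R) := fun n k =>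
    dv_add T (dv_smul T dH _) (dv_fl T n hR)
  have hcore := core T.dg (2 * T.dg + C) (f 0 + 2 * T.dg * a ^ 2 + 2 * a * C) a (by linarith)
    (by linarith) (fun n k => (T.hh ((k : ℤ) • T.H + T.fl n R) : ℝ))
    (fun n k => (T.hh ((k : ℤ) • T.H + T.fl n (-R)) : ℝ))
    (fun n k => by exact_mod_cast hh_nonneg T _)
    (by
      intro n hn
      have hnR : (1 : ℝ) ≤ n := by exact_mod_cast hn
      have h1 : T.hh (((a * n : ℕ) : ℤ) • T.H + T.fl n (-R)) ≤
          T.hh (((2 * (a * n) : ℕ) : ℤ) • T.H) := by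
        have h2 : (((a * n : ℕ) : ℤ) • T.H + T.fl n (-R)) +
            (((a * n : ℕ) : ℤ) • T.H - T.fl n (-R)) = ((2 * (a * n) : ℕ) : ℤ) • T.H := by
          funext O
          simp only [Pi.add_apply, Pi.sub_apply, Pi.smul_apply, smul_eq_mul]
          push_cast
          ring
        rw [← h2]
        refine hh_le_mul T hFDL ?_ (pow_ne_zero n hw0) (hwn n _ fun O => ?_)
        · rw [h2]
          exact dv_smul T dH _
        · simp only [Pi.sub_apply, Pi.smul_apply, smul_eq_mul]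
          have := fl2 n O
          linarith
      have h3 := hf3 (2 * (a * n))
      have h4 : (T.hh (((a * n : ℕ) : ℤ) • T.H + T.fl n (-R)) : ℝ) ≤ f (2 * (a * n)) :=
        Int.cast_le.2 h1
      refine h4.trans (h3.trans ?_)
      push_cast
      have h5 : (1 : ℝ) ≤ (n : ℝ) ^ 2 := by nlinarith
      have h6 : (n : ℝ) ≤ (n : ℝ) ^ 2 := by nlinarith
      have h7 : f 0 * 1 ≤ f 0 * (n : ℝ) ^ 2 := mul_le_mul_of_nonneg_left h5 hf0
      have h8 : (2 * a * C) * (n : ℝ) ≤ (2 * a * C) * (n : ℝ) ^ 2 :=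
        mul_le_mul_of_nonneg_left h6 (by positivity)
      nlinarith)
    (by
      intro n k k' hk' hne
      have hne' : T.hh (((k + 1 : ℕ) : ℤ) • T.H + T.fl n R) ≠ 0 := fun h => hne (by
        rw [h]; norm_num)
      have h1 := hSPH T _ _ (dDp n (k + 1)) (dDm n (k' + 1)) (exists_sec T hne')
        (secm n (k' + 1) (by omega))
      have i1 : ((k + 1 : ℕ) : ℤ) • T.H + T.fl n R - T.H = (k : ℤ) • T.H + T.fl n R := by
        funext O
        simp only [Pi.add_apply, Pi.sub_apply, Pi.smul_apply, smul_eq_mul]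
        push_cast
        ring
      have i2 : ((k' + 1 : ℕ) : ℤ) • T.H + T.fl n (-R) - T.H = (k' : ℤ) • T.H + T.fl n (-R) := by
        funext O
        simp only [Pi.add_apply, Pi.sub_apply, Pi.smul_apply, smul_eq_mul]
        push_cast
        ring
      rw [i1, i2] at h1
      have dE : T.Dv (-(T.fl n R + T.fl n (-R))) :=
        dv_neg T (dv_add T (dv_fl T n hR) (dv_fl T n hRn))
      have h2 := hMLH T _ (-(T.fl n R + T.fl n (-R))) 1
        (dv_add T (dDp n (k + 1)) (dDm n (k' + 1))) dE one_ne_zero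
        (one_mem_L T fun O => by
          have := fl4 n O
          simp only [Pi.neg_apply, Pi.add_apply]
          linarith)
      have i3 : (((k + 1 : ℕ) : ℤ) • T.H + T.fl n R) + (((k' + 1 : ℕ) : ℤ) • T.H + T.fl n (-R)) +
          (-(T.fl n R + T.fl n (-R))) = (((k + k' + 1 : ℕ) : ℤ) + 1) • T.H := by
        funext O
        simp only [Pi.add_apply, Pi.neg_apply, Pi.smul_apply, smul_eq_mul]
        push_cast
        ring
      have i4 : (((k + k' + 1 : ℕ) : ℤ) + 1) • T.H - T.H = ((k + k' + 1 : ℕ) : ℤ) • T.H := by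
        funext O
        simp only [Pi.sub_apply, Pi.smul_apply, smul_eq_mul]
        push_cast
        ring
      rw [i3, i4] at h2
      have h3 := (abs_le.1 (hC (k + k' + 1))).2
      have h4 : (T.hh (((k + 1 : ℕ) : ℤ) • T.H + T.fl n R) - T.hh ((k : ℤ) • T.H + T.fl n R)) +
          (T.hh (((k' + 1 : ℕ) : ℤ) • T.H + T.fl n (-R)) - T.hh ((k' : ℤ) • T.H + T.fl n (-R))) ≤
          T.dg * (k + k') + (2 * T.dg + C) := by
        push_cast at h3 h1 h2 ⊢
        linarith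
      exact_mod_cast h4)
    (by
      intro n k' j hk'
      rcases j with _ | j
      · simp only [Nat.cast_zero, mul_zero, add_zero]
        linarith
      · have h1 := hSPH T _ _ (dDm n (k' + 1)) (dv_smul T dH ((j + 1 : ℕ) : ℤ))
          (secm n (k' + 1) (by omega))
          ⟨1, one_mem_L T fun O => by
            have := H_nonneg T O
            simp only [Pi.smul_apply, smul_eq_mul]
            positivity, one_ne_zero⟩
        have i2 : ((k' + 1 : ℕ) : ℤ) • T.H + T.fl n (-R) - T.H =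
            (k' : ℤ) • T.H + T.fl n (-R) := by
          funext O
          simp only [Pi.add_apply, Pi.sub_apply, Pi.smul_apply, smul_eq_mul]
          push_cast
          ring
        have i3 : ((j + 1 : ℕ) : ℤ) • T.H - T.H = (j : ℤ) • T.H := by
          funext O
          simp only [Pi.sub_apply, Pi.smul_apply, smul_eq_mul]
          push_cast
          ring
        have i4 : ((k' + 1 : ℕ) : ℤ) • T.H + T.fl n (-R) + ((j + 1 : ℕ) : ℤ) • T.H =
            ((k' + (j + 1) + 1 : ℕ) : ℤ) • T.H + T.fl n (-R) := by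
          funext O
          simp only [Pi.add_apply, Pi.smul_apply, smul_eq_mul]
          push_cast
          ring
        have i5 : ((k' + (j + 1) + 1 : ℕ) : ℤ) • T.H + T.fl n (-R) - T.H =
            ((k' + (j + 1) : ℕ) : ℤ) • T.H + T.fl n (-R) := by
          funext O
          simp only [Pi.add_apply, Pi.sub_apply, Pi.smul_apply, smul_eq_mul]
          push_cast
          ring
        rw [i2, i3, i4, i5] at h1
        have h3 := hf2 j
        have h4 : ((T.hh (((k' + 1 : ℕ) : ℤ) • T.H + T.fl n (-R)) : ℝ) -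
            T.hh ((k' : ℤ) • T.H + T.fl n (-R))) + (f (j + 1) - f j) ≤
            ((T.hh (((k' + (j + 1) + 1 : ℕ) : ℤ) • T.H + T.fl n (-R)) : ℝ) -
            T.hh (((k' + (j + 1) : ℕ) : ℤ) • T.H + T.fl n (-R))) + T.dg := by
          change _ + ((T.hh (((j + 1 : ℕ) : ℤ) • T.H) : ℝ) - (T.hh ((j : ℤ) • T.H) : ℝ)) ≤ _
          exact_mod_cast h1
        push_cast at h3 h4 ⊢
        linarith)
    e1 e2
  -- conclusion
  intro D n₀ ε hD hε h
  rcases Nat.eq_zero_or_pos n₀ with rfl | hn₀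
  · refine Eventually.of_forall fun m => ⟨1, one_ne_zero, one_mem_L T fun O => ?_⟩
    have h1 := h O
    have h2 : (0 : ℝ) ≤ T.H O := by exact_mod_cast H_nonneg T O
    have h3 : (0 : ℝ) ≤ D O := by
      push_cast at h1
      nlinarith
    have h4 : 0 ≤ D O := by exact_mod_cast h3
    simp only [Pi.smul_apply, smul_eq_mul]
    positivity
  · have hn₀R : (0 : ℝ) < n₀ := by exact_mod_cast hn₀
    have h1 := hcore (ε / n₀) (by positivity)
    have h2 : Tendsto (fun m : ℕ => m * n₀) atTop atTop :=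
      tendsto_id.atTop_mul_const' hn₀
    filter_upwards [h2.eventually h1] with m hm
    have h3 := hm ⌊ε * m⌋₊ (by
      have : ε / n₀ * ((m * n₀ : ℕ) : ℝ) = ε * m := by
        push_cast
        field_simp
      rw [this]
      have := Nat.lt_floor_add_one (ε * m)
      linarith) (by
      have : ε / n₀ * ((m * n₀ : ℕ) : ℝ) = ε * m := by
        push_cast
        field_simp
      rw [this]
      exact Nat.floor_le (by positivity))
    have h4 : T.hh (((⌊ε * m⌋₊ : ℕ) : ℤ) • T.H + T.fl (m * n₀) R) ≠ 0 := fun h0 => h3 (by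
      change (T.hh (((⌊ε * m⌋₊ : ℕ) : ℤ) • T.H + T.fl (m * n₀) R) : ℝ) = 0
      rw [h0]; norm_num)
    obtain ⟨f, hf, hf0⟩ := exists_sec T h4
    refine ⟨f, hf0, L_mono T (fun O => ?_) hf⟩
    have h5 : ((T.fl (m * n₀) R O : ℤ) : ℝ) ≤ ((m * n₀ : ℕ) : ℝ) * R O := Int.floor_le _
    have h6 : ((⌊ε * m⌋₊ : ℕ) : ℝ) ≤ ε * m := Nat.floor_le (by positivity)
    have h7 : (0 : ℝ) ≤ T.H O := by exact_mod_cast H_nonneg T O
    have h8 : ((⌊ε * m⌋₊ : ℕ) : ℝ) * T.H O ≤ ε * m * T.H O := mul_le_mul_of_nonneg_right h6 h7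
    have h9 : (m : ℝ) * (ε * T.H O + n₀ * R O) ≤ m * D O :=
      mul_le_mul_of_nonneg_left (h O) (Nat.cast_nonneg m)
    have h10 : (((⌊ε * m⌋₊ : ℕ) : ℤ) * T.H O + T.fl (m * n₀) R O : ℝ) ≤ (m : ℝ) * D O := by
      push_cast at h5 ⊢
      linarith
    simp only [Pi.add_apply, Pi.smul_apply, smul_eq_mul]
    exact_mod_cast h10

end Pool.Agent.NUM
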