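import Pool.Agent.NUM.RAM
import Pool.Agent.NUM.MUL

/-!
# RAC: almost every prime divisor lies over a plane curve with reduced preimage
-/

set_option autoImplicit false

noncomputable section

namespace Pool.Agent.NUM

open Pool.Agent.SRF Filter

namespace RAC_

/-! ## Dimension of the space of polynomials of bounded degree in two variables -/

/-- polynomials of bounded degree -/
abbrev Pn (k : Type) [Field k] (n : ℕ) : Submodule k (MvPolynomial (Fin 2) k) :=
  MvPolynomial.restrictTotalDegree (Fin 2) k n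

def cnt (n : ℕ) : ℕ := ∑ i ∈ Finset.range (n + 1), (i + 1)

theorem two_cnt (n : ℕ) : 2 * cnt n = (n + 1) * (n + 2) := by
  unfold cnt
  induction n with
  | zero => simp
  | succ n ih =>
    rw [Finset.sum_range_succ, mul_add, ih]
    ring

theorem deg_two (s : Fin 2 →₀ ℕ) : (s.sum fun _ e => e) = s 0 + s 1 := by
  rw [Finsupp.sum_fintype _ _ (fun _ => rfl), Fin.sum_univ_two]

theorem card_mon (n : ℕ) : Nat.card {s : Fin 2 →₀ ℕ | (s.sum fun _ e => e) ≤ n} = cnt n := by
  let e : {s : Fin 2 →₀ ℕ | (s.sum fun _ e => e) ≤ n} ≃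
      ((Finset.range (n + 1)).sigma fun i => Finset.range (n - i + 1) :
        Finset (Sigma fun _ : ℕ => ℕ)) :=
    { toFun := fun s => ⟨⟨s.1 0, s.1 1⟩, by
        have h := s.2
        rw [Set.mem_ofPred_eq, deg_two] at h
        rw [Finset.mem_sigma, Finset.mem_range, Finset.mem_range]
        constructor
        · show s.1 0 < n + 1
          omega
        · show s.1 1 < n - s.1 0 + 1
          omega⟩
      invFun := fun p => ⟨Finsupp.equivFunOnFinite.symm ![p.1.1, p.1.2], by
        have h := p.2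
        rw [Finset.mem_sigma, Finset.mem_range, Finset.mem_range] at h
        rw [Set.mem_ofPred_eq, deg_two]
        show p.1.1 + p.1.2 ≤ n
        omega⟩
      left_inv := by
        intro s
        apply Subtype.ext
        ext i
        fin_cases i <;> rfl
      right_inv := by
        intro p
        rfl }
  rw [Nat.card_congr e, Nat.card_eq_fintype_card, Fintype.card_coe, Finset.card_sigma]
  unfold cnt
  rw [← Finset.sum_range_reflect]
  apply Finset.sum_congr rfl
  intro i hi
  rw [Finset.card_range]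
  have := Finset.mem_range.1 hi
  omega

theorem finrank_Pn (k : Type) [Field k] (n : ℕ) : Module.finrank k (Pn k n) = cnt n := by
  have h := Module.finrank_eq_nat_card_basis
    (MvPolynomial.basisRestrictSupport k {s : Fin 2 →₀ ℕ | (s.sum fun _ e => e) ≤ n})
  rw [card_mon] at h
  exact h

variable (T : Sf)

open RAM_

/-- order of the product -/
theorem o_mul (e : T.P) {f g : T.F} (hf : f ≠ 0) (hg : g ≠ 0) :
    T.o e (f * g) = T.o e f + T.o e g := e.isOrd.mul _ _ hf hg

theorem ev_ne {p : MvPolynomial (Fin 2) T.k} (hp : p ≠ 0) : ev T p ≠ 0 := fun h0 =>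
  hp ((map_eq_zero_iff _ (ev_inj T)).1 h0)

theorem ev_memO (hHCH : Stmt_HCH) (e : T.P) (he : T.H e = 0) (p : MvPolynomial (Fin 2) T.k) :
    ev T p ∈ e.1 := by
  apply (chart_iff T hHCH e).2 he
  change IsIntegral (base T.k T.x T.y 0) (ev T p)
  exact isIntegral_algebraMap (R := base T.k T.x T.y 0) (A := T.F)
    (x := ⟨ev T p, ev_mem T (x_mem T) (y_mem T) p⟩)

theorem ord_ev (hHCH : Stmt_HCH) (e : T.P) (he : T.H e = 0) {p : MvPolynomial (Fin 2) T.k}
    (hp : p ≠ 0) : 0 ≤ T.o e (ev T p) :=
  (e.isOrd.mem _ (ev_ne T hp)).1 (ev_memO T hHCH e he p)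

/-- some polynomial vanishes along the curve -/
theorem exists_pol (hHCH : Stmt_HCH) (e : T.P) (he : T.H e = 0) :
    ∃ p : MvPolynomial (Fin 2) T.k, p ≠ 0 ∧ 0 < T.o e (ev T p) := by
  by_contra hcon
  push Not at hcon
  have h0 : ∀ p : MvPolynomial (Fin 2) T.k, p ≠ 0 → T.o e (ev T p) = 0 := fun p hp =>
    le_antisymm (hcon p hp) (ord_ev T hHCH e he hp)
  have hr : Set.range ![T.x, T.y] = ({T.x, T.y} : Set T.F) := by
    simp [Set.pair_comm]
  have hK : ∀ f : T.F, f ∈ IntermediateField.adjoin T.k ({T.x, T.y} : Set T.F) → f ∈ e.1 := by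
    intro f hf
    rw [← hr, IntermediateField.mem_adjoin_range_iff] at hf
    obtain ⟨r, s, hrs⟩ := hf
    by_cases hr0 : r = 0
    · rw [hrs, hr0, map_zero, zero_div]
      exact e.1.zero_mem
    by_cases hs0 : s = 0
    · rw [hrs, hs0, map_zero, div_zero]
      exact e.1.zero_mem
    have h1 := ev_ne T hr0
    have h2 := ev_ne T hs0
    have h3 : f = ev T r * (ev T s)⁻¹ := by
      rw [hrs, div_eq_mul_inv]
    rw [h3]
    refine (e.isOrd.mem _ (mul_ne_zero h1 (inv_ne_zero h2))).2 ?_
    rw [e.isOrd.mul _ _ h1 (inv_ne_zero h2), e.isOrd.inv h2]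
    have h4 : SRF.ord e.1 (ev T r) = 0 := h0 r hr0
    have h5 : SRF.ord e.1 (ev T s) = 0 := h0 s hs0
    rw [h4, h5]
    simp
  obtain ⟨π, hπ0, hπ⟩ := e.isOrd.unif
  have hnot : π⁻¹ ∉ e.1 := by
    intro h
    have := (e.isOrd.mem _ (inv_ne_zero hπ0)).1 h
    rw [e.isOrd.inv hπ0, hπ] at this
    omega
  apply hnot
  haveI := T.surf.fin
  let K := IntermediateField.adjoin T.k ({T.x, T.y} : Set T.F)
  have hint : IsIntegral K π⁻¹ := Algebra.IsIntegral.isIntegral _
  let φ : K →+* e.1 := (algebraMap K T.F).codRestrict e.1 fun a => hK _ a.2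
  obtain ⟨q, hq1, hq2⟩ := hint
  have hint' : IsIntegral e.1 π⁻¹ := by
    refine ⟨q.map φ, hq1.map φ, ?_⟩
    rw [Polynomial.eval₂_map]
    exact hq2
  obtain ⟨y, hy⟩ := IsIntegrallyClosed.isIntegral_iff.1 hint'
  rw [← hy]
  exact y.2

/-- an irreducible polynomial vanishes along the curve -/
theorem exists_irr (hHCH : Stmt_HCH) (e : T.P) (he : T.H e = 0) :
    ∃ p : MvPolynomial (Fin 2) T.k, Irreducible p ∧ 0 < T.o e (ev T p) := by
  obtain ⟨p, hp, hp1⟩ := exists_pol T hHCH e he
  have key : ∀ a : MvPolynomial (Fin 2) T.k, a ≠ 0 → 0 < T.o e (ev T a) →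
      ∃ p : MvPolynomial (Fin 2) T.k, Irreducible p ∧ 0 < T.o e (ev T p) := by
    intro a
    induction a using WfDvdMonoid.induction_on_irreducible with
    | zero => intro h; exact absurd rfl h
    | unit u hu =>
      intro hu0 h
      obtain ⟨v, hv⟩ := hu.exists_right_inv
      have hv0 : v ≠ 0 := right_ne_zero_of_mul (a := u) (by rw [hv]; exact one_ne_zero)
      have h1 := o_mul T e (ev_ne T hu0) (ev_ne T hv0)
      rw [← map_mul, hv, map_one] at h1
      have h2 : T.o e 1 = 0 := e.isOrd.one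
      have h3 := ord_ev T hHCH e he hv0
      omega
    | mul a i ha hi ih =>
      intro h0 h
      rw [map_mul, o_mul T e (ev_ne T hi.ne_zero) (ev_ne T ha)] at h
      by_cases h1 : 0 < T.o e (ev T i)
      · exact ⟨i, hi, h1⟩
      · exact ih ha (by omega)
  exact key p hp hp1

theorem dv_H (hSUP : SRF.Stmt_SUP) : T.Dv T.H := by
  have hx : T.x ≠ 0 := T.surf.indep.ne_zero 0
  have hy : T.y ≠ 0 := T.surf.indep.ne_zero 1
  refine ((hSUP T.k T.F T.x T.y T.surf T.x hx).union (hSUP T.k T.F T.x T.y T.surf T.y hy)).subset ?_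
  intro O hO
  by_contra h
  apply hO
  simp only [Set.mem_union, Set.mem_ofPred_eq, not_or, not_not] at h
  show SRF.H T.k T.x T.y O = 0
  unfold SRF.H
  rw [h.1, h.2]
  simp

theorem dv_smul (c : ℤ) {D : T.P → ℤ} (hD : T.Dv D) : T.Dv (c • D) :=
  hD.subset (Function.support_const_smul_subset c D)

end RAC_

open RAC_ RAM_ in
theorem rac_proof (hRAM : Stmt_RAM) (hNLT : Stmt_NLT) (hDEG : Stmt_DEG) (hSUP : SRF.Stmt_SUP)
    (hNAL : SRF.Stmt_NAL) (hHCH : SRF.Stmt_HCH) (hFDL : SRF.Stmt_FDL) : Stmt_RAC := by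
  intro T
  classical
  obtain ⟨Δ, hΔ, hR⟩ := hRAM T
  have hH := dv_H T hSUP
  have hHf : (Function.support T.H).Finite := hH
  have hΔs := hSUP T.k T.F T.x T.y T.surf (ev T Δ) (ev_ne T hΔ)
  refine ⟨hHf.toFinset ∪ hΔs.toFinset, fun e he => ?_⟩
  rw [Finset.mem_union, not_or, Set.Finite.mem_toFinset, Set.Finite.mem_toFinset] at he
  have he1 : T.H e = 0 := by
    by_contra h
    exact he.1 h
  have he2 : T.o e (ev T Δ) = 0 := by
    by_contra h
    exact he.2 h
  have hch := (chart_iff T hHCH e).2 he1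
  have hHn : ∀ g : T.P, 0 ≤ T.H g := fun g => le_max_left _ _
  obtain ⟨G, hG, hGe⟩ := exists_irr T hHCH e he1
  have hG0 := hG.ne_zero
  have hGΔ : ¬ G ∣ Δ := by
    rintro ⟨q, hq⟩
    have hq0 : q ≠ 0 := by
      rintro rfl
      rw [mul_zero] at hq
      exact hΔ hq
    have h1 := o_mul T e (ev_ne T hG0) (ev_ne T hq0)
    rw [← map_mul, ← hq, he2] at h1
    have h2 := ord_ev T hHCH e he1 hq0
    omega
  have hrel : ∀ g : T.P, T.o g (ev T G) + (G.totalDegree : ℤ) * T.H g ≤ 1 := by
    intro g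
    by_cases hg : T.H g = 0
    · rw [hg, mul_zero, add_zero]
      exact hR G hG hGΔ g hg
    · have := hNLT T G hG0 g (lt_of_le_of_ne (hHn g) (Ne.symm hg))
      change T.o g (ev T G) = _ at this
      rw [this]
      omega
  have hmem : ∀ (p : MvPolynomial (Fin 2) T.k) (n : ℕ), p.totalDegree ≤ n →
      ev T p ∈ T.L ((n : ℤ) • T.H) := by
    intro p n hpn
    by_cases hp : p = 0
    · left; rw [hp, map_zero]
    right
    intro g
    show -((n : ℤ) * T.H g) ≤ T.o g (ev T p)
    by_cases hg : T.H g = 0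
    · rw [hg, mul_zero, neg_zero]
      exact ord_ev T hHCH g hg hp
    · have := hNLT T p hp g (lt_of_le_of_ne (hHn g) (Ne.symm hg))
      change T.o g (ev T p) = _ at this
      rw [this]
      have h1 : (p.totalDegree : ℤ) * T.H g ≤ n * T.H g :=
        mul_le_mul_of_nonneg_right (by exact_mod_cast hpn) (hHn g)
      linarith
  have hδ1 : 1 ≤ G.totalDegree := by
    by_contra h
    have h0 : G.totalDegree = 0 := by omega
    rw [MvPolynomial.totalDegree_eq_zero_iff_eq_C] at h0
    have hc : MvPolynomial.coeff 0 G ≠ 0 := by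
      intro hc
      rw [hc, map_zero] at h0
      exact hG0 h0
    apply hG.not_isUnit
    rw [h0]
    exact (isUnit_iff_ne_zero.2 hc).map _
  refine ⟨G.totalDegree, ev T G, hδ1, ev_ne T hG0, hmem G _ le_rfl, hrel, ?_, ?_⟩
  · have h1 := hrel e
    rw [he1, mul_zero, add_zero] at h1 ⊢
    omega
  -- the degree
  set δ := G.totalDegree with hδ
  have hD := hDEG T e
  have hprime : Prime G := hG.prime
  have hlow : ∀ n : ℕ, δ ≤ n → (δ : ℤ) * n - δ * δ ≤ T.degc e * (n + 1) := by
    intro n hn
    have hup := hD.upper n ((n : ℤ) • T.H) (dv_smul T _ hH) (by simp) (by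
      intro O hO
      simp only [Pi.smul_apply, smul_eq_mul] at hO
      exact absurd hO (lt_irrefl _))
    refine le_trans ?_ hup
    have hdvn : T.Dv ((n : ℤ) • T.H) := dv_smul T _ hH
    haveI hf1 : FiniteDimensional T.k (T.L ((n : ℤ) • T.H)) :=
      hFDL T.k T.F T.x T.y T.surf _ hdvn
    have hle : T.L ((n : ℤ) • T.H - T.pr e) ≤ T.L ((n : ℤ) • T.H) := by
      intro g hg
      rcases hg with h0 | h0
      · exact Or.inl h0
      · right
        intro O
        have h1 := h0 O
        have h2 : 0 ≤ T.pr e O := by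
          unfold Sf.pr
          split <;> omega
        simp only [Pi.sub_apply] at h1
        omega
    have hinj : Function.Injective (ev T).toLinearMap := ev_inj T
    have hinjG : Function.Injective (LinearMap.mulLeft T.k G) := mul_right_injective₀ hG0
    haveI : FiniteDimensional T.k ((Pn T.k n).map (ev T).toLinearMap) := inferInstance
    have hmain := MUL_.dim_le ((Pn T.k n).map (ev T).toLinearMap)
      (((Pn T.k (n - δ)).map (LinearMap.mulLeft T.k G)).map (ev T).toLinearMap)
      (T.L ((n : ℤ) • T.H)) (T.L ((n : ℤ) • T.H - T.pr e)) hle LinearMap.id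
      Function.injective_id (by
        rintro _ ⟨p, hp, rfl⟩
        exact hmem p n ((MvPolynomial.mem_restrictTotalDegree _ _ _).1 hp)) (by
        rintro _ ⟨p, hp, rfl⟩ hb
        change ev T p ∈ _ at hb
        have hp' : p.totalDegree ≤ n := (MvPolynomial.mem_restrictTotalDegree _ _ _).1 hp
        by_cases hp0 : p = 0
        · rw [hp0]
          rw [map_zero]
          exact Submodule.zero_mem _
        have h1 := hb.resolve_left (ev_ne T hp0) e
        have h2 : 0 < T.o e (ev T p) := by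
          change -(((n : ℤ) * T.H e) - T.pr e e) ≤ T.o e (ev T p) at h1
          have h3 : T.pr e e = 1 := by
            unfold Sf.pr
            simp
          rw [he1, h3] at h1
          omega
        have hdvd : G ∣ p := by
          by_contra hnd
          exact no_two T hNAL e hch G p hprime hnd hGe h2
        obtain ⟨q, rfl⟩ := hdvd
        have hq0 : q ≠ 0 := right_ne_zero_of_mul hp0
        rw [MvPolynomial.totalDegree_mul_of_isDomain hG0 hq0] at hp'
        refine ⟨G * q, ⟨q, ?_, rfl⟩, rfl⟩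
        exact (MvPolynomial.mem_restrictTotalDegree _ _ _).2 (by omega)) (by
        rintro _ ⟨_, ⟨q, hq, rfl⟩, rfl⟩
        refine ⟨G * q, ?_, rfl⟩
        have hq' : q.totalDegree ≤ n - δ := (MvPolynomial.mem_restrictTotalDegree _ _ _).1 hq
        refine (MvPolynomial.mem_restrictTotalDegree _ _ _).2 ?_
        refine le_trans (MvPolynomial.totalDegree_mul _ _) ?_
        omega)
    have e1 : Module.finrank T.k ((Pn T.k n).map (ev T).toLinearMap) = cnt n := by
      rw [← finrank_Pn T.k n]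
      exact (LinearEquiv.finrank_eq (Submodule.equivMapOfInjective _ hinj _)).symm
    have e2 : Module.finrank T.k
        (((Pn T.k (n - δ)).map (LinearMap.mulLeft T.k G)).map (ev T).toLinearMap) =
          cnt (n - δ) := by
      rw [← finrank_Pn T.k (n - δ)]
      exact (LinearEquiv.finrank_eq ((Submodule.equivMapOfInjective _ hinjG _).trans
        (Submodule.equivMapOfInjective _ hinj _))).symm
    rw [e1, e2] at hmain
    have hsl : T.sl e ((n : ℤ) • T.H) = (Module.finrank T.k (T.L ((n : ℤ) • T.H)) : ℤ) -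
        Module.finrank T.k (T.L ((n : ℤ) • T.H - T.pr e)) := rfl
    rw [hsl]
    refine le_trans ?_ hmain
    have c1 := two_cnt n
    have c2 := two_cnt (n - δ)
    obtain ⟨m, rfl⟩ := Nat.exists_eq_add_of_le hn
    rw [Nat.add_sub_cancel_left] at c2 ⊢
    have c1' : 2 * (cnt (δ + m) : ℤ) = (δ + m + 1) * (δ + m + 2) := by exact_mod_cast c1
    have c2' : 2 * (cnt m : ℤ) = (m + 1) * (m + 2) := by exact_mod_cast c2
    push_cast
    have hd0 : (0 : ℤ) ≤ δ := Int.natCast_nonneg δ
    nlinarith
  by_contra hcon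
  push Not at hcon
  have hpos := hD.pos
  obtain ⟨n, hn1, hn2⟩ : ∃ n : ℕ, δ ≤ n ∧ T.degc e + (δ : ℤ) * δ < n := by
    refine ⟨δ + (T.degc e + (δ : ℤ) * δ + 1).toNat, by omega, ?_⟩
    have h1 : T.degc e + (δ : ℤ) * δ + 1 ≤ ((T.degc e + (δ : ℤ) * δ + 1).toNat : ℤ) :=
      Int.self_le_toNat _
    push_cast
    omega
  have h1 := hlow n hn1
  have h2 : (T.degc e + 1) * (n : ℤ) ≤ δ * n :=
    mul_le_mul_of_nonneg_right (by omega) (Int.natCast_nonneg n)
  nlinarith

end Pool.Agent.NUM
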