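import Pool.Agent.NUM.Stmts
import Pool.Agent.SRF.Stmts

/-!
# Lines with reduced preimage which avoid finitely many curves
-/

set_option autoImplicit false

noncomputable section

namespace Pool.Agent.NUM

open Pool.Agent.SRF Filter MvPolynomial

namespace RAL_

variable {k : Type} [Field k]

/-- the line `X = c` -/
def lin (c : k) : MvPolynomial (Fin 2) k := X 0 - C c

theorem coeff_lin (c : k) : coeff (Finsupp.single 0 1) (lin c) = 1 := by
  classical
  unfold lin
  have h0 : ¬ (0 : Fin 2 →₀ ℕ) = Finsupp.single 0 1 := by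
    intro h
    have h1 := DFunLike.congr_fun h 0
    simp at h1
  rw [coeff_sub, coeff_X, if_pos rfl, coeff_C, if_neg h0, sub_zero]

theorem totalDegree_lin (c : k) : (lin c).totalDegree = 1 := by
  apply le_antisymm
  · refine le_trans (totalDegree_sub _ _) ?_
    rw [totalDegree_X, totalDegree_C]
    simp
  · have h1 : (Finsupp.single 0 1 : Fin 2 →₀ ℕ) ∈ (lin c).support := by
      rw [mem_support_iff, coeff_lin]
      exact one_ne_zero
    have h2 := le_totalDegree h1
    rw [Finsupp.sum_single_index rfl] at h2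
    exact h2

theorem irr_lin (c : k) : Irreducible (lin c) := by
  refine irreducible_of_totalDegree_eq_one (totalDegree_lin c) (fun r hr => ?_)
  have h1 := hr (Finsupp.single 0 1)
  rw [coeff_lin] at h1
  exact isUnit_of_dvd_one h1

theorem exists_c [Infinite k] (Δ : MvPolynomial (Fin 2) k) (hΔ : Δ ≠ 0) (B : Finset k) :
    ∃ c : k, ¬ lin c ∣ Δ ∧ c ∉ B := by
  classical
  have h0 : Δ * ∏ b ∈ B, lin b ≠ 0 :=
    mul_ne_zero hΔ (Finset.prod_ne_zero_iff.2 fun b _ => (irr_lin b).ne_zero)
  obtain ⟨p, hp⟩ : ∃ p : Fin 2 → k, eval p (Δ * ∏ b ∈ B, lin b) ≠ 0 := by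
    by_contra hcon
    push Not at hcon
    exact h0 (MvPolynomial.funext (fun p => by rw [hcon p, map_zero]))
  rw [map_mul, map_prod] at hp
  have hl : ∀ b, eval p (lin b) = p 0 - b := fun b => by simp [lin]
  refine ⟨p 0, ?_, ?_⟩
  · rintro ⟨q, hq⟩
    apply hp
    rw [hq, map_mul, hl, sub_self, zero_mul, zero_mul]
  · intro hB
    apply hp
    have h1 : ∏ b ∈ B, eval p (lin b) = 0 := Finset.prod_eq_zero hB (by rw [hl, sub_self])
    rw [h1, mul_zero]

end RAL_

open RAL_ in
theorem ral_proof (hRAM : Stmt_RAM) (hNLT : Stmt_NLT) (_hHCH : SRF.Stmt_HCH) : Stmt_RAL := by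
  classical
  intro T E
  have hinf : Infinite T.k := IsAlgClosed.instInfinite
  obtain ⟨Δ, hΔ, hΔ2⟩ := hRAM T
  have hev : ∀ c : T.k, MvPolynomial.aeval ![T.x, T.y] (lin c) = T.x - algebraMap T.k T.F c := by
    intro c
    simp [lin]
  have hne : ∀ c : T.k, T.x - algebraMap T.k T.F c ≠ 0 := by
    intro c h
    rw [← hev c] at h
    have h1 := T.surf.indep
    rw [AlgebraicIndependent] at h1
    exact (irr_lin c).ne_zero (h1 (by rw [h, map_zero]))
  have hHnn : ∀ g : T.P, 0 ≤ T.H g := fun g => le_max_left _ _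
  -- finite primes
  have hfin : ∀ g : T.P, T.H g = 0 → ∀ c : T.k, 0 ≤ T.o g (T.x - algebraMap T.k T.F c) := by
    intro g hg c
    have hx : 0 ≤ T.o g T.x := by
      have h1 : - T.o g T.x ≤ T.H g := le_trans (le_max_left _ _) (le_max_right _ _)
      omega
    have hx0 : T.x ≠ 0 := by
      have := hne 0
      rwa [map_zero, sub_zero] at this
    rw [← g.isOrd.mem _ (hne c)]
    exact sub_mem ((g.isOrd.mem _ hx0).2 hx) (g.2.const_mem T.k T.x T.y c)
  have hinfp : ∀ g : T.P, 0 < T.H g → ∀ c : T.k,
      T.o g (T.x - algebraMap T.k T.F c) = - T.H g := by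
    intro g hg c
    have h1 := hNLT T (lin c) (irr_lin c).ne_zero g hg
    rw [hev, totalDegree_lin] at h1
    simpa using h1
  -- at most one bad constant for each finite prime
  have hbad : ∀ g : T.P, ∃ b : T.k, T.H g = 0 → ∀ c : T.k, c ≠ b →
      T.o g (T.x - algebraMap T.k T.F c) = 0 := by
    intro g
    by_cases h : ∃ b : T.k, T.o g (T.x - algebraMap T.k T.F b) ≠ 0
    · obtain ⟨b, hb⟩ := h
      refine ⟨b, fun hg c hc => ?_⟩
      by_contra hcon
      have h1 := hfin g hg b
      have h2 := hfin g hg c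
      have hcb : c - b ≠ 0 := sub_ne_zero.2 hc
      have h3 : T.x - algebraMap T.k T.F b + (-(T.x - algebraMap T.k T.F c)) =
          algebraMap T.k T.F (c - b) := by
        rw [map_sub]; ring
      have h4 : algebraMap T.k T.F (c - b) ≠ 0 := by
        rw [Ne, map_eq_zero]; exact hcb
      have h5 := g.isOrd.add (hne b) (neg_ne_zero.2 (hne c)) (by rw [h3]; exact h4)
      rw [h3, ord_const T.k T.x T.y g _ hcb] at h5
      have h6 : SRF.ord g.1 (-(T.x - algebraMap T.k T.F c)) =
          SRF.ord g.1 (T.x - algebraMap T.k T.F c) := by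
        have h7 : (-(T.x - algebraMap T.k T.F c)) =
            algebraMap T.k T.F (-1) * (T.x - algebraMap T.k T.F c) := by
          rw [map_neg, map_one]; ring
        rw [h7, g.isOrd.mul _ _ (by rw [map_neg, map_one]; exact neg_ne_zero.2 one_ne_zero)
          (hne c), ord_const T.k T.x T.y g _ (neg_ne_zero.2 one_ne_zero), zero_add]
      rw [h6] at h5
      change T.o g (T.x - algebraMap T.k T.F b) ≠ 0 at hb
      rcases min_le_iff.1 h5 with h7 | h7
      · change T.o g (T.x - algebraMap T.k T.F b) ≤ 0 at h7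
        omega
      · change T.o g (T.x - algebraMap T.k T.F c) ≤ 0 at h7
        omega
    · push Not at h
      exact ⟨0, fun _ c _ => h c⟩
  choose b hb using hbad
  obtain ⟨c, hc1, hc2⟩ := exists_c Δ hΔ (E.image b)
  refine ⟨c, hne c, ?_, ?_, ?_⟩
  · refine Or.inr (fun g => ?_)
    rcases (hHnn g).eq_or_lt with h | h
    · have := hfin g h.symm c
      change - T.H g ≤ T.o g _
      omega
    · have := hinfp g h c
      change - T.H g ≤ T.o g _
      omega
  · intro g
    rcases (hHnn g).eq_or_lt with h | h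
    · have h1 := hΔ2 (lin c) (irr_lin c) hc1 g h.symm
      rw [hev] at h1
      omega
    · rw [hinfp g h c]
      omega
  · intro g hg
    rcases (hHnn g).eq_or_lt with h | h
    · rw [hb g h.symm c, ← h, neg_zero]
      rintro rfl
      exact hc2 (Finset.mem_image_of_mem b hg)
    · exact hinfp g h c

end Pool.Agent.NUM
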