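import Pool.Agent.NUM.Stmts
import Pool.Agent.SRF.Stmts

/-! NUM.RAM: irreducible plane curves outside the discriminant have reduced preimage. -/

set_option autoImplicit false

namespace Pool.Agent.NUM

open Pool.Agent.SRF Filter

namespace RAM_

open Polynomial in
/-- the lower coefficients of the minimal polynomial of `α` are divisible by `G` if a power of
`α` is divisible by `G` -/
theorem dvd_coeff {R F : Type} [CommRing R] [IsDomain R] [IsIntegrallyClosed R] [Field F]
    [Algebra R F] [Module.IsTorsionFree R F] (G : R) (hG : Prime G) (α β : F) (hα : IsIntegral R α)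
    (hβ : IsIntegral R β) (N : ℕ) (h : α ^ N = algebraMap R F G * β) (j : ℕ)
    (hj : j < (minpoly R α).natDegree) : G ∣ (minpoly R α).coeff j := by
  classical
  have h1 : aeval (α ^ N) (scaleRoots (minpoly R β) G) = 0 := by
    rw [h]
    exact scaleRoots_aeval_eq_zero (minpoly.aeval R β)
  have h2 : aeval α (expand R N (scaleRoots (minpoly R β) G)) = 0 := by
    rw [expand_aeval, h1]
  have h3 := minpoly.isIntegrallyClosed_dvd hα h2
  have hprime : (Ideal.span {G}).IsPrime := (Ideal.span_singleton_prime hG.ne_zero).2 hG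
  let φ := Ideal.Quotient.mk (Ideal.span {G})
  have h4 : (scaleRoots (minpoly R β) G).map φ = X ^ (minpoly R β).natDegree := by
    ext i
    rw [coeff_map, coeff_scaleRoots, map_mul, map_pow, coeff_X_pow]
    have hG0 : φ G = 0 := by
      rw [Ideal.Quotient.eq_zero_iff_mem]
      exact Ideal.mem_span_singleton_self G
    rcases lt_trichotomy i (minpoly R β).natDegree with hi | hi | hi
    · rw [hG0, zero_pow (by omega), mul_zero, if_neg (by omega)]
    · subst hi
      rw [Nat.sub_self, pow_zero, mul_one, if_pos rfl, coeff_natDegree,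
        (minpoly.monic hβ).leadingCoeff, map_one]
    · rw [coeff_eq_zero_of_natDegree_lt hi, map_zero, zero_mul, if_neg (by omega)]
  have h5 : (minpoly R α).map φ ∣ X ^ (N * (minpoly R β).natDegree) := by
    have := Polynomial.map_dvd φ h3
    rw [map_expand, h4, map_pow, expand_X, ← pow_mul] at this
    exact this
  obtain ⟨m, hm, h6⟩ := (_root_.dvd_prime_pow Polynomial.prime_X _).1 h5
  have hmon : ((minpoly R α).map φ).Monic := (minpoly.monic hα).map φ
  have h7 := eq_of_monic_of_associated hmon (monic_X_pow m) h6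
  have h8 : ((minpoly R α).map φ).natDegree = (minpoly R α).natDegree :=
    (minpoly.monic hα).natDegree_map φ
  rw [h7, natDegree_X_pow] at h8
  have h9 : φ ((minpoly R α).coeff j) = 0 := by
    rw [← coeff_map, h7, coeff_X_pow, if_neg (by omega)]
  rw [Ideal.Quotient.eq_zero_iff_mem, Ideal.mem_span_singleton] at h9
  exact h9

theorem trace_dvd {R K F : Type} [CommRing R] [IsDomain R] [IsIntegrallyClosed R] [Field K]
    [Field F] [Algebra R K] [IsFractionRing R K] [Algebra K F] [Algebra R F] [IsScalarTower R K F]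
    [FiniteDimensional K F] [Module.IsTorsionFree R F] (G : R) (hG : Prime G) (α β : F)
    (hα : IsIntegral R α) (hβ : IsIntegral R β) (N : ℕ) (h : α ^ N = algebraMap R F G * β) :
    ∃ s : R, Algebra.trace K F α = algebraMap R K (G * s) := by
  have h1 := trace_eq_finrank_mul_minpoly_nextCoeff K α
  have hdeg : 0 < (minpoly R α).natDegree := minpoly.natDegree_pos hα
  have h2 : (minpoly K α).nextCoeff = algebraMap R K ((minpoly R α).nextCoeff) := by
    rw [minpoly.isIntegrallyClosed_eq_field_fractions' K hα,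
      Polynomial.nextCoeff_map (IsFractionRing.injective R K)]
  have h3 : G ∣ (minpoly R α).nextCoeff := by
    rw [Polynomial.nextCoeff_of_natDegree_pos hdeg]
    exact dvd_coeff G hG α β hα hβ N h _ (by omega)
  obtain ⟨s, hs⟩ := h3
  refine ⟨-((Module.finrank (IntermediateField.adjoin K {α}) F : R) * s), ?_⟩
  rw [h1, h2, hs]
  simp only [map_mul, map_neg, map_natCast]
  ring

/-- the discriminant argument -/
theorem main {R K F : Type} [CommRing R] [IsDomain R] [IsIntegrallyClosed R] [Field K]
    [Field F] [Algebra R K] [IsFractionRing R K] [Algebra K F] [Algebra R F] [IsScalarTower R K F]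
    [FiniteDimensional K F] [Module.IsTorsionFree R F] [Algebra.IsSeparable K F] :
    ∃ (Δ : R) (n : ℕ) (b : Fin n → F), Δ ≠ 0 ∧ (∀ i, IsIntegral R (b i)) ∧
      ∀ G : R, Prime G → ∀ a : F,
        (∀ i, ∃ (N : ℕ) (β : F), 0 < N ∧ IsIntegral R β ∧
          (a * b i) ^ N = algebraMap R F G * β) →
        ∃ c : F, IsIntegral R c ∧ algebraMap R F Δ * a = algebraMap R F G * c := by
  classical
  have halg : Algebra.IsAlgebraic R F := by
    have h1 : Algebra.IsAlgebraic K F := Algebra.IsAlgebraic.of_finite K F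
    exact (IsFractionRing.comap_isAlgebraic_iff (A := R) (K := K) (C := F)).2 h1
  let v := Module.finBasis K F
  obtain ⟨y, hy0, hy⟩ := Algebra.IsAlgebraic.exists_integral_multiples R
    (Finset.univ.image v)
  have hyK : algebraMap R K y ≠ 0 := by
    rw [Ne, IsFractionRing.to_map_eq_zero_iff]
    exact hy0
  let b : Module.Basis (Fin (Module.finrank K F)) K F :=
    v.isUnitSMul (w := fun _ => algebraMap R K y) (fun _ => isUnit_iff_ne_zero.2 hyK)
  have hb : ∀ i, IsIntegral R (b i) := by
    intro i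
    rw [Module.Basis.isUnitSMul_apply, algebraMap_smul]
    exact hy _ (Finset.mem_image_of_mem _ (Finset.mem_univ i))
  -- the trace matrix
  have hM : ∀ i j, ∃ m : R, algebraMap R K m = Algebra.traceMatrix K b i j := by
    intro i j
    rw [Algebra.traceMatrix_apply, Algebra.traceForm_apply]
    exact IsIntegrallyClosed.isIntegral_iff.1
      (Algebra.isIntegral_trace ((hb i).mul (hb j)))
  choose m hm using hM
  let M : Matrix (Fin (Module.finrank K F)) (Fin (Module.finrank K F)) R := Matrix.of m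
  have hMM : M.map (algebraMap R K) = Algebra.traceMatrix K b := by
    ext i j
    exact hm i j
  refine ⟨M.det, Module.finrank K F, b, ?_, hb, ?_⟩
  · intro h0
    apply Algebra.discr_not_zero_of_basis K b
    rw [Algebra.discr_def, ← hMM]
    have := (RingHom.map_det (algebraMap R K) M)
    rw [RingHom.mapMatrix_apply] at this
    rw [← this, h0, map_zero]
  · intro G hG a ha
    have htr : ∀ i, ∃ s : R, Algebra.trace K F (a * b i) = algebraMap R K (G * s) := by
      intro i
      obtain ⟨N, β, hN, hβ, h⟩ := ha i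
      have hint : IsIntegral R (a * b i) := by
        apply IsIntegral.of_pow hN
        rw [h]
        exact isIntegral_algebraMap.mul hβ
      exact trace_dvd G hG _ β hint hβ N h
    choose s hs using htr
    have h1 := Algebra.traceMatrix_of_basis_mulVec b a
    have h2 : (Algebra.traceMatrix K b).det • b.equivFun a =
        (Algebra.traceMatrix K b).adjugate.mulVec (fun i => algebraMap R K (G * s i)) := by
      have : (fun i => algebraMap R K (G * s i)) =
          (Algebra.traceMatrix K b).mulVec (b.equivFun a) := by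
        rw [h1]
        funext i
        exact (hs i).symm
      rw [this, Matrix.mulVec_mulVec, Matrix.adjugate_mul, Matrix.smul_mulVec, Matrix.one_mulVec]
    let c : Fin (Module.finrank K F) → R := M.adjugate.mulVec s
    have h3 : ∀ i, algebraMap R K M.det * b.equivFun a i = algebraMap R K (G * c i) := by
      intro i
      have h4 := congrFun h2 i
      rw [Pi.smul_apply, smul_eq_mul, ← hMM, ← RingHom.mapMatrix_apply, ← RingHom.map_det,
        ← RingHom.map_adjugate, RingHom.mapMatrix_apply] at h4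
      rw [h4]
      simp only [Matrix.mulVec, dotProduct, Matrix.map_apply, map_mul, c, map_sum, Finset.mul_sum]
      apply Finset.sum_congr rfl
      intro j _
      ring
    refine ⟨∑ i, algebraMap R F (c i) * b i, ?_, ?_⟩
    · exact IsIntegral.sum _ fun i _ => isIntegral_algebraMap.mul (hb i)
    · have h5 := b.sum_equivFun a
      conv_lhs => rw [← h5]
      rw [Finset.mul_sum, Finset.mul_sum]
      apply Finset.sum_congr rfl
      intro i _
      rw [Algebra.smul_def, IsScalarTower.algebraMap_apply R K F M.det, ← mul_assoc, ← map_mul,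
        h3, ← IsScalarTower.algebraMap_apply R K F, map_mul, mul_assoc]

theorem isUnit_iff {F : Type} [Field F] (O : ValuationSubring F) (a : O) :
    IsUnit a ↔ (a : F) ≠ 0 ∧ ((a : F))⁻¹ ∈ O := by
  constructor
  · rintro h
    obtain ⟨b, hb⟩ := h.exists_right_inv
    have h1 : (a : F) * (b : F) = 1 := by exact_mod_cast congrArg Subtype.val hb
    have h0 : (a : F) ≠ 0 := left_ne_zero_of_mul_eq_one h1
    refine ⟨h0, ?_⟩
    rw [inv_eq_of_mul_eq_one_right h1]
    exact b.2
  · rintro ⟨h0, h1⟩
    exact IsUnit.of_mul_eq_one ⟨_, h1⟩ (Subtype.ext (mul_inv_cancel₀ h0))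

theorem poly (k : Type) [Field k] (P : Fin 4 → PrimeSpectrum (MvPolynomial (Fin 2) k)) :
    ¬ StrictMono P := by
  intro h
  have h1 : ringKrullDim (MvPolynomial (Fin 2) k) = 2 := by
    rw [MvPolynomial.ringKrullDim_of_isNoetherianRing, ringKrullDim_eq_zero_of_field]
    simp
  have h2 := Order.LTSeries.length_le_krullDim (LTSeries.mk 3 P h)
  have h3 : ((3 : ℕ) : WithBot ℕ∞) ≤ 2 := by
    rw [← h1]; exact h2
  have h4 : ((3 : ℕ) : WithBot ℕ∞) ≤ ((2 : ℕ) : WithBot ℕ∞) := h3
  rw [Nat.cast_le] at h4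
  omega

section geo

variable (T : Sf)

/-- evaluation of polynomials at `x`, `y` -/
noncomputable abbrev ev : MvPolynomial (Fin 2) T.k →ₐ[T.k] T.F := MvPolynomial.aeval ![T.x, T.y]

theorem ev_inj : Function.Injective (ev T) := T.surf.indep

theorem ev_mem {A : Subalgebra T.k T.F} (hx : T.x ∈ A) (hy : T.y ∈ A)
    (p : MvPolynomial (Fin 2) T.k) : ev T p ∈ A := by
  have h := MvPolynomial.comp_aeval_apply (f := ![(⟨T.x, hx⟩ : A), ⟨T.y, hy⟩]) A.val p
  have h2 : (fun i => A.val (![(⟨T.x, hx⟩ : A), ⟨T.y, hy⟩] i)) = ![T.x, T.y] := by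
    funext i
    fin_cases i <;> rfl
  rw [h2] at h
  rw [← h]
  exact Subtype.property _

theorem x_mem : T.x ∈ base T.k T.x T.y 0 := by
  apply Algebra.subset_adjoin
  exact ⟨1, by simp [z]⟩

theorem y_mem : T.y ∈ base T.k T.x T.y 0 := by
  apply Algebra.subset_adjoin
  exact ⟨2, by simp [z]⟩

theorem base_ev : ∀ f ∈ base T.k T.x T.y 0, ∃ p, ev T p = f := by
  intro f hf
  have : base T.k T.x T.y 0 ≤ (ev T).range := by
    apply Algebra.adjoin_le
    rintro _ ⟨j, rfl⟩
    fin_cases j
    · exact ⟨1, by simp [z]⟩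
    · exact ⟨MvPolynomial.X 0, by simp [z]⟩
    · exact ⟨MvPolynomial.X 1, by simp [z]⟩
  exact this hf

theorem chart_iff (hHCH : Stmt_HCH) (e : T.P) :
    chart T.k T.x T.y 0 ≤ e.1.toSubring ↔ T.H e = 0 := by
  rw [(hHCH T.k T.F T.x T.y T.surf e).2.2 0]
  have : ord e.1 (z T.x T.y 0) = 0 := by
    change ord e.1 (1 : T.F) = 0
    exact e.isOrd.one
  rw [this, neg_zero]

theorem no_two (hNAL : Stmt_NAL) (e : T.P) (he : chart T.k T.x T.y 0 ≤ e.1.toSubring)
    (G D : MvPolynomial (Fin 2) T.k) (hG : Prime G) (hGD : ¬ G ∣ D) (h1 : 0 < T.o e (ev T G))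
    (h2 : 0 < T.o e (ev T D)) : False := by
  classical
  have hmem : ∀ p, ev T p ∈ e.1 := by
    intro p
    apply he
    change IsIntegral (base T.k T.x T.y 0) (ev T p)
    exact isIntegral_algebraMap (R := base T.k T.x T.y 0) (A := T.F)
      (x := ⟨ev T p, ev_mem T (x_mem T) (y_mem T) p⟩)
  let ψ : MvPolynomial (Fin 2) T.k →+* e.1 := (ev T).toRingHom.codRestrict e.1 hmem
  have hψ : ∀ p, ((ψ p : e.1) : T.F) = ev T p := fun _ => rfl
  let I : Ideal (MvPolynomial (Fin 2) T.k) := (IsLocalRing.maximalIdeal e.1).comap ψ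
  have hI : I.IsPrime := Ideal.comap_isPrime _ _
  have hmemI : ∀ p, p ∈ I ↔ ¬ (ev T p ≠ 0 ∧ (ev T p)⁻¹ ∈ e.1) := by
    intro p
    rw [← hψ, ← isUnit_iff, Ideal.mem_comap, IsLocalRing.mem_maximalIdeal, mem_nonunits_iff]
  have hpos : ∀ p, 0 < T.o e (ev T p) → p ∈ I := by
    intro p hp
    rw [hmemI]
    rintro ⟨h0, hinv⟩
    have h3 := (e.isOrd.mem _ (inv_ne_zero h0)).1 hinv
    rw [e.isOrd.inv h0] at h3
    have : 0 < ord e.1 (ev T p) := hp
    omega
  -- `I` is not maximal
  have hnmax : ¬ I.IsMaximal := by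
    intro hmax
    rw [MvPolynomial.isMaximal_iff_eq_vanishingIdeal_singleton] at hmax
    obtain ⟨c, hc⟩ := hmax
    have hv : ∀ j, MvPolynomial.X j - MvPolynomial.C (c j) ∈ I := by
      intro j
      rw [hc, MvPolynomial.mem_vanishingIdeal_iff]
      intro w hw
      rw [Set.mem_singleton_iff] at hw
      subst hw
      simp
    obtain ⟨j, hj⟩ := hNAL T.k T.F T.x T.y T.surf e 0 he
    have key : ∀ l : Fin 2, (z T.x T.y j / z T.x T.y 0) = ![T.x, T.y] l → False := by
      intro l hl
      have h3 := hj (Polynomial.X - Polynomial.C (c l)) (Polynomial.X_sub_C_ne_zero _)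
      rw [hl] at h3
      refine (hmemI _).1 (hv l) ?_
      have h4 : ev T (MvPolynomial.X l - MvPolynomial.C (c l)) =
          Polynomial.aeval (![T.x, T.y] l) (Polynomial.X - Polynomial.C (c l)) := by
        simp
      rw [h4]
      exact h3
    fin_cases j
    · have h3 := (hj (Polynomial.X - Polynomial.C 1) (Polynomial.X_sub_C_ne_zero _)).1
      apply h3
      simp [z]
    · exact key 0 (by simp [z])
    · exact key 1 (by simp [z])
  obtain ⟨M, hM, hIM⟩ := Ideal.exists_le_maximal I hI.ne_top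
  have hlt : I < M := lt_of_le_of_ne hIM (fun h => hnmax (h ▸ hM))
  have hGP : (Ideal.span {G}).IsPrime := (Ideal.span_singleton_prime hG.ne_zero).2 hG
  have hGI : Ideal.span {G} < I := by
    rw [lt_iff_le_and_ne]
    constructor
    · rw [Ideal.span_singleton_le_iff_mem]
      exact hpos G h1
    · intro h
      apply hGD
      rw [← Ideal.mem_span_singleton, h]
      exact hpos D h2
  have hbG : (⊥ : Ideal (MvPolynomial (Fin 2) T.k)) < Ideal.span {G} := by
    rw [bot_lt_iff_ne_bot, Ne, Ideal.span_singleton_eq_bot]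
    exact hG.ne_zero
  have hbot : (⊥ : Ideal (MvPolynomial (Fin 2) T.k)).IsPrime := Ideal.isPrime_bot
  apply poly T.k ![⟨⊥, hbot⟩, ⟨Ideal.span {G}, hGP⟩, ⟨I, hI⟩, ⟨M, hM.isPrime⟩]
  rw [Fin.strictMono_iff_lt_succ]
  intro i
  fin_cases i
  · exact hbG
  · exact hGI
  · exact hlt

end geo

end RAM_

open RAM_ in
theorem ram_proof (hAVD : Stmt_AVD) (hREC : Stmt_REC) (_hFRA : Stmt_FRA) (_hBAS : Stmt_BAS)
    (hNAL : Stmt_NAL) (hSUP : Stmt_SUP) (hHCH : Stmt_HCH) : Stmt_RAM := by
  intro T
  classical
  let K := IntermediateField.adjoin T.k ({T.x, T.y} : Set T.F)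
  have hxK : T.x ∈ K := IntermediateField.subset_adjoin _ _ (by simp)
  have hyK : T.y ∈ K := IntermediateField.subset_adjoin _ _ (by simp)
  let R := MvPolynomial (Fin 2) T.k
  let φK : R →ₐ[T.k] K := MvPolynomial.aeval ![(⟨T.x, hxK⟩ : K), ⟨T.y, hyK⟩]
  have hφ : ∀ p : R, ((φK p : K) : T.F) = ev T p := by
    intro p
    have h := MvPolynomial.comp_aeval_apply (f := ![(⟨T.x, hxK⟩ : K), ⟨T.y, hyK⟩]) K.val p
    have h2 : (fun i => K.val (![(⟨T.x, hxK⟩ : K), ⟨T.y, hyK⟩] i)) = ![T.x, T.y] := by
      funext i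
      fin_cases i <;> rfl
    rw [h2] at h
    exact h
  let _ : Algebra R T.F := (ev T).toRingHom.toAlgebra
  let _ : Algebra R K := φK.toRingHom.toAlgebra
  have hmapF : ∀ p : R, algebraMap R T.F p = ev T p := fun _ => rfl
  have hmapK : ∀ p : R, algebraMap R K p = φK p := fun _ => rfl
  have htow : IsScalarTower R K T.F := IsScalarTower.of_algebraMap_eq fun p => (hφ p).symm
  have hinjF : Function.Injective (algebraMap R T.F) := ev_inj T
  have hinjK : Function.Injective (algebraMap R K) := by
    intro p q hpq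
    apply hinjF
    rw [hmapF, hmapF, ← hφ, ← hφ]
    exact congrArg _ hpq
  have htor : Module.IsTorsionFree R T.F := Module.isTorsionFree_iff_algebraMap_injective.2 hinjF
  have hfaith : FaithfulSMul R K := (faithfulSMul_iff_algebraMap_injective R K).2 hinjK
  have hfrac : IsFractionRing R K := by
    apply IsFractionRing.of_field
    rintro ⟨w, hw⟩
    have hr : Set.range ![T.x, T.y] = {T.x, T.y} := by
      simp [Set.pair_comm]
    have hw' : w ∈ IntermediateField.adjoin T.k (Set.range ![T.x, T.y]) := by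
      rw [hr]; exact hw
    obtain ⟨r, s, hrs⟩ := (IntermediateField.mem_adjoin_range_iff T.k ![T.x, T.y] w).1 hw'
    refine ⟨r, s, Subtype.ext ?_⟩
    change w = ((φK r / φK s : K) : T.F)
    rw [IntermediateField.coe_div, hφ, hφ]
    exact hrs
  have hfd : FiniteDimensional K T.F := T.surf.fin
  have hsep : Algebra.IsSeparable K T.F := T.surf.sep
  -- the base
  let A := base T.k T.x T.y 0
  let φA : R →+* A := (ev T).toRingHom.codRestrict A (ev_mem T (x_mem T) (y_mem T))
  let _ : Algebra R A := φA.toAlgebra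
  have htowA : IsScalarTower R A T.F := IsScalarTower.of_algebraMap_eq fun p => rfl
  have hintA : Algebra.IsIntegral R A := by
    constructor
    rintro ⟨f, hf⟩
    obtain ⟨p, hp⟩ := base_ev T f hf
    have : (⟨f, hf⟩ : A) = algebraMap R A p := Subtype.ext hp.symm
    rw [this]
    exact isIntegral_algebraMap
  have hch : ∀ f : T.F, f ∈ chart T.k T.x T.y 0 ↔ IsIntegral R f := by
    intro f
    constructor
    · intro hf
      have hf' : IsIntegral A f := hf
      exact isIntegral_trans f hf'
    · intro hf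
      change IsIntegral A f
      exact hf.tower_top
  obtain ⟨Δ, n, b, hΔ, hb, hmain⟩ := main (R := R) (K := K) (F := T.F)
  refine ⟨Δ, hΔ, fun G hG hGΔ e he => ?_⟩
  by_contra hlt
  have hlt : 1 < T.o e (ev T G) := not_le.1 hlt
  have hGp : Prime G := hG.prime
  have hG0 : ev T G ≠ 0 := by
    intro h0
    exact hGp.ne_zero (hinjF (by rw [hmapF, hmapF, h0, map_zero]))
  have hΔ0 : ev T Δ ≠ 0 := by
    intro h0
    exact hΔ (hinjF (by rw [hmapF, hmapF, h0, map_zero]))
  have hech := (chart_iff T hHCH e).2 he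
  -- the bound for the orders of `G`
  have hfinG := hSUP T.k T.F T.x T.y T.surf (ev T G) hG0
  obtain ⟨N, hN⟩ : ∃ N : ℕ, ∀ O : T.P, T.o O (ev T G) ≤ N := by
    obtain ⟨B, hB⟩ := (hfinG.image (fun O => ord O.1 (ev T G))).bddAbove
    refine ⟨B.toNat, fun O => ?_⟩
    by_cases h0 : ord O.1 (ev T G) = 0
    · change ord O.1 (ev T G) ≤ _
      rw [h0]; omega
    · have := hB ⟨O, h0, rfl⟩
      have h1 : ord O.1 (ev T G) ≤ B := this
      change ord O.1 (ev T G) ≤ _
      omega
  let D : T.P → ℤ := fun O => if (T.H O = 0 ∧ 0 < T.o O (ev T G)) then 1 else 0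
  have hD : {O | D O ≠ 0}.Finite := by
    apply hfinG.subset
    intro O hO
    simp only [D, Set.mem_ofPred_eq] at hO ⊢
    by_contra h0
    apply hO
    rw [if_neg]
    rintro ⟨-, h2⟩
    have : 0 < ord O.1 (ev T G) := h2
    omega
  have hinf : Infinite T.k := IsAlgClosed.instInfinite
  obtain ⟨a₀, ha₀⟩ := hAVD T.k T.F T.x T.y T.surf D hD {e} (Set.finite_singleton e)
  obtain ⟨f, hf0, hfL, hfe⟩ := ha₀ a₀ (le_refl _)
  have hfe' : T.o e f = 1 := by
    have h1 := hfe e (Set.mem_singleton e)
    have h2 : D e = 1 := by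
      simp only [D]
      rw [if_pos]
      exact ⟨he, by omega⟩
    have h3 : SRF.H T.k T.x T.y e = 0 := he
    rw [h2, h3] at h1
    change ord e.1 f = 1
    rw [h1]; ring
  have hfO : ∀ O : T.P, T.H O = 0 → D O ≤ T.o O f := by
    intro O hO
    rcases hfL with h | h
    · exact absurd h hf0
    · have h1 : -((a₀ : ℤ) * SRF.H T.k T.x T.y O - D O) ≤ ord O.1 f := h O
      have h3 : SRF.H T.k T.x T.y O = 0 := hO
      rw [h3] at h1
      change D O ≤ ord O.1 f
      linarith
  obtain ⟨c, hc, hcf⟩ := hmain G hGp f (by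
    intro i
    by_cases h0 : f * b i = 0
    · exact ⟨1, 0, one_pos, isIntegral_zero, by rw [h0]; simp⟩
    · have hb0 : b i ≠ 0 := right_ne_zero_of_mul h0
      refine ⟨N + 1, (f * b i) ^ (N + 1) / ev T G, Nat.succ_pos _, ?_, ?_⟩
      · rw [← hch]
        apply hREC T.k T.F T.x T.y T.surf 0
        intro O hO
        have hOH := (chart_iff T hHCH O).1 hO
        have hne : (f * b i) ^ (N + 1) / ev T G ≠ 0 := div_ne_zero (pow_ne_zero _ h0) hG0
        rw [O.isOrd.mem _ hne, div_eq_mul_inv, O.isOrd.mul _ _ (pow_ne_zero _ h0)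
          (inv_ne_zero hG0), O.isOrd.inv hG0, O.isOrd.pow h0, O.isOrd.mul _ _ hf0 hb0]
        have h1 := hfO O hOH
        have h2 : 0 ≤ ord O.1 (b i) := by
          rw [← O.isOrd.mem _ hb0]
          exact hO ((hch _).2 (hb i))
        have h3 := hN O
        change D O ≤ ord O.1 f at h1
        change ord O.1 (ev T G) ≤ N at h3
        by_cases hpos : 0 < ord O.1 (ev T G)
        · have h4 : D O = 1 := by
            simp only [D]
            rw [if_pos]
            exact ⟨hOH, hpos⟩
          rw [h4] at h1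
          have h5 : (1 : ℤ) ≤ ord O.1 f + ord O.1 (b i) := by omega
          have h6 : ((N + 1 : ℕ) : ℤ) * 1 ≤ ((N + 1 : ℕ) : ℤ) * (ord O.1 f + ord O.1 (b i)) :=
            mul_le_mul_of_nonneg_left h5 (by positivity)
          push_cast at h6 ⊢
          linarith
        · have h4 : 0 ≤ D O := by
            simp only [D]
            split_ifs <;> norm_num
          have h5 : 0 ≤ ord O.1 f + ord O.1 (b i) := by omega
          have h6 : 0 ≤ ((N + 1 : ℕ) : ℤ) * (ord O.1 f + ord O.1 (b i)) :=
            mul_nonneg (by positivity) h5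
          linarith
      · rw [hmapF, mul_div_cancel₀]
        exact hG0)
  rw [hmapF, hmapF] at hcf
  have hc0 : c ≠ 0 := by
    rintro rfl
    rw [mul_zero] at hcf
    rcases mul_eq_zero.1 hcf with h | h
    · exact hΔ0 h
    · exact hf0 h
  have h1 : ord e.1 (ev T Δ * f) = ord e.1 (ev T G * c) := by rw [hcf]
  rw [e.isOrd.mul _ _ hΔ0 hf0, e.isOrd.mul _ _ hG0 hc0] at h1
  have h2 : 0 ≤ ord e.1 c := by
    rw [← e.isOrd.mem _ hc0]
    exact hech ((hch _).2 hc)
  have h3 : ord e.1 f = 1 := hfe'
  have h4 : 1 < ord e.1 (ev T G) := hlt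
  exact no_two T hNAL e hech G Δ hGp hGΔ (by change 0 < ord e.1 (ev T G); omega)
    (by change 0 < ord e.1 (ev T Δ); omega)

end Pool.Agent.NUM
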