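import Pool.Agent.NUM.Stmts
import Pool.Agent.SRF.Stmts

set_option autoImplicit false

noncomputable section

namespace Pool.Agent.NUM

open Pool.Agent.SRF Filter

namespace RCV_

section A

open MvPolynomial

variable {k κ : Type} [Field k] [Field κ] [Algebra k κ]

/-- homogenisation with respect to the variable `i` -/
noncomputable def hom (g : MvPolynomial (Fin 3) k) (i : Fin 3) : MvPolynomial (Fin 3) k :=
  ∑ d ∈ Finset.range (g.totalDegree + 1), homogeneousComponent d g * X i ^ (g.totalDegree - d)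

lemma hom_hom (g : MvPolynomial (Fin 3) k) (i : Fin 3) :
    (hom g i).IsHomogeneous g.totalDegree := by
  apply IsHomogeneous.sum
  intro d hd
  have h1 : d + (g.totalDegree - d) = g.totalDegree := by
    have := Finset.mem_range.1 hd
    omega
  have h2 := (homogeneousComponent_isHomogeneous d g).mul (isHomogeneous_X_pow (R := k) i
    (g.totalDegree - d))
  rwa [h1] at h2

lemma aeval_hom {S : Type} [CommRing S] [Algebra k S] (g : MvPolynomial (Fin 3) k) (i : Fin 3)
    (a : Fin 3 → S) (ha : a i = 1) : aeval a (hom g i) = aeval a g := by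
  have h1 := congrArg (aeval a) (sum_homogeneousComponent g)
  rw [map_sum] at h1
  rw [hom, map_sum, ← h1]
  refine Finset.sum_congr rfl (fun d _ => ?_)
  rw [map_mul, map_pow, aeval_X, ha, one_pow, mul_one]

/-- the coefficients with respect to the variable `0` -/
noncomputable def cf {S : Type} [CommRing S] [Algebra k S] (G : MvPolynomial (Fin 3) k) (N : ℕ)
    (i : ℕ) (y1 y2 : S) : S :=
  ∑ m ∈ G.support.filter (fun m => N - m 0 = i),
    algebraMap k S (G.coeff m) * y1 ^ (m 1) * y2 ^ (m 2)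

lemma deg3 {G : MvPolynomial (Fin 3) k} {N : ℕ} (hG : G.IsHomogeneous N) {m : Fin 3 →₀ ℕ}
    (hm : m ∈ G.support) : m 0 + m 1 + m 2 = N := by
  have h1 := hG.degree_eq_sum_deg_support hm
  rw [Finset.sum_subset (Finset.subset_univ m.support)
    (fun i _ hi => Finsupp.notMem_support_iff.1 hi), Fin.sum_univ_three] at h1
  exact h1.symm

lemma expand {S : Type} [CommRing S] [Algebra k S] {G : MvPolynomial (Fin 3) k} {N : ℕ}
    (hG : G.IsHomogeneous N) (b y1 y2 : S) :
    aeval ![b, y1, y2] G = ∑ i ∈ Finset.range (N + 1), cf G N i y1 y2 * b ^ (N - i) := by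
  have h1 : aeval ![b, y1, y2] G = ∑ m ∈ G.support,
      algebraMap k S (G.coeff m) * y1 ^ (m 1) * y2 ^ (m 2) * b ^ (m 0) := by
    rw [aeval_def, eval₂_eq']
    refine Finset.sum_congr rfl (fun m _ => ?_)
    rw [Fin.prod_univ_three]
    simp only [Matrix.cons_val_zero, Matrix.cons_val_one, Matrix.cons_val]
    ring
  rw [h1, ← Finset.sum_fiberwise_of_maps_to (t := Finset.range (N + 1)) (g := fun m => N - m 0)
    (fun m _ => Finset.mem_range.2 (by omega))]
  refine Finset.sum_congr rfl (fun i hi => ?_)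
  rw [cf, Finset.sum_mul]
  refine Finset.sum_congr rfl (fun m hm => ?_)
  obtain ⟨hm1, hm2⟩ := Finset.mem_filter.1 hm
  have h3 := deg3 hG hm1
  have h4 : m 0 = N - i := by omega
  rw [h4]

lemma cf_lead {G : MvPolynomial (Fin 3) k} {N : ℕ} (hG : G.IsHomogeneous N) {S : Type}
    [CommRing S] [Algebra k S] (y1 y2 : S) :
    cf G N 0 y1 y2 = algebraMap k S (aeval ![1, 0, 0] G) := by
  rw [expand hG, Finset.sum_eq_single 0]
  · rw [one_pow, mul_one, cf, cf, map_sum]
    refine Finset.sum_congr rfl (fun m hm => ?_)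
    obtain ⟨hm1, hm2⟩ := Finset.mem_filter.1 hm
    have h3 := deg3 hG hm1
    have h4 : m 1 = 0 := by omega
    have h5 : m 2 = 0 := by omega
    rw [h4, h5]
    simp
  · intro i _ hi
    rw [cf]
    rw [Finset.sum_eq_zero, zero_mul]
    intro m hm
    obtain ⟨hm1, hm2⟩ := Finset.mem_filter.1 hm
    have h3 := deg3 hG hm1
    by_cases h4 : m 1 = 0
    · have h5 : m 2 ≠ 0 := by omega
      rw [zero_pow h5, mul_zero]
    · rw [zero_pow h4, mul_zero, zero_mul]
  · intro h
    exact absurd (Finset.mem_range.2 (Nat.succ_pos N)) h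

/-- the coefficients as polynomials in the second variable -/
noncomputable def cp (G : MvPolynomial (Fin 3) k) (N : ℕ) (i : ℕ) : Polynomial k :=
  ∑ m ∈ G.support.filter (fun m => N - m 0 = i), Polynomial.C (G.coeff m) * Polynomial.X ^ (m 2)

lemma cp_deg {G : MvPolynomial (Fin 3) k} {N : ℕ} (hG : G.IsHomogeneous N) (i : ℕ) :
    (cp G N i).natDegree ≤ i := by
  rw [cp]
  refine Polynomial.natDegree_sum_le_of_forall_le _ _ (fun m hm => ?_)
  obtain ⟨hm1, hm2⟩ := Finset.mem_filter.1 hm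
  have h3 := deg3 hG hm1
  exact (Polynomial.natDegree_C_mul_X_pow_le _ _).trans (by omega)

lemma aeval_cp (G : MvPolynomial (Fin 3) k) (N i : ℕ) (t : κ) :
    Polynomial.aeval t (cp G N i) = cf G N i 1 t := by
  rw [cp, map_sum, cf]
  refine Finset.sum_congr rfl (fun m _ => ?_)
  rw [map_mul, Polynomial.aeval_C, map_pow, Polynomial.aeval_X, one_pow, mul_one]

/-- the integral equation -/
lemma eqn {G : MvPolynomial (Fin 3) k} {N : ℕ} (hG : G.IsHomogeneous N) (hN : 1 ≤ N)
    (h0 : aeval ![(1 : k), 0, 0] G ≠ 0) (b t : κ) (h : aeval ![b, 1, t] G = 0) :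
    ∃ (n : ℕ) (c : ℕ → Polynomial k), 1 ≤ n ∧ (∀ i, (c i).natDegree ≤ i) ∧
      b ^ n + ∑ i ∈ Finset.Icc 1 n, Polynomial.aeval t (c i) * b ^ (n - i) = 0 := by
  refine ⟨N, fun i => Polynomial.C ((aeval ![(1 : k), 0, 0] G)⁻¹) * cp G N i, hN, fun i => ?_, ?_⟩
  · exact (Polynomial.natDegree_C_mul_le _ _).trans (cp_deg hG i)
  · rw [expand hG, Finset.sum_range_succ' ] at h
    rw [cf_lead hG, Nat.sub_zero] at h
    have h1 : algebraMap k κ (aeval ![(1 : k), 0, 0] G) ≠ 0 := by
      rw [Ne, map_eq_zero]; exact h0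
    have h2 : ∑ i ∈ Finset.Icc 1 N, Polynomial.aeval t
        (Polynomial.C ((aeval ![(1 : k), 0, 0] G)⁻¹) * cp G N i) * b ^ (N - i) =
        (algebraMap k κ (aeval ![(1 : k), 0, 0] G))⁻¹ *
        ∑ i ∈ Finset.range N, cf G N (i + 1) 1 t * b ^ (N - (i + 1)) := by
      have h3 : Finset.Icc 1 N = Finset.Ico 1 (N + 1) := by
        rfl
      rw [h3, Finset.sum_Ico_eq_sum_range, Nat.add_sub_cancel, Finset.mul_sum]
      refine Finset.sum_congr rfl (fun i _ => ?_)
      rw [map_mul, Polynomial.aeval_C, aeval_cp, map_inv₀, add_comm 1 i, mul_assoc]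
    rw [h2]
    field_simp
    linear_combination h

/-- the equation over the constants -/
lemma alg_const {G : MvPolynomial (Fin 3) k} {N : ℕ} (hG : G.IsHomogeneous N)
    (h0 : aeval ![(1 : k), 0, 0] G ≠ 0) (b : κ) (c1 c2 : k)
    (h : aeval ![b, algebraMap k κ c1, algebraMap k κ c2] G = 0) : IsIntegral k b := by
  have h1 : IsAlgebraic k b := by
    refine ⟨aeval ![Polynomial.X, Polynomial.C c1, Polynomial.C c2] G, ?_, ?_⟩
    · intro h2
      have h3 := expand hG (Polynomial.X : Polynomial k) (Polynomial.C c1) (Polynomial.C c2)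
      rw [h2, Finset.sum_range_succ', cf_lead hG, Nat.sub_zero] at h3
      have h4 : (0 : Polynomial k).coeff N = _ := congrArg (fun P => Polynomial.coeff P N) h3
      have h5 : ∀ i, cf G N i (Polynomial.C c1) (Polynomial.C c2) =
          Polynomial.C (cf G N i c1 c2) := by
        intro i
        rw [cf, cf, map_sum]
        refine Finset.sum_congr rfl (fun m _ => ?_)
        rw [map_mul, map_mul, map_pow, map_pow]
        rfl
      rw [Polynomial.coeff_zero, Polynomial.coeff_add, Polynomial.finset_sum_coeff,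
        Finset.sum_eq_zero, zero_add] at h4
      · have h6 : algebraMap k (Polynomial k) (aeval ![(1 : k), 0, 0] G) =
          Polynomial.C (aeval ![(1 : k), 0, 0] G) := rfl
        rw [h6, Polynomial.coeff_C_mul, Polynomial.coeff_X_pow, if_pos rfl, mul_one] at h4
        exact h0 h4.symm
      · intro i hi
        rw [h5, Polynomial.coeff_C_mul, Polynomial.coeff_X_pow, if_neg, mul_zero]
        have := Finset.mem_range.1 hi
        omega
    · rw [comp_aeval_apply, ← h]
      congr 2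
      funext i
      fin_cases i
      · exact Polynomial.aeval_X b
      · exact Polynomial.aeval_C b c1
      · exact Polynomial.aeval_C b c2
  exact h1.isIntegral

lemma smul_eval {S : Type} [CommRing S] [Algebra k S] {G : MvPolynomial (Fin 3) k} {N : ℕ}
    (hG : G.IsHomogeneous N) (c : S) (a : Fin 3 → S) :
    aeval (fun l => c * a l) G = c ^ N * aeval a G := by
  rw [aeval_def, aeval_def, eval₂_eq', eval₂_eq', Finset.mul_sum]
  refine Finset.sum_congr rfl (fun m hm => ?_)
  rw [Fin.prod_univ_three, Fin.prod_univ_three, ← deg3 hG hm]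
  ring

/-- the first linear form -/
noncomputable def uu (p : Fin 3 → k) (a : Fin 3 → κ) : κ :=
  algebraMap k κ (p 1) * a 0 - algebraMap k κ (p 0) * a 1

/-- the second linear form -/
noncomputable def vv (p : Fin 3 → k) (a : Fin 3 → κ) : κ :=
  algebraMap k κ (p 2) * a 0 - algebraMap k κ (p 0) * a 2

/-- coefficients -/
noncomputable def al (p : Fin 3 → k) (j l : Fin 3) : k :=
  (![0, -1 / p 0, 0] : Fin 3 → k) l - p l / p j * (![0, -1 / p 0, 0] : Fin 3 → k) j

/-- coefficients -/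
noncomputable def be (p : Fin 3 → k) (j l : Fin 3) : k :=
  (![0, 0, -1 / p 0] : Fin 3 → k) l - p l / p j * (![0, 0, -1 / p 0] : Fin 3 → k) j

lemma key (p : Fin 3 → k) (hp : ∀ j, p j ≠ 0) (a : Fin 3 → κ) (j l : Fin 3) :
    a l = algebraMap k κ (p l / p j) * a j + algebraMap k κ (al p j l) * uu p a +
      algebraMap k κ (be p j l) * vv p a := by
  have h0 : algebraMap k κ (p 0) ≠ 0 := by rw [Ne, map_eq_zero]; exact hp 0
  have h1 : algebraMap k κ (p 1) ≠ 0 := by rw [Ne, map_eq_zero]; exact hp 1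
  have h2 : algebraMap k κ (p 2) ≠ 0 := by rw [Ne, map_eq_zero]; exact hp 2
  unfold al be uu vv
  fin_cases j <;> fin_cases l <;> simp <;> field_simp <;> ring

/-- the substitution -/
noncomputable def sb (p : Fin 3 → k) (j l : Fin 3) : MvPolynomial (Fin 3) k :=
  C (p l / p j) * X 0 + C (al p j l) * X 1 + C (be p j l) * X 2

lemma sb_hom {G : MvPolynomial (Fin 3) k} {N : ℕ} (hG : G.IsHomogeneous N) (p : Fin 3 → k)
    (j : Fin 3) : (aeval (sb p j) G).IsHomogeneous N := by
  have := hG.aeval (sb p j) (n := 1) (fun l => ((isHomogeneous_C_mul_X _ _).add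
    (isHomogeneous_C_mul_X _ _)).add (isHomogeneous_C_mul_X _ _))
  rwa [one_mul] at this

lemma aeval_sb {S : Type} [CommRing S] [Algebra k S] (G : MvPolynomial (Fin 3) k)
    (p : Fin 3 → k) (j : Fin 3) (b y1 y2 : S) :
    aeval ![b, y1, y2] (aeval (sb p j) G) = aeval (fun l => algebraMap k S (p l / p j) * b +
      algebraMap k S (al p j l) * y1 + algebraMap k S (be p j l) * y2) G := by
  rw [comp_aeval_apply]
  congr 2
  funext l
  simp [sb]

lemma sb_lead {G : MvPolynomial (Fin 3) k} {N : ℕ} (hG : G.IsHomogeneous N) (p : Fin 3 → k)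
    (hp : ∀ j, p j ≠ 0) (hGp : aeval p G ≠ 0) (j : Fin 3) :
    aeval ![(1 : k), 0, 0] (aeval (sb p j) G) ≠ 0 := by
  intro h
  rw [aeval_sb] at h
  apply hGp
  have h1 := smul_eval hG (p j) (fun l => p l / p j)
  have h2 : (fun l => p j * (p l / p j)) = p := by
    funext l
    have := hp j
    field_simp
  have h3 : (fun l => algebraMap k k (p l / p j) * 1 + algebraMap k k (al p j l) * 0 +
      algebraMap k k (be p j l) * 0) = fun l => p l / p j := by
    funext l
    simp
  rw [h3] at h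
  rw [h2, h, mul_zero] at h1
  exact h1

theorem main [IsAlgClosed k] (a : Fin 3 → κ) (i : Fin 3) (hai : a i = 1) (j0 : Fin 3)
    (hj0 : Transcendental k (a j0)) (G0 : MvPolynomial (Fin 3) k) (N0 : ℕ)
    (hG0 : G0.IsHomogeneous N0) (hne : G0 ≠ 0) (hGa0 : aeval a G0 = 0) :
    ∃ p : Fin 3 → k, uu p a ≠ 0 ∧ vv p a ≠ 0 ∧ Transcendental k (vv p a / uu p a) ∧
      ∀ j, ∃ (n : ℕ) (c : ℕ → Polynomial k), 1 ≤ n ∧ (∀ i, (c i).natDegree ≤ i) ∧
        (a j / uu p a) ^ n + ∑ i ∈ Finset.Icc 1 n,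
          Polynomial.aeval (vv p a / uu p a) (c i) * (a j / uu p a) ^ (n - i) = 0 := by
  obtain ⟨G, N, hG, hGn, hGa, hN, hGX⟩ : ∃ (G : MvPolynomial (Fin 3) k) (N : ℕ),
      G.IsHomogeneous N ∧ G ≠ 0 ∧ aeval a G = 0 ∧ 1 ≤ N ∧
      ∀ (p : Fin 3 → k) (j : Fin 3), p j = 0 → aeval p G = 0 := by
    refine ⟨G0 * X 0 * X 1 * X 2, N0 + 1 + 1 + 1, ((hG0.mul (isHomogeneous_X k 0)).mul
      (isHomogeneous_X k 1)).mul (isHomogeneous_X k 2), ?_, ?_, by omega, ?_⟩
    · exact mul_ne_zero (mul_ne_zero (mul_ne_zero hne (X_ne_zero _)) (X_ne_zero _)) (X_ne_zero _)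
    · rw [map_mul, map_mul, map_mul, hGa0, zero_mul, zero_mul, zero_mul]
    · intro p j hj
      rw [map_mul, map_mul, map_mul, aeval_X, aeval_X, aeval_X]
      fin_cases j
      · change p 0 = 0 at hj
        rw [hj]; ring
      · change p 1 = 0 at hj
        rw [hj]; ring
      · change p 2 = 0 at hj
        rw [hj]; ring
  haveI : Infinite k := IsAlgClosed.instInfinite
  obtain ⟨p, hGp⟩ : ∃ p : Fin 3 → k, aeval p G ≠ 0 := by
    by_contra hcon
    push Not at hcon
    exact hGn (hG.eq_zero_of_forall_eval_eq_zero (fun r => hcon r))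
  have hp : ∀ j, p j ≠ 0 := fun j hj => hGp (hGX p j hj)
  have L : ∀ (θ : κ) (c1 c2 : k), uu p a = algebraMap k κ c1 * θ → vv p a = algebraMap k κ c2 * θ →
      False := by
    intro θ c1 c2 h1 h2
    by_cases hθ : θ = 0
    · rw [hθ, mul_zero] at h1 h2
      have h3 := key p hp a i j0
      rw [h1, h2, hai, mul_one, mul_zero, mul_zero, add_zero, add_zero] at h3
      apply hj0
      rw [h3]
      exact isAlgebraic_algebraMap _
    · have h3 : ∀ l, θ⁻¹ * a l = algebraMap k κ (p l / p 0) * (a 0 / θ) +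
          algebraMap k κ (al p 0 l) * algebraMap k κ c1 +
          algebraMap k κ (be p 0 l) * algebraMap k κ c2 := by
        intro l
        have h4 := key p hp a 0 l
        rw [h1, h2] at h4
        field_simp
        linear_combination h4
      have h5 : IsIntegral k (a 0 / θ) := by
        apply alg_const (sb_hom hG p 0) (sb_lead hG p hp hGp 0) _ c1 c2
        rw [aeval_sb]
        have h6 := smul_eval hG θ⁻¹ a
        rw [hGa, mul_zero] at h6
        rw [← h6]
        congr 2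
        funext l
        exact (h3 l).symm
      have h7 : ∀ l, IsIntegral k (θ⁻¹ * a l) := by
        intro l
        rw [h3 l]
        exact ((isIntegral_algebraMap.mul h5).add (isIntegral_algebraMap.mul
          isIntegral_algebraMap)).add (isIntegral_algebraMap.mul isIntegral_algebraMap)
      have h8 := (h7 i).isAlgebraic
      have h9 := (h7 j0).isAlgebraic
      rw [hai, mul_one] at h8
      apply hj0
      have h10 : a j0 = (θ⁻¹ * a j0) * (θ⁻¹)⁻¹ := by
        field_simp
      rw [h10]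
      exact h9.mul h8.inv
  have hu : uu p a ≠ 0 := fun h => L (vv p a) 0 1 (by rw [h, map_zero, zero_mul])
    (by rw [map_one, one_mul])
  refine ⟨p, hu, fun h => L (uu p a) 1 0 (by rw [map_one, one_mul])
    (by rw [h, map_zero, zero_mul]), ?_, ?_⟩
  · intro halg
    have h1 : vv p a / uu p a ∈ (algebraMap k κ).range := by
      apply minpoly.mem_range_of_degree_eq_one
      exact IsAlgClosed.degree_eq_one_of_irreducible k (minpoly.irreducible halg.isIntegral)
    obtain ⟨c, hc⟩ := h1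
    refine L (uu p a) 1 c (by rw [map_one, one_mul]) ?_
    rw [hc]
    field_simp
  · intro j
    apply eqn (sb_hom hG p j) hN (sb_lead hG p hp hGp j)
    rw [aeval_sb]
    have h6 := smul_eval hG (uu p a)⁻¹ a
    rw [hGa, mul_zero] at h6
    rw [← h6]
    congr 2
    funext l
    have h4 := key p hp a j l
    field_simp
    linear_combination -h4

end A

section B

lemma integral_of_eqn {E κ : Type} [Field E] [Field κ] [Algebra E κ] (b : κ) (n : ℕ)
    (d : ℕ → E) (h : b ^ n + ∑ i ∈ Finset.Icc 1 n, algebraMap E κ (d i) * b ^ (n - i) = 0) :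
    IsIntegral E b := by
  refine ⟨Polynomial.X ^ n + ∑ i ∈ Finset.Icc 1 n, Polynomial.C (d i) * Polynomial.X ^ (n - i),
    Polynomial.monic_X_pow_add ?_, ?_⟩
  · rw [← Polynomial.mem_degreeLT]
    refine Submodule.sum_mem _ (fun i hi => Polynomial.mem_degreeLT.2 ?_)
    obtain ⟨h1, h2⟩ := Finset.mem_Icc.1 hi
    refine (Polynomial.degree_C_mul_X_pow_le _ _).trans_lt ?_
    exact_mod_cast (by omega : n - i < n)
  · rw [← Polynomial.aeval_def, map_add, map_pow, Polynomial.aeval_X, map_sum]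
    rw [← h]
    congr 1
    refine Finset.sum_congr rfl (fun i _ => ?_)
    rw [map_mul, Polynomial.aeval_C, map_pow, Polynomial.aeval_X]

variable (T : Sf) (e : T.P)

instance : IsScalarTower T.k e.1 T.F := IsScalarTower.of_algebraMap_eq (fun _ => rfl)

lemma res_ne {f : e.1} (h : ((f : e.1) : T.F)⁻¹ ∈ e.1) (h0 : ((f : e.1) : T.F) ≠ 0) :
    IsLocalRing.residue e.1 f ≠ 0 := by
  intro h1
  rw [IsLocalRing.residue_eq_zero_iff, IsLocalRing.mem_maximalIdeal] at h1
  apply h1
  exact IsUnit.of_mul_eq_one (⟨_, h⟩ : e.1) (Subtype.ext (mul_inv_cancel₀ h0))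

lemma res_unit {f : e.1} (h : IsLocalRing.residue e.1 f ≠ 0) :
    ((f : e.1) : T.F) ≠ 0 ∧ ((f : e.1) : T.F)⁻¹ ∈ e.1 ∧ T.o e f = 0 := by
  have h1 : IsUnit f := by
    by_contra hcon
    apply h
    rw [IsLocalRing.residue_eq_zero_iff, IsLocalRing.mem_maximalIdeal]
    exact hcon
  obtain ⟨u, hu⟩ := h1
  have h2 : (f : T.F) * ((u⁻¹ : (e.1)ˣ) : e.1) = 1 := by
    rw [← hu]
    exact congrArg Subtype.val u.mul_inv
  have h0 : (f : T.F) ≠ 0 := fun h3 => by
    rw [h3, zero_mul] at h2
    exact zero_ne_one h2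
  have h3 : (f : T.F)⁻¹ = ((u⁻¹ : (e.1)ˣ) : e.1) := inv_eq_of_mul_eq_one_right h2
  have h4 : (f : T.F)⁻¹ ∈ e.1 := by rw [h3]; exact ((u⁻¹ : (e.1)ˣ) : e.1).2
  refine ⟨h0, h4, ?_⟩
  have h5 := (e.isOrd.mem _ h0).1 f.2
  have h6 := (e.isOrd.mem _ (inv_ne_zero h0)).1 h4
  rw [e.isOrd.inv h0] at h6
  change SRF.ord e.1 _ = 0
  omega

lemma z_ne (i : Fin 3) : z T.x T.y i ≠ 0 := by
  have h := T.surf.indep
  fin_cases i
  · exact one_ne_zero
  · exact h.ne_zero 0
  · exact h.ne_zero 1

lemma div_mem (i j : Fin 3) : z T.x T.y j / z T.x T.y i ∈ base T.k T.x T.y i :=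
  Algebra.subset_adjoin ⟨j, rfl⟩

lemma base_le_chart (i : Fin 3) {f : T.F} (h : f ∈ base T.k T.x T.y i) :
    f ∈ chart T.k T.x T.y i :=
  isIntegral_algebraMap (R := base T.k T.x T.y i) (A := T.F) (x := ⟨f, h⟩)

/-- the ring homomorphism to the residue field -/
def psi (i : Fin 3) (hi : chart T.k T.x T.y i ≤ e.1.toSubring) :
    integralClosure (base T.k T.x T.y i) T.F →+* (IsLocalRing.ResidueField e.1) :=
  (IsLocalRing.residue e.1).comp (Subring.inclusion hi)

lemma psi_apply (i : Fin 3) (hi : chart T.k T.x T.y i ≤ e.1.toSubring)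
    (g : integralClosure (base T.k T.x T.y i) T.F) :
    psi T e i hi g = IsLocalRing.residue e.1 ⟨g.1, hi g.2⟩ := rfl

/-- residues of elements of the base -/
lemma base_ind (i : Fin 3) (hi : chart T.k T.x T.y i ≤ e.1.toSubring) (A : Subring (IsLocalRing.ResidueField e.1))
    (hk : ∀ c : T.k, algebraMap T.k (IsLocalRing.ResidueField e.1) c ∈ A)
    (hz : ∀ j, ∀ h : z T.x T.y j / z T.x T.y i ∈ e.1, IsLocalRing.residue e.1 ⟨_, h⟩ ∈ A)
    (f : T.F) (hf : f ∈ base T.k T.x T.y i) (h : f ∈ e.1) : IsLocalRing.residue e.1 ⟨f, h⟩ ∈ A := by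
  have key : ∃ h : f ∈ e.1, IsLocalRing.residue e.1 ⟨f, h⟩ ∈ A := by
    refine Algebra.adjoin_induction (p := fun f _ => ∃ h : f ∈ e.1,
      IsLocalRing.residue e.1 ⟨f, h⟩ ∈ A) ?_ ?_ ?_ ?_ hf
    · rintro _ ⟨j, rfl⟩
      have h1 : z T.x T.y j / z T.x T.y i ∈ e.1 := hi (base_le_chart T i (div_mem T i j))
      exact ⟨h1, hz j h1⟩
    · intro c
      exact ⟨e.2.const_mem T.k T.x T.y c, hk c⟩
    · rintro f g _ _ ⟨h1, h1'⟩ ⟨h2, h2'⟩
      exact ⟨add_mem h1 h2, by
        have := A.add_mem h1' h2'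
        rwa [← map_add] at this⟩
    · rintro f g _ _ ⟨h1, h1'⟩ ⟨h2, h2'⟩
      exact ⟨mul_mem h1 h2, by
        have := A.mul_mem h1' h2'
        rwa [← map_mul] at this⟩
  obtain ⟨_, h2⟩ := key
  exact h2

/-- a homogeneous equation of the curve -/
lemma exists_G (i : Fin 3) (hi : chart T.k T.x T.y i ≤ e.1.toSubring)
    (hloc : ∀ f ∈ e.1, ∃ a ∈ chart T.k T.x T.y i, ∃ b ∈ chart T.k T.x T.y i,
      b ≠ 0 ∧ b⁻¹ ∈ e.1 ∧ f = a / b) (r : Fin 3 → e.1)
    (hr : ∀ j, (r j : T.F) = z T.x T.y j / z T.x T.y i) :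
    ∃ (G : MvPolynomial (Fin 3) T.k) (N : ℕ), G.IsHomogeneous N ∧ G ≠ 0 ∧
      MvPolynomial.aeval (fun j => IsLocalRing.residue e.1 (r j)) G = 0 := by
  obtain ⟨f, hf0, hf1⟩ := e.isOrd.unif
  have hfe : f ∈ e.1 := (e.isOrd.mem f hf0).2 (by rw [hf1]; norm_num)
  have hfi : f⁻¹ ∉ e.1 := by
    rw [e.isOrd.mem _ (inv_ne_zero hf0), e.isOrd.inv hf0, hf1]
    norm_num
  obtain ⟨a, ha, b, hb, hb0, hbi, hab⟩ := hloc f hfe
  have ha0 : a ≠ 0 := by
    rintro rfl
    rw [zero_div] at hab
    exact hf0 hab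
  have hai : a⁻¹ ∉ e.1 := by
    intro h
    apply hfi
    have h1 : f⁻¹ = a⁻¹ * b := by rw [hab]; field_simp
    rw [h1]
    exact mul_mem h (hi hb)
  -- an element of the base
  let a' : integralClosure (base T.k T.x T.y i) T.F := ⟨a, ha⟩
  have h1 : IsAlgebraic (base T.k T.x T.y i) a' := (integralClosure.isIntegral a').isAlgebraic
  obtain ⟨c, hc0, d, hd⟩ := h1.exists_nonzero_dvd (mem_nonZeroDivisors_of_ne_zero
    (fun h => ha0 (congrArg Subtype.val h)))
  have hcF : (c : T.F) = a * d := congrArg Subtype.val hd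
  have hce : (c : T.F) ∈ e.1 := hi (base_le_chart T i c.2)
  have hc0' : (c : T.F) ≠ 0 := fun h => hc0 (Subtype.ext h)
  have hres : IsLocalRing.residue e.1 ⟨(c : T.F), hce⟩ = 0 := by
    have h2 : (⟨(c : T.F), hce⟩ : e.1) = ⟨a, hi ha⟩ * ⟨(d : T.F), hi d.2⟩ := Subtype.ext hcF
    have h3 : IsLocalRing.residue e.1 ⟨a, hi ha⟩ = 0 := by
      by_contra hcon
      exact hai (res_unit T e hcon).2.1
    rw [h2, map_mul, h3, zero_mul]
  have hcb : (c : T.F) ∈ Algebra.adjoin T.k (Set.range fun j => z T.x T.y j / z T.x T.y i) := c.2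
  rw [Algebra.adjoin_range_eq_range_aeval] at hcb
  obtain ⟨g, hg⟩ := hcb
  have hg' : MvPolynomial.aeval (fun j => z T.x T.y j / z T.x T.y i) g = (c : T.F) := hg
  have hzi : z T.x T.y i / z T.x T.y i = 1 := div_self (z_ne T i)
  refine ⟨hom g i, g.totalDegree, hom_hom g i, ?_, ?_⟩
  · intro h
    have h4 := aeval_hom g i (fun j => z T.x T.y j / z T.x T.y i) hzi
    rw [h, map_zero, hg'] at h4
    exact hc0' h4.symm
  · have h5 : MvPolynomial.aeval r g = (⟨(c : T.F), hce⟩ : e.1) := by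
      apply Subtype.ext
      have h6 := MvPolynomial.aeval_algebraMap_apply (A := e.1) T.F r g
      have h7 : (algebraMap e.1 T.F ∘ r) = fun j => z T.x T.y j / z T.x T.y i := by
        funext j; exact hr j
      rw [h7, hg'] at h6
      exact h6.symm
    have h8 := MvPolynomial.aeval_algebraMap_apply (A := e.1) (IsLocalRing.ResidueField e.1) r g
    rw [h5] at h8
    rw [aeval_hom]
    · exact h8.trans hres
    · have h9 : r i = 1 := Subtype.ext ((hr i).trans hzi)
      rw [h9, map_one]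

/-- residues of elements of the chart are integral -/
lemma chart_int (i : Fin 3) (hi : chart T.k T.x T.y i ≤ e.1.toSubring) {E : Type} [Field E]
    [Algebra E (IsLocalRing.ResidueField e.1)] (hk : ∀ c : T.k, IsIntegral E (algebraMap T.k (IsLocalRing.ResidueField e.1) c))
    (hz : ∀ j, ∀ h : z T.x T.y j / z T.x T.y i ∈ e.1, IsIntegral E (IsLocalRing.residue e.1 ⟨_, h⟩))
    (g : integralClosure (base T.k T.x T.y i) T.F) : IsIntegral E (psi T e i hi g) := by
  have h1 : ∀ s : base T.k T.x T.y i, psi T e i hi (algebraMap _ _ s) ∈ integralClosure E (IsLocalRing.ResidueField e.1) := by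
    intro s
    exact base_ind T e i hi (integralClosure E (IsLocalRing.ResidueField e.1)).toSubring hk hz s s.2 _
  let φ : base T.k T.x T.y i →+* integralClosure E (IsLocalRing.ResidueField e.1) :=
    ((psi T e i hi).comp (algebraMap _ _)).codRestrict (integralClosure E (IsLocalRing.ResidueField e.1)).toSubring h1
  have h2 : IsIntegral (base T.k T.x T.y i) g := integralClosure.isIntegral g
  have h3 : IsIntegral (integralClosure E (IsLocalRing.ResidueField e.1)) (psi T e i hi g) := by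
    refine IsIntegral.map_of_comp_eq φ (psi T e i hi) ?_ h2
    ext s
    rfl
  exact isIntegral_trans _ h3

lemma findim (i : Fin 3) (hi : chart T.k T.x T.y i ≤ e.1.toSubring)
    (hloc : ∀ f ∈ e.1, ∃ a ∈ chart T.k T.x T.y i, ∃ b ∈ chart T.k T.x T.y i,
      b ≠ 0 ∧ b⁻¹ ∈ e.1 ∧ f = a / b)
    (hfin : Module.Finite (base T.k T.x T.y i) (integralClosure (base T.k T.x T.y i) T.F))
    {E : Type} [Field E] [Algebra T.k E] [Algebra E (IsLocalRing.ResidueField e.1)] [IsScalarTower T.k E (IsLocalRing.ResidueField e.1)]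
    (b : Fin 3 → (IsLocalRing.ResidueField e.1)) (hb : ∀ j, IsIntegral E (b j))
    (hz : ∀ j, ∀ h : z T.x T.y j / z T.x T.y i ∈ e.1,
      IsLocalRing.residue e.1 ⟨_, h⟩ = b j * (b i)⁻¹) : FiniteDimensional E (IsLocalRing.ResidueField e.1) := by
  have hk : ∀ c : T.k, algebraMap T.k (IsLocalRing.ResidueField e.1) c = algebraMap E (IsLocalRing.ResidueField e.1) (algebraMap T.k E c) := fun c =>
    IsScalarTower.algebraMap_apply T.k E (IsLocalRing.ResidueField e.1) c
  have hint : ∀ g, IsIntegral E (psi T e i hi g) := by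
    intro g
    refine chart_int T e i hi (fun c => ?_) (fun j h => ?_) g
    · rw [hk]; exact isIntegral_algebraMap
    · rw [hz]; exact (hb j).mul (hb i).inv
  obtain ⟨n, s, hs⟩ := Module.Finite.exists_fin (R := base T.k T.x T.y i)
    (M := integralClosure (base T.k T.x T.y i) T.F)
  let S : Set (IsLocalRing.ResidueField e.1) := Set.range b ∪ Set.range (fun m => psi T e i hi (s m))
  have hSfin : Finite S := (Set.finite_range _).union (Set.finite_range _)
  have hfd : FiniteDimensional E (IntermediateField.adjoin E S) := by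
    apply IntermediateField.finiteDimensional_adjoin
    rintro x (⟨j, rfl⟩ | ⟨m, rfl⟩)
    · exact hb j
    · exact hint _
  have hbS : ∀ j, b j ∈ IntermediateField.adjoin E S := fun j =>
    IntermediateField.subset_adjoin E S (Or.inl ⟨j, rfl⟩)
  have hsS : ∀ m, psi T e i hi (s m) ∈ IntermediateField.adjoin E S := fun m =>
    IntermediateField.subset_adjoin E S (Or.inr ⟨m, rfl⟩)
  have hbase : ∀ c : base T.k T.x T.y i,
      psi T e i hi (algebraMap _ _ c) ∈ IntermediateField.adjoin E S := by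
    intro c
    refine base_ind T e i hi (IntermediateField.adjoin E S).toSubfield.toSubring (fun c => ?_)
      (fun j h => ?_) c c.2 _
    · rw [hk]; exact (IntermediateField.adjoin E S).algebraMap_mem _
    · rw [hz]
      exact (IntermediateField.adjoin E S).mul_mem (hbS j)
        ((IntermediateField.adjoin E S).inv_mem (hbS i))
  have hpsi : ∀ g, psi T e i hi g ∈ IntermediateField.adjoin E S := by
    intro g
    have hg : g ∈ Submodule.span (base T.k T.x T.y i) (Set.range s) := by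
      rw [hs]; trivial
    rw [Submodule.mem_span_range_iff_exists_fun] at hg
    obtain ⟨c, rfl⟩ := hg
    rw [map_sum]
    refine sum_mem (fun m _ => ?_)
    rw [Algebra.smul_def, map_mul]
    exact mul_mem (hbase _) (hsS m)
  have htop : IntermediateField.adjoin E S = ⊤ := by
    rw [eq_top_iff]
    intro r _
    obtain ⟨f, rfl⟩ := IsLocalRing.residue_surjective r
    obtain ⟨a, ha, d, hd, hd0, hdi, had⟩ := hloc f f.2
    have h1 : IsLocalRing.residue e.1 f * psi T e i hi ⟨d, hd⟩ = psi T e i hi ⟨a, ha⟩ := by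
      rw [psi_apply, psi_apply, ← map_mul]
      congr 1
      apply Subtype.ext
      change (f : T.F) * d = a
      rw [had]; field_simp
    have h2 : psi T e i hi ⟨d, hd⟩ ≠ 0 := res_ne T e (f := ⟨d, hi hd⟩) hdi hd0
    have h3 : IsLocalRing.residue e.1 f = psi T e i hi ⟨a, ha⟩ * (psi T e i hi ⟨d, hd⟩)⁻¹ := by
      rw [← h1]; field_simp
    rw [h3]
    exact mul_mem (hpsi _) (inv_mem (hpsi _))
  rw [htop] at hfd
  exact Module.Finite.equiv (IntermediateField.topEquiv (F := E) (E := (IsLocalRing.ResidueField e.1))).toLinearEquiv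

end B

end RCV_

open RCV_ in
/-- RCV: the residue field of a prime divisor -/
theorem rcv_proof (hNAL : SRF.Stmt_NAL) (_hBAS : SRF.Stmt_BAS) (_hCEN : SRF.Stmt_CEN)
    (_hLOC : SRF.Stmt_LOC) (hHCH : SRF.Stmt_HCH) (hFIN : SRF.Stmt_FIN) : Stmt_RCV := by
  intro T e
  obtain ⟨i, hi, hloc⟩ := e.2.2
  have hzi : z T.x T.y i / z T.x T.y i = 1 := div_self (z_ne T i)
  have hmem : ∀ j, z T.x T.y j / z T.x T.y i ∈ e.1 := fun j =>
    hi (base_le_chart T i (div_mem T i j))
  obtain ⟨r, hr⟩ : ∃ r : Fin 3 → e.1, ∀ j, r j = ⟨z T.x T.y j / z T.x T.y i, hmem j⟩ :=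
    ⟨fun j => ⟨_, hmem j⟩, fun _ => rfl⟩
  have hrF : ∀ j, (r j : T.F) = z T.x T.y j / z T.x T.y i := fun j => by rw [hr j]
  obtain ⟨a, ha⟩ : ∃ a : Fin 3 → IsLocalRing.ResidueField e.1,
      a = fun j => IsLocalRing.residue e.1 (r j) := ⟨_, rfl⟩
  have haj : ∀ j, a j = IsLocalRing.residue e.1 (r j) := fun j => by rw [ha]
  have hai : a i = 1 := by
    have h1 : r i = 1 := Subtype.ext ((hrF i).trans hzi)
    rw [haj, h1, map_one]
  obtain ⟨j0, hj0⟩ := hNAL T.k T.F T.x T.y T.surf e i hi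
  have htr : Transcendental T.k (a j0) := by
    rintro ⟨q, hq0, hq⟩
    obtain ⟨h1, h2⟩ := hj0 q hq0
    have h3 := Polynomial.aeval_algebraMap_apply (A := e.1) T.F (r j0) q
    have h4 : algebraMap e.1 T.F (r j0) = z T.x T.y j0 / z T.x T.y i := hrF j0
    rw [h4] at h3
    have h5 : IsLocalRing.residue e.1 (Polynomial.aeval (r j0) q) ≠ 0 := by
      apply res_ne T e
      · have h6 : ((Polynomial.aeval (r j0) q : e.1) : T.F) =
          Polynomial.aeval (z T.x T.y j0 / z T.x T.y i) q := h3.symm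
        rw [h6]; exact h2
      · have h6 : ((Polynomial.aeval (r j0) q : e.1) : T.F) =
          Polynomial.aeval (z T.x T.y j0 / z T.x T.y i) q := h3.symm
        rw [h6]; exact h1
    have h7 := Polynomial.aeval_algebraMap_apply (A := e.1) (IsLocalRing.ResidueField e.1)
      (r j0) q
    apply h5
    rw [haj] at hq
    exact h7.symm.trans hq
  obtain ⟨G, N, hG, hG0, hGa⟩ := exists_G T e i hi hloc r hrF
  rw [← ha] at hGa
  obtain ⟨p, hu, hv, ht, heq⟩ := main a i hai j0 htr G N hG hG0 hGa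
  have hHe := ((hHCH T.k T.F T.x T.y T.surf e).2.2 i).1 hi
  -- linear forms
  have lin : ∀ (c d : T.k) (j l : Fin 3), ∀ w : T.F,
      w = algebraMap T.k T.F c * z T.x T.y j - algebraMap T.k T.F d * z T.x T.y l →
      algebraMap T.k _ c * a j - algebraMap T.k _ d * a l ≠ 0 →
      T.Lin w ∧ w ≠ 0 ∧ T.o e w = - T.H e ∧ ∃ h : w / z T.x T.y i ∈ e.1,
        IsLocalRing.residue e.1 ⟨w / z T.x T.y i, h⟩ =
          algebraMap T.k _ c * a j - algebraMap T.k _ d * a l := by
    intro c d j l w hw hne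
    have hz0 := z_ne T i
    have h1 : ((algebraMap T.k e.1 c * r j - algebraMap T.k e.1 d * r l : e.1) : T.F) =
        w / z T.x T.y i := by
      change algebraMap T.k T.F c * (r j : T.F) - algebraMap T.k T.F d * (r l : T.F) = _
      rw [hrF, hrF, hw]
      field_simp
    have h2 : IsLocalRing.residue e.1 (algebraMap T.k e.1 c * r j - algebraMap T.k e.1 d * r l) =
        algebraMap T.k _ c * a j - algebraMap T.k _ d * a l := by
      rw [haj, haj, map_sub, map_mul, map_mul]
      rfl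
    have h3 : w / z T.x T.y i ∈ e.1 := by
      rw [← h1]
      exact (algebraMap T.k e.1 c * r j - algebraMap T.k e.1 d * r l).2
    have h4 : (⟨w / z T.x T.y i, h3⟩ : e.1) =
        algebraMap T.k e.1 c * r j - algebraMap T.k e.1 d * r l := Subtype.ext h1.symm
    obtain ⟨h5, h6, h7⟩ := res_unit T e (f := ⟨w / z T.x T.y i, h3⟩) (by rw [h4, h2]; exact hne)
    have h8 : w ≠ 0 := by
      intro h
      apply h5
      change w / z T.x T.y i = 0
      rw [h, zero_div]
    refine ⟨?_, h8, ?_, h3, by rw [h4, h2]⟩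
    · have hzs : ∀ j, z T.x T.y j ∈ Submodule.span T.k ({1, T.x, T.y} : Set T.F) := by
        intro j
        apply Submodule.subset_span
        fin_cases j
        · exact Or.inl rfl
        · exact Or.inr (Or.inl rfl)
        · exact Or.inr (Or.inr rfl)
      rw [hw, ← Algebra.smul_def, ← Algebra.smul_def]
      exact sub_mem (Submodule.smul_mem _ _ (hzs j)) (Submodule.smul_mem _ _ (hzs l))
    · have h9 : w = w / z T.x T.y i * z T.x T.y i := by field_simp
      have h10 := e.isOrd.mul _ _ h5 hz0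
      change SRF.ord e.1 w = - SRF.H T.k T.x T.y e
      change SRF.ord e.1 (w / z T.x T.y i) = 0 at h7
      change SRF.ord e.1 (w / z T.x T.y i * z T.x T.y i) = SRF.ord e.1 (w / z T.x T.y i) + _ at h10
      rw [h9, h10, h7, hHe]
      ring
  obtain ⟨u, hu'⟩ : ∃ u : T.F, u = algebraMap T.k T.F (p 1) * z T.x T.y 0 -
    algebraMap T.k T.F (p 0) * z T.x T.y 1 := ⟨_, rfl⟩
  obtain ⟨v, hv'⟩ : ∃ v : T.F, v = algebraMap T.k T.F (p 2) * z T.x T.y 0 -
    algebraMap T.k T.F (p 0) * z T.x T.y 2 := ⟨_, rfl⟩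
  obtain ⟨lu, u0, ou, mu, ru⟩ := lin _ _ _ _ u hu' hu
  obtain ⟨lv, v0, ov, mv, rv⟩ := lin _ _ _ _ v hv' hv
  change _ = uu p a at ru
  change _ = vv p a at rv
  obtain ⟨-, iu, -⟩ := res_unit T e (f := ⟨u / z T.x T.y i, mu⟩) (by rw [ru]; exact hu)
  change (u / z T.x T.y i)⁻¹ ∈ e.1 at iu
  -- quotients by u
  have quo : ∀ w : T.F, ∀ mw : w / z T.x T.y i ∈ e.1, ∃ h : w / u ∈ e.1,
      IsLocalRing.residue e.1 ⟨w / u, h⟩ =
        IsLocalRing.residue e.1 ⟨w / z T.x T.y i, mw⟩ / uu p a := by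
    intro w mw
    have hz0 := z_ne T i
    have h1 : w / u = w / z T.x T.y i * (u / z T.x T.y i)⁻¹ := by field_simp
    have h2 : w / u ∈ e.1 := by rw [h1]; exact mul_mem mw iu
    refine ⟨h2, ?_⟩
    rw [eq_div_iff hu, ← ru, ← map_mul]
    congr 1
    apply Subtype.ext
    change w / u * (u / z T.x T.y i) = w / z T.x T.y i
    field_simp
  obtain ⟨hvu, rvu⟩ := quo v mv
  rw [rv] at rvu
  refine ⟨u, v, vv p a / uu p a, lu, lv, u0, v0, ou, ov, fun h => rvu.symm, ht, ?_, ?_⟩
  · -- finiteness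
    have hbint : ∀ j, IsIntegral (IntermediateField.adjoin T.k
        ({vv p a / uu p a} : Set (IsLocalRing.ResidueField e.1))) (a j / uu p a) := by
      intro j
      obtain ⟨n, c, hn, hc, hcc⟩ := heq j
      refine integral_of_eqn _ n (fun l => Polynomial.aeval
        (IntermediateField.AdjoinSimple.gen T.k (vv p a / uu p a)) (c l)) ?_
      rw [← hcc]
      congr 1
      refine Finset.sum_congr rfl (fun l _ => ?_)
      rw [← Polynomial.aeval_algebraMap_apply, IntermediateField.AdjoinSimple.algebraMap_gen]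
    refine findim T e i hi hloc (hFIN T.k T.F T.x T.y T.surf i).1 (fun j => a j / uu p a) hbint ?_
    intro j h
    have h1 : IsLocalRing.residue e.1 ⟨z T.x T.y j / z T.x T.y i, h⟩ = a j := by
      rw [haj, hr]
    rw [h1, hai]
    field_simp
  · intro j
    obtain ⟨n, c, hn, hc, hcc⟩ := heq j
    refine ⟨n, c, hn, hc, fun h => ?_⟩
    obtain ⟨hq, rq⟩ := quo (z T.x T.y j) (hmem j)
    have rq' : IsLocalRing.residue e.1 ⟨z T.x T.y j / u, hq⟩ = a j / uu p a := by
      rw [rq, haj, hr]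
    have h1 : (⟨_, h⟩ : e.1) = (⟨z T.x T.y j / u, hq⟩ : e.1) ^ n + ∑ l ∈ Finset.Icc 1 n,
        Polynomial.aeval (⟨v / u, hvu⟩ : e.1) (c l) * (⟨z T.x T.y j / u, hq⟩ : e.1) ^ (n - l) := by
      apply Subtype.ext
      have h2 : ∀ l, ((Polynomial.aeval (⟨v / u, hvu⟩ : e.1) (c l) : e.1) : T.F) =
          Polynomial.aeval (v / u) (c l) := fun l =>
        (Polynomial.aeval_algebraMap_apply (A := e.1) T.F ⟨v / u, hvu⟩ (c l)).symm
      push_cast
      simp only [h2]
    rw [h1, map_add, map_pow, rq', map_sum, ← hcc]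
    congr 1
    refine Finset.sum_congr rfl (fun l _ => ?_)
    rw [map_mul, map_pow, rq']
    congr 1
    have h3 := Polynomial.aeval_algebraMap_apply (A := e.1) (IsLocalRing.ResidueField e.1)
      ⟨v / u, hvu⟩ (c l)
    have h4 : algebraMap e.1 (IsLocalRing.ResidueField e.1) ⟨v / u, hvu⟩ = vv p a / uu p a := rvu
    rw [h4] at h3
    exact h3.symm

end Pool.Agent.NUM
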