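import Pool.Agent.NUM.Stmts
import Pool.Agent.SRF.Stmts

/-!
# Numerics, module RHO: crossing tubes
-/

set_option autoImplicit false

noncomputable section

namespace Pool.Agent.NUM

open Pool.Agent.SRF Filter

namespace RHO_

/-- the asymptotic step -/
theorem final {N : ℝ} (hN : 0 ≤ N) (C : ℝ) (S : ℕ → ℝ) (hS : ∀ n, 0 ≤ S n)
    (h : ∀ δ : ℝ, 0 < δ → δ ≤ 1 / 2 → ∃ m : ℕ, 1 ≤ m ∧ ∃ c : ℕ, ∀ ε' : ℝ, 0 < ε' →
      ∃ n0 : ℕ, ∀ n q R n' : ℕ, n0 ≤ q → q ≤ n → 2 * (q : ℝ) ≤ R * ((2 - δ) * m) →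
        n + c + R * m ≤ n' → 8 * N * q * n - ε' * n ^ 2 - C * q ^ 2 ≤ 2 * m * R * S n') :
    ∀ ε : ℝ, 0 < ε → ∀ᶠ n : ℕ in atTop, (4 * N - ε) * n ≤ S n := by
  intro ε hε
  rcases le_or_gt (4 * N - ε) 0 with hneg | hpos
  · refine Eventually.of_forall fun n => ?_
    have : (4 * N - ε) * n ≤ 0 := mul_nonpos_of_nonpos_of_nonneg hneg (Nat.cast_nonneg n)
    exact this.trans (hS n)
  obtain ⟨K, hK⟩ := exists_nat_ge (max 1 (2 * (32 * N + |C|) / ε))
  have hK1 : (1 : ℝ) ≤ K := (le_max_left _ _).trans hK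
  have hK2 : 2 * (32 * N + |C|) ≤ ε * K := by
    have h1 := (le_max_right _ _).trans hK
    rw [div_le_iff₀ hε] at h1
    linarith
  have hCabs : C ≤ |C| := le_abs_self C
  set δ : ℝ := min (1 / 2) (ε / (16 * N + 1)) with hδ
  have hδ0 : 0 < δ := lt_min (by norm_num) (by positivity)
  have hδ1 : δ ≤ 1 / 2 := min_le_left _ _
  have hδ2 : 16 * N * δ ≤ ε := by
    have h1 : δ ≤ ε / (16 * N + 1) := min_le_right _ _
    rw [le_div_iff₀ (by positivity)] at h1
    nlinarith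
  obtain ⟨m, hm, c, hc⟩ := h δ hδ0 hδ1
  have hm' : (1 : ℝ) ≤ m := by exact_mod_cast hm
  obtain ⟨n0, hn0⟩ := hc (ε / (2 * K)) (by positivity)
  set a : ℝ := 2 * (4 * N - ε) * (K + 2) with ha
  have ha0 : 0 < a := by positivity
  set g : ℝ := ε * K / 2 with hg
  have hg0 : 0 < g := by positivity
  obtain ⟨t0, ht0⟩ := exists_nat_gt (a * (2 + 2 * m) / g)
  rw [div_lt_iff₀ hg0] at ht0
  filter_upwards [eventually_ge_atTop ((K + 2) * (t0 + 2 * (c + m) + n0 + 1))] with n' hn'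
  set t : ℕ := n' / (K + 2) with ht
  have htge : t0 + 2 * (c + m) + n0 + 1 ≤ t := by
    rw [ht, Nat.le_div_iff_mul_le (by omega)]
    rw [mul_comm]
    exact hn'
  have htn : (K + 2) * t ≤ n' := Nat.mul_div_le n' (K + 2)
  have htn' : n' < (K + 2) * (t + 1) := Nat.lt_mul_div_succ n' (by omega)
  have hKnat : 1 ≤ K := by exact_mod_cast hK1
  have hden : 0 < (2 - δ) * m := by
    have : 0 < 2 - δ := by linarith
    positivity
  set R : ℕ := ⌈2 * (t : ℝ) / ((2 - δ) * m)⌉₊ with hR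
  have hR1 : 2 * (t : ℝ) ≤ R * ((2 - δ) * m) := by
    have h1 := Nat.le_ceil (2 * (t : ℝ) / ((2 - δ) * m))
    rw [div_le_iff₀ hden] at h1
    exact h1
  have hR2 : (R : ℝ) * m ≤ t * (1 + δ) + m := by
    have h1 := (Nat.ceil_lt_add_one (a := 2 * (t : ℝ) / ((2 - δ) * m)) (by positivity)).le
    have h2 : (R : ℝ) * ((2 - δ) * m) ≤ 2 * t + (2 - δ) * m := by
      have h3 := mul_le_mul_of_nonneg_right h1 hden.le
      rw [add_mul, div_mul_cancel₀ _ hden.ne', one_mul] at h3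
      exact h3
    have h4 : 0 < 2 - δ := by linarith
    have h5 : (2 - δ) * ((R : ℝ) * m) ≤ (2 - δ) * (t * (1 + δ) + m) := by
      have h6 : (0 : ℝ) ≤ t * (δ * (1 - δ)) := by
        have : 0 ≤ 1 - δ := by linarith
        positivity
      nlinarith
    exact le_of_mul_le_mul_left h5 h4
  have htr : (t0 : ℝ) + 2 * (c + m) + n0 + 1 ≤ t := by exact_mod_cast htge
  have hcond : K * t + c + R * m ≤ n' := by
    have h1 : ((K * t + c + R * m : ℕ) : ℝ) ≤ (((K + 2) * t : ℕ) : ℝ) := by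
      push_cast
      have h2 : (0 : ℝ) ≤ t0 := Nat.cast_nonneg _
      have h3 : (0 : ℝ) ≤ n0 := Nat.cast_nonneg _
      have h4 : (t : ℝ) * δ ≤ t * (1 / 2) := by
        apply mul_le_mul_of_nonneg_left hδ1 (Nat.cast_nonneg _)
      nlinarith
    exact (by exact_mod_cast h1 : K * t + c + R * m ≤ (K + 2) * t).trans htn
  have hmain := hn0 (K * t) t R n' (by omega) (by nlinarith) hR1 hcond
  by_contra hcon
  rw [not_le] at hcon
  push_cast at hmain
  -- the bound for `2 m R S`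
  have hn'r : (n' : ℝ) ≤ (K + 2) * (t + 1) := by
    have : (n' : ℝ) ≤ (((K + 2) * (t + 1) : ℕ) : ℝ) := by exact_mod_cast htn'.le
    push_cast at this
    exact this
  have hS1 : S n' ≤ (4 * N - ε) * ((K + 2) * (t + 1)) :=
    hcon.le.trans (mul_le_mul_of_nonneg_left hn'r hpos.le)
  have hRm0 : (0 : ℝ) ≤ R * m := by positivity
  have ht0' : (0 : ℝ) ≤ t := Nat.cast_nonneg _
  have hb : 2 * (m : ℝ) * R * S n' ≤ a * (t + 1) * (t * (1 + δ) + m) := by
    have h1 : 2 * (m : ℝ) * R * S n' ≤ 2 * (m : ℝ) * R * ((4 * N - ε) * ((K + 2) * (t + 1))) :=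
      mul_le_mul_of_nonneg_left hS1 (by positivity)
    have h2 : 2 * (m : ℝ) * R * ((4 * N - ε) * ((K + 2) * (t + 1))) =
        (R * m) * (a * (t + 1)) := by
      rw [ha]; ring
    have h3 : (R * m) * (a * (t + 1)) ≤ (t * (1 + δ) + m) * (a * (t + 1)) :=
      mul_le_mul_of_nonneg_right hR2 (by positivity)
    linarith
  have hA : 8 * N * t * (K * t) - ε / (2 * K) * (K * t) ^ 2 - C * t ^ 2 =
      (8 * N * K - ε * K / 2 - C) * t ^ 2 := by
    field_simp
  rw [hA] at hmain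
  have hgap : a * (1 + δ) + g ≤ 8 * N * K - ε * K / 2 - C := by
    have e1 : a * (1 + δ) = 8 * N * K + 8 * (N * δ) * K + 16 * N + 16 * (N * δ) -
        2 * (ε * K) - 4 * ε - 2 * (ε * K * δ) - 4 * (ε * δ) := by
      rw [ha]; ring
    have h2 : 16 * N * δ * K ≤ ε * K := mul_le_mul_of_nonneg_right hδ2 (by positivity)
    have h3 : 0 ≤ ε * K * δ := by positivity
    have h4 : 0 ≤ ε * δ := by positivity
    have h5 : N * δ ≤ N * (1 / 2) := mul_le_mul_of_nonneg_left hδ1 hN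
    rw [e1, hg]
    linarith
  have ht1 : (1 : ℝ) ≤ t := by
    have h2 : (0 : ℝ) ≤ t0 := Nat.cast_nonneg _
    have h3 : (0 : ℝ) ≤ n0 := Nat.cast_nonneg _
    have h4 : (0 : ℝ) ≤ c := Nat.cast_nonneg _
    linarith
  have h1 : (a * (1 + δ) + g) * t ^ 2 ≤ a * (t + 1) * (t * (1 + δ) + m) :=
    (mul_le_mul_of_nonneg_right hgap (by positivity)).trans (hmain.trans hb)
  have h2 : g * t ^ 2 ≤ a * (2 + 2 * m) * t := by
    have h3 : a * (t + 1) * (t * (1 + δ) + m) =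
        a * (1 + δ) * t ^ 2 + a * ((1 + δ + m) * t + m) := by ring
    have h4 : (1 + δ + m) * t + m ≤ (2 + 2 * m) * t := by nlinarith
    have h5 := mul_le_mul_of_nonneg_left h4 ha0.le
    nlinarith
  have h3 : g * t ≤ a * (2 + 2 * m) := by
    have h4 : (g * t) * t ≤ (a * (2 + 2 * m)) * t := by nlinarith
    exact le_of_mul_le_mul_right h4 (by linarith)
  have h4 : (t0 : ℝ) ≤ t := by
    have h3 : (0 : ℝ) ≤ n0 := Nat.cast_nonneg _
    have h4 : (0 : ℝ) ≤ c := Nat.cast_nonneg _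
    linarith
  have h5 : (t0 : ℝ) * g ≤ t * g := mul_le_mul_of_nonneg_right h4 hg0.le
  linarith

section geo

variable {T : Sf}

/-- the divisor `n M` -/
def MM (X : T.P → ℝ) (n : ℕ) : T.P → ℤ := (n : ℤ) • T.H + T.fl (2 * n) X

theorem dv_H (hSUP : SRF.Stmt_SUP) : T.Dv T.H := by
  have h1 : ∀ f : T.F, {O : T.P | ord O.1 f ≠ 0}.Finite := by
    intro f
    by_cases hf : f = 0
    · have : {O : T.P | ord O.1 f ≠ 0} = ∅ := by
        ext O
        simp [hf, O.isOrd.zero]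
      rw [this]
      exact Set.finite_empty
    · exact hSUP T.k T.F T.x T.y T.surf f hf
  refine ((h1 T.x).union (h1 T.y)).subset ?_
  intro O hO
  by_contra hcon
  simp only [Set.mem_union, Set.mem_ofPred_eq, not_or, not_not] at hcon
  apply hO
  show max 0 (max (- ord O.1 T.x) (- ord O.1 T.y)) = 0
  rw [hcon.1, hcon.2]
  simp

theorem dv_add {D E : T.P → ℤ} (hD : T.Dv D) (hE : T.Dv E) : T.Dv (D + E) :=
  (hD.union hE).subset (Function.support_add D E)

theorem dv_smul {D : T.P → ℤ} (hD : T.Dv D) (n : ℤ) : T.Dv (n • D) := by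
  refine hD.subset ?_
  intro O hO hcon
  apply hO
  show n • D O = 0
  rw [hcon, smul_zero]

theorem dv_sub {D E : T.P → ℤ} (hD : T.Dv D) (hE : T.Dv E) : T.Dv (D - E) := by
  rw [sub_eq_add_neg, ← neg_one_smul ℤ E]
  exact dv_add hD (dv_smul hE _)

theorem dv_fl {X : T.P → ℝ} (hX : (Function.support X).Finite) (n : ℕ) : T.Dv (T.fl n X) := by
  refine hX.subset ?_
  intro O hO hcon
  apply hO
  show ⌊(n : ℝ) * X O⌋ = 0
  rw [hcon, mul_zero, Int.floor_zero]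

theorem dv_MM (hSUP : SRF.Stmt_SUP) {X : T.P → ℝ} (hX : (Function.support X).Finite) (n : ℕ) :
    T.Dv (MM X n) := dv_add (dv_smul (dv_H hSUP) _) (dv_fl hX _)

theorem L_mono {D D' : T.P → ℤ} (h : ∀ O, D O ≤ D' O) : T.L D ≤ T.L D' := by
  intro f hf
  rcases hf with hf | hf
  · exact Or.inl hf
  · exact Or.inr fun O => (neg_le_neg (h O)).trans (hf O)

theorem pr_nonneg (e O : T.P) : 0 ≤ T.pr e O := by
  classical
  unfold Sf.pr
  split_ifs <;> norm_num

theorem sl_nonneg (e : T.P) {D : T.P → ℤ} (hfin : FiniteDimensional T.k (T.L D)) :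
    0 ≤ T.sl e D := by
  have h1 : T.L (D - T.pr e) ≤ T.L D := L_mono fun O => by
    have := pr_nonneg e O
    simp only [Pi.sub_apply]
    omega
  have h2 := Submodule.finrank_mono h1
  unfold Sf.sl Sf.hh
  have h3 : ((Module.finrank T.k (T.L (D - T.pr e)) : ℕ) : ℤ) ≤
      (Module.finrank T.k (T.L D) : ℕ) := by exact_mod_cast h2
  linarith

theorem o_one (e : T.P) : T.o e 1 = 0 := by
  have h := ord_const T.k T.x T.y e 1 one_ne_zero
  rwa [map_one] at h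

theorem slmono (hMUL : Stmt_MUL) (hMLN : Stmt_MLN) (hSUP : SRF.Stmt_SUP) {X : T.P → ℝ}
    (hX0 : ∀ e, 0 ≤ X e) (hX : (Function.support X).Finite) {e : T.P} (he : X e = 0)
    {n c n' : ℕ} (h : n + c ≤ n') : T.sl e (MM X n + (c : ℤ) • T.H) ≤ T.sl e (MM X n') := by
  have hH := dv_H hSUP (T := T)
  have d1 : T.Dv (MM X n + (c : ℤ) • T.H) := dv_add (dv_MM hSUP hX n) (dv_smul hH _)
  have h1 := hMLN T e _ d1 (n' - (n + c))
  have d2 : T.Dv (MM X n + (c : ℤ) • T.H + ((n' - (n + c) : ℕ) : ℤ) • T.H) :=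
    dv_add d1 (dv_smul hH _)
  have d3 : T.Dv (T.fl (2 * n') X - T.fl (2 * n) X) := dv_sub (dv_fl hX _) (dv_fl hX _)
  have h2 := hMUL T e _ _ 1 d2 d3 one_ne_zero (by
    right
    intro O
    have h3 : T.fl (2 * n) X O ≤ T.fl (2 * n') X O := by
      unfold Sf.fl
      apply Int.floor_le_floor
      have h4 : ((2 * n : ℕ) : ℝ) ≤ ((2 * n' : ℕ) : ℝ) := by
        exact_mod_cast (by omega : 2 * n ≤ 2 * n')
      exact mul_le_mul_of_nonneg_right h4 (hX0 O)
    have h5 : ord O.1 (1 : T.F) = 0 := o_one O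
    rw [h5]
    simp only [Pi.sub_apply]
    omega) (by
    rw [o_one]
    simp [Sf.fl, he])
  have h3 : MM X n + (c : ℤ) • T.H + ((n' - (n + c) : ℕ) : ℤ) • T.H +
      (T.fl (2 * n') X - T.fl (2 * n) X) = MM X n' := by
    funext O
    have h4 : ((n' - (n + c) : ℕ) : ℤ) = (n' : ℤ) - (n + c) := by
      rw [Nat.cast_sub h]
      push_cast
      ring
    simp only [MM, Pi.add_apply, Pi.sub_apply, Pi.smul_apply, smul_eq_mul, h4]
    ring
  rw [h3] at h2
  exact h1.trans h2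

/-- the sum over the curves of the tube `j` -/
def SS (Xi Xj : T.P → ℝ) (n : ℕ) : ℝ := ∑ᶠ e, Xj e * (T.sl e (MM Xi n) : ℝ)

/-- the main estimate -/
theorem est (hUPS : Stmt_UPS) (hMUL : Stmt_MUL) (hMLN : Stmt_MLN) (hSUP : SRF.Stmt_SUP)
    {Si Sj : Set T.P} {N : ℝ} {Xi Xj : T.P → ℝ} (hfi : ∀ n, FiniteDimensional T.k (T.WW Si n))
    (hdis : Disjoint Si Sj) (hi : T.Tub N Si Xi) (hj : T.Tub N Sj Xj) {δ : ℝ} (hδ1 : δ ≤ 1 / 2)
    (hδ0 : 0 < δ) : ∃ m : ℕ, 1 ≤ m ∧ ∃ c : ℕ, ∀ n q R n' : ℕ,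
      2 * (q : ℝ) ≤ R * ((2 - δ) * m) → n + c + R * m ≤ n' →
      (T.hh (MM Xi n) : ℝ) - (Module.finrank T.k (T.WZ Si Sj n q) : ℝ) ≤
        2 * m * R * SS Xi Xj n' := by
  obtain ⟨m, hm, Q, β, hβ0, hβ, hβo, hQ1, hQ2⟩ := hj.bet δ hδ0
  have hm' : (1 : ℝ) ≤ m := by exact_mod_cast hm
  have hQr : ∀ e, (0 : ℝ) ≤ Q e := by
    intro e
    refine le_trans ?_ (hQ1 e)
    have h1 : 0 ≤ 2 - δ := by linarith
    have h2 := hj.nonneg e
    positivity
  have hQ0 : ∀ e, 0 ≤ Q e := fun e => by exact_mod_cast hQr e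
  have hQX : ∀ e, Q e ≠ 0 → Xj e ≠ 0 := by
    intro e he hX
    apply he
    have h1 := hQ2 e
    rw [hX, mul_zero] at h1
    have h2 := hQr e
    exact_mod_cast le_antisymm h1 h2
  have hXij : ∀ e, e ∈ Sj → Xi e = 0 := by
    intro e he
    by_contra hcon
    exact (Set.disjoint_left.1 hdis (hi.supp e hcon)) he
  have hXj0 : ∀ e, Xj e ≠ 0 → Xi e = 0 := fun e he => hXij e (hj.supp e he)
  have hQd : T.Dv Q := hj.fin.subset fun e he => hQX e he
  obtain ⟨c, hc⟩ := hUPS T Q m β hQd (fun e => hQ0 e) hβ0 hβ hβo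
  refine ⟨m, hm, c, ?_⟩
  intro n q R n' hR hn'
  -- the inclusion
  have hincl : T.L (MM Xi n - (R : ℤ) • Q) ≤ T.WZ Si Sj n q := by
    intro f hf
    rcases hf with hf | hf
    · rw [hf]
      exact Submodule.zero_mem _
    have hRQ : ∀ O, 0 ≤ (R : ℤ) * Q O := fun O => mul_nonneg (Int.natCast_nonneg _) (hQ0 O)
    have hf' : ∀ O, - ((n : ℤ) * T.H O + T.fl (2 * n) Xi O - (R : ℤ) * Q O) ≤ T.o O f := by
      intro O
      have := hf O
      simpa [MM] using this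
    refine ⟨Or.inr fun O hO => ?_, fun g hg hg0 => Or.inr fun O hO => ?_⟩
    · have h1 := hf' O
      have h2 := hRQ O
      have h3 : Xi O = 0 := by
        by_contra hcon
        exact hO (hi.supp O hcon)
      have h4 : T.fl (2 * n) Xi O = 0 := by
        unfold Sf.fl
        rw [h3, mul_zero, Int.floor_zero]
      rw [h4] at h1
      linarith
    · have h1 := hf' O
      have h4 : T.fl (2 * n) Xi O = 0 := by
        unfold Sf.fl
        rw [hXij O hO, mul_zero, Int.floor_zero]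
      rw [h4] at h1
      have h5 : g ∈ T.L ((q : ℤ) • T.H + T.fl (2 * q) Xj) := by
        rw [← hj.ww q]
        exact hg
      have h6 : - ((q : ℤ) * T.H O + T.fl (2 * q) Xj O) ≤ T.o O g := by
        have := h5.resolve_left hg0 O
        simpa using this
      have h7 : T.fl (2 * q) Xj O ≤ (R : ℤ) * Q O := by
        unfold Sf.fl
        have h8 : ((2 * q : ℕ) : ℝ) * Xj O ≤ (((R : ℤ) * Q O : ℤ) : ℝ) := by
          push_cast
          have h9 := hj.nonneg O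
          have h10 := mul_le_mul_of_nonneg_right hR h9
          have h11 := mul_le_mul_of_nonneg_left (hQ1 O) (Nat.cast_nonneg (α := ℝ) R)
          linarith
        have h12 := Int.floor_le_floor h8
        rwa [Int.floor_intCast] at h12
      have h8 : ((n + q : ℕ) : ℤ) * T.H O = (n : ℤ) * T.H O + (q : ℤ) * T.H O := by
        push_cast
        ring
      rw [h8]
      linarith
  have hWZfin : FiniteDimensional T.k (T.WZ Si Sj n q) := by
    have h1 := hfi n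
    have h2 : T.WZ Si Sj n q ≤ T.WW Si n := fun f hf => hf.1
    exact Submodule.finiteDimensional_of_le h2
  have h1 : T.hh (MM Xi n - (R : ℤ) • Q) ≤ (Module.finrank T.k (T.WZ Si Sj n q) : ℤ) := by
    unfold Sf.hh
    exact_mod_cast Submodule.finrank_mono hincl
  have h2 := (hc (MM Xi n) (dv_MM hSUP hi.fin n) R).2
  -- the sums
  set s : Finset T.P := hj.fin.toFinset with hs
  have hsQ : ∀ e, Q e ≠ 0 → e ∈ s := fun e he => by
    rw [hs, Set.Finite.mem_toFinset]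
    exact hQX e he
  have hsl : ∀ ρ ∈ Finset.range R, ∀ e ∈ s, Q e * T.sl e (MM Xi n + ((c + ρ * m : ℕ) : ℤ) • T.H) ≤
      Q e * T.sl e (MM Xi n') := by
    intro ρ hρ e he
    rw [hs, Set.Finite.mem_toFinset] at he
    refine mul_le_mul_of_nonneg_left ?_ (hQ0 e)
    refine slmono hMUL hMLN hSUP hi.nonneg hi.fin (hXj0 e he) ?_
    have h3 : ρ * m ≤ R * m := Nat.mul_le_mul_right _ (Finset.mem_range.1 hρ).le
    omega
  have h3 : ∑ ρ ∈ Finset.range R, ∑ᶠ e, Q e * T.sl e (MM Xi n + ((c + ρ * m : ℕ) : ℤ) • T.H) ≤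
      (R : ℤ) * ∑ e ∈ s, Q e * T.sl e (MM Xi n') := by
    have h4 : ∀ ρ ∈ Finset.range R,
        ∑ᶠ e, Q e * T.sl e (MM Xi n + ((c + ρ * m : ℕ) : ℤ) • T.H) ≤
        ∑ e ∈ s, Q e * T.sl e (MM Xi n') := by
      intro ρ hρ
      rw [finsum_eq_sum_of_support_subset (s := s)]
      · exact Finset.sum_le_sum (hsl ρ hρ)
      · intro e he
        apply hsQ
        intro h0
        apply he
        show Q e * _ = 0
        rw [h0, zero_mul]
    have h5 := Finset.sum_le_sum h4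
    rw [Finset.sum_const, Finset.card_range, nsmul_eq_mul] at h5
    exact h5
  have hfin' : FiniteDimensional T.k (T.L (MM Xi n')) := by
    have h4 := hfi n'
    rw [hi.ww n'] at h4
    exact h4
  have h4 : ((∑ e ∈ s, Q e * T.sl e (MM Xi n') : ℤ) : ℝ) ≤ 2 * m * SS Xi Xj n' := by
    have h5 : SS Xi Xj n' = ∑ e ∈ s, Xj e * (T.sl e (MM Xi n') : ℝ) := by
      unfold SS
      rw [finsum_eq_sum_of_support_subset]
      intro e he
      rw [hs, Set.Finite.coe_toFinset]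
      intro h0
      apply he
      show Xj e * _ = 0
      rw [h0, zero_mul]
    rw [h5, Finset.mul_sum]
    push_cast
    refine Finset.sum_le_sum fun e _ => ?_
    have h6 : (0 : ℝ) ≤ (T.sl e (MM Xi n') : ℝ) := by exact_mod_cast sl_nonneg e hfin'
    have h7 := mul_le_mul_of_nonneg_right (hQ2 e) h6
    calc (Q e : ℝ) * (T.sl e (MM Xi n') : ℝ) ≤ 2 * m * Xj e * (T.sl e (MM Xi n') : ℝ) := h7
      _ = 2 * m * (Xj e * (T.sl e (MM Xi n') : ℝ)) := by ring
  have h5 : (T.hh (MM Xi n) : ℝ) - (Module.finrank T.k (T.WZ Si Sj n q) : ℝ) ≤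
      (R : ℝ) * ((∑ e ∈ s, Q e * T.sl e (MM Xi n') : ℤ) : ℝ) := by
    have h6 : T.hh (MM Xi n) - (Module.finrank T.k (T.WZ Si Sj n q) : ℤ) ≤
        (R : ℤ) * ∑ e ∈ s, Q e * T.sl e (MM Xi n') := by linarith
    exact_mod_cast h6
  have h6 := mul_le_mul_of_nonneg_left h4 (Nat.cast_nonneg (α := ℝ) R)
  calc (T.hh (MM Xi n) : ℝ) - (Module.finrank T.k (T.WZ Si Sj n q) : ℝ) ≤ _ := h5
    _ ≤ (R : ℝ) * (2 * m * SS Xi Xj n') := h6
    _ = 2 * m * R * SS Xi Xj n' := by ring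

end geo

end RHO_

theorem rho_proof (hUPS : Stmt_UPS) (hMUL : Stmt_MUL) (hMLN : Stmt_MLN)
    (hSUP : SRF.Stmt_SUP) : Stmt_RHO := by
  intro T J cr Tb N hN i j Xi Xj hij hi hj
  have hne : i ≠ j := fun h => hN.irr i (by rw [← h] at hij; exact hij)
  have hN0 : 0 ≤ N := by
    have h1 := hN.deg
    have h2 : (0 : ℝ) ≤ (T.dg : ℝ) := by
      unfold Sf.dg
      exact_mod_cast Nat.zero_le _
    linarith
  obtain ⟨C, hC⟩ := hN.cross i j hij
  have hSS : ∀ n, 0 ≤ RHO_.SS Xi Xj n := by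
    intro n
    unfold RHO_.SS
    refine finsum_nonneg fun e => ?_
    have h4 := hN.findim i n
    rw [hi.ww n] at h4
    have h5 : (0 : ℝ) ≤ (T.sl e (RHO_.MM Xi n) : ℝ) := by
      exact_mod_cast RHO_.sl_nonneg e h4
    exact mul_nonneg (hj.nonneg e) h5
  refine RHO_.final hN0 C (RHO_.SS Xi Xj) hSS ?_
  intro δ hδ0 hδ1
  obtain ⟨m, hm, c, hest⟩ := RHO_.est hUPS hMUL hMLN hSUP (hN.findim i) (hN.disj i j hne) hi hj
    hδ1 hδ0
  refine ⟨m, hm, c, ?_⟩
  intro ε' hε'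
  obtain ⟨n0, hn0⟩ := hC (ε' / 2) (by positivity)
  obtain ⟨n1, hn1⟩ := eventually_atTop.1 (hN.lo i (ε' / 2) (by positivity))
  refine ⟨max n0 n1, ?_⟩
  intro n q R n' hn hq hR hn'
  have h3 := hn0 n q ((le_max_left _ _).trans hn) hq
  have h2 := hn1 n (((le_max_right _ _).trans hn).trans hq)
  have h4 := hest n q R n' hR hn'
  have h5 : (T.hh (RHO_.MM Xi n) : ℝ) = (Module.finrank T.k (T.WW (Tb i) n) : ℝ) := by
    rw [hi.ww n]
    unfold Sf.hh RHO_.MM
    push_cast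
    rfl
  rw [h5] at h4
  have h6 : N * (12 * (n : ℝ) ^ 2 - 8 * q * n) = 12 * N * n ^ 2 - 8 * N * q * n := by ring
  rw [h6] at h3
  have h7 : (12 * N - ε' / 2) * (n : ℝ) ^ 2 = 12 * N * n ^ 2 - ε' / 2 * n ^ 2 := by ring
  rw [h7] at h2
  linarith

end Pool.Agent.NUM
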