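import Pool.Agent.NUM.Stmts
import Pool.Agent.SRF.Stmts

/-!
# SPH: superadditivity of `hh D - hh (D - H)`
-/

set_option autoImplicit false

noncomputable section

namespace Pool.Agent.NUM

open Pool.Agent.SRF Filter

namespace SPH_

variable {T : Sf}

theorem supO (hSUP : SRF.Stmt_SUP) (f : T.F) :
    (Function.support (fun O : T.P => T.o O f)).Finite := by
  by_cases h : f = 0
  · subst h
    have : Function.support (fun O : T.P => T.o O 0) = ∅ := by
      ext O
      simp only [Function.mem_support, Set.mem_empty_iff_false, iff_false, not_not]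
      exact O.isOrd.zero
    rw [this]
    exact Set.finite_empty
  · exact hSUP T.k T.F T.x T.y T.surf f h

theorem supH (hSUP : SRF.Stmt_SUP) : T.Dv T.H := by
  refine ((supO hSUP T.x).union (supO hSUP T.y)).subset ?_
  intro O hO
  rw [Function.mem_support] at hO
  by_contra hc
  rw [Set.mem_union, not_or, Function.mem_support, Function.mem_support, not_not, not_not] at hc
  apply hO
  change max 0 (max (- T.o O T.x) (- T.o O T.y)) = 0
  rw [hc.1, hc.2]
  simp

theorem dv_add {D E : T.P → ℤ} (hD : T.Dv D) (hE : T.Dv E) : T.Dv (D + E) :=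
  (hD.union hE).subset (Function.support_add D E)

theorem dv_sub {D E : T.P → ℤ} (hD : T.Dv D) (hE : T.Dv E) : T.Dv (D - E) :=
  (hD.union hE).subset (Function.support_sub D E)

theorem dv_pr (e : T.P) : T.Dv (T.pr e) := by
  refine (Set.finite_singleton e).subset ?_
  intro O hO
  rw [Function.mem_support, Sf.pr] at hO
  by_contra hc
  exact hO (if_neg hc)

theorem sum_pr (s : Finset T.P) (e : T.P) :
    (∑ g ∈ s, T.pr g) e = open scoped Classical in if e ∈ s then 1 else 0 := by
  classical
  rw [Finset.sum_apply]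
  simp only [Sf.pr]
  rw [Finset.sum_ite_eq]

theorem dv_sum (s : Finset T.P) : T.Dv (∑ g ∈ s, T.pr g) := by
  refine s.finite_toSet.subset ?_
  intro O hO
  rw [Function.mem_support, sum_pr] at hO
  by_contra hc
  exact hO (if_neg hc)

theorem one_mem (s : Finset T.P) : (1 : T.F) ∈ T.L (∑ g ∈ s, T.pr g) := by
  right
  intro O
  rw [sum_pr, O.isOrd.one]
  split_ifs <;> norm_num

/-- Multiplication by a function is an isomorphism of the spaces of sections. -/
theorem hh_mul (l : T.F) (hl : l ≠ 0) (D E : T.P → ℤ) (h : ∀ e, E e = D e - T.o e l) :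
    T.hh E = T.hh D := by
  have hmap : T.L E = (T.L D).map (LinearMap.mulLeft T.k l) := by
    ext g
    constructor
    · intro hg
      refine ⟨l⁻¹ * g, ?_, ?_⟩
      · rcases hg with hg | hg
        · left; rw [hg, mul_zero]
        · by_cases hg0 : g = 0
          · left; rw [hg0, mul_zero]
          right
          intro O
          have h1 := hg O
          have h2 := h O
          rw [O.isOrd.mul _ _ (inv_ne_zero hl) hg0, O.isOrd.inv hl]
          change - D O ≤ - T.o O l + T.o O g
          change - E O ≤ T.o O g at h1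
          linarith
      · change l * (l⁻¹ * g) = g
        rw [mul_inv_cancel_left₀ hl]
    · rintro ⟨f, hf, rfl⟩
      change l * f ∈ T.L E
      by_cases hf0 : f = 0
      · rw [hf0, mul_zero]; exact Submodule.zero_mem _
      right
      intro O
      have h1 := hf.resolve_left hf0 O
      have h2 := h O
      rw [O.isOrd.mul _ _ hl hf0]
      change - E O ≤ T.o O l + T.o O f
      change - D O ≤ T.o O f at h1
      linarith
  have hinj : Function.Injective (LinearMap.mulLeft T.k l) := by
    intro a b hab
    exact mul_left_cancel₀ hl hab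
  have h1 := (LinearEquiv.finrank_eq (Submodule.equivMapOfInjective _ hinj (T.L D)))
  unfold Sf.hh
  rw [hmap, ← h1]

theorem ind (hHOPF : Stmt_HOPF) (hMUL : Stmt_MUL) {D D' : T.P → ℤ} (hD : T.Dv D)
    (hD' : T.Dv D') {f f' : T.F} (hf0 : f ≠ 0) (hf : f ∈ T.L D) (hf0' : f' ≠ 0)
    (hf' : f' ∈ T.L D') (s : Finset T.P)
    (hs : ∀ g ∈ s, D g = 0 ∧ D' g = 0 ∧ T.o g f = 0 ∧ T.o g f' = 0) :
    (T.hh D - T.hh (D - ∑ g ∈ s, T.pr g)) + (T.hh D' - T.hh (D' - ∑ g ∈ s, T.pr g)) ≤
      T.hh (D + D') - T.hh (D + D' - ∑ g ∈ s, T.pr g) + s.card := by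
  classical
  induction s using Finset.induction_on with
  | empty => simp
  | insert g s hgs ih =>
    have ih' := ih fun g' hg' => hs g' (Finset.mem_insert_of_mem hg')
    obtain ⟨h1, h2, h3, h4⟩ := hs g (Finset.mem_insert_self _ _)
    rw [Finset.sum_insert hgs, Finset.card_insert_of_notMem hgs]
    have hP : (∑ g' ∈ s, T.pr g') g = 0 := by rw [sum_pr, if_neg hgs]
    set P : T.P → ℤ := ∑ g' ∈ s, T.pr g' with hPdef
    have hPd : T.Dv P := dv_sum s
    have e1 : D - (T.pr g + P) = D - P - T.pr g := by abel
    have e2 : D' - (T.pr g + P) = D' - P - T.pr g := by abel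
    have e3 : D + D' - (T.pr g + P) = D + D' - P - T.pr g := by abel
    have key : T.sl g (D - P) + T.sl g (D' - P) ≤ T.sl g (D + D' - P) + 1 := by
      have m1 : T.sl g (D' - P) ≤ T.sl g D' := by
        have := hMUL T g (D' - P) P 1 (dv_sub hD' hPd) hPd one_ne_zero (one_mem s) (by
          rw [hP, neg_zero]; exact g.isOrd.one)
        rwa [sub_add_cancel] at this
      have m2 : T.sl g (D - P) ≤ T.sl g (D + D' - P) := by
        have := hMUL T g (D - P) D' f' (dv_sub hD hPd) hD' hf0' hf' (by rw [h4, h2, neg_zero])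
        have e4 : D - P + D' = D + D' - P := by abel
        rwa [e4] at this
      have m3 : T.sl g (D' - P) ≤ T.sl g (D + D' - P) := by
        have := hMUL T g (D' - P) D f (dv_sub hD' hPd) hD hf0 hf (by rw [h3, h1, neg_zero])
        have e4 : D' - P + D = D + D' - P := by abel
        rwa [e4] at this
      by_cases c1 : 1 ≤ T.sl g (D - P)
      · by_cases c2 : 1 ≤ T.sl g D'
        · have := hHOPF T g (D - P) D' (dv_sub hD hPd) hD' c1 c2
          have e4 : D - P + D' = D + D' - P := by abel
          rw [e4] at this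
          linarith
        · push Not at c2
          linarith
      · push Not at c1
        linarith
    rw [e1, e2, e3]
    unfold Sf.sl at key
    push_cast
    linarith

end SPH_

open SPH_

theorem sph_proof (hRAL : Stmt_RAL) (hHOPF : Stmt_HOPF) (hMUL : Stmt_MUL) (hDGH : Stmt_DGH)
    (hDEG : Stmt_DEG) (hSUP : SRF.Stmt_SUP) (_hFDL : SRF.Stmt_FDL) : Stmt_SPH := by
  classical
  rintro T D D' hD hD' ⟨f, hf, hf0⟩ ⟨f', hf', hf0'⟩
  have hH : T.Dv T.H := supH hSUP
  let E : Finset T.P := hD.toFinset ∪ hD'.toFinset ∪ hH.toFinset ∪ (supO hSUP f).toFinset ∪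
    (supO hSUP f').toFinset
  obtain ⟨c, hl0, hlH, hl1, hlE⟩ := hRAL T E
  set l := T.x - algebraMap T.k T.F c with hl
  have hrel : ∀ g, 0 ≤ T.o g l + T.H g := by
    intro g
    have := hlH.resolve_left hl0 g
    change - T.H g ≤ T.o g l at this
    linarith
  have hfin : {g : T.P | T.o g l + T.H g = 1}.Finite := by
    refine ((supO hSUP l).union hH).subset ?_
    intro g hg
    by_contra hc
    rw [Set.mem_union, not_or, Function.mem_support, Function.mem_support, not_not, not_not] at hc
    change T.o g l + T.H g = 1 at hg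
    rw [hc.1, hc.2] at hg
    norm_num at hg
  let G : Finset T.P := hfin.toFinset
  have hG : ∀ g, g ∈ G ↔ T.o g l + T.H g = 1 := fun g => hfin.mem_toFinset
  have hPG : ∀ g, T.o g l + T.H g = (∑ g ∈ G, T.pr g) g := by
    intro g
    rw [sum_pr]
    split_ifs with h
    · exact (hG g).1 h
    · have h1 := hl1 g
      have h2 := hrel g
      have h3 : T.o g l + T.H g ≠ 1 := fun h4 => h ((hG g).2 h4)
      change T.o g l + T.H g ≤ 1 at h1
      omega
  -- equality of dimensions
  have hdim : ∀ D₀ : T.P → ℤ, T.hh (D₀ - ∑ g ∈ G, T.pr g) = T.hh (D₀ - T.H) := by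
    intro D₀
    apply hh_mul l hl0
    intro e
    rw [Pi.sub_apply, Pi.sub_apply, ← hPG e]
    ring
  have hcard : (G.card : ℤ) ≤ T.dg := by
    have h1 := hDGH T 1 l hl0 (by
      have : ((1 : ℕ) : ℤ) • T.H = T.H := by simp
      rw [this]; exact hlH)
    have h2 : ∑ᶠ e, (T.o e l + (1 : ℕ) * T.H e) * T.degc e =
        ∑ e ∈ G, (T.o e l + (1 : ℕ) * T.H e) * T.degc e := by
      apply finsum_eq_sum_of_support_subset
      intro e he
      rw [Function.mem_support] at he
      rw [Finset.mem_coe, hG]
      by_contra hc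
      have h3 := hPG e
      rw [sum_pr, if_neg (fun h => hc ((hG e).1 h))] at h3
      apply he
      push_cast
      rw [one_mul, h3, zero_mul]
    rw [h2] at h1
    have h3 : ∀ e ∈ G, (1 : ℤ) ≤ (T.o e l + (1 : ℕ) * T.H e) * T.degc e := by
      intro e he
      have h4 := (hG e).1 he
      push_cast
      rw [one_mul, h4, one_mul]
      exact (hDEG T e).pos
    have h4 := Finset.sum_le_sum h3
    rw [Finset.sum_const, nsmul_eq_mul, mul_one] at h4
    push_cast at h1 h4
    linarith
  have hmain := ind hHOPF hMUL hD hD' hf0 hf hf0' hf' G (by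
    intro g hg
    have h1 := (hG g).1 hg
    have h2 : g ∉ E := by
      intro h3
      have := hlE g h3
      change T.o g l = - T.H g at this
      rw [this] at h1
      norm_num at h1
    have b1 : D g = 0 := by
      by_contra hc
      exact h2 (Finset.mem_union_left _ (Finset.mem_union_left _ (Finset.mem_union_left _
        (Finset.mem_union_left _ (hD.mem_toFinset.2 hc)))))
    have b2 : D' g = 0 := by
      by_contra hc
      exact h2 (Finset.mem_union_left _ (Finset.mem_union_left _ (Finset.mem_union_left _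
        (Finset.mem_union_right _ (hD'.mem_toFinset.2 hc)))))
    have b4 : T.o g f = 0 := by
      by_contra hc
      exact h2 (Finset.mem_union_left _ (Finset.mem_union_right _
        ((supO hSUP f).mem_toFinset.2 hc)))
    have b5 : T.o g f' = 0 := by
      by_contra hc
      exact h2 (Finset.mem_union_right _ ((supO hSUP f').mem_toFinset.2 hc))
    exact ⟨b1, b2, b4, b5⟩)
  rw [hdim, hdim, hdim] at hmain
  linarith

end Pool.Agent.NUM
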