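import Pool.Agent.NUM.Stmts
import Pool.Agent.SRF.Stmts

/-!
# NUM: TRD
-/

set_option autoImplicit false

noncomputable section

namespace Pool.Agent.NUM

open Pool.Agent.SRF Filter

namespace TRD_

lemma L_eq (T : Sf) (n : ℕ) : T.L ((n : ℤ) • T.H) = SRF.L T.k T.x T.y (fun O => n * SRF.H T.k T.x T.y O) := by
  congr 1

variable (T : Sf)

/-- the field of the plane -/
abbrev K0 : IntermediateField T.k T.F := IntermediateField.adjoin T.k ({T.x, T.y} : Set T.F)

lemma tr_mem (hSCQ : SRF.Stmt_SCQ) (n : ℕ) (f : T.F) (hf : f ∈ T.L ((n : ℤ) • T.H)) :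
    ∃ t : MvPolynomial (Fin 2) T.k, t.totalDegree ≤ n ∧
      ((Algebra.trace (K0 T) T.F f : K0 T) : T.F) = MvPolynomial.aeval ![T.x, T.y] t := by
  have hfin : FiniteDimensional (K0 T) T.F := T.surf.fin
  have hsep : Algebra.IsSeparable (K0 T) T.F := T.surf.sep
  rw [L_eq] at hf
  obtain ⟨c, hc1, hc2⟩ := hSCQ T.k T.F T.x T.y T.surf n f hf
  have hint : IsIntegral (K0 T) f := Algebra.IsIntegral.isIntegral f
  have hdeg : 1 ≤ (minpoly (K0 T) f).natDegree := minpoly.natDegree_pos hint
  have h1 := hc2 1 hdeg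
  rw [trace_eq_finrank_mul_minpoly_nextCoeff]
  refine ⟨-((Module.finrank (IntermediateField.adjoin (K0 T) {f}) T.F : ℕ) : MvPolynomial (Fin 2) T.k) * c 1, ?_, ?_⟩
  · refine (MvPolynomial.totalDegree_mul _ _).trans ?_
    rw [MvPolynomial.totalDegree_neg]
    have : (((Module.finrank (IntermediateField.adjoin (K0 T) {f}) T.F : ℕ) : MvPolynomial (Fin 2) T.k)).totalDegree = 0 := by
      rw [← map_natCast (MvPolynomial.C)]
      exact MvPolynomial.totalDegree_C _
    rw [this, zero_add]
    simpa using hc1 1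
  · rw [Polynomial.nextCoeff_of_natDegree_pos (by omega)]
    push_cast
    rw [h1]
    simp

lemma base_le (i : Fin 3) (b : T.F) (hb : b ∈ SRF.base T.k T.x T.y i) : b ∈ K0 T := by
  have h1 : ∀ j, SRF.z T.x T.y j ∈ K0 T := by
    intro j
    fin_cases j
    · exact one_mem _
    · exact IntermediateField.subset_adjoin _ _ (by simp [SRF.z])
    · exact IntermediateField.subset_adjoin _ _ (by simp [SRF.z])
  have h2 : SRF.base T.k T.x T.y i ≤ (K0 T).toSubalgebra := by
    apply Algebra.adjoin_le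
    rintro _ ⟨j, rfl⟩
    exact (K0 T).div_mem (h1 j) (h1 i)
  exact h2 hb

lemma exists_basis (hLIH : SRF.Stmt_LIH) (hFRA : SRF.Stmt_FRA) :
    ∃ (d c : ℕ) (b : Module.Basis (Fin d) (K0 T) T.F), d = Module.finrank (K0 T) T.F ∧
      ∀ i, b i ∈ T.L ((c : ℤ) • T.H) := by
  have hfin : FiniteDimensional (K0 T) T.F := T.surf.fin
  let b0 := Module.finBasis (K0 T) T.F
  have h1 : ∀ i, ∃ (β : K0 T) (a : T.F) (M : ℕ), β ≠ 0 ∧ a = β • b0 i ∧
      ∀ m : ℕ, M ≤ m → a ∈ T.L ((m : ℤ) • T.H) := by
    intro i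
    obtain ⟨a, ha, β, hβ, hβ0, hab⟩ := hFRA T.k T.F T.x T.y T.surf 0 (b0 i)
    obtain ⟨M, hM⟩ := hLIH T.k T.F T.x T.y T.surf 0 a ha
    refine ⟨⟨β, base_le T 0 β hβ⟩, a, M, ?_, ?_, ?_⟩
    · intro h
      exact hβ0 (congrArg Subtype.val h)
    · change a = β * b0 i
      rw [hab, mul_div_cancel₀ _ hβ0]
    · intro m hm
      have h2 := hM m hm
      have h3 : SRF.z T.x T.y 0 = 1 := rfl
      rw [h3, one_pow, mul_one] at h2
      rw [L_eq]
      exact h2
  choose β a M hβ ha hM using h1
  let u : Fin (Module.finrank (K0 T) T.F) → (K0 T)ˣ := fun i => Units.mk0 (β i) (hβ i)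
  refine ⟨_, Finset.univ.sup M, b0.unitsSMul u, rfl, fun i => ?_⟩
  have h4 : b0.unitsSMul u i = a i := by
    rw [Module.Basis.unitsSMul_apply, ha]
    rfl
  rw [h4]
  exact hM i _ (Finset.le_sup (Finset.mem_univ i))

lemma mul_mem_L (m n : ℕ) (f g : T.F) (hf : f ∈ T.L ((m : ℤ) • T.H)) (hg : g ∈ T.L ((n : ℤ) • T.H)) :
    f * g ∈ T.L (((m + n : ℕ) : ℤ) • T.H) := by
  by_cases hf0 : f = 0
  · left; rw [hf0, zero_mul]
  by_cases hg0 : g = 0
  · left; rw [hg0, mul_zero]
  right
  intro O
  have h1 := hf.resolve_left hf0 O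
  have h2 := hg.resolve_left hg0 O
  rw [O.isOrd.mul _ _ hf0 hg0]
  simp only [Pi.smul_apply, smul_eq_mul] at h1 h2 ⊢
  push_cast
  linarith

end TRD_

open TRD_ in
theorem trd_proof (hSCQ : SRF.Stmt_SCQ) (hLIH : SRF.Stmt_LIH) (hFRA : SRF.Stmt_FRA) : Stmt_TRD := by
  intro T
  have hfin : FiniteDimensional (K0 T) T.F := T.surf.fin
  have hsep : Algebra.IsSeparable (K0 T) T.F := T.surf.sep
  obtain ⟨d, c, b, hd, hb⟩ := exists_basis T hLIH hFRA
  -- the traces
  have h1 : ∀ i j, ∃ t : MvPolynomial (Fin 2) T.k,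
      ((Algebra.trace (K0 T) T.F (b i * b j) : K0 T) : T.F) = MvPolynomial.aeval ![T.x, T.y] t := by
    intro i j
    obtain ⟨t, -, ht⟩ := tr_mem T hSCQ (c + c) (b i * b j) (mul_mem_L T c c _ _ (hb i) (hb j))
    exact ⟨t, ht⟩
  choose t ht using h1
  let G : Matrix (Fin d) (Fin d) (K0 T) := fun i j => Algebra.trace (K0 T) T.F (b i * b j)
  let t' : Matrix (Fin d) (Fin d) (MvPolynomial (Fin 2) T.k) := fun i j => t i j
  have hG0 : G.det ≠ 0 := Algebra.discr_not_zero_of_basis (K0 T) b
  -- map to F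
  let φ : MvPolynomial (Fin 2) T.k →+* T.F := (MvPolynomial.aeval ![T.x, T.y]).toRingHom
  let ψ : K0 T →+* T.F := (K0 T).val.toRingHom
  have hGt : ψ.mapMatrix G = φ.mapMatrix t' := by
    ext i j
    exact ht i j
  have hdet : φ t'.det = ψ G.det := by
    rw [RingHom.map_det, RingHom.map_det, hGt]
  have hadj : φ.mapMatrix t'.adjugate = ψ.mapMatrix G.adjugate := by
    rw [RingHom.map_adjugate, RingHom.map_adjugate, hGt]
  let B : ℕ := Finset.univ.sup fun i => Finset.univ.sup fun j => (t'.adjugate i j).totalDegree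
  have hB : ∀ i j, (t'.adjugate i j).totalDegree ≤ B := by
    intro i j
    exact (Finset.le_sup (f := fun j => (t'.adjugate i j).totalDegree) (Finset.mem_univ j)).trans
      (Finset.le_sup (f := fun i => Finset.univ.sup fun j => (t'.adjugate i j).totalDegree)
        (Finset.mem_univ i))
  refine ⟨d, c, max t'.det.totalDegree (B + c), b, t'.det, by rw [hd]; rfl, b.linearIndependent, hb, ?_,
    le_max_left _ _, ?_⟩
  · intro h0
    rw [h0, map_zero] at hdet
    have : (G.det : T.F) = 0 := hdet.symm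
    exact hG0 (Subtype.ext this)
  · intro n a ha
    have h2 : ∀ j, ∃ s : MvPolynomial (Fin 2) T.k, s.totalDegree ≤ n + c ∧
        ((Algebra.trace (K0 T) T.F (a * b j) : K0 T) : T.F) =
          MvPolynomial.aeval ![T.x, T.y] s := fun j =>
      tr_mem T hSCQ (n + c) (a * b j) (mul_mem_L T n c _ _ ha (hb j))
    choose s hs1 hs2 using h2
    refine ⟨fun i => ∑ j, t'.adjugate i j * s j, ?_, ?_⟩
    · intro i
      refine (MvPolynomial.totalDegree_finsetSum _ _).trans ?_
      refine Finset.sup_le fun j _ => ?_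
      refine (MvPolynomial.totalDegree_mul _ _).trans ?_
      have h3 := hB i j
      have h4 := hs1 j
      have h5 := le_max_right t'.det.totalDegree (B + c)
      omega
    · -- Cramer
      let α : Fin d → K0 T := fun i => b.repr a i
      let σ : Fin d → K0 T := fun j => Algebra.trace (K0 T) T.F (a * b j)
      have hα : ∑ i, α i • b i = a := b.sum_repr a
      have hσ : G.mulVec α = σ := by
        funext j
        change ∑ i, G j i * α i = _
        have h3 : σ j = ∑ i, α i * Algebra.trace (K0 T) T.F (b i * b j) := by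
          change Algebra.trace (K0 T) T.F (a * b j) = _
          conv_lhs => rw [← hα]
          rw [Finset.sum_mul, map_sum]
          refine Finset.sum_congr rfl fun i _ => ?_
          rw [smul_mul_assoc, map_smul, smul_eq_mul]
        rw [h3]
        refine Finset.sum_congr rfl fun i _ => ?_
        change Algebra.trace (K0 T) T.F (b j * b i) * α i = _
        rw [mul_comm (b j) (b i), mul_comm]
      have hcr : G.adjugate.mulVec σ = G.det • α := by
        rw [← hσ, Matrix.mulVec_mulVec, Matrix.adjugate_mul, Matrix.smul_mulVec, Matrix.one_mulVec]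
      have h6 : ∀ i, φ (∑ j, t'.adjugate i j * s j) = ψ (G.det * α i) := by
        intro i
        have h7 := congrFun hcr i
        change ∑ j, G.adjugate i j * σ j = G.det * α i at h7
        rw [← h7, map_sum, map_sum]
        refine Finset.sum_congr rfl fun j _ => ?_
        rw [map_mul, map_mul]
        have h8 : φ (t'.adjugate i j) = ψ (G.adjugate i j) := congrFun (congrFun hadj i) j
        have h9 : φ (s j) = ψ (σ j) := (hs2 j).symm
        rw [h8, h9]
      change φ t'.det * a = ∑ i, φ (∑ j, t'.adjugate i j * s j) * b i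
      rw [hdet]
      conv_lhs => rw [← hα]
      rw [Finset.mul_sum]
      refine Finset.sum_congr rfl fun i _ => ?_
      rw [h6, map_mul, mul_assoc]
      rfl

end Pool.Agent.NUM
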