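import Pool.Agent.NUM.Stmts
import Pool.Agent.SRF.Stmts

/-!
Module TUA of squad NUM: the real divisors of the tubes.
-/

set_option autoImplicit false

noncomputable section

namespace Pool.Agent.NUM

open Pool.Agent.SRF Filter

namespace TUA_

variable (T : Sf)

lemma zi (e : T.P) : ∃ z : T.F, z ≠ 0 ∧ T.o e z = - T.H e ∧ ∀ O : T.P, - T.H O ≤ T.o O z := by
  have hx : T.x ≠ 0 := T.surf.indep.ne_zero 0
  have hy : T.y ≠ 0 := T.surf.indep.ne_zero 1
  have hdef : ∀ O : T.P, T.H O = max 0 (max (- T.o O T.x) (- T.o O T.y)) := fun _ => rfl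
  have h1 : ∀ O : T.P, 0 ≤ T.H O := fun O => by rw [hdef]; exact le_max_left _ _
  have h2 : ∀ O : T.P, - T.H O ≤ T.o O T.x := fun O => by
    have := (le_max_left (- T.o O T.x) (- T.o O T.y)).trans (le_max_right 0 _)
    rw [← hdef] at this
    linarith
  have h3 : ∀ O : T.P, - T.H O ≤ T.o O T.y := fun O => by
    have := (le_max_right (- T.o O T.x) (- T.o O T.y)).trans (le_max_right 0 _)
    rw [← hdef] at this
    linarith
  rcases max_choice 0 (max (- T.o e T.x) (- T.o e T.y)) with h | h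
  · refine ⟨1, one_ne_zero, ?_, fun O => ?_⟩
    · rw [hdef, h]
      show SRF.ord e.1 1 = -0
      rw [e.isOrd.one, neg_zero]
    · show - T.H O ≤ SRF.ord O.1 1
      rw [O.isOrd.one]
      have := h1 O
      linarith
  · rcases max_choice (- T.o e T.x) (- T.o e T.y) with h' | h'
    · exact ⟨T.x, hx, by rw [hdef, h, h', neg_neg], h2⟩
    · exact ⟨T.y, hy, by rw [hdef, h, h', neg_neg], h3⟩

lemma H_nonneg (O : T.P) : 0 ≤ T.H O := le_max_left _ _

variable (S : Set T.P)

lemma mem_WW {n : ℕ} {f : T.F} : f ∈ T.WW S n ↔ f = 0 ∨ ∀ O : T.P, O ∉ S → - (n * T.H O) ≤ T.o O f :=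
  Iff.rfl

lemma pow_WW {m : ℕ} {β : T.F} (hβ : β ≠ 0) (h : β ∈ T.WW S m) (t : ℕ) :
    β ^ t ∈ T.WW S (t * m) := by
  right
  intro O hO
  have h1 := h.resolve_left hβ O hO
  have h2 : T.o O (β ^ t) = t * T.o O β := O.isOrd.pow hβ t
  rw [h2]
  have h3 : (0 : ℤ) ≤ t := by positivity
  have h4 := mul_le_mul_of_nonneg_left h1 h3
  push_cast
  linarith

lemma mono_WW {m n : ℕ} (hmn : m ≤ n) {β : T.F} (h : β ∈ T.WW S m) : β ∈ T.WW S n := by
  rcases h with h | h
  · exact Or.inl h
  · right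
    intro O hO
    have h1 := h O hO
    have h2 : (m : ℤ) ≤ n := by exact_mod_cast hmn
    have h3 := mul_le_mul_of_nonneg_right h2 (H_nonneg T O)
    linarith

/-- relative pole orders -/
def A (e : T.P) : Set ℝ := {r | ∃ m : ℕ, 1 ≤ m ∧ ∃ β : T.F, β ≠ 0 ∧ β ∈ T.WW S m ∧
  r = ((- T.o e β - m * T.H e : ℤ) : ℝ) / m}

lemma zero_A (e : T.P) : (0 : ℝ) ∈ A T S e := by
  obtain ⟨z, hz, he, hO⟩ := zi T e
  refine ⟨1, le_rfl, z, hz, Or.inr fun O _ => ?_, ?_⟩
  · have := hO O
    simpa using this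
  · rw [he]
    simp

/-! ### generic linear combinations -/

lemma bad_sub (O : T.P) (f g : T.F) (hf : f ≠ 0) (hg : g ≠ 0) (s : ℤ)
    (hs : s = T.o O f ∨ s = T.o O g) :
    {c : T.k | f + c • g = 0 ∨ s < T.o O (f + c • g)}.Subsingleton := by
  -- the additive group of functions of order larger than `s`
  have hadd : ∀ a b : T.F, (a = 0 ∨ s < T.o O a) → (b = 0 ∨ s < T.o O b) →
      (a + b = 0 ∨ s < T.o O (a + b)) := by
    intro a b ha hb
    by_cases h0 : a = 0
    · rw [h0, zero_add]; exact hb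
    by_cases h1 : b = 0
    · rw [h1, add_zero]; exact ha
    by_cases h2 : a + b = 0
    · exact Or.inl h2
    · right
      exact lt_of_lt_of_le (lt_min (ha.resolve_left h0) (hb.resolve_left h1)) (O.isOrd.add h0 h1 h2)
  have hsmul : ∀ (c : T.k) (a : T.F), (a = 0 ∨ s < T.o O a) → (c • a = 0 ∨ s < T.o O (c • a)) := by
    intro c a ha
    by_cases hc : c = 0
    · left; rw [hc, zero_smul]
    by_cases h0 : a = 0
    · left; rw [h0, smul_zero]
    right
    have hcK : algebraMap T.k T.F c ≠ 0 := by rw [Ne, map_eq_zero]; exact hc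
    have : T.o O (c • a) = T.o O a := by
      rw [Algebra.smul_def]
      change SRF.ord O.1 _ = _
      rw [O.isOrd.mul _ _ hcK h0, ord_const _ _ _ O c hc, zero_add]
    rw [this]
    exact ha.resolve_left h0
  intro c hc c' hc'
  by_contra hne
  have h1 : (c - c') • g = 0 ∨ s < T.o O ((c - c') • g) := by
    have h2 := hadd _ _ hc (hsmul (-1) _ hc')
    have h3 : f + c • g + (-1 : T.k) • (f + c' • g) = (c - c') • g := by
      rw [neg_one_smul, sub_smul]
      abel
    rwa [h3] at h2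
  have h2 : g = 0 ∨ s < T.o O g := by
    have h3 := hsmul (c - c')⁻¹ _ h1
    rwa [smul_smul, inv_mul_cancel₀ (sub_ne_zero.2 hne), one_smul] at h3
  have h3 : f = 0 ∨ s < T.o O f := by
    have h4 := hadd _ _ hc (hsmul (-c) _ h2)
    have h5 : f + c • g + (-c) • g = f := by
      rw [neg_smul]
      abel
    rwa [h5] at h4
  have h4 := h2.resolve_left hg
  have h5 := h3.resolve_left hf
  rcases hs with hs | hs
  · rw [← hs] at h5
    exact lt_irrefl _ h5
  · rw [← hs] at h4
    exact lt_irrefl _ h4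

lemma generic (E : Finset T.P) (f g : T.F) (hf : f ≠ 0) (hg : g ≠ 0) :
    ∃ c : T.k, f + c • g ≠ 0 ∧ ∀ O ∈ E, T.o O (f + c • g) ≤ T.o O f ∧ T.o O (f + c • g) ≤ T.o O g := by
  classical
  have : Infinite T.k := inferInstance
  have hfin : ({c : T.k | f + c • g = 0} ∪ ⋃ O ∈ E, {c : T.k | f + c • g = 0 ∨
      min (T.o O f) (T.o O g) < T.o O (f + c • g)}).Finite := by
    refine Set.Finite.union ?_ (Set.Finite.biUnion E.finite_toSet fun O _ => ?_)
    · refine Set.Subsingleton.finite fun c hc c' hc' => ?_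
      have h1 : (c - c') • g = 0 := by
        have h2 : f + c • g = f + c' • g := by
          rw [show f + c • g = 0 from hc, show f + c' • g = 0 from hc']
        rw [sub_smul, sub_eq_zero]
        exact add_left_cancel h2
      rcases smul_eq_zero.1 h1 with h2 | h2
      · exact sub_eq_zero.1 h2
      · exact absurd h2 hg
    · refine Set.Subsingleton.finite (bad_sub T O f g hf hg _ ?_)
      exact min_choice _ _
  obtain ⟨c, hc⟩ := hfin.exists_notMem
  refine ⟨c, fun h => hc (Or.inl h), fun O hO => ?_⟩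
  have h1 : ¬ (min (T.o O f) (T.o O g) < T.o O (f + c • g)) := by
    intro h
    apply hc
    right
    exact Set.mem_biUnion hO (Or.inr h)
  exact ⟨(not_lt.1 h1).trans (min_le_left _ _), (not_lt.1 h1).trans (min_le_right _ _)⟩

lemma combine (m : ℕ) (E : Finset T.P) (γ : T.P → T.F)
    (hγ : ∀ e ∈ E, γ e ≠ 0 ∧ γ e ∈ T.WW S m) :
    ∃ β : T.F, β ≠ 0 ∧ β ∈ T.WW S m ∧ ∀ e ∈ E, T.o e β ≤ T.o e (γ e) := by
  classical
  have key : ∀ E' : Finset T.P, E' ⊆ E → ∃ β : T.F, β ≠ 0 ∧ β ∈ T.WW S m ∧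
      ∀ e ∈ E', T.o e β ≤ T.o e (γ e) := by
    intro E'
    induction E' using Finset.induction_on with
    | empty =>
      intro _
      refine ⟨1, one_ne_zero, Or.inr fun O _ => ?_, fun e he => absurd he (Finset.notMem_empty e)⟩
      show _ ≤ SRF.ord O.1 1
      rw [O.isOrd.one]
      have := mul_nonneg (by positivity : (0 : ℤ) ≤ m) (H_nonneg T O)
      linarith
    | insert a E' _ ih =>
      intro hE'
      obtain ⟨β, hβ, hβW, hβo⟩ := ih (fun e he => hE' (Finset.mem_insert_of_mem he))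
      obtain ⟨hγa, hγW⟩ := hγ a (hE' (Finset.mem_insert_self a E'))
      obtain ⟨c, hc, hcO⟩ := generic T E β (γ a) hβ hγa
      refine ⟨β + c • γ a, hc, Submodule.add_mem _ hβW (Submodule.smul_mem _ c hγW), fun e he => ?_⟩
      obtain ⟨h1, h2⟩ := hcO e (hE' he)
      rcases Finset.mem_insert.1 he with h3 | h3
      · rw [h3] at h2 ⊢
        exact h2
      · exact h1.trans (hβo e h3)
  exact key E (Finset.Subset.refl E)

/-- simultaneous approximation -/
lemma sim (E : Finset T.P) (t : T.P → ℝ) (ht : ∀ e ∈ E, ∃ r ∈ A T S e, t e ≤ r) :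
    ∃ m : ℕ, 1 ≤ m ∧ ∃ β : T.F, β ≠ 0 ∧ β ∈ T.WW S m ∧
      ∀ e ∈ E, t e * m ≤ ((- T.o e β - m * T.H e : ℤ) : ℝ) := by
  classical
  have h1 : ∀ e : T.P, ∃ (m : ℕ) (β : T.F), e ∈ E → (1 ≤ m ∧ β ≠ 0 ∧ β ∈ T.WW S m ∧
      t e * m ≤ ((- T.o e β - m * T.H e : ℤ) : ℝ)) := by
    intro e
    by_cases he : e ∈ E
    · obtain ⟨r, ⟨m, hm, β, hβ, hβW, hr⟩, htr⟩ := ht e he
      refine ⟨m, β, fun _ => ⟨hm, hβ, hβW, ?_⟩⟩
      rw [hr] at htr
      have hm0 : (0 : ℝ) < m := by exact_mod_cast hm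
      rwa [le_div_iff₀ hm0] at htr
    · exact ⟨0, 0, fun h => absurd h he⟩
  choose m β h using h1
  let M := ∏ e ∈ E, m e
  have hM : 1 ≤ M := Nat.one_le_iff_ne_zero.2 (Finset.prod_ne_zero_iff.2 fun e he => by
    have := (h e he).1
    omega)
  have hdiv : ∀ e ∈ E, ∃ q, M = q * m e := by
    intro e he
    obtain ⟨q, hq⟩ := Finset.dvd_prod_of_mem m he
    exact ⟨q, by rw [mul_comm]; exact hq⟩
  obtain ⟨γ, hγ⟩ : ∃ γ : T.P → T.F, γ = fun e => β e ^ (M / m e) := ⟨_, rfl⟩
  have hγ1 : ∀ e ∈ E, γ e ≠ 0 ∧ γ e ∈ T.WW S M := by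
    intro e he
    obtain ⟨h1, h2, h3, _⟩ := h e he
    obtain ⟨q, hq⟩ := hdiv e he
    rw [hγ]
    refine ⟨pow_ne_zero _ h2, ?_⟩
    have h4 : M / m e * m e = M := by
      rw [hq, Nat.mul_div_cancel _ (by omega)]
    have h5 := pow_WW T S h2 h3 (M / m e)
    rwa [h4] at h5
  obtain ⟨b, hb, hbW, hbo⟩ := combine T S M E γ hγ1
  refine ⟨M, hM, b, hb, hbW, fun e he => ?_⟩
  obtain ⟨h1, h2, h3, h4⟩ := h e he
  obtain ⟨q, hq⟩ := hdiv e he
  have h5 : M / m e = q := by rw [hq, Nat.mul_div_cancel _ (by omega)]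
  have h6 := hbo e he
  have h7 : T.o e (γ e) = q * T.o e (β e) := by
    have h11 : γ e = β e ^ q := by rw [hγ, ← h5]
    rw [h11]
    exact e.isOrd.pow h2 q
  rw [h7] at h6
  have h8 : (q : ℝ) * (t e * m e) ≤ q * ((- T.o e (β e) - m e * T.H e : ℤ) : ℝ) :=
    mul_le_mul_of_nonneg_left h4 (by positivity)
  have h9 : ((q : ℝ) * ((- T.o e (β e) - m e * T.H e : ℤ) : ℝ)) =
      ((- (q * T.o e (β e)) - (q * m e : ℕ) * T.H e : ℤ) : ℝ) := by
    push_cast
    ring
  rw [h9] at h8
  have h10 : ((- (q * T.o e (β e)) - (q * m e : ℕ) * T.H e : ℤ) : ℝ) ≤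
      ((- T.o e b - (M : ℕ) * T.H e : ℤ) : ℝ) := by
    rw [hq]
    exact_mod_cast (by linarith : - ((q : ℤ) * T.o e (β e)) - (q * m e : ℕ) * T.H e ≤
      - T.o e b - (q * m e : ℕ) * T.H e)
  refine le_trans (le_of_eq ?_) (h8.trans h10)
  rw [hq]
  push_cast
  ring

end TUA_

open TUA_ in
theorem tua_proof (hPBD : Stmt_PBD) (hUNI : Stmt_UNI) (hDEG : Stmt_DEG) (_hSUP : SRF.Stmt_SUP) :
    Stmt_TUA := by
  classical
  intro T J cr Tb N hin j
  obtain ⟨S, hS⟩ : ∃ S, S = Tb j := ⟨_, rfl⟩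
  rw [← hS]
  have hdeg : ∀ e, (1 : ℝ) ≤ T.degc e := fun e => by exact_mod_cast (hDEG T e).pos
  have hN : 0 ≤ N := by
    have h1 := hin.deg
    have h2 : (0 : ℝ) ≤ T.dg := by
      have : (0 : ℤ) ≤ T.dg := by unfold Sf.dg; positivity
      exact_mod_cast this
    linarith
  have hmd : ∀ (m : ℕ) (β : T.F) (e : T.P), 1 ≤ m → β ≠ 0 → β ∈ T.WW S m →
      ((- T.o e β - m * T.H e : ℤ) : ℝ) / m ∈ A T S e := fun m β e hm hβ hW => ⟨m, hm, β, hβ, hW, rfl⟩
  -- the bound for one prime
  have hbd : ∀ e ∈ S, ∀ r ∈ A T S e, r * T.degc e ≤ 4 * N := by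
    rintro e he r ⟨m, hm, β, hβ, hW, rfl⟩
    have hm0 : (0 : ℝ) < m := by exact_mod_cast hm
    by_cases hneg : 0 ≤ - T.o e β - m * T.H e
    · have h1 := hPBD T J cr Tb N hin j m β hm hβ (by rwa [← hS]) {e}
        (fun e' he' => by rw [Finset.mem_singleton.1 he', ← hS]; exact he)
        (fun e' he' => by rw [Finset.mem_singleton.1 he']; exact hneg)
      rw [Finset.sum_singleton] at h1
      rw [div_mul_eq_mul_div, div_le_iff₀ hm0]
      refine le_trans (le_of_eq ?_) h1
      push_cast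
      ring
    · have h1 : ((- T.o e β - m * T.H e : ℤ) : ℝ) ≤ 0 := by exact_mod_cast (not_le.1 hneg).le
      have h2 : ((- T.o e β - m * T.H e : ℤ) : ℝ) / m ≤ 0 := div_nonpos_of_nonpos_of_nonneg h1 hm0.le
      have h3 : ((- T.o e β - m * T.H e : ℤ) : ℝ) / m * T.degc e ≤ 0 :=
        mul_nonpos_of_nonpos_of_nonneg h2 (by linarith [hdeg e])
      linarith
  have hbda : ∀ e ∈ S, BddAbove (A T S e) := by
    intro e he
    refine ⟨4 * N, fun r hr => ?_⟩
    have h1 := hbd e he r hr
    by_cases h0 : 0 ≤ r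
    · have h2 : r * 1 ≤ r * T.degc e := mul_le_mul_of_nonneg_left (hdeg e) h0
      linarith
    · linarith [not_le.1 h0]
  obtain ⟨y, hy⟩ : ∃ y : T.P → ℝ, y = fun e => if e ∈ S then sSup (A T S e) else 0 := ⟨_, rfl⟩
  have hyS : ∀ e ∈ S, y e = sSup (A T S e) := fun e he => by rw [hy]; simp [he]
  have hyn : ∀ e, e ∉ S → y e = 0 := fun e he => by rw [hy]; simp [he]
  have hyle : ∀ e ∈ S, ∀ r ∈ A T S e, r ≤ y e := fun e he r hr => by
    rw [hyS e he]; exact le_csSup (hbda e he) hr
  have hy0 : ∀ e, 0 ≤ y e := by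
    intro e
    by_cases he : e ∈ S
    · exact hyle e he 0 (zero_A T S e)
    · rw [hyn e he]
  have hyap : ∀ e ∈ S, ∀ t, t < y e → ∃ r ∈ A T S e, t ≤ r := by
    intro e he t ht
    rw [hyS e he] at ht
    obtain ⟨r, hr, htr⟩ := exists_lt_of_lt_csSup ⟨0, zero_A T S e⟩ ht
    exact ⟨r, hr, htr.le⟩
  -- the total bound
  have htot : ∀ E : Finset T.P, (∀ e ∈ E, e ∈ S) → ∑ e ∈ E, y e * T.degc e ≤ 4 * N := by
    intro E hE
    refine le_of_forall_pos_le_add fun δ hδ => ?_
    obtain ⟨s, hs⟩ : ∃ s : ℝ, s = ∑ e ∈ E, (T.degc e : ℝ) := ⟨_, rfl⟩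
    have hs0 : 0 ≤ s := by
      rw [hs]
      exact Finset.sum_nonneg fun e _ => by linarith [hdeg e]
    obtain ⟨ε, hε⟩ : ∃ ε : ℝ, ε = δ / (s + 1) := ⟨_, rfl⟩
    have hε0 : 0 < ε := by rw [hε]; positivity
    obtain ⟨m, hm, β, hβ, hW, hb⟩ := sim T S E (fun e => max 0 (y e - ε)) (by
      intro e he
      rcases le_total (y e - ε) 0 with h | h
      · exact ⟨0, zero_A T S e, by simp [h]⟩
      · obtain ⟨r, hr, hr'⟩ := hyap e (hE e he) (y e - ε) (by linarith)
        exact ⟨r, hr, by simp only [max_eq_right h]; exact hr'⟩)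
    have hm0 : (0 : ℝ) < m := by exact_mod_cast hm
    have h1 := hPBD T J cr Tb N hin j m β hm hβ (by rwa [← hS]) E
      (fun e he => by rw [← hS]; exact hE e he) (fun e he => by
        have h2 := hb e he
        have h3 : (0 : ℝ) ≤ max 0 (y e - ε) * m := mul_nonneg (le_max_left _ _) hm0.le
        have h4 : (0 : ℝ) ≤ ((- T.o e β - m * T.H e : ℤ) : ℝ) := h3.trans h2
        exact_mod_cast h4)
    have h2 : (∑ e ∈ E, (y e - ε) * T.degc e) * m ≤
        ((∑ e ∈ E, (- T.o e β - m * T.H e) * T.degc e : ℤ) : ℝ) := by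
      rw [Int.cast_sum, Finset.sum_mul]
      refine Finset.sum_le_sum fun e he => ?_
      have h3 : (y e - ε) * m ≤ ((- T.o e β - m * T.H e : ℤ) : ℝ) :=
        (mul_le_mul_of_nonneg_right (le_max_right _ _) hm0.le).trans (hb e he)
      have h4 := mul_le_mul_of_nonneg_right h3 (by linarith [hdeg e] : (0 : ℝ) ≤ T.degc e)
      refine le_trans (le_of_eq ?_) (h4.trans (le_of_eq ?_))
      · ring
      · push_cast
        ring
    have h3 : ∑ e ∈ E, (y e - ε) * T.degc e ≤ 4 * N := by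
      have h4 := h2.trans h1
      exact le_of_mul_le_mul_right (by linarith) hm0
    have h4 : ∑ e ∈ E, (y e - ε) * T.degc e = ∑ e ∈ E, y e * T.degc e - ε * s := by
      rw [hs, Finset.mul_sum, ← Finset.sum_sub_distrib]
      exact Finset.sum_congr rfl fun e _ => by ring
    have h5 : ε * s ≤ δ := by
      rw [hε, div_mul_eq_mul_div, div_le_iff₀ (by linarith)]
      have : 0 ≤ δ * 1 := by linarith
      linarith [mul_add δ s 1]
    linarith
  -- `S` is finite
  have hSfin : S.Finite := by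
    obtain ⟨B, C, hu⟩ := hUNI T
    have hlow : ∀ e ∈ S, e ∉ B → 1 / ((C : ℝ) + 1) ≤ y e * T.degc e := by
      intro e he heB
      obtain ⟨n, hn, u, hu0, huL, huo⟩ := hu e heB
      have hC0 : (0 : ℝ) < (C : ℝ) + 1 := by positivity
      have huW : u ∈ T.WW S n := by
        right
        intro O hO
        have h1 := huL.resolve_left hu0 O
        have h2 : O ≠ e := by rintro rfl; exact hO he
        have h3 : T.pr e O = 0 := by unfold Sf.pr; simp [h2]
        have h4 : ((n : ℤ) • T.H + T.pr e) O = n * T.H O + T.pr e O := rfl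
        rw [h4, h3, add_zero] at h1
        exact h1
      rcases Nat.eq_zero_or_pos n with hn0 | hn0
      · -- `n = 0`
        obtain ⟨t, ht⟩ : ∃ t : ℕ, t = 1 + (T.H e).toNat := ⟨_, rfl⟩
        have h1 : u ^ t ∈ T.WW S 1 := by
          have h2 := pow_WW T S hu0 huW t
          exact mono_WW T S (by rw [hn0]; omega) h2
        have h3 : T.o e (u ^ t) = t * T.o e u := e.isOrd.pow hu0 t
        have h4 := hyle e he _ (hmd 1 (u ^ t) e le_rfl (pow_ne_zero _ hu0) h1)
        rw [h3, huo, hn0, ht] at h4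
        have h5 : (- (((1 + (T.H e).toNat : ℕ) : ℤ) * (- (((0 : ℕ) : ℤ) * T.H e) - 1)) -
            ((1 : ℕ) : ℤ) * T.H e) = 1 := by
          have h6 : (((T.H e).toNat : ℕ) : ℤ) = T.H e := Int.toNat_of_nonneg (H_nonneg T e)
          push_cast
          rw [h6]
          ring
        rw [h5] at h4
        norm_num at h4
        have h7 : (1 : ℝ) * 1 ≤ y e * T.degc e := mul_le_mul h4 (hdeg e) zero_le_one (hy0 e)
        have h8 : 1 / ((C : ℝ) + 1) ≤ 1 := by
          rw [div_le_one hC0]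
          have : (0 : ℝ) ≤ C := by positivity
          linarith
        linarith
      · have hn1 : (0 : ℝ) < n := by exact_mod_cast hn0
        have h4 := hyle e he _ (hmd n u e hn0 hu0 huW)
        rw [huo] at h4
        have h5 : (- (- ((n : ℤ) * T.H e) - 1) - (n : ℤ) * T.H e) = 1 := by ring
        rw [h5] at h4
        have h6 : (n : ℝ) ≤ C * T.degc e := by exact_mod_cast hn
        have h7 : (0 : ℝ) ≤ T.degc e := by linarith [hdeg e]
        have h8 : ((1 : ℤ) : ℝ) / n * T.degc e ≤ y e * T.degc e := mul_le_mul_of_nonneg_right h4 h7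
        refine le_trans ?_ h8
        rw [Int.cast_one, div_mul_eq_mul_div, one_mul, div_le_div_iff₀ hC0 hn1]
        linarith
    by_contra hinf
    have hinf' : (S \ (B : Set T.P)).Infinite := Set.Infinite.sdiff hinf B.finite_toSet
    obtain ⟨c, hc⟩ := exists_nat_gt (4 * N * ((C : ℝ) + 1))
    obtain ⟨E, hE, hEc⟩ := hinf'.exists_subset_card_eq c
    have h1 := htot E (fun e he => (hE he).1)
    have h2 : (c : ℝ) * (1 / ((C : ℝ) + 1)) ≤ ∑ e ∈ E, y e * T.degc e := by
      have h3 := Finset.card_nsmul_le_sum E (fun e => y e * T.degc e) (1 / ((C : ℝ) + 1))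
        (fun e he => hlow e (hE he).1 (hE he).2)
      rw [hEc, nsmul_eq_mul] at h3
      exact h3
    have hC0 : (0 : ℝ) < (C : ℝ) + 1 := by positivity
    have h3 : (c : ℝ) * (1 / ((C : ℝ) + 1)) ≤ 4 * N := h2.trans h1
    rw [mul_one_div, div_le_iff₀ hC0] at h3
    linarith
  obtain ⟨F, hF⟩ : ∃ F : Finset T.P, F = hSfin.toFinset := ⟨_, rfl⟩
  have hmF : ∀ e, e ∈ F ↔ e ∈ S := fun e => by rw [hF, Set.Finite.mem_toFinset]
  have hsumF : ∑ e ∈ F, y e * T.degc e ≤ 4 * N := htot F fun e he => (hmF e).1 he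
  refine ⟨fun e => y e / 2, ?_, ?_, ?_, ?_, ?_, ?_⟩
  · intro e
    have := hy0 e
    show 0 ≤ y e / 2
    linarith
  · intro e he
    by_contra h
    apply he
    show y e / 2 = 0
    rw [hyn e h, zero_div]
  · refine hSfin.subset fun e he => ?_
    by_contra h
    apply he
    show y e / 2 = 0
    rw [hyn e h, zero_div]
  · -- ww
    intro n
    have hfl : ∀ O, T.fl (2 * n) (fun e => y e / 2) O = ⌊(n : ℝ) * y O⌋ := by
      intro O
      show ⌊((2 * n : ℕ) : ℝ) * (y O / 2)⌋ = ⌊(n : ℝ) * y O⌋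
      congr 1
      push_cast
      ring
    apply le_antisymm
    · intro f hf
      by_cases hf0 : f = 0
      · rw [hf0]
        exact Submodule.zero_mem _
      right
      intro O
      have h1 : ((n : ℤ) • T.H + T.fl (2 * n) (fun e => y e / 2)) O = n * T.H O + ⌊(n : ℝ) * y O⌋ := by
        rw [← hfl O]
        rfl
      rw [h1]
      by_cases hO : O ∈ S
      · have h2 : - T.o O f - n * T.H O ≤ ⌊(n : ℝ) * y O⌋ := by
          rcases Nat.eq_zero_or_pos n with hn0 | hn0
          · rw [hn0] at hf ⊢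
            have h3 : ⌊((0 : ℕ) : ℝ) * y O⌋ = 0 := by simp
            rw [h3]
            by_contra hcon
            have h4 : 1 ≤ - T.o O f := by
              push_cast at hcon
              omega
            -- powers
            obtain ⟨t, ht⟩ := exists_nat_gt (y O + T.H O)
            have h5 : f ^ t ∈ T.WW S 1 := mono_WW T S (by omega) (pow_WW T S hf0 hf t)
            have h6 : T.o O (f ^ t) = t * T.o O f := O.isOrd.pow hf0 t
            have h7 := hyle O hO _ (hmd 1 (f ^ t) O le_rfl (pow_ne_zero _ hf0) h5)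
            rw [h6] at h7
            have h8 : (t : ℤ) ≤ - ((t : ℤ) * T.o O f) := by
              have h9 : (t : ℤ) * 1 ≤ t * (- T.o O f) :=
                mul_le_mul_of_nonneg_left h4 (by positivity)
              linarith
            have h9 : ((t : ℤ) : ℝ) ≤ ((- ((t : ℤ) * T.o O f) : ℤ) : ℝ) := by exact_mod_cast h8
            push_cast at h7 h9
            simp only [div_one, one_mul] at h7
            linarith
          · have hn1 : (0 : ℝ) < n := by exact_mod_cast hn0
            have h3 := hyle O hO _ (hmd n f O hn0 hf0 hf)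
            rw [div_le_iff₀ hn1] at h3
            refine Int.le_floor.2 ?_
            linarith
        show -(n * T.H O + ⌊(n : ℝ) * y O⌋) ≤ T.o O f
        linarith
      · have h2 := hf.resolve_left hf0 O hO
        rw [hyn O hO, mul_zero, Int.floor_zero, add_zero]
        exact h2
    · intro f hf
      by_cases hf0 : f = 0
      · rw [hf0]
        exact Submodule.zero_mem _
      right
      intro O hO
      have h2 := hf.resolve_left hf0 O
      have h1 : ((n : ℤ) • T.H + T.fl (2 * n) (fun e => y e / 2)) O = n * T.H O + ⌊(n : ℝ) * y O⌋ := by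
        rw [← hfl O]
        rfl
      rw [h1, hyn O hO, mul_zero, Int.floor_zero, add_zero] at h2
      exact h2
  · -- deg
    rw [finsum_eq_sum_of_support_subset (s := F)]
    · have h1 : ∑ e ∈ F, y e / 2 * (T.degc e : ℝ) = (∑ e ∈ F, y e * T.degc e) / 2 := by
        rw [Finset.sum_div]
        exact Finset.sum_congr rfl fun e _ => by ring
      rw [h1]
      linarith
    · intro e he
      rw [Finset.mem_coe, hmF]
      by_contra h
      apply he
      show y e / 2 * (T.degc e : ℝ) = 0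
      rw [hyn e h]
      simp
  · -- bet
    intro ε hε
    obtain ⟨m, hm, β, hβ, hW, hb⟩ := sim T S F (fun e => (1 - ε / 2) * y e) (by
      intro e he
      have heS := (hmF e).1 he
      rcases (hy0 e).eq_or_lt with h | h
      · refine ⟨0, zero_A T S e, ?_⟩
        show (1 - ε / 2) * y e ≤ 0
        rw [← h, mul_zero]
      · refine hyap e heS _ ?_
        have : 0 < ε / 2 * y e := by positivity
        linarith [sub_mul 1 (ε / 2) (y e)])
    have hm0 : (0 : ℝ) < m := by exact_mod_cast hm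
    refine ⟨m, hm, fun e => if e ∈ S then - T.o e β - m * T.H e else 0, β, hβ, ?_, ?_, ?_, ?_⟩
    · right
      intro O
      show -(m * T.H O + (if O ∈ S then - T.o O β - m * T.H O else 0)) ≤ T.o O β
      by_cases hO : O ∈ S
      · rw [if_pos hO]
        linarith
      · rw [if_neg hO, add_zero]
        exact hW.resolve_left hβ O hO
    · intro e he
      by_cases hO : e ∈ S
      · simp only [if_pos hO]
        ring
      · exact absurd (if_neg hO) he
    · intro e
      by_cases hO : e ∈ S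
      · have h1 := hb e ((hmF e).2 hO)
        simp only [if_pos hO]
        refine le_trans (le_of_eq ?_) h1
        ring
      · simp only [if_neg hO]
        rw [hyn e hO]
        simp
    · intro e
      by_cases hO : e ∈ S
      · have h1 := hyle e hO _ (hmd m β e hm hβ hW)
        rw [div_le_iff₀ hm0] at h1
        simp only [if_pos hO]
        refine h1.trans (le_of_eq ?_)
        ring
      · simp only [if_neg hO]
        rw [hyn e hO]
        simp

end Pool.Agent.NUM
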