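import Pool.Agent.NUM.Stmts
import Pool.Agent.SRF.Stmts

set_option autoImplicit false

noncomputable section

namespace Pool.Agent.NUM

open Pool.Agent.SRF Filter

namespace TUB_

/-- comparison of leading coefficients -/
theorem lead (A A' B B' : ℝ)
    (h : ∀ᶠ n : ℕ in atTop, A * (n : ℝ) ^ 2 - B * n - B ≤ A' * (n : ℝ) ^ 2 + B' * n + B') :
    A ≤ A' := by
  by_contra hcon
  push Not at hcon
  have h1 : Tendsto (fun n : ℕ => (A - A') * (n : ℝ)) atTop atTop :=
    Tendsto.const_mul_atTop (by linarith) tendsto_natCast_atTop_atTop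
  have h2 : ∀ᶠ n : ℕ in atTop, (2 * (|B| + |B'|)) + 1 < (A - A') * (n : ℝ) :=
    h1.eventually_gt_atTop _
  obtain ⟨n, h3, h4, h5⟩ := (h.and (h2.and (eventually_ge_atTop 1))).exists
  have hn : (1 : ℝ) ≤ n := by exact_mod_cast h5
  have e1 := le_abs_self B
  have e2 := le_abs_self B'
  have e3 := abs_nonneg B
  have e4 := abs_nonneg B'
  have h6 : (A - A') * (n : ℝ) * n ≤ (B + B') * n + (B + B') := by nlinarith
  have h7 : ((2 * (|B| + |B'|)) + 1) * n < (A - A') * (n : ℝ) * n := by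
    apply mul_lt_mul_of_pos_right h4; linarith
  have h8 : (B + B') * n + (B + B') ≤ 2 * (|B| + |B'|) * n := by nlinarith
  nlinarith

variable (T : Sf)

theorem dvH (hSUP : SRF.Stmt_SUP) (n : ℤ) : T.Dv (n • T.H) := by
  have hx : T.x ≠ 0 := by
    intro h0
    have := T.surf.indep.ne_zero 0
    exact this h0
  have hy : T.y ≠ 0 := by
    intro h0
    have := T.surf.indep.ne_zero 1
    exact this h0
  have h1 := hSUP T.k T.F T.x T.y T.surf T.x hx
  have h2 := hSUP T.k T.F T.x T.y T.surf T.y hy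
  refine (h1.union h2).subset ?_
  intro O hO
  by_contra hcon
  simp only [Set.mem_union, Set.mem_setOf_eq, not_or, not_not] at hcon
  apply hO
  have h3 : T.H O = 0 := by
    show max 0 (max (- ord O.1 T.x) (- ord O.1 T.y)) = 0
    rw [hcon.1, hcon.2]; simp
  show n * T.H O = 0
  rw [h3, mul_zero]

/-- lower bound of the Hilbert function -/
theorem hil (hHIL : Stmt_HIL) : ∃ C : ℝ, 0 ≤ C ∧ ∀ n : ℕ,
    (T.dg : ℝ) / 2 * n ^ 2 - C * n ≤ (T.hh ((n : ℤ) • T.H) : ℝ) := by
  obtain ⟨C, hC⟩ := hHIL T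
  have hC0 : 0 ≤ C := le_trans (abs_nonneg _) (hC 0)
  have hC0' : (0 : ℝ) ≤ C := by exact_mod_cast hC0
  refine ⟨C + |(T.dg : ℝ)| / 2, by positivity, ?_⟩
  intro n
  have key : (T.dg : ℝ) / 2 * (n ^ 2 - n) - C * n ≤ (T.hh ((n : ℤ) • T.H) : ℝ) := by
    induction n with
    | zero =>
      have h1 : 0 ≤ T.hh (((0 : ℕ) : ℤ) • T.H) := by
        show (0 : ℤ) ≤ (Module.finrank T.k (T.L _) : ℤ)
        exact_mod_cast Nat.zero_le _
      have h2 : (0 : ℝ) ≤ (T.hh (((0 : ℕ) : ℤ) • T.H) : ℝ) := by exact_mod_cast h1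
      simpa using h2
    | succ n ih =>
      have h1 := (abs_le.mp (hC n)).1
      have h2 : (-(C : ℝ)) ≤ (T.hh (((n : ℤ) + 1) • T.H) : ℝ) - T.hh ((n : ℤ) • T.H)
          - T.dg * n := by exact_mod_cast h1
      have h3 : (((n + 1 : ℕ) : ℤ)) = (n : ℤ) + 1 := by push_cast; ring
      rw [h3]
      push_cast
      nlinarith
  have h4 : (T.dg : ℝ) / 2 * n ≤ |(T.dg : ℝ)| / 2 * n := by
    have := le_abs_self (T.dg : ℝ)
    have hn : (0 : ℝ) ≤ n := by positivity
    nlinarith
  nlinarith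

end TUB_

open TUB_ in
theorem tub_proof (hUPS : Stmt_UPS) (hDEG : Stmt_DEG) (hHIL : Stmt_HIL)
    (hFDL : SRF.Stmt_FDL) (hSUP : SRF.Stmt_SUP) : Stmt_TUB := by
  classical
  intro T J cr Tb N hin j X h0
  refine ⟨h0.nonneg, h0.supp, h0.fin, h0.ww, le_antisymm h0.degle ?_, h0.bet⟩
  set δ : ℝ := ∑ᶠ e, X e * T.degc e with hδ
  -- the degree as a finite sum
  set S : Finset T.P := h0.fin.toFinset with hS
  have hδS : δ = ∑ e ∈ S, X e * T.degc e := by
    rw [hδ]
    apply finsum_eq_sum_of_support_subset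
    intro e he
    rw [hS, Set.Finite.coe_toFinset]
    intro h1
    apply he
    show X e * T.degc e = 0
    rw [h1, zero_mul]
  have hdegpos : ∀ e, (0 : ℝ) ≤ T.degc e := fun e => by
    have := (hDEG T e).pos
    exact_mod_cast (by omega : (0 : ℤ) ≤ T.degc e)
  have hδ0 : 0 ≤ δ := by
    rw [hδS]
    exact Finset.sum_nonneg (fun e _ => mul_nonneg (h0.nonneg e) (hdegpos e))
  obtain ⟨C1, hC1, hhil⟩ := hil T hHIL
  have hdg : (T.dg : ℝ) = 20 * N := hin.deg
  have hN0 : 0 ≤ N := by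
    have h1 : (0 : ℤ) ≤ T.dg := by
      show (0 : ℤ) ≤ (Module.finrank _ T.F : ℤ)
      exact_mod_cast Nat.zero_le _
    have h2 : (0 : ℝ) ≤ (T.dg : ℝ) := by exact_mod_cast h1
    linarith
  obtain ⟨C2, hcr⟩ := hin.cross0 j
  -- the main inequality
  have main : ∀ η : ℝ, 0 < η → η < 1 → ∀ ε : ℝ, 0 < ε →
      4 * N * η - ε - |C2| * η ^ 2 ≤ 2 * δ * ((2 * η / (2 - η)) * (1 + 2 * η / (2 - η))) := by
    intro η hη hη1 ε hε
    obtain ⟨m, hm, Q, β, hβ0, hβ, hβ2, hQ1, hQ2⟩ := h0.bet η hη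
    have hm' : (1 : ℝ) ≤ m := by exact_mod_cast hm
    have h2η : 0 < 2 - η := by linarith
    have hQ0 : 0 ≤ Q := by
      intro e
      have h1 := hQ1 e
      have h2 : 0 ≤ (2 - η) * m * X e := by
        have := h0.nonneg e; positivity
      have h3 : (0 : ℝ) ≤ Q e := le_trans h2 h1
      exact_mod_cast h3
    have hQX : ∀ e, Q e ≠ 0 → e ∈ S := by
      intro e he
      rw [hS, Set.Finite.mem_toFinset]
      intro h1
      apply he
      have h2 := hQ2 e
      rw [h1, mul_zero] at h2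
      have h3 : Q e ≤ 0 := by exact_mod_cast h2
      exact le_antisymm h3 (hQ0 e)
    have hQdv : T.Dv Q := by
      refine S.finite_toSet.subset ?_
      intro e he
      exact hQX e he
    obtain ⟨c, hc⟩ := hUPS T Q m β hQdv hQ0 hβ0 hβ hβ2
    obtain ⟨n₀, hn₀⟩ := hcr ε hε
    set a : ℝ := 2 * η / (2 - η) with ha
    have ha0 : 0 < a := by positivity
    refine lead _ _ (4 * N + C1) (2 * δ * (a * (c + m + 1) + m * (1 + a) + m * (c + m + 1))) ?_
    have hq : ∀ᶠ n : ℕ in atTop, n₀ + 1 ≤ η * (n : ℝ) :=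
      (Tendsto.const_mul_atTop hη tendsto_natCast_atTop_atTop).eventually_ge_atTop _
    filter_upwards [hq, eventually_ge_atTop 1] with n hn1 hn2
    have hnr : (1 : ℝ) ≤ n := by exact_mod_cast hn2
    set q : ℕ := ⌊η * (n : ℝ)⌋₊ with hqdef
    have hq1 : (q : ℝ) ≤ η * n := Nat.floor_le (by positivity)
    have hq2 : η * n < q + 1 := Nat.lt_floor_add_one _
    have hq0 : n₀ ≤ q := by
      have : (n₀ : ℝ) ≤ q := by linarith
      exact_mod_cast this
    have hqn : q ≤ n := by
      have : (q : ℝ) ≤ n := by nlinarith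
      exact_mod_cast this
    set R : ℕ := ⌈2 * (q : ℝ) / ((2 - η) * m)⌉₊ with hR
    have hR1 : 2 * (q : ℝ) / ((2 - η) * m) ≤ R := Nat.le_ceil _
    have hR2 : (R : ℝ) < 2 * (q : ℝ) / ((2 - η) * m) + 1 := Nat.ceil_lt_add_one (by positivity)
    have hR1' : 2 * (q : ℝ) ≤ (2 - η) * m * R := by
      rw [div_le_iff₀ (by positivity)] at hR1
      linarith
    have hR2' : (m : ℝ) * R ≤ a * n + m := by
      have h1 : (m : ℝ) * R ≤ m * (2 * (q : ℝ) / ((2 - η) * m) + 1) :=
        mul_le_mul_of_nonneg_left hR2.le (by positivity)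
      have h2 : (m : ℝ) * (2 * (q : ℝ) / ((2 - η) * m) + 1) = 2 * q / (2 - η) + m := by
        field_simp
      rw [h2] at h1
      have h3 : 2 * (q : ℝ) / (2 - η) ≤ a * n := by
        rw [ha, div_mul_eq_mul_div]
        apply div_le_div_of_nonneg_right _ h2η.le
        nlinarith
      linarith
    -- the inclusion in WZ
    have hsub : T.L ((n : ℤ) • T.H - (R : ℤ) • Q) ≤ T.WZ ∅ (Tb j) n q := by
      intro f hf
      rcases hf with hf0 | hf
      · rw [hf0]; exact Submodule.zero_mem _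
      have hf' : ∀ O : T.P, - (n * T.H O) + R * Q O ≤ T.o O f := by
        intro O
        have h1 := hf O
        have h2 : -(((n : ℤ) • T.H - (R : ℤ) • Q) O) = - (n * T.H O) + R * Q O := by
          show -((n : ℤ) * T.H O - (R : ℤ) * Q O) = _
          ring
        rw [h2] at h1
        exact h1
      refine ⟨Or.inr (fun O _ => ?_), fun g hg hg0 => Or.inr (fun O hO => ?_)⟩
      · have h1 := hf' O
        have h2 : 0 ≤ (R : ℤ) * Q O := mul_nonneg (by positivity) (hQ0 O)
        linarith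
      · rw [h0.ww q] at hg
        have h1 := (hg.resolve_left hg0) O
        have h2 : -(((q : ℤ) • T.H + T.fl (2 * q) X) O) = - (q * T.H O) - ⌊((2 * q : ℕ) : ℝ) * X O⌋ := by
          show -((q : ℤ) * T.H O + ⌊((2 * q : ℕ) : ℝ) * X O⌋) = _
          ring
        rw [h2] at h1
        have h3 : ⌊((2 * q : ℕ) : ℝ) * X O⌋ ≤ R * Q O := by
          have h4 : ((⌊((2 * q : ℕ) : ℝ) * X O⌋ : ℤ) : ℝ) ≤ ((2 * q : ℕ) : ℝ) * X O := Int.floor_le _
          have h5 : ((2 * q : ℕ) : ℝ) * X O ≤ R * Q O := by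
            push_cast
            have h6 := h0.nonneg O
            calc 2 * (q : ℝ) * X O ≤ ((2 - η) * m * R) * X O :=
                  mul_le_mul_of_nonneg_right hR1' h6
              _ = R * ((2 - η) * m * X O) := by ring
              _ ≤ R * Q O := mul_le_mul_of_nonneg_left (hQ1 O) (by positivity)
          exact_mod_cast le_trans h4 h5
        have h7 := hf' O
        have h8 : T.o O g = SRF.ord O.1 g := rfl
        push_cast
        linarith
    have hfd1 : FiniteDimensional T.k (T.L ((n : ℤ) • T.H)) :=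
      hFDL T.k T.F T.x T.y T.surf _ (dvH T hSUP n)
    have hWle : T.WZ ∅ (Tb j) n q ≤ T.L ((n : ℤ) • T.H) := by
      rintro f ⟨hf, -⟩
      rcases hf with hf | hf
      · exact Or.inl hf
      · exact Or.inr (fun O => hf O (Set.notMem_empty O))
    have hfd2 : FiniteDimensional T.k (T.WZ ∅ (Tb j) n q) :=
      Submodule.finiteDimensional_of_le hWle
    have hle1 : (T.hh ((n : ℤ) • T.H - (R : ℤ) • Q) : ℝ) ≤
        N * (10 * n ^ 2 - 4 * q * n) + ε * n ^ 2 + C2 * q ^ 2 := by
      refine le_trans ?_ (hn₀ n q hq0 hqn)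
      show ((Module.finrank T.k (T.L ((n : ℤ) • T.H - (R : ℤ) • Q)) : ℤ) : ℝ) ≤ _
      exact_mod_cast Submodule.finrank_mono hsub
    -- the upper bound
    have hup : ((T.hh ((n : ℤ) • T.H) - T.hh ((n : ℤ) • T.H - (R : ℤ) • Q) : ℤ) : ℝ) ≤
        2 * δ * (m * R * (n + c + m * R + 1)) := by
      have h1 := (hc ((n : ℤ) • T.H) (dvH T hSUP n) R).2
      have h2 : ((T.hh ((n : ℤ) • T.H) - T.hh ((n : ℤ) • T.H - (R : ℤ) • Q) : ℤ) : ℝ) ≤
          ((∑ ρ ∈ Finset.range R, ∑ᶠ e, Q e * T.sl e ((n : ℤ) • T.H +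
            ((c + ρ * m : ℕ) : ℤ) • T.H) : ℤ) : ℝ) := by exact_mod_cast h1
      refine le_trans h2 ?_
      push_cast
      have h3 : ∀ ρ ∈ Finset.range R, ((∑ᶠ e, Q e * T.sl e ((n : ℤ) • T.H +
            ((c + ρ * m : ℕ) : ℤ) • T.H) : ℤ) : ℝ) ≤ 2 * δ * (m * (n + c + m * R + 1)) := by
        intro ρ hρ
        have hρ' : ρ ≤ R := (Finset.mem_range.mp hρ).le
        have h4 : (∑ᶠ e, Q e * T.sl e ((n : ℤ) • T.H + ((c + ρ * m : ℕ) : ℤ) • T.H)) =
            ∑ e ∈ S, Q e * T.sl e ((n : ℤ) • T.H + ((c + ρ * m : ℕ) : ℤ) • T.H) := by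
          apply finsum_eq_sum_of_support_subset
          intro e he
          apply hQX
          intro h5
          apply he
          show Q e * _ = 0
          rw [h5, zero_mul]
        rw [h4]
        push_cast
        have h5 : 2 * δ * (m * (n + c + m * R + 1)) =
            ∑ e ∈ S, (2 * m * X e) * (T.degc e * (n + c + m * R + 1)) := by
          rw [hδS, Finset.mul_sum, Finset.sum_mul]
          apply Finset.sum_congr rfl
          intro e _
          ring
        rw [h5]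
        apply Finset.sum_le_sum
        intro e _
        have h6 : (n : ℤ) • T.H + ((c + ρ * m : ℕ) : ℤ) • T.H =
            ((n + (c + ρ * m) : ℕ) : ℤ) • T.H := by
          rw [← add_smul]; push_cast; rfl
        have h7 : T.sl e ((n : ℤ) • T.H + ((c + ρ * m : ℕ) : ℤ) • T.H) ≤
            T.degc e * ((n + (c + ρ * m) : ℕ) + 1) := by
          rw [h6]
          apply (hDEG T e).upper _ _ (dvH T hSUP _)
          · rfl
          · intro O hO
            exfalso
            exact lt_irrefl _ hO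
        have h8 : (T.sl e ((n : ℤ) • T.H + ((c + ρ * m : ℕ) : ℤ) • T.H) : ℝ) ≤
            T.degc e * (n + (c + ρ * m) + 1) := by
          have : ((T.sl e ((n : ℤ) • T.H + ((c + ρ * m : ℕ) : ℤ) • T.H) : ℤ) : ℝ) ≤
            ((T.degc e * ((n + (c + ρ * m) : ℕ) + 1) : ℤ) : ℝ) := by exact_mod_cast h7
          push_cast at this ⊢
          exact this
        have h9 : (T.degc e : ℝ) * (n + (c + ρ * m) + 1) ≤ T.degc e * (n + c + m * R + 1) := by
          apply mul_le_mul_of_nonneg_left _ (hdegpos e)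
          have h10 : (ρ : ℝ) * m ≤ m * R := by
            rw [mul_comm]
            apply mul_le_mul_of_nonneg_left _ (by positivity)
            exact_mod_cast hρ'
          linarith
        have h11 : (0 : ℝ) ≤ T.degc e * (n + c + m * R + 1) := by
          have := hdegpos e; positivity
        have hQe : (0 : ℝ) ≤ Q e := by exact_mod_cast hQ0 e
        calc (Q e : ℝ) * (T.sl e ((n : ℤ) • T.H + ((c : ℤ) + (ρ : ℤ) * (m : ℤ)) • T.H) : ℝ)
            ≤ Q e * (T.degc e * (n + c + m * R + 1)) := by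
              apply mul_le_mul_of_nonneg_left _ hQe
              have h12 := le_trans h8 h9
              push_cast at h12
              exact h12
          _ ≤ (2 * m * X e) * (T.degc e * (n + c + m * R + 1)) :=
              mul_le_mul_of_nonneg_right (hQ2 e) h11
      refine le_trans (Finset.sum_le_sum (fun ρ hρ => by simpa using h3 ρ hρ)) ?_
      rw [Finset.sum_const, Finset.card_range, nsmul_eq_mul]
      apply le_of_eq
      ring
    have hlow := hhil n
    rw [hdg] at hlow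
    push_cast at hup
    -- combine
    have hk1 : 4 * N * q * n - ε * n ^ 2 - C2 * q ^ 2 - C1 * n ≤
        2 * δ * (m * R * (n + c + m * R + 1)) := by nlinarith
    have hk2 : 2 * δ * (m * R * (n + c + m * R + 1)) ≤
        2 * δ * ((a * n + m) * (n + c + (a * n + m) + 1)) := by
      apply mul_le_mul_of_nonneg_left _ (by positivity)
      have h1 : (0 : ℝ) ≤ m * R := by positivity
      apply mul_le_mul hR2' _ (by positivity) (by positivity)
      linarith
    have hk3 : C2 * (q : ℝ) ^ 2 ≤ |C2| * η ^ 2 * n ^ 2 := by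
      have h1 : C2 * (q : ℝ) ^ 2 ≤ |C2| * (q : ℝ) ^ 2 :=
        mul_le_mul_of_nonneg_right (le_abs_self _) (by positivity)
      have h2 : (q : ℝ) ^ 2 ≤ (η * n) ^ 2 := by
        apply pow_le_pow_left₀ (by positivity) hq1
      have h3 : |C2| * (q : ℝ) ^ 2 ≤ |C2| * (η * n) ^ 2 :=
        mul_le_mul_of_nonneg_left h2 (abs_nonneg _)
      calc C2 * (q : ℝ) ^ 2 ≤ |C2| * (η * n) ^ 2 := le_trans h1 h3
        _ = |C2| * η ^ 2 * n ^ 2 := by ring
    have hk4 : 4 * N * (η * n - 1) * n ≤ 4 * N * q * n := by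
      have h1 : η * n - 1 ≤ q := by linarith
      have h2 : 0 ≤ 4 * N * n := by positivity
      nlinarith
    have hk5 : 2 * δ * ((a * n + m) * (n + c + (a * n + m) + 1)) =
        2 * δ * (a * (1 + a)) * (n : ℝ) ^ 2 +
        2 * δ * (a * (c + m + 1) + m * (1 + a)) * n + 2 * δ * (m * (c + m + 1)) := by ring
    have hk6 : (0 : ℝ) ≤ 2 * δ * (m * (c + m + 1)) := by positivity
    have hk7 : (0 : ℝ) ≤ 2 * δ * (a * (c + m + 1) + m * (1 + a)) := by positivity
    have hk8 : (0 : ℝ) ≤ 4 * N + C1 := by positivity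
    have hk9 : 2 * δ * (m * (c + m + 1)) ≤ 2 * δ * (m * (c + m + 1)) * n := by nlinarith
    nlinarith
  -- let epsilon tend to zero
  have main2 : ∀ η : ℝ, 0 < η → η < 1 →
      4 * N * η - |C2| * η ^ 2 ≤ 2 * δ * ((2 * η / (2 - η)) * (1 + 2 * η / (2 - η))) := by
    intro η hη hη1
    apply le_of_forall_pos_le_add
    intro ε hε
    have := main η hη hη1 ε hε
    linarith
  have main3 : ∀ η : ℝ, 0 < η → η < 1 → 4 * N - 2 * δ ≤ (|C2| + 10 * δ) * η := by
    intro η hη hη1
    have h1 := main2 η hη hη1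
    have h2 : 2 * η / (2 - η) ≤ η * (1 + η) := by
      rw [div_le_iff₀ (by linarith)]
      nlinarith [mul_pos hη hη]
    have h3 : 0 ≤ 2 * η / (2 - η) := by
      apply div_nonneg <;> linarith
    have h4 : (2 * η / (2 - η)) * (1 + 2 * η / (2 - η)) ≤ η * (1 + 5 * η) := by
      have h5 : 1 + 2 * η / (2 - η) ≤ 1 + 2 * η := by nlinarith
      calc (2 * η / (2 - η)) * (1 + 2 * η / (2 - η)) ≤ (η * (1 + η)) * (1 + 2 * η) :=
            mul_le_mul h2 h5 (by positivity) (by positivity)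
        _ ≤ η * (1 + 5 * η) := by nlinarith [mul_pos hη hη, mul_pos (mul_pos hη hη) hη]
    have h5 : 4 * N * η - |C2| * η ^ 2 ≤ 2 * δ * (η * (1 + 5 * η)) :=
      le_trans h1 (mul_le_mul_of_nonneg_left h4 (by positivity))
    have h6 : (4 * N - 2 * δ) * η ≤ ((|C2| + 10 * δ) * η) * η := by nlinarith
    exact le_of_mul_le_mul_right h6 hη
  by_contra hcon
  push Not at hcon
  have hgap : 0 < 4 * N - 2 * δ := by linarith
  set K := |C2| + 10 * δ with hK
  have hK0 : 0 ≤ K := by positivity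
  have h7 := main3 (min (1 / 2) ((4 * N - 2 * δ) / (2 * (K + 1)))) (by positivity)
    (lt_of_le_of_lt (min_le_left _ _) (by norm_num))
  have h8 : K * min (1 / 2) ((4 * N - 2 * δ) / (2 * (K + 1))) ≤
      K * ((4 * N - 2 * δ) / (2 * (K + 1))) :=
    mul_le_mul_of_nonneg_left (min_le_right _ _) hK0
  have h9 : K * ((4 * N - 2 * δ) / (2 * (K + 1))) < 4 * N - 2 * δ := by
    rw [mul_div_assoc', div_lt_iff₀ (by positivity)]
    nlinarith
  linarith

end Pool.Agent.NUM
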