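import Pool.Agent.NUM.Stmts
import Pool.Agent.SRF.Stmts

set_option autoImplicit false

noncomputable section

namespace Pool.Agent.NUM

open Pool.Agent.SRF Filter

namespace UNI_

variable (T : Sf)

theorem supp (hSUP : SRF.Stmt_SUP) (f : T.F) : {O : T.P | SRF.ord O.1 f ≠ 0}.Finite := by
  by_cases hf : f = 0
  · refine Set.finite_empty.subset ?_
    intro O hO
    exact hO (by rw [hf]; exact O.isOrd.zero)
  · exact hSUP T.k T.F T.x T.y T.surf f hf

theorem dvH (hSUP : SRF.Stmt_SUP) : T.Dv T.H := by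
  unfold Sf.Dv
  refine ((supp T hSUP T.x).union (supp T hSUP T.y)).subset ?_
  intro O hO
  by_contra h
  rw [Set.mem_union, not_or] at h
  have h1 : SRF.ord O.1 T.x = 0 := by
    by_contra h2; exact h.1 h2
  have h2 : SRF.ord O.1 T.y = 0 := by
    by_contra h2; exact h.2 h2
  apply hO
  show SRF.H T.k T.x T.y O = 0
  unfold SRF.H
  rw [h1, h2]
  simp

theorem dv_mul (n : ℤ) (D : T.P → ℤ) (hD : T.Dv D) : T.Dv (n • D) := by
  unfold Sf.Dv at *
  refine hD.subset ?_
  intro O hO h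
  apply hO
  show n • D O = 0
  rw [h, smul_zero]

theorem dv_sub {D D' : T.P → ℤ} (hD : T.Dv D) (hD' : T.Dv D') : T.Dv (D - D') := by
  unfold Sf.Dv at *
  exact (hD.union hD').subset (Function.support_sub D D')

open Classical in
theorem PS_apply (S : Finset T.P) (O : T.P) :
    (∑ g ∈ S, T.pr g) O = if O ∈ S then 1 else 0 := by
  rw [Finset.sum_apply]
  unfold Sf.pr
  rw [Finset.sum_ite_eq]

theorem dvPS (S : Finset T.P) : T.Dv (∑ g ∈ S, T.pr g) := by
  classical
  unfold Sf.Dv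
  refine S.finite_toSet.subset ?_
  intro O hO
  by_contra h
  apply hO
  rw [PS_apply, if_neg (fun h' => h (Finset.mem_coe.2 h'))]

/-- the upper bound -/
theorem upper (hDEG : Stmt_DEG) (hSUP : SRF.Stmt_SUP) (k : ℕ) (S : Finset T.P) :
    T.hh ((k : ℤ) • T.H) - T.hh ((k : ℤ) • T.H - ∑ g ∈ S, T.pr g) ≤
      (∑ g ∈ S, T.degc g) * (k + 1) := by
  classical
  induction S using Finset.induction_on with
  | empty => simp
  | insert g S hg ih =>
    have h1 : (k : ℤ) • T.H - ∑ g ∈ insert g S, T.pr g =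
        ((k : ℤ) • T.H - ∑ g ∈ S, T.pr g) - T.pr g := by
      rw [Finset.sum_insert hg]
      ring
    have h2 : T.sl g ((k : ℤ) • T.H - ∑ g ∈ S, T.pr g) ≤ T.degc g * (k + 1) := by
      refine (hDEG T g).upper k _ (dv_sub T (dv_mul T _ _ (dvH T hSUP)) (dvPS T S)) ?_ ?_
      · show (k : ℤ) • T.H g - (∑ g ∈ S, T.pr g) g = _
        rw [PS_apply, if_neg hg, sub_zero, smul_eq_mul]
      · intro O hO
        exfalso
        have h3 : ((k : ℤ) • T.H - ∑ g ∈ S, T.pr g) O ≤ k * T.H O := by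
          show (k : ℤ) • T.H O - (∑ g ∈ S, T.pr g) O ≤ _
          rw [PS_apply, smul_eq_mul]
          split_ifs <;> linarith
        exact absurd hO (not_lt.2 h3)
    rw [h1, Finset.sum_insert hg, add_mul]
    unfold Sf.sl at h2
    linarith

/-- the lower bound -/
theorem lower (C : ℤ)
    (hC : ∀ n : ℕ, |T.hh (((n : ℤ) + 1) • T.H) - T.hh ((n : ℤ) • T.H) - T.dg * n| ≤ C)
    (hdg : 0 ≤ T.dg) (n δ : ℕ) :
    δ * (T.dg * n - C) ≤ T.hh (((n + δ : ℕ) : ℤ) • T.H) - T.hh ((n : ℤ) • T.H) := by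
  induction δ with
  | zero => simp
  | succ δ ih =>
    have h1 := hC (n + δ)
    have h2 := (abs_le.1 h1).1
    have h3 : ((n + (δ + 1) : ℕ) : ℤ) = ((n + δ : ℕ) : ℤ) + 1 := by push_cast; ring
    rw [h3]
    have h4 : T.dg * n ≤ T.dg * ((n + δ : ℕ) : ℤ) := by
      apply mul_le_mul_of_nonneg_left _ hdg
      push_cast; linarith
    push_cast at *
    linarith

end UNI_

open UNI_ in
theorem uni_proof (hRAC : Stmt_RAC) (hHIL : Stmt_HIL) (hDGH : Stmt_DGH) (hDEG : Stmt_DEG)
    (hSUP : SRF.Stmt_SUP) (hFDL : SRF.Stmt_FDL) : Stmt_UNI := by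
  classical
  intro T
  obtain ⟨B, hB⟩ := hRAC T
  obtain ⟨C, hC⟩ := hHIL T
  have hC0 : 0 ≤ C := le_trans (abs_nonneg _) (hC 0)
  have hdg : 0 ≤ T.dg := by unfold Sf.dg; positivity
  refine ⟨B, (2 * T.dg + C).toNat, fun e he => ?_⟩
  obtain ⟨δ, G, hδ, hG0, hG, hG1, hGe, hδe⟩ := hB e he
  set n : ℕ := (T.dg * (δ + 1) + C).toNat with hn
  have hn' : (n : ℤ) = T.dg * (δ + 1) + C := by
    rw [hn, Int.toNat_of_nonneg]
    positivity
  have hcc : (((2 * T.dg + C).toNat : ℕ) : ℤ) = 2 * T.dg + C := Int.toNat_of_nonneg (by positivity)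
  have hdeg1 : 1 ≤ T.degc e := (hDEG T e).pos
  have hδ' : (1 : ℤ) ≤ δ := by exact_mod_cast hδ
  refine ⟨n, ?_, ?_⟩
  · rw [hcc, hn']
    have h1 : T.dg * (δ + 1) + C ≤ (2 * T.dg + C) * δ := by nlinarith
    have h2 : (2 * T.dg + C) * δ ≤ (2 * T.dg + C) * T.degc e :=
      mul_le_mul_of_nonneg_left hδe (by positivity)
    linarith
  -- the relative order of `G`
  set r : T.P → ℤ := fun g => T.o g G + δ * T.H g with hr
  have hr0 : ∀ g, 0 ≤ r g := by
    intro g
    have := hG.resolve_left hG0 g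
    have h2 : - ((δ : ℤ) • T.H g) ≤ SRF.ord g.1 G := this
    rw [smul_eq_mul] at h2
    show 0 ≤ SRF.ord g.1 G + δ * T.H g
    linarith
  have hr1 : ∀ g, r g ≤ 1 := hG1
  have hre : r e = 1 := hGe
  have hrfin : (Function.support r).Finite := by
    have h1 := dv_mul T δ T.H (dvH T hSUP)
    unfold Sf.Dv at h1
    refine ((supp T hSUP G).union h1).subset ?_
    intro O hO
    by_contra h
    rw [Set.mem_union, not_or] at h
    apply hO
    have h2 : SRF.ord O.1 G = 0 := by
      by_contra h3; exact h.1 h3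
    have h3 : (δ : ℤ) • T.H O = 0 := by
      by_contra h4; exact h.2 h4
    show SRF.ord O.1 G + δ * T.H O = 0
    rw [h2, ← smul_eq_mul, h3, add_zero]
  set S : Finset T.P := hrfin.toFinset with hS
  have hrS : ∀ g, r g = if g ∈ S then 1 else 0 := by
    intro g
    have h1 : g ∈ S ↔ r g ≠ 0 := by
      rw [hS, Set.Finite.mem_toFinset]
      rfl
    by_cases h : r g = 0
    · rw [if_neg (by rw [h1]; exact fun h' => h' h), h]
    · rw [if_pos (h1.2 h)]
      have := hr0 g
      have := hr1 g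
      omega
  have heS : e ∈ S := by
    by_contra h
    have := hrS e
    rw [if_neg h, hre] at this
    exact one_ne_zero this
  -- the degrees
  have hsum : ∑ g ∈ S, T.degc g ≤ δ * T.dg := by
    have h1 := hDGH T δ G hG0 hG
    have h2 : ∑ᶠ e, (T.o e G + δ * T.H e) * T.degc e = ∑ g ∈ S, r g * T.degc g := by
      apply finsum_eq_sum_of_support_subset
      intro O hO
      rw [hS, Set.Finite.coe_toFinset]
      intro h
      apply hO
      show r O * T.degc O = 0
      rw [h, zero_mul]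
    rw [h2] at h1
    refine le_trans (le_of_eq ?_) h1
    refine Finset.sum_congr rfl fun g hg => ?_
    rw [hrS g, if_pos hg, one_mul]
  set S' := S.erase e with hS'
  have hsum' : ∑ g ∈ S', T.degc g ≤ δ * T.dg - T.degc e := by
    rw [← Finset.sum_erase_add S _ heS] at hsum
    linarith
  set k : ℕ := n + δ with hk
  set D : T.P → ℤ := (k : ℤ) • T.H - ∑ g ∈ S', T.pr g with hD
  have hDO : ∀ O, O ≠ e → D O = k * T.H O - r O := by
    intro O hO
    show (k : ℤ) • T.H O - (∑ g ∈ S', T.pr g) O = _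
    rw [PS_apply, hrS, smul_eq_mul, hS']
    simp only [Finset.mem_erase, ne_eq, hO, not_false_iff, true_and]
  have hDe : D e = k * T.H e := by
    show (k : ℤ) • T.H e - (∑ g ∈ S', T.pr g) e = _
    rw [PS_apply, hS', if_neg (Finset.notMem_erase e S), smul_eq_mul, sub_zero]
  have hkz : (k : ℤ) = n + δ := by rw [hk]; push_cast; ring
  -- existence of `z`
  obtain ⟨w, hw, hw0, hwe⟩ : ∃ w ∈ T.L D, w ≠ 0 ∧ SRF.ord e.1 w = - (k * T.H e) := by
    by_contra hcon
    push Not at hcon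
    have hfd : FiniteDimensional T.k (T.L ((n : ℤ) • T.H)) :=
      hFDL T.k T.F T.x T.y T.surf _ (dv_mul T n T.H (dvH T hSUP))
    have hmem : ∀ f ∈ T.L D, f * G⁻¹ ∈ T.L ((n : ℤ) • T.H) := by
      intro f hf
      by_cases hf0 : f = 0
      · rw [hf0, zero_mul]; exact Submodule.zero_mem _
      right
      intro O
      rw [O.isOrd.mul _ _ hf0 (inv_ne_zero hG0), O.isOrd.inv hG0]
      have h1 := hf.resolve_left hf0 O
      have h2 : r O = SRF.ord O.1 G + δ * T.H O := rfl
      show - ((n : ℤ) • T.H O) ≤ _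
      rw [smul_eq_mul]
      by_cases hOe : O = e
      · subst hOe
        rw [hDe] at h1
        have h3 := hcon f hf hf0
        rw [hre] at h2
        have h4 : - (k * T.H O) + 1 ≤ SRF.ord O.1 f := by
          have h5 : SRF.ord O.1 f ≠ - (k * T.H O) := h3
          omega
        rw [hkz] at h4
        linarith
      · rw [hDO O hOe, hkz] at h1
        linarith
    let φ : T.L D →ₗ[T.k] T.L ((n : ℤ) • T.H) :=
      { toFun := fun f => ⟨f.1 * G⁻¹, hmem f.1 f.2⟩
        map_add' := fun f g => Subtype.ext (by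
          show (f.1 + g.1) * G⁻¹ = f.1 * G⁻¹ + g.1 * G⁻¹
          rw [add_mul])
        map_smul' := fun c f => Subtype.ext (by
          show (c • f.1) * G⁻¹ = c • (f.1 * G⁻¹)
          rw [smul_mul_assoc]) }
    have hφ : Function.Injective φ := by
      intro f g hfg
      have h1 : f.1 * G⁻¹ = g.1 * G⁻¹ := congrArg Subtype.val hfg
      exact Subtype.ext (mul_right_cancel₀ (inv_ne_zero hG0) h1)
    have h1 : T.hh D ≤ T.hh ((n : ℤ) • T.H) := by
      unfold Sf.hh
      exact_mod_cast LinearMap.finrank_le_finrank_of_injective hφ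
    have h2 := upper T hDEG hSUP k S'
    rw [← hD] at h2
    have h3 := lower T C hC hdg n δ
    rw [← hk] at h3
    have h4 : (∑ g ∈ S', T.degc g) * ((k : ℤ) + 1) ≤ (δ * T.dg - T.degc e) * (k + 1) :=
      mul_le_mul_of_nonneg_right hsum' (by positivity)
    have h5 : (δ : ℤ) * (T.dg * n - C) ≤ (δ * T.dg - T.degc e) * (k + 1) := by linarith
    have h6 : T.degc e * ((k : ℤ) + 1) ≤ δ * (T.dg * (δ + 1) + C) := by
      rw [hkz] at h5 ⊢
      linarith
    have h7 : (δ : ℤ) * (T.dg * (δ + 1) + C) ≤ T.degc e * (T.dg * (δ + 1) + C) :=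
      mul_le_mul_of_nonneg_right hδe (by positivity)
    rw [← hn'] at h6 h7
    have h8 : T.degc e * ((k : ℤ) + 1) ≤ T.degc e * n := le_trans h6 h7
    have h9 : (k : ℤ) + 1 ≤ n := le_of_mul_le_mul_left h8 (by linarith)
    rw [hkz] at h9
    linarith
  refine ⟨w * G⁻¹, mul_ne_zero hw0 (inv_ne_zero hG0), ?_, ?_⟩
  · right
    intro O
    rw [O.isOrd.mul _ _ hw0 (inv_ne_zero hG0), O.isOrd.inv hG0]
    have h1 := hw.resolve_left hw0 O
    have h2 : r O = SRF.ord O.1 G + δ * T.H O := rfl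
    show - ((n : ℤ) • T.H O + T.pr e O) ≤ _
    rw [smul_eq_mul]
    unfold Sf.pr
    by_cases hOe : O = e
    · subst hOe
      rw [if_pos rfl, hwe, hkz]
      rw [hre] at h2
      linarith
    · rw [hDO O hOe, hkz] at h1
      rw [if_neg hOe]
      linarith
  · show SRF.ord e.1 (w * G⁻¹) = _
    rw [e.isOrd.mul _ _ hw0 (inv_ne_zero hG0), e.isOrd.inv hG0, hwe, hkz]
    have h2 : r e = SRF.ord e.1 G + δ * T.H e := rfl
    rw [hre] at h2
    linarith

end Pool.Agent.NUM
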