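import Pool.Agent.NUM.Stmts
import Pool.Agent.SRF.Stmts

/-!
# UPS: `R` blocks
-/

set_option autoImplicit false

noncomputable section

namespace Pool.Agent.NUM

open Pool.Agent.SRF Filter

namespace UPS_

variable (T : Sf)

lemma dv_add {D E : T.P → ℤ} (hD : T.Dv D) (hE : T.Dv E) : T.Dv (D + E) :=
  (hD.union hE).subset (Function.support_add D E)

lemma dv_sub {D E : T.P → ℤ} (hD : T.Dv D) (hE : T.Dv E) : T.Dv (D - E) :=
  (hD.union hE).subset (Function.support_sub D E)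

lemma dv_smul (c : ℤ) {D : T.P → ℤ} (hD : T.Dv D) : T.Dv (c • D) :=
  hD.subset (Function.support_const_smul_subset c D)

lemma dv_H (hSUP : SRF.Stmt_SUP) : T.Dv T.H := by
  have hx : T.x ≠ 0 := T.surf.indep.ne_zero 0
  have hy : T.y ≠ 0 := T.surf.indep.ne_zero 1
  refine ((hSUP T.k T.F T.x T.y T.surf T.x hx).union (hSUP T.k T.F T.x T.y T.surf T.y hy)).subset ?_
  intro O hO
  by_contra h
  apply hO
  simp only [Set.mem_union, Set.mem_ofPred_eq, not_or, not_not] at h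
  show SRF.H T.k T.x T.y O = 0
  unfold SRF.H
  rw [h.1, h.2]
  simp

/-- order of a power -/
lemma o_pow (e : T.P) {f : T.F} (hf : f ≠ 0) (r : ℕ) : T.o e (f ^ r) = r * T.o e f := by
  induction r with
  | zero =>
    have h := e.isOrd.mul 1 1 one_ne_zero one_ne_zero
    rw [mul_one] at h
    have h1 : T.o e (1 : T.F) = 0 := by
      change SRF.ord e.1 (1 : T.F) = 0
      omega
    rw [pow_zero, h1]
    simp
  | succ r ih =>
    have h := e.isOrd.mul (f ^ r) f (pow_ne_zero _ hf) hf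
    change SRF.ord e.1 (f ^ (r + 1)) = _
    change SRF.ord e.1 (f ^ r) = _ at ih
    change _ = ((r + 1 : ℕ) : ℤ) * SRF.ord e.1 f
    rw [pow_succ, h, ih]
    push_cast
    ring

/-- powers of `β` -/
lemma mul_pow (hMUL : Stmt_MUL) (hH : T.Dv T.H) (Q : T.P → ℤ) (m : ℕ) (β : T.F) (hQ : T.Dv Q)
    (hβ0 : β ≠ 0) (hβ : β ∈ T.L ((m : ℤ) • T.H + Q))
    (hβe : ∀ e, Q e ≠ 0 → T.o e β = - (m * T.H e) - Q e) (e : T.P) (he : Q e ≠ 0)
    (D : T.P → ℤ) (hD : T.Dv D) (r : ℕ) :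
    T.sl e D ≤ T.sl e (D + (r : ℤ) • ((m : ℤ) • T.H + Q)) := by
  have hE : T.Dv ((r : ℤ) • ((m : ℤ) • T.H + Q)) :=
    dv_smul T _ (dv_add T (dv_smul T _ hH) hQ)
  refine hMUL T e D _ (β ^ r) hD hE (pow_ne_zero _ hβ0) ?_ ?_
  · right
    intro O
    have h1 := hβ.resolve_left hβ0 O
    have h2 := o_pow T O hβ0 r
    change SRF.ord O.1 (β ^ r) = _ at h2
    rw [h2]
    change _ ≤ (r : ℤ) * SRF.ord O.1 β
    have h3 : -((m : ℤ) • T.H + Q) O ≤ SRF.ord O.1 β := h1
    have h4 : ((r : ℤ) • ((m : ℤ) • T.H + Q)) O = r * (((m : ℤ) • T.H + Q) O) := by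
      simp only [Pi.smul_apply, smul_eq_mul]
    rw [h4]
    have h5 := mul_le_mul_of_nonneg_left h3 (Int.natCast_nonneg r)
    calc -((r : ℤ) * (((m : ℤ) • T.H + Q) O)) = r * -((m : ℤ) • T.H + Q) O := by ring
      _ ≤ _ := h5
  · rw [o_pow T e hβ0 r, hβe e he]
    simp only [Pi.smul_apply, Pi.add_apply, smul_eq_mul]
    ring

/-- comparison of sums -/
lemma sum_le (Q : T.P → ℤ) (hQ : T.Dv Q) (hQ0 : 0 ≤ Q) (g g' : T.P → ℤ)
    (h : ∀ e, Q e ≠ 0 → g e ≤ g' e) : ∑ᶠ e, Q e * g e ≤ ∑ᶠ e, Q e * g' e := by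
  have h1 : (Function.support fun e => Q e * g e).Finite :=
    hQ.subset fun O hO => left_ne_zero_of_mul hO
  have h2 : (Function.support fun e => Q e * g' e).Finite :=
    hQ.subset fun O hO => left_ne_zero_of_mul hO
  refine finsum_le_finsum' h1 h2 fun e => ?_
  by_cases he : Q e = 0
  · rw [he, zero_mul, zero_mul]
  · exact mul_le_mul_of_nonneg_left (h e he) (hQ0 e)

end UPS_

open UPS_ in
theorem ups_proof (hBLK : Stmt_BLK) (hMUL : Stmt_MUL) (hSUP : SRF.Stmt_SUP) : Stmt_UPS := by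
  intro T Q m β hQ hQ0 hβ0 hβ hβe
  obtain ⟨c, hc⟩ := hBLK T Q hQ hQ0
  have hH := dv_H T hSUP
  refine ⟨c, fun D hD R => ⟨?_, ?_⟩⟩
  · induction R with
    | zero => simp
    | succ R ih =>
      rw [Finset.sum_range_succ]
      have hD' : T.Dv (D + ((R + 1 : ℕ) : ℤ) • Q) := dv_add T hD (dv_smul T _ hQ)
      have h1 := (hc _ hD').1
      have h2 : D + ((R + 1 : ℕ) : ℤ) • Q - Q = D + (R : ℤ) • Q := by
        funext O
        simp only [Pi.add_apply, Pi.sub_apply, Pi.smul_apply, smul_eq_mul]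
        push_cast
        ring
      rw [h2] at h1
      have h3 : ∑ᶠ e, Q e * T.sl e (D - ((c + (R + 1) * m : ℕ) : ℤ) • T.H) ≤
          ∑ᶠ e, Q e * T.sl e (D + ((R + 1 : ℕ) : ℤ) • Q - (c : ℤ) • T.H) := by
        refine sum_le T Q hQ hQ0 _ _ fun e he => ?_
        have h4 := mul_pow T hMUL hH Q m β hQ hβ0 hβ hβe e he
          (D - ((c + (R + 1) * m : ℕ) : ℤ) • T.H) (dv_sub T hD (dv_smul T _ hH)) (R + 1)
        have h5 : D - ((c + (R + 1) * m : ℕ) : ℤ) • T.H + ((R + 1 : ℕ) : ℤ) • ((m : ℤ) • T.H + Q) =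
            D + ((R + 1 : ℕ) : ℤ) • Q - (c : ℤ) • T.H := by
          funext O
          simp only [Pi.add_apply, Pi.sub_apply, Pi.smul_apply, smul_eq_mul]
          push_cast
          ring
        rw [h5] at h4
        exact h4
      linarith
  · induction R with
    | zero => simp
    | succ R ih =>
      rw [Finset.sum_range_succ]
      have hD' : T.Dv (D - (R : ℤ) • Q) := dv_sub T hD (dv_smul T _ hQ)
      have h1 := (hc _ hD').2
      have h2 : D - (R : ℤ) • Q - Q = D - ((R + 1 : ℕ) : ℤ) • Q := by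
        funext O
        simp only [Pi.sub_apply, Pi.smul_apply, smul_eq_mul]
        push_cast
        ring
      rw [h2] at h1
      have h3 : ∑ᶠ e, Q e * T.sl e (D - (R : ℤ) • Q + (c : ℤ) • T.H) ≤
          ∑ᶠ e, Q e * T.sl e (D + ((c + R * m : ℕ) : ℤ) • T.H) := by
        refine sum_le T Q hQ hQ0 _ _ fun e he => ?_
        have h4 := mul_pow T hMUL hH Q m β hQ hβ0 hβ hβe e he
          (D - (R : ℤ) • Q + (c : ℤ) • T.H) (dv_add T hD' (dv_smul T _ hH)) R
        have h5 : D - (R : ℤ) • Q + (c : ℤ) • T.H + (R : ℤ) • ((m : ℤ) • T.H + Q) =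
            D + ((c + R * m : ℕ) : ℤ) • T.H := by
          funext O
          simp only [Pi.add_apply, Pi.sub_apply, Pi.smul_apply, smul_eq_mul]
          push_cast
          ring
        rw [h5] at h4
        exact h4
      linarith

end Pool.Agent.NUM
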