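import Pool.Agent.NUM.Stmts
import Pool.Agent.SRF.Stmts

/-!
# NUM / VOL: the volumes of `M H + sum over A - sum over B`
-/

set_option autoImplicit false

noncomputable section

namespace Pool.Agent.NUM

open Pool.Agent.SRF Filter

namespace VOL_

lemma ncr_insert {J : Type} (cr : J → J → Prop) [DecidableEq J] (A : Finset J) (j : J)
    (hj : j ∉ A) (hsym : ∀ i j, cr i j → cr j i) (hirr : ∀ i, ¬ cr i i) (A' : Finset J)
    (hA' : ∀ i, i ∈ A' ↔ i ∈ A ∧ cr i j) :
    (Sf.ncr cr (insert j A) : ℤ) = Sf.ncr cr A + 2 * (A'.card : ℤ) := by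
  classical
  have hsum : ∀ B : Finset J, (Sf.ncr cr B : ℤ) =
      ∑ a ∈ B, ∑ b ∈ B, (if cr a b then (1 : ℤ) else 0) := by
    intro B
    unfold Sf.ncr
    rw [Finset.card_filter, Finset.sum_product]
    push_cast
    refine Finset.sum_congr rfl fun a _ => Finset.sum_congr rfl fun b _ => ?_
    split_ifs <;> rfl
  have hcard : (A'.card : ℤ) = ∑ a ∈ A, (if cr a j then (1 : ℤ) else 0) := by
    have h1 : A' = A.filter (fun a => cr a j) := by
      ext i
      rw [hA', Finset.mem_filter]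
    rw [h1, Finset.card_filter]
    push_cast
    rfl
  have hcard' : (A'.card : ℤ) = ∑ a ∈ A, (if cr j a then (1 : ℤ) else 0) := by
    rw [hcard]
    refine Finset.sum_congr rfl fun a _ => ?_
    have : cr a j ↔ cr j a := ⟨hsym _ _, hsym _ _⟩
    simp only [this]
  rw [hsum, hsum, Finset.sum_insert hj, Finset.sum_insert hj, if_neg (hirr j)]
  have h2 : ∀ a ∈ A, ∑ b ∈ insert j A, (if cr a b then (1 : ℤ) else 0) =
      (if cr a j then (1 : ℤ) else 0) + ∑ b ∈ A, (if cr a b then (1 : ℤ) else 0) :=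
    fun a _ => Finset.sum_insert hj
  rw [Finset.sum_congr rfl h2, Finset.sum_add_distrib, ← hcard, ← hcard']
  ring

lemma hh_lower (T : Sf) (C : ℤ)
    (hC : ∀ n : ℕ, |T.hh (((n : ℤ) + 1) • T.H) - T.hh ((n : ℤ) • T.H) - T.dg * n| ≤ C) (n : ℕ) :
    T.dg * (n * (n - 1)) - 2 * C * n ≤ 2 * T.hh ((n : ℤ) • T.H) := by
  induction n with
  | zero =>
    have : 0 ≤ T.hh (((0 : ℕ) : ℤ) • T.H) := by unfold Sf.hh; positivity
    push_cast
    push_cast at this
    linarith
  | succ n ih =>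
    have h1 := (abs_le.1 (hC n)).1
    push_cast
    nlinarith

lemma hh_ev (T : Sf) (N : ℝ) (hN : (T.dg : ℝ) = 20 * N) (C : ℤ)
    (hC : ∀ n : ℕ, |T.hh (((n : ℤ) + 1) • T.H) - T.hh ((n : ℤ) • T.H) - T.dg * n| ≤ C)
    (M : ℕ) (ε : ℝ) (hε : 0 < ε) : ∀ᶠ n : ℕ in atTop,
      (N * (20 * M ^ 2) / 2 - ε) * n ^ 2 ≤ (T.hh (((M * n : ℕ) : ℤ) • T.H) : ℝ) := by
  obtain ⟨n0, hn0⟩ := exists_nat_ge ((10 * N + C) * M / ε)
  filter_upwards [eventually_ge_atTop n0] with n hn
  have h1 := hh_lower T C hC (M * n)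
  have h2 : ((T.dg * (((M * n : ℕ) : ℤ) * (((M * n : ℕ) : ℤ) - 1)) - 2 * C * ((M * n : ℕ) : ℤ) : ℤ)
      : ℝ) ≤ ((2 * T.hh (((M * n : ℕ) : ℤ) • T.H) : ℤ) : ℝ) := by exact_mod_cast h1
  push_cast at h2
  rw [hN] at h2
  have h3 : (10 * N + C) * M ≤ ε * n := by
    rw [div_le_iff₀ hε] at hn0
    have : (n0 : ℝ) ≤ n := by exact_mod_cast hn
    nlinarith
  have h4 : (10 * N + C) * M * n ≤ ε * n * n := mul_le_mul_of_nonneg_right h3 (by positivity)
  push_cast
  nlinarith

end VOL_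

open VOL_ in
theorem vol_proof (hHIL : Stmt_HIL) (hRHO : Stmt_RHO) (hPOS : Stmt_POS) (hZES : Stmt_ZES) :
    Stmt_VOL := by
  classical
  intro T J _ cr Tb N hin X hX A B hAB hcr
  have hN : 0 ≤ N := by
    have h1 : (0 : ℝ) ≤ T.dg := by
      unfold Sf.dg
      positivity
    have := hin.deg
    linarith
  have hdisj : ∀ i j, i ≠ j → ∀ e, X i e ≠ 0 → X j e = 0 := by
    intro i j hij e he
    by_contra he'
    exact Set.disjoint_left.1 (hin.disj i j hij) ((hX i).supp e he) ((hX j).supp e he')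
  have hA : ∀ A : Finset J, ∃ M₀ : ℕ, ∀ M : ℕ, M₀ ≤ M → ∀ ε : ℝ, 0 < ε → ∀ᶠ n : ℕ in atTop,
      (N * (20 * M ^ 2 + 4 * M * (A.card : ℝ) - A.card + Sf.ncr cr A) / 2 - ε) * n ^ 2 ≤
      (T.hh (((M * n : ℕ) : ℤ) • T.H + ∑ i ∈ A, T.fl n (X i)) : ℝ) := by
    intro A
    induction A using Finset.induction_on with
    | empty =>
      obtain ⟨C, hC⟩ := hHIL T
      refine ⟨0, fun M _ ε hε => ?_⟩
      filter_upwards [hh_ev T N hin.deg C hC M ε hε] with n hn
      have h0 : (Sf.ncr cr ∅ : ℤ) = 0 := by unfold Sf.ncr; simp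
      rw [Finset.sum_empty, add_zero, h0, Finset.card_empty]
      push_cast at hn ⊢
      linarith
    | insert j A hj ih =>
      obtain ⟨M₁, h1⟩ := ih
      obtain ⟨M₂, h2⟩ := hPOS T J Tb N X A (A.filter fun i => cr i j) j hN
        (Finset.filter_subset _ _) hj (fun i _ => hX i) (hX j)
        (fun i hi => hdisj i j (fun h => hj (h ▸ hi)))
        (fun i hi => hRHO T J cr Tb N hin i j (X i) (X j) (Finset.mem_filter.1 hi).2 (hX i) (hX j))
      refine ⟨max M₁ M₂, fun M hM ε hε => ?_⟩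
      filter_upwards [h1 M (le_trans (le_max_left _ _) hM) (ε / 2) (by positivity),
        h2 M (le_trans (le_max_right _ _) hM) (ε / 2) (by positivity)] with n h3 h4
      rw [ncr_insert cr A j hj hin.sym hin.irr (A.filter fun i => cr i j)
        (fun i => Finset.mem_filter), Finset.sum_insert hj, Finset.card_insert_of_notMem hj]
      have h5 : ((M * n : ℕ) : ℤ) • T.H + (T.fl n (X j) + ∑ i ∈ A, T.fl n (X i)) =
          ((M * n : ℕ) : ℤ) • T.H + ∑ i ∈ A, T.fl n (X i) + T.fl n (X j) := by abel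
      rw [h5]
      push_cast at h3 h4 ⊢
      nlinarith
  have hB : ∀ B : Finset J, Disjoint A B → (∀ i ∈ A, ∀ j ∈ B, ¬ cr i j ∧ ¬ cr j i) →
      ∃ M₀ : ℕ, ∀ M : ℕ, M₀ ≤ M → ∀ ε : ℝ, 0 < ε → ∀ᶠ n : ℕ in atTop,
      (N * (20 * M ^ 2 + 4 * M * ((A.card : ℝ) - B.card) - A.card - B.card +
        Sf.ncr cr A + Sf.ncr cr B) / 2 - ε) * n ^ 2 ≤
      (T.hh (((M * n : ℕ) : ℤ) • T.H + ∑ i ∈ A, T.fl n (X i) - ∑ i ∈ B, T.cl n (X i)) : ℝ) := by
    intro B
    induction B using Finset.induction_on with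
    | empty =>
      intro _ _
      obtain ⟨M₀, h1⟩ := hA A
      refine ⟨M₀, fun M hM ε hε => ?_⟩
      filter_upwards [h1 M hM ε hε] with n hn
      have h0 : (Sf.ncr cr ∅ : ℤ) = 0 := by unfold Sf.ncr; simp
      rw [Finset.sum_empty, sub_zero, h0, Finset.card_empty]
      push_cast at hn ⊢
      linarith
    | insert j B hj ih =>
      intro hd hc
      have hjA : j ∉ A := fun h => Finset.disjoint_left.1 hd h (Finset.mem_insert_self j B)
      obtain ⟨M₁, h1⟩ := ih (Finset.disjoint_of_subset_right (Finset.subset_insert j B) hd)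
        (fun i hi k hk => hc i hi k (Finset.mem_insert_of_mem hk))
      obtain ⟨M₂, h2⟩ := hZES T J Tb N X A B (B.filter fun i => cr i j) j hN
        (Finset.filter_subset _ _) hjA hj (fun i _ => hX i) (fun i _ => hX i) (hX j)
        (fun i hi => hdisj i j (fun h => by
          rw [Finset.mem_union] at hi
          rcases hi with hi | hi
          · exact hjA (h ▸ hi)
          · exact hj (h ▸ hi)))
        (fun i hi e e' he he' => hin.nomeet j i (fun h => hjA (h ▸ hi))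
          (hc i hi j (Finset.mem_insert_self j B)).2 e ((hX j).supp e he) e' ((hX i).supp e' he'))
        (fun i hi => hRHO T J cr Tb N hin i j (X i) (X j) (Finset.mem_filter.1 hi).2 (hX i) (hX j))
      refine ⟨max M₁ M₂, fun M hM ε hε => ?_⟩
      filter_upwards [h1 M (le_trans (le_max_left _ _) hM) (ε / 2) (by positivity),
        h2 M (le_trans (le_max_right _ _) hM) (ε / 2) (by positivity)] with n h3 h4
      rw [ncr_insert cr B j hj hin.sym hin.irr (B.filter fun i => cr i j)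
        (fun i => Finset.mem_filter), Finset.sum_insert hj, Finset.card_insert_of_notMem hj]
      have h5 : ((M * n : ℕ) : ℤ) • T.H + ∑ i ∈ A, T.fl n (X i) -
          (T.cl n (X j) + ∑ i ∈ B, T.cl n (X i)) =
          ((M * n : ℕ) : ℤ) • T.H + ∑ i ∈ A, T.fl n (X i) - ∑ i ∈ B, T.cl n (X i) -
            T.cl n (X j) := by abel
      rw [h5]
      push_cast at h3 h4 ⊢
      nlinarith
  exact hB B hAB hcr

end Pool.Agent.NUM
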