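import Pool.Agent.NUM.Stmts
import Pool.Agent.SRF.Stmts

/-!
# ZES: one more tube with zeros
-/

set_option autoImplicit false

noncomputable section

namespace Pool.Agent.NUM

open Pool.Agent.SRF Filter

namespace ZES_

variable (T : Sf)

/-! ### divisors -/

lemma H_nonneg (O : T.P) : 0 ≤ T.H O := le_max_left _ _

lemma dv_H (hSUP : SRF.Stmt_SUP) : T.Dv T.H := by
  have hx : T.x ≠ 0 := T.surf.indep.ne_zero 0
  have hy : T.y ≠ 0 := T.surf.indep.ne_zero 1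
  refine ((hSUP T.k T.F T.x T.y T.surf T.x hx).union
    (hSUP T.k T.F T.x T.y T.surf T.y hy)).subset ?_
  intro O hO
  by_contra hc
  apply hO
  simp only [Set.mem_union, Set.mem_setOf_eq, not_or, not_not] at hc
  change max 0 (max (- ord O.1 T.x) (- ord O.1 T.y)) = 0
  rw [hc.1, hc.2]
  simp

variable {T}

lemma dv_add {D E : T.P → ℤ} (hD : T.Dv D) (hE : T.Dv E) : T.Dv (D + E) :=
  (hD.union hE).subset (Function.support_add _ _)

lemma dv_sub {D E : T.P → ℤ} (hD : T.Dv D) (hE : T.Dv E) : T.Dv (D - E) :=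
  (hD.union hE).subset (Function.support_sub _ _)

lemma dv_smul {D : T.P → ℤ} (hD : T.Dv D) (n : ℤ) : T.Dv (n • D) := by
  refine hD.subset fun O hO h => hO ?_
  change n • D O = 0
  rw [h, smul_zero]

lemma dv_sum {J : Type} (S : Finset J) (D : J → T.P → ℤ) (h : ∀ i ∈ S, T.Dv (D i)) :
    T.Dv (∑ i ∈ S, D i) := by
  classical
  induction S using Finset.induction_on with
  | empty =>
    rw [Finset.sum_empty]
    change (Function.support (0 : T.P → ℤ)).Finite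
    rw [Function.support_zero]
    exact Set.finite_empty
  | insert a s ha ih =>
    rw [Finset.sum_insert ha]
    exact dv_add (h a (Finset.mem_insert_self _ _))
      (ih fun i hi => h i (Finset.mem_insert_of_mem hi))

lemma fl_zero (n : ℕ) (X : T.P → ℝ) {O : T.P} (h : X O = 0) : T.fl n X O = 0 := by
  simp [Sf.fl, h]

lemma cl_zero (n : ℕ) (X : T.P → ℝ) {O : T.P} (h : X O = 0) : T.cl n X O = 0 := by
  simp [Sf.cl, h]

lemma dv_fl {X : T.P → ℝ} (hX : (Function.support X).Finite) (n : ℕ) : T.Dv (T.fl n X) :=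
  hX.subset fun _ hO h => hO (fl_zero n X h)

lemma dv_cl {X : T.P → ℝ} (hX : (Function.support X).Finite) (n : ℕ) : T.Dv (T.cl n X) :=
  hX.subset fun _ hO h => hO (cl_zero n X h)

lemma L_mono {D E : T.P → ℤ} (h : ∀ O, D O ≤ E O) : T.L D ≤ T.L E := by
  intro f hf
  rcases hf with h0 | hf
  · exact Or.inl h0
  · refine Or.inr fun O => le_trans ?_ (hf O)
    have := h O
    omega

lemma hh_mono (hFDL : SRF.Stmt_FDL) {D E : T.P → ℤ} (hE : T.Dv E) (h : ∀ O, D O ≤ E O) :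
    T.hh D ≤ T.hh E := by
  haveI : FiniteDimensional T.k (T.L E) := hFDL T.k T.F T.x T.y T.surf E hE
  change (Module.finrank T.k (T.L D) : ℤ) ≤ (Module.finrank T.k (T.L E) : ℤ)
  exact_mod_cast Submodule.finrank_mono (L_mono h)

/-! ### jumps -/

lemma hopf_sum (hHOPF : Stmt_HOPF) {J : Type} (e : T.P) (D : T.P → ℤ) (hD : T.Dv D)
    (h1 : 1 ≤ T.sl e D) (S : Finset J) (E : J → T.P → ℤ) (hE : ∀ i ∈ S, T.Dv (E i))
    (hE1 : ∀ i ∈ S, 1 ≤ T.sl e (E i)) :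
    T.sl e D + ∑ i ∈ S, (T.sl e (E i) - 1) ≤ T.sl e (D + ∑ i ∈ S, E i) := by
  classical
  induction S using Finset.induction_on with
  | empty => simp
  | insert a s ha ih =>
    have ih' := ih (fun i hi => hE i (Finset.mem_insert_of_mem hi))
      (fun i hi => hE1 i (Finset.mem_insert_of_mem hi))
    rw [Finset.sum_insert ha, Finset.sum_insert ha]
    have hs : T.Dv (∑ i ∈ s, E i) := dv_sum s E fun i hi => hE i (Finset.mem_insert_of_mem hi)
    have hn : 0 ≤ ∑ i ∈ s, (T.sl e (E i) - 1) := Finset.sum_nonneg fun i hi => by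
      have := hE1 i (Finset.mem_insert_of_mem hi)
      omega
    have ha1 := hE1 a (Finset.mem_insert_self _ _)
    have key := hHOPF T e (D + ∑ i ∈ s, E i) (E a) (dv_add hD hs)
      (hE a (Finset.mem_insert_self _ _)) (by omega) ha1
    have h2 : D + (E a + ∑ i ∈ s, E i) = D + ∑ i ∈ s, E i + E a := by
      rw [add_comm (E a), add_assoc]
    rw [h2]
    omega

/-- sections of `n H + 2 n X` have jumps of size `O(n)` -/
lemma crude (hMUL : Stmt_MUL) (hDEG : Stmt_DEG) (hH : T.Dv T.H) (e : T.P) (X : T.P → ℝ)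
    (hX : (Function.support X).Finite) (he : X e = 0) (a : ℕ) (w : T.F) (hw0 : w ≠ 0)
    (hw : w ∈ T.L ((a : ℤ) • T.H - T.cl 2 X)) (hwe : T.o e w = - (a * T.H e)) (n : ℕ) :
    T.sl e ((n : ℤ) • T.H + T.fl (2 * n) X) ≤ T.degc e * ((n * (1 + a) : ℕ) + 1) := by
  have hE : T.Dv ((n : ℤ) • ((a : ℤ) • T.H - T.cl 2 X)) :=
    dv_smul (dv_sub (dv_smul hH _) (dv_cl hX 2)) _
  have hD : T.Dv ((n : ℤ) • T.H + T.fl (2 * n) X) := dv_add (dv_smul hH _) (dv_fl hX _)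
  have hwn : w ^ n ∈ T.L ((n : ℤ) • ((a : ℤ) • T.H - T.cl 2 X)) := by
    refine Or.inr fun O => ?_
    have h1 := hw.resolve_left hw0 O
    rw [O.isOrd.pow hw0 n]
    change - ((n : ℤ) * ((a : ℤ) • T.H - T.cl 2 X) O) ≤ _
    have h2 : (n : ℤ) * (-(((a : ℤ) • T.H - T.cl 2 X) O)) ≤ n * ord O.1 w :=
      mul_le_mul_of_nonneg_left h1 (by positivity)
    linarith
  have hcl : T.cl 2 X e = 0 := cl_zero 2 X he
  have hfl : T.fl (2 * n) X e = 0 := fl_zero _ X he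
  have h1 := hMUL T e _ _ (w ^ n) hD hE (pow_ne_zero n hw0) hwn (by
    change ord e.1 (w ^ n) = - ((n : ℤ) * ((a : ℤ) * T.H e - T.cl 2 X e))
    rw [e.isOrd.pow hw0 n, hcl]
    change (n : ℤ) * T.o e w = _
    rw [hwe]
    ring)
  refine le_trans h1 ((hDEG T e).upper (n * (1 + a)) _ (dv_add hD hE) ?_ ?_)
  · change (n : ℤ) * T.H e + T.fl (2 * n) X e + (n : ℤ) * ((a : ℤ) * T.H e - T.cl 2 X e) = _
    rw [hcl, hfl]
    push_cast
    ring
  · intro O hO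
    exfalso
    change ((n * (1 + a) : ℕ) : ℤ) * T.H O < (n : ℤ) * T.H O + T.fl (2 * n) X O +
      (n : ℤ) * ((a : ℤ) * T.H O - T.cl 2 X O) at hO
    have h2 : T.fl (2 * n) X O ≤ (n : ℤ) * T.cl 2 X O := by
      have h3 : (T.fl (2 * n) X O : ℝ) ≤ ((2 * n : ℕ) : ℝ) * X O := Int.floor_le _
      have h4 : ((2 : ℕ) : ℝ) * X O ≤ (T.cl 2 X O : ℝ) := Int.le_ceil _
      have h5 : (T.fl (2 * n) X O : ℝ) ≤ ((n : ℤ) * T.cl 2 X O : ℤ) := by
        push_cast at h3 h4 ⊢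
        nlinarith [(Nat.cast_nonneg n : (0 : ℝ) ≤ n)]
      exact_mod_cast h5
    push_cast at hO
    linarith

lemma one_le_E (hMUL : Stmt_MUL) (hDEG : Stmt_DEG) (hH : T.Dv T.H) (e : T.P) (X : T.P → ℝ)
    (hX : (Function.support X).Finite) (he : X e = 0) (hX0 : ∀ O, 0 ≤ X O) :
    ∃ n0 : ℕ, ∀ n : ℕ, n0 ≤ n → 1 ≤ T.sl e ((n : ℤ) • T.H + T.fl (2 * n) X) := by
  obtain ⟨C, hC⟩ := (hDEG T e).lower
  have hd := (hDEG T e).pos
  refine ⟨(C + 1).toNat, fun n hn => ?_⟩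
  have h1 : (C + 1) ≤ n := by
    have := Int.self_le_toNat (C + 1)
    omega
  have h2 : (n : ℤ) ≤ T.degc e * n := by nlinarith
  have h3 := hMUL T e ((n : ℤ) • T.H) (T.fl (2 * n) X) 1 (dv_smul hH _) (dv_fl hX _) one_ne_zero
    (by
      refine Or.inr fun O => ?_
      rw [O.isOrd.one]
      have : 0 ≤ T.fl (2 * n) X O := Int.floor_nonneg.2 (mul_nonneg (by positivity) (hX0 O))
      omega)
    (by
      rw [fl_zero _ X he]
      exact e.isOrd.one)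
  have h4 := hC n
  omega

lemma ptw (hHOPF : Stmt_HOPF) (hDEG : Stmt_DEG) (hH : T.Dv T.H) {J : Type} [DecidableEq J]
    (X : J → T.P → ℝ) (A B B' : Finset J) (hB' : B' ⊆ B)
    (hX0 : ∀ i ∈ A ∪ B, ∀ O, 0 ≤ X i O) (hX : ∀ i ∈ A ∪ B, (Function.support (X i)).Finite)
    (e : T.P) (he : ∀ i ∈ A ∪ B, X i e = 0)
    (hNM : ∀ i ∈ A, ∀ e', X i e' ≠ 0 → T.NoMeet e e') (M n n' c' : ℕ) (hn' : 2 * n' ≤ n)
    (h1 : ∀ i ∈ B', 1 ≤ T.sl e ((n' : ℤ) • T.H + T.fl (2 * n') (X i)))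
    (h0 : 0 ≤ T.degc e * ((M * n + c' + B'.card * n' : ℕ) + 1) -
      ∑ i ∈ B', (T.sl e ((n' : ℤ) • T.H + T.fl (2 * n') (X i)) - 1)) :
    T.sl e (((M * n : ℕ) : ℤ) • T.H + ∑ i ∈ A, T.fl n (X i) - ∑ i ∈ B, T.cl n (X i) +
      (c' : ℤ) • T.H) ≤ T.degc e * ((M * n + c' + B'.card * n' : ℕ) + 1) -
      ∑ i ∈ B', (T.sl e ((n' : ℤ) • T.H + T.fl (2 * n') (X i)) - 1) := by
  have hA : ∀ i ∈ A, i ∈ A ∪ B := fun i hi => Finset.mem_union_left _ hi
  have hB : ∀ i ∈ B, i ∈ A ∪ B := fun i hi => Finset.mem_union_right _ hi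
  by_cases h : 1 ≤ T.sl e (((M * n : ℕ) : ℤ) • T.H + ∑ i ∈ A, T.fl n (X i) -
    ∑ i ∈ B, T.cl n (X i) + (c' : ℤ) • T.H)
  swap
  · push Not at h
    exact le_trans (by omega) h0
  have hD : T.Dv (((M * n : ℕ) : ℤ) • T.H + ∑ i ∈ A, T.fl n (X i) -
      ∑ i ∈ B, T.cl n (X i) + (c' : ℤ) • T.H) :=
    dv_add (dv_sub (dv_add (dv_smul hH _) (dv_sum A _ fun i hi => dv_fl (hX i (hA i hi)) n))
      (dv_sum B _ fun i hi => dv_cl (hX i (hB i hi)) n)) (dv_smul hH _)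
  have hE : ∀ i ∈ B', T.Dv ((n' : ℤ) • T.H + T.fl (2 * n') (X i)) := fun i hi =>
    dv_add (dv_smul hH _) (dv_fl (hX i (hB i (hB' hi))) _)
  have h2 := hopf_sum hHOPF e _ hD h B' (fun i => (n' : ℤ) • T.H + T.fl (2 * n') (X i)) hE h1
  have hval : ∀ O : T.P, (((M * n : ℕ) : ℤ) • T.H + ∑ i ∈ A, T.fl n (X i) -
      ∑ i ∈ B, T.cl n (X i) + (c' : ℤ) • T.H +
        ∑ i ∈ B', ((n' : ℤ) • T.H + T.fl (2 * n') (X i))) O =
      ((M * n + c' + B'.card * n' : ℕ) : ℤ) * T.H O + ∑ i ∈ A, T.fl n (X i) O -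
        ∑ i ∈ B, T.cl n (X i) O + ∑ i ∈ B', T.fl (2 * n') (X i) O := by
    intro O
    simp only [Pi.add_apply, Pi.sub_apply, Pi.smul_apply, Finset.sum_apply, smul_eq_mul]
    rw [Finset.sum_add_distrib, Finset.sum_const, nsmul_eq_mul]
    push_cast
    ring
  have h3 := (hDEG T e).upper (M * n + c' + B'.card * n') _
    (dv_add hD (dv_sum B' _ hE)) (by
      rw [hval]
      rw [Finset.sum_eq_zero fun i hi => fl_zero n (X i) (he i (hA i hi)),
        Finset.sum_eq_zero fun i hi => cl_zero n (X i) (he i (hB i hi)),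
        Finset.sum_eq_zero fun i hi => fl_zero (2 * n') (X i) (he i (hB i (hB' hi)))]
      ring) (by
      intro O hO
      rw [hval] at hO
      by_cases hz : ∀ i ∈ A, X i O = 0
      · exfalso
        rw [Finset.sum_eq_zero fun i hi => fl_zero n (X i) (hz i hi)] at hO
        have h4 : ∑ i ∈ B', T.fl (2 * n') (X i) O ≤ ∑ i ∈ B', T.cl n (X i) O := by
          refine Finset.sum_le_sum fun i hi => ?_
          have h5 := hX0 i (hB i (hB' hi)) O
          have h6 : (T.fl (2 * n') (X i) O : ℝ) ≤ ((2 * n' : ℕ) : ℝ) * X i O := Int.floor_le _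
          have h7 : (n : ℝ) * X i O ≤ (T.cl n (X i) O : ℝ) := Int.le_ceil _
          have h8 : ((2 * n' : ℕ) : ℝ) ≤ n := by exact_mod_cast hn'
          have h9 : (T.fl (2 * n') (X i) O : ℝ) ≤ (T.cl n (X i) O : ℝ) :=
            le_trans h6 (le_trans (mul_le_mul_of_nonneg_right h8 h5) h7)
          exact_mod_cast h9
        have h5 : ∑ i ∈ B', T.cl n (X i) O ≤ ∑ i ∈ B, T.cl n (X i) O :=
          Finset.sum_le_sum_of_subset_of_nonneg hB' fun i hi _ =>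
            Int.ceil_nonneg (mul_nonneg (Nat.cast_nonneg n) (hX0 i (hB i hi) O))
        linarith
      · push Not at hz
        obtain ⟨i, hi, hiO⟩ := hz
        exact hNM i hi O hiO)
  linarith

/-! ### real numbers -/

lemma choose_δ (N b P ε : ℝ) (hε : 0 < ε) : ∃ δ : ℝ, 0 < δ ∧ δ < 1 ∧
    2 * (1 / (2 - δ)) * (P + b * δ / 2) + 2 * N * (1 / (2 - δ)) ^ 2 ≤ P + N / 2 + ε / 2 := by
  have hc : ContinuousAt (fun δ : ℝ => 2 * (1 / (2 - δ)) * (P + b * δ / 2) +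
      2 * N * (1 / (2 - δ)) ^ 2) 0 := by
    have h1 : ContinuousAt (fun δ : ℝ => 1 / (2 - δ)) 0 := by
      refine ContinuousAt.div continuousAt_const ?_ (by norm_num)
      fun_prop
    fun_prop
  have h00 : (fun δ : ℝ => 2 * (1 / (2 - δ)) * (P + b * δ / 2) +
      2 * N * (1 / (2 - δ)) ^ 2) 0 < P + N / 2 + ε / 2 := by
    have : 2 * (1 / (2 - (0 : ℝ))) * (P + b * 0 / 2) +
      2 * N * (1 / (2 - (0 : ℝ))) ^ 2 = P + N / 2 := by ring
    change 2 * (1 / (2 - (0 : ℝ))) * (P + b * 0 / 2) +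
      2 * N * (1 / (2 - (0 : ℝ))) ^ 2 < _
    rw [this]
    linarith
  have h1 := Tendsto.eventually_lt_const h00 hc
  have h2 : ∀ᶠ δ : ℝ in nhds 0, δ < 1 := Iio_mem_nhds (by norm_num)
  have h3 := ((h1.and h2).filter_mono nhdsWithin_le_nhds).and
    (self_mem_nhdsWithin (a := (0 : ℝ)) (s := Set.Ioi 0))
  obtain ⟨δ, ⟨h4, h5⟩, h6⟩ := h3.exists
  exact ⟨δ, h6, h5, le_of_lt h4⟩

lemma ev_poly (k1 k0 ε : ℝ) (hε : 0 < ε) :
    ∀ᶠ n : ℕ in atTop, k1 * n + k0 ≤ ε * (n : ℝ) ^ 2 := by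
  have h1 : ∀ᶠ n : ℕ in atTop, (|k1| + |k0|) / ε ≤ (n : ℝ) :=
    tendsto_natCast_atTop_atTop.eventually_ge_atTop _
  have h2 : ∀ᶠ n : ℕ in atTop, (1 : ℝ) ≤ (n : ℝ) :=
    tendsto_natCast_atTop_atTop.eventually_ge_atTop _
  filter_upwards [h1, h2] with n hn hn1
  rw [div_le_iff₀ hε] at hn
  have h3 := le_abs_self k1
  have h4 := le_abs_self k0
  have h5 : k1 * n ≤ |k1| * n := mul_le_mul_of_nonneg_right h3 (by linarith)
  have h6 : |k0| ≤ |k0| * n := le_mul_of_one_le_right (abs_nonneg _) hn1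
  have h7 : (|k1| + |k0|) * n ≤ n * ε * n := mul_le_mul_of_nonneg_right hn (by linarith)
  nlinarith

lemma asym (a p m K N q ε : ℝ) (hε : 0 < ε) (h : 2 * a * p + 2 * N * a ^ 2 ≤ q + ε / 2) :
    ∀ᶠ n : ℕ in atTop, 2 * (a * n + m) * (n * p + K) + 2 * N * (a * n + m) ^ 2 ≤
      (q + ε) * (n : ℝ) ^ 2 := by
  filter_upwards [ev_poly (2 * a * K + 2 * m * p + 4 * N * a * m) (2 * m * K + 2 * N * m ^ 2)
    (ε / 2) (by positivity)] with n hn
  have h1 : (2 * a * p + 2 * N * a ^ 2) * (n : ℝ) ^ 2 ≤ (q + ε / 2) * (n : ℝ) ^ 2 :=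
    mul_le_mul_of_nonneg_right h (by positivity)
  nlinarith

/-- the sum over one block -/
lemma block {P J : Type} (S : Finset P) (B' : Finset J) (Q d : P → ℤ) (X : P → ℝ)
    (v : P → J → ℤ) (m : ℕ) (N δ : ℝ) (n' : ℕ) (W : ℤ)
    (hQ : ∀ e ∈ S, (Q e : ℝ) ≤ 2 * m * X e)
    (h0 : ∀ e ∈ S, 0 ≤ d e * W - ∑ i ∈ B', (v e i - 1))
    (hd : ∑ e ∈ S, X e * d e = 2 * N)
    (hv : ∀ i ∈ B', (4 * N - δ) * n' ≤ ∑ e ∈ S, X e * v e i) :
    ((∑ e ∈ S, Q e * (d e * W - ∑ i ∈ B', (v e i - 1)) : ℤ) : ℝ) ≤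
      2 * m * (2 * N * W - B'.card * ((4 * N - δ) * n') + B'.card * ∑ e ∈ S, X e) := by
  push_cast
  have h1 : ∑ e ∈ S, (Q e : ℝ) * ((d e : ℝ) * W - ∑ i ∈ B', ((v e i : ℝ) - 1)) ≤
      ∑ e ∈ S, (2 * m * X e) * ((d e : ℝ) * W - ∑ i ∈ B', ((v e i : ℝ) - 1)) := by
    refine Finset.sum_le_sum fun e he => mul_le_mul_of_nonneg_right (hQ e he) ?_
    have := h0 e he
    exact_mod_cast this
  refine le_trans h1 ?_
  have h2 : ∑ e ∈ S, (2 * m * X e) * ((d e : ℝ) * W - ∑ i ∈ B', ((v e i : ℝ) - 1)) =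
      2 * m * ((∑ e ∈ S, X e * d e) * W - ∑ i ∈ B', ∑ e ∈ S, X e * v e i +
        B'.card * ∑ e ∈ S, X e) := by
    rw [Finset.sum_comm, Finset.sum_mul, Finset.mul_sum, ← Finset.sum_sub_distrib,
      ← Finset.sum_add_distrib, Finset.mul_sum]
    refine Finset.sum_congr rfl fun e _ => ?_
    rw [Finset.sum_sub_distrib, ← Finset.mul_sum]
    simp
    ring
  rw [h2, hd]
  have h3 : (B'.card : ℝ) * ((4 * N - δ) * n') ≤ ∑ i ∈ B', ∑ e ∈ S, X e * v e i := by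
    have := Finset.card_nsmul_le_sum B' (fun i => ∑ e ∈ S, X e * (v e i : ℝ))
      ((4 * N - δ) * n') hv
    rwa [nsmul_eq_mul] at this
  refine mul_le_mul_of_nonneg_left ?_ (by positivity)
  linarith

/-- summing up the blocks -/
lemma blocks (M n n' c m R b : ℕ) (N δ a S₁ : ℝ) (hN : 0 ≤ N) (hS₁ : 0 ≤ S₁) (hδ : 0 ≤ δ)
    (hb : (b : ℝ) ≤ 2 * M) (hn : 2 * n' ≤ n) (hn2 : n ≤ 2 * n' + 1)
    (hR : (m : ℝ) * R ≤ a * n + m) :
    ∑ ρ ∈ Finset.range R, 2 * (m : ℝ) * (2 * N * ((M * n + (c + ρ * m) + b * n' : ℕ) + 1) -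
        b * ((4 * N - δ) * n') + b * S₁) ≤
      2 * (a * n + m) * (n * (N * (2 * M - b) + b * δ / 2) +
        (2 * N * (c + 1) + b * S₁ + N * b)) + 2 * N * (a * n + m) ^ 2 := by
  have hn' : (2 : ℝ) * n' ≤ n := by exact_mod_cast hn
  have hn2' : (n : ℝ) ≤ 2 * n' + 1 := by exact_mod_cast hn2
  have hNb : 0 ≤ N * b := by positivity
  have e1 : ∑ ρ ∈ Finset.range R, 2 * (m : ℝ) *
      (2 * N * ((M * n + (c + ρ * m) + b * n' : ℕ) + 1) - b * ((4 * N - δ) * n') + b * S₁) =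
      2 * (m * R) * (2 * N * M * n - 2 * N * b * n' + b * δ * n' + 2 * N * (c + 1) + b * S₁) +
      4 * N * m ^ 2 * ∑ ρ ∈ Finset.range R, (ρ : ℝ) := by
    have : ∀ ρ ∈ Finset.range R, 2 * (m : ℝ) *
      (2 * N * ((M * n + (c + ρ * m) + b * n' : ℕ) + 1) - b * ((4 * N - δ) * n') + b * S₁) =
      2 * m * (2 * N * M * n - 2 * N * b * n' + b * δ * n' + 2 * N * (c + 1) + b * S₁) +
      4 * N * m ^ 2 * (ρ : ℝ) := by
      intro ρ _
      push_cast
      ring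
    rw [Finset.sum_congr rfl this, Finset.sum_add_distrib, Finset.sum_const, ← Finset.mul_sum,
      Finset.card_range, nsmul_eq_mul]
    ring
  have e2 : ∑ ρ ∈ Finset.range R, (ρ : ℝ) ≤ (R : ℝ) ^ 2 / 2 := by
    have h := Finset.sum_range_id_mul_two R
    have h' : (∑ ρ ∈ Finset.range R, (ρ : ℝ)) * 2 ≤ (R : ℝ) ^ 2 := by
      have h3 : (∑ i ∈ Finset.range R, i) * 2 ≤ R ^ 2 := by
        rw [h, pow_two]
        exact Nat.mul_le_mul_left R (Nat.sub_le R 1)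
      have h4 := (Nat.cast_le (α := ℝ)).2 h3
      push_cast at h4
      exact h4
    linarith
  rw [e1]
  have e3 : 4 * N * m ^ 2 * ∑ ρ ∈ Finset.range R, (ρ : ℝ) ≤ 2 * N * (m * R) ^ 2 := by
    have : 4 * N * (m : ℝ) ^ 2 * ∑ ρ ∈ Finset.range R, (ρ : ℝ) ≤
        4 * N * (m : ℝ) ^ 2 * ((R : ℝ) ^ 2 / 2) := mul_le_mul_of_nonneg_left e2 (by positivity)
    nlinarith
  have e4 : (0 : ℝ) ≤ m * R := by positivity
  have e5 : 2 * N * ((m : ℝ) * R) ^ 2 ≤ 2 * N * (a * n + m) ^ 2 := by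
    refine mul_le_mul_of_nonneg_left ?_ (by positivity)
    exact pow_le_pow_left₀ e4 hR 2
  have e6 : 2 * N * M * n - 2 * N * b * n' + b * δ * n' + 2 * N * (c + 1) + b * S₁ ≤
      n * (N * (2 * M - b) + b * δ / 2) + (2 * N * (c + 1) + b * S₁ + N * b) := by
    have h1 : N * b * n ≤ N * b * (2 * n' + 1) := mul_le_mul_of_nonneg_left hn2' hNb
    have h2 : (b * δ) * (2 * n') ≤ (b * δ) * n := mul_le_mul_of_nonneg_left hn' (by positivity)
    nlinarith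
  have e7 : 0 ≤ n * (N * (2 * M - b) + b * δ / 2) + (2 * N * (c + 1) + b * S₁ + N * b) := by
    have : 0 ≤ N * (2 * M - b) := mul_nonneg hN (by linarith)
    positivity
  have e8 : 2 * (m * R : ℝ) *
      (2 * N * M * n - 2 * N * b * n' + b * δ * n' + 2 * N * (c + 1) + b * S₁) ≤
      2 * (a * n + m) * (n * (N * (2 * M - b) + b * δ / 2) +
        (2 * N * (c + 1) + b * S₁ + N * b)) := by
    refine le_trans (mul_le_mul_of_nonneg_left e6 (by positivity)) ?_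
    exact mul_le_mul_of_nonneg_right (by linarith) e7
  linarith

end ZES_

open ZES_ in
/-- ZES: one more tube with zeros. -/
theorem zes_proof (hUPS : Stmt_UPS) (hHOPF : Stmt_HOPF) (hMUL : Stmt_MUL) (_hMLN : Stmt_MLN)
    (hDEG : Stmt_DEG) (hAVD : SRF.Stmt_AVD) (hFDL : SRF.Stmt_FDL) (hSUP : SRF.Stmt_SUP) :
    Stmt_ZES := by
  intro T J _ Tb N X A B B' j hN hB' _ _ hA hB hTj hdis hNM hRho
  have hH := dv_H T hSUP
  have hAB0 : ∀ i ∈ A ∪ B, ∀ O, 0 ≤ X i O := by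
    intro i hi O
    rcases Finset.mem_union.1 hi with h | h
    · exact (hA i h).nonneg O
    · exact (hB i h).nonneg O
  have hABf : ∀ i ∈ A ∪ B, (Function.support (X i)).Finite := by
    intro i hi
    rcases Finset.mem_union.1 hi with h | h
    · exact (hA i h).fin
    · exact (hB i h).fin
  have hBU : ∀ i ∈ B', i ∈ A ∪ B := fun i hi => Finset.mem_union_right _ (hB' hi)
  set S := hTj.fin.toFinset with hSdef
  have hS : ∀ e, e ∈ S ↔ X j e ≠ 0 := fun e => by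
    rw [hSdef, Set.Finite.mem_toFinset, Function.mem_support]
  have hzero : ∀ e ∈ S, ∀ i ∈ A ∪ B, X i e = 0 := by
    intro e he i hi
    by_contra hne
    exact (hS e).1 he (hdis i hi e hne)
  haveI : Infinite T.k := IsAlgClosed.instInfinite
  have hw : ∀ i ∈ B', ∃ (a : ℕ) (w : T.F), w ≠ 0 ∧ w ∈ T.L ((a : ℤ) • T.H - T.cl 2 (X i)) ∧
      ∀ e ∈ S, T.o e w = - (a * T.H e) := by
    intro i hi
    obtain ⟨a, ha⟩ := hAVD T.k T.F T.x T.y T.surf (T.cl 2 (X i)) (dv_cl (hABf i (hBU i hi)) 2)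
      (S : Set T.P) S.finite_toSet
    obtain ⟨w, hw0, hwL, hwe⟩ := ha a le_rfl
    refine ⟨a, w, hw0, hwL, fun e he => ?_⟩
    have h1 := hwe e he
    rw [cl_zero 2 (X i) (hzero e he i (hBU i hi))] at h1
    change ord e.1 w = - ((a : ℤ) * SRF.H T.k T.x T.y e)
    rw [h1]
    ring
  choose! a w hw0 hwL hwe using hw
  refine ⟨∑ i ∈ B', (1 + a i), fun M hM ε hε => ?_⟩
  have hMb : B'.card ≤ M := by
    refine le_trans ?_ hM
    rw [Finset.card_eq_sum_ones]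
    exact Finset.sum_le_sum fun i _ => Nat.le_add_right 1 (a i)
  obtain ⟨δ, hδ0, hδ1, hδ⟩ := choose_δ N B'.card (N * (2 * M - B'.card)) ε hε
  obtain ⟨m, hm, Q, β, hβ0, hβ, hβQ, hQl, hQu⟩ := hTj.bet δ hδ0
  have hm0 : (0 : ℝ) < m := by exact_mod_cast hm
  have h2δ : 0 < 2 - δ := by linarith
  have hQ0 : ∀ e, 0 ≤ Q e := by
    intro e
    have h1 : (0 : ℝ) ≤ (2 - δ) * m * X j e :=
      mul_nonneg (mul_nonneg h2δ.le hm0.le) (hTj.nonneg e)
    have h2 : (0 : ℝ) ≤ Q e := le_trans h1 (hQl e)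
    exact_mod_cast h2
  have hQS : ∀ e, Q e ≠ 0 → e ∈ S := by
    intro e he
    rw [hS]
    intro hX
    apply he
    have h1 := hQu e
    rw [hX, mul_zero] at h1
    have h2 : Q e ≤ 0 := by exact_mod_cast h1
    exact le_antisymm h2 (hQ0 e)
  have dvQ : T.Dv Q := S.finite_toSet.subset fun e he => hQS e he
  obtain ⟨c, hc⟩ := hUPS T Q m β dvQ hQ0 hβ0 hβ hβQ
  have hdeg : ∑ e ∈ S, X j e * T.degc e = 2 * N := by
    rw [← hTj.deg]
    refine (finsum_eq_sum_of_support_subset _ ?_).symm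
    intro e he
    rw [Finset.mem_coe, hS]
    intro h0
    apply he
    simp [h0]
  have hE1 : ∀ᶠ n' : ℕ in atTop, ∀ e ∈ S, ∀ i ∈ B',
      1 ≤ T.sl e ((n' : ℤ) • T.H + T.fl (2 * n') (X i)) := by
    rw [Filter.eventually_all_finset]
    intro e he
    rw [Filter.eventually_all_finset]
    intro i hi
    obtain ⟨n0, hn0⟩ := one_le_E hMUL hDEG hH e (X i) (hABf i (hBU i hi))
      (hzero e he i (hBU i hi)) (hAB0 i (hBU i hi))
    exact eventually_atTop.2 ⟨n0, hn0⟩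
  have hR1 : ∀ᶠ n' : ℕ in atTop, ∀ i ∈ B', (4 * N - δ) * n' ≤
      ∑ e ∈ S, X j e * (T.sl e ((n' : ℤ) • T.H + T.fl (2 * n') (X i)) : ℝ) := by
    rw [Filter.eventually_all_finset]
    intro i hi
    filter_upwards [hRho i hi δ hδ0] with n' hn'
    refine le_trans hn' (le_of_eq ?_)
    refine finsum_eq_sum_of_support_subset _ ?_
    intro e he
    rw [Finset.mem_coe, hS]
    intro h0
    apply he
    simp [h0]
  have hdiv : Tendsto (fun n : ℕ => n / 2) atTop atTop := Nat.tendsto_div_const_atTop (by norm_num)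
  filter_upwards [hdiv.eventually hE1, hdiv.eventually hR1, hdiv.eventually (eventually_ge_atTop 1),
    asym (1 / (2 - δ)) (N * (2 * M - B'.card) + B'.card * δ / 2) m
      (2 * N * (c + 1) + B'.card * ∑ e ∈ S, X j e + N * B'.card) N
      (N * (2 * M - B'.card) + N / 2) ε hε hδ] with n h1 h2 h3 h4
  have hn1 : 2 * (n / 2) ≤ n := Nat.mul_div_le n 2
  have hn2 : n ≤ 2 * (n / 2) + 1 := by omega
  set n' := n / 2 with hn'def
  set R := ⌈(n : ℝ) / ((2 - δ) * m)⌉₊ with hRdef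
  have hRl : (n : ℝ) ≤ R * ((2 - δ) * m) := by
    have := Nat.le_ceil ((n : ℝ) / ((2 - δ) * m))
    rwa [div_le_iff₀ (mul_pos h2δ hm0)] at this
  have hRu : (m : ℝ) * R ≤ 1 / (2 - δ) * n + m := by
    have h5 := Nat.ceil_lt_add_one (a := (n : ℝ) / ((2 - δ) * m)) (by positivity)
    have h6 : (m : ℝ) * R ≤ m * ((n : ℝ) / ((2 - δ) * m) + 1) :=
      mul_le_mul_of_nonneg_left h5.le hm0.le
    have h7 : (m : ℝ) * ((n : ℝ) / ((2 - δ) * m) + 1) = 1 / (2 - δ) * n + m := by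
      field_simp
    linarith
  -- the divisor
  set D : T.P → ℤ := ((M * n : ℕ) : ℤ) • T.H + ∑ i ∈ A, T.fl n (X i) - ∑ i ∈ B, T.cl n (X i)
    with hDdef
  have hD : T.Dv D := dv_sub (dv_add (dv_smul hH _) (dv_sum A _ fun i hi =>
    dv_fl (hABf i (Finset.mem_union_left _ hi)) n)) (dv_sum B _ fun i hi =>
    dv_cl (hABf i (Finset.mem_union_right _ hi)) n)
  have hstep1 : T.hh D - T.hh (D - T.cl n (X j)) ≤ T.hh D - T.hh (D - (R : ℤ) • Q) := by
    have h5 : T.hh (D - (R : ℤ) • Q) ≤ T.hh (D - T.cl n (X j)) := by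
      refine hh_mono hFDL (dv_sub hD (dv_cl hTj.fin n)) fun O => ?_
      change D O - (R : ℤ) * Q O ≤ D O - ⌈(n : ℝ) * X j O⌉
      have h6 : ⌈(n : ℝ) * X j O⌉ ≤ (R : ℤ) * Q O := by
        rw [Int.ceil_le]
        push_cast
        have h7 : (n : ℝ) * X j O ≤ R * ((2 - δ) * m) * X j O :=
          mul_le_mul_of_nonneg_right hRl (hTj.nonneg O)
        have h8 : (R : ℝ) * ((2 - δ) * m * X j O) ≤ R * Q O :=
          mul_le_mul_of_nonneg_left (hQl O) (Nat.cast_nonneg R)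
        linarith
      omega
    omega
  have hbr : ∀ e ∈ S, ∀ c' : ℕ, 0 ≤ T.degc e * ((M * n + c' + B'.card * n' : ℕ) + 1) -
      ∑ i ∈ B', (T.sl e ((n' : ℤ) • T.H + T.fl (2 * n') (X i)) - 1) := by
    intro e he c'
    have hd := (hDEG T e).pos
    have h5 : ∑ i ∈ B', (T.sl e ((n' : ℤ) • T.H + T.fl (2 * n') (X i)) - 1) ≤
        ∑ i ∈ B', T.degc e * ((n' * (1 + a i) : ℕ) + 1) := by
      refine Finset.sum_le_sum fun i hi => ?_
      have := crude hMUL hDEG hH e (X i) (hABf i (hBU i hi)) (hzero e he i (hBU i hi)) (a i)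
        (w i) (hw0 i hi) (hwL i hi) (hwe i hi e he) n'
      omega
    have h6 : ∑ i ∈ B', T.degc e * (((n' * (1 + a i) : ℕ) : ℤ) + 1) =
        T.degc e * ((n' * (∑ i ∈ B', (1 + a i)) + B'.card : ℕ) : ℤ) := by
      rw [← Finset.mul_sum, Finset.sum_add_distrib, Finset.mul_sum]
      push_cast
      simp
    have h7 : n' * (∑ i ∈ B', (1 + a i)) + B'.card ≤ M * n + c' + B'.card * n' := by
      have h8 : n' * (∑ i ∈ B', (1 + a i)) ≤ n' * M := Nat.mul_le_mul_left _ hM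
      have h9 : M * (2 * n') ≤ M * n := Nat.mul_le_mul_left _ hn1
      have h10 : M * 1 ≤ M * n' := Nat.mul_le_mul_left _ h3
      nlinarith
    have h8 : T.degc e * ((n' * (∑ i ∈ B', (1 + a i)) + B'.card : ℕ) : ℤ) ≤
        T.degc e * ((M * n + c' + B'.card * n' : ℕ) + 1) := by
      refine mul_le_mul_of_nonneg_left ?_ (by omega)
      have : ((n' * (∑ i ∈ B', (1 + a i)) + B'.card : ℕ) : ℤ) ≤
        ((M * n + c' + B'.card * n' : ℕ) : ℤ) := by exact_mod_cast h7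
      omega
    linarith
  have hstep2 : T.hh D - T.hh (D - (R : ℤ) • Q) ≤ ∑ ρ ∈ Finset.range R, ∑ e ∈ S,
      Q e * (T.degc e * ((M * n + (c + ρ * m) + B'.card * n' : ℕ) + 1) -
        ∑ i ∈ B', (T.sl e ((n' : ℤ) • T.H + T.fl (2 * n') (X i)) - 1)) := by
    refine le_trans (hc D hD R).2 (Finset.sum_le_sum fun ρ _ => ?_)
    rw [finsum_eq_sum_of_support_subset (s := S) _ (fun e he => by
      rw [Finset.mem_coe]
      refine hQS e fun h0 => he ?_
      simp [h0])]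
    refine Finset.sum_le_sum fun e he => mul_le_mul_of_nonneg_left ?_ (hQ0 e)
    exact ptw hHOPF hDEG hH X A B B' hB' hAB0 hABf e (hzero e he)
      (fun i hi e' he' => hNM i hi e e' ((hS e).1 he) he') M n n' (c + ρ * m) hn1 (h1 e he)
      (hbr e he _)
  have hstep3 : ((∑ ρ ∈ Finset.range R, ∑ e ∈ S,
      Q e * (T.degc e * ((M * n + (c + ρ * m) + B'.card * n' : ℕ) + 1) -
        ∑ i ∈ B', (T.sl e ((n' : ℤ) • T.H + T.fl (2 * n') (X i)) - 1)) : ℤ) : ℝ) ≤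
      ∑ ρ ∈ Finset.range R, 2 * (m : ℝ) * (2 * N * ((M * n + (c + ρ * m) + B'.card * n' : ℕ) + 1) -
        B'.card * ((4 * N - δ) * n') + B'.card * ∑ e ∈ S, X j e) := by
    rw [Int.cast_sum]
    refine Finset.sum_le_sum fun ρ _ => ?_
    have h5 := block S B' Q T.degc (X j)
      (fun e i => T.sl e ((n' : ℤ) • T.H + T.fl (2 * n') (X i))) m N δ n'
      (((M * n + (c + ρ * m) + B'.card * n' : ℕ) : ℤ) + 1) (fun e _ => hQu e)
      (fun e he => hbr e he _) hdeg h2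
    refine le_trans h5 (le_of_eq ?_)
    push_cast
    ring
  have hstep4 := blocks M n n' c m R B'.card N δ (1 / (2 - δ)) (∑ e ∈ S, X j e) hN
    (Finset.sum_nonneg fun e _ => hTj.nonneg e) hδ0.le
    (by
      have : (B'.card : ℝ) ≤ M := by exact_mod_cast hMb
      have h0 : (0 : ℝ) ≤ M := Nat.cast_nonneg M
      linarith) hn1 hn2 hRu
  have hfin : ((T.hh D - T.hh (D - T.cl n (X j)) : ℤ) : ℝ) ≤ ((∑ ρ ∈ Finset.range R, ∑ e ∈ S,
      Q e * (T.degc e * ((M * n + (c + ρ * m) + B'.card * n' : ℕ) + 1) -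
        ∑ i ∈ B', (T.sl e ((n' : ℤ) • T.H + T.fl (2 * n') (X i)) - 1)) : ℤ) : ℝ) := by
    exact_mod_cast le_trans hstep1 hstep2
  refine le_trans (le_trans hfin (le_trans hstep3 (le_trans hstep4 h4))) (le_of_eq ?_)
  ring

end Pool.Agent.NUM
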