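import Pool.Agent.NUM.Bridge
import Pool.Agent.NUM.MUL
import Pool.Agent.NUM.MLN
import Pool.Agent.NUM.HOPL
import Pool.Agent.NUM.HOPF
import Pool.Agent.NUM.BLK
import Pool.Agent.NUM.UPS
import Pool.Agent.NUM.CRV
import Pool.Agent.NUM.RCV
import Pool.Agent.NUM.DEG
import Pool.Agent.NUM.TRD
import Pool.Agent.NUM.HIL
import Pool.Agent.NUM.DGH
import Pool.Agent.NUM.RAM
import Pool.Agent.NUM.NLT
import Pool.Agent.NUM.RAL
import Pool.Agent.NUM.RAC
import Pool.Agent.NUM.UNI
import Pool.Agent.NUM.SPH
import Pool.Agent.NUM.MLH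
import Pool.Agent.NUM.PSL
import Pool.Agent.NUM.PBD
import Pool.Agent.NUM.TUA
import Pool.Agent.NUM.TUB
import Pool.Agent.NUM.RHO
import Pool.Agent.NUM.POS
import Pool.Agent.NUM.ZES
import Pool.Agent.NUM.VOL
import Pool.Agent.SRF.BAS
import Pool.Agent.SRF.FIN
import Pool.Agent.SRF.FRA
import Pool.Agent.SRF.CEN
import Pool.Agent.SRF.LIF
import Pool.Agent.SRF.LOC
import Pool.Agent.SRF.DVQ
import Pool.Agent.SRF.REG
import Pool.Agent.SRF.REC
import Pool.Agent.SRF.INC
import Pool.Agent.SRF.SUP
import Pool.Agent.SRF.HCH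
import Pool.Agent.SRF.SEC
import Pool.Agent.SRF.LIH
import Pool.Agent.SRF.FDL
import Pool.Agent.SRF.AX1
import Pool.Agent.SRF.AX3
import Pool.Agent.SRF.THC
import Pool.Agent.SRF.NAL
import Pool.Agent.SRF.AVD
import Pool.Agent.SRF.SCQ

/-!
# The numerics: all modules together
-/

set_option autoImplicit false

namespace Pool.Agent.NUM

open Pool.Agent.SRF

namespace S_

theorem bas : Stmt_BAS := BAS_proof
theorem cen : Stmt_CEN := CEN_proof
theorem lif : Stmt_LIF := LIF_proof
theorem fin : Stmt_FIN := FIN_proof bas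
theorem fra : Stmt_FRA := FRA_proof bas
theorem loc : Stmt_LOC := LOC_proof cen lif
theorem dvq : Stmt_DVQ := DVQ_proof fin fra
theorem reg : Stmt_REG := REG_proof fin fra loc dvq
theorem rec : Stmt_REC := REC_proof reg
theorem inc : Stmt_INC := INC_proof loc
theorem sup : Stmt_SUP := SUP_proof fin fra loc inc
theorem hch : Stmt_HCH := HCH_proof cen
theorem sec : Stmt_SEC := SEC_proof rec hch
theorem lih : Stmt_LIH := LIH_proof lif sec
theorem fdl : Stmt_FDL := FDL_proof bas fin sec lih loc hch fra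
theorem ax1 : Stmt_AX1 := AX1_proof cen reg
theorem ax3 : Stmt_AX3 := AX3_proof cen
theorem thc : Stmt_THC := THC_proof cen lif
theorem nal : Stmt_NAL := NAL_proof bas fin loc
theorem avd : Stmt_AVD := AVD_proof cen loc inc sup hch sec lih
theorem scq : Stmt_SCQ := SCQ_proof bas fin sec

end S_

open S_

theorem mul : Stmt_MUL := mul_proof fdl
theorem mln : Stmt_MLN := mln_proof mul hch sup
theorem hopf : Stmt_HOPF := hopf_proof hopl_proof fdl
theorem blk : Stmt_BLK := blk_proof mul avd fdl sup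
theorem ups : Stmt_UPS := ups_proof blk mul sup
theorem rcv : Stmt_RCV := rcv_proof nal bas cen loc hch fin
theorem deg : Stmt_DEG := deg_proof rcv crv_proof fdl lih ax1 ax3 thc hch cen sup
theorem trd : Stmt_TRD := trd_proof scq lih fra
theorem nlt : Stmt_NLT := nlt_proof hch nal
theorem hil : Stmt_HIL := hil_proof trd nlt fdl nal hch sup
theorem dgh : Stmt_DGH := dgh_proof blk deg hil sup fdl
theorem ram : Stmt_RAM := ram_proof avd rec fra bas nal sup hch
theorem ral : Stmt_RAL := ral_proof ram nlt hch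
theorem rac : Stmt_RAC := rac_proof ram nlt deg sup nal hch fdl
theorem uni : Stmt_UNI := uni_proof rac hil dgh deg sup fdl
theorem sph : Stmt_SPH := sph_proof ral hopf mul dgh deg sup fdl
theorem mlh : Stmt_MLH := mlh_proof ral sup fdl
theorem psl : Stmt_PSL := psl_proof hil sph mlh avd fdl sup
theorem pbd : Stmt_PBD := pbd_proof ups deg hil sup fdl
theorem tua : Stmt_TUA := tua_proof pbd uni deg sup
theorem tub : Stmt_TUB := tub_proof ups deg hil fdl sup
theorem rho : Stmt_RHO := rho_proof ups mul mln sup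
theorem pos : Stmt_POS := pos_proof ups hopf mul mln deg sup fdl
theorem zes : Stmt_ZES := zes_proof ups hopf mul mln deg avd fdl sup
theorem vol : Stmt_VOL := vol_proof hil rho pos zes
theorem num : Stmt_NUM := num_proof tua tub vol psl sup

/-- **NUMERICS** is reduced to the special fibre bounds. -/
theorem stmtNum (hNIN : SFB.Stmt_NIN) : DIS.Stmt_Num := stmt_num hNIN num avd sup

end Pool.Agent.NUM
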