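import Pool.Agent.NUM.NUM
import Pool.Agent.SFB.Stmts

/-!
# From the numerics on surfaces to `DIS.Stmt_Num`
-/

set_option autoImplicit false

namespace Pool.Agent.NUM

open Pool.Agent.SRF Filter

namespace Bridge_

open Sf

variable (T : Sf)

/-! ## products of sections -/

theorem mem_L_iff {D : T.P → ℤ} {f : T.F} (hf : f ≠ 0) :
    f ∈ T.L D ↔ ∀ e : T.P, - D e ≤ T.o e f := by
  constructor
  · intro h
    exact (SRF.mem_L T.k T.x T.y).mp h |>.resolve_left hf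
  · intro h
    exact (SRF.mem_L T.k T.x T.y).mpr (Or.inr h)

theorem L_mono {D E : T.P → ℤ} (h : ∀ e, D e ≤ E e) {f : T.F} (hf : f ∈ T.L D) : f ∈ T.L E := by
  by_cases h0 : f = 0
  · rw [h0]; exact Submodule.zero_mem _
  · rw [mem_L_iff T h0] at hf ⊢
    intro e
    have := hf e
    have := h e
    linarith

theorem L_mul {D E : T.P → ℤ} {f g : T.F} (hf : f ≠ 0) (hg : g ≠ 0) (hfD : f ∈ T.L D)
    (hgE : g ∈ T.L E) : f * g ∈ T.L (D + E) := by
  rw [mem_L_iff T (mul_ne_zero hf hg)]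
  intro e
  have h1 := (mem_L_iff T hf).mp hfD e
  have h2 := (mem_L_iff T hg).mp hgE e
  have h3 : T.o e (f * g) = T.o e f + T.o e g := e.isOrd.mul _ _ hf hg
  rw [h3, Pi.add_apply]
  linarith

theorem L_pow {E : T.P → ℤ} {f : T.F} (hf : f ≠ 0) (hfE : f ∈ T.L E) (m : ℕ) :
    f ^ m ∈ T.L ((m : ℤ) • E) := by
  rw [mem_L_iff T (pow_ne_zero m hf)]
  intro e
  have h1 := (mem_L_iff T hf).mp hfE e
  have h3 : T.o e (f ^ m) = m * T.o e f := e.isOrd.pow hf m
  rw [h3, Pi.smul_apply, smul_eq_mul]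
  nlinarith

/-! ## pseudo-effective divisors -/

/-- some `p`-power multiple of every integral divisor `≥ ε H + n R` has sections -/
def PsW (p : ℕ) (R : T.P → ℝ) : Prop :=
  ∀ (D : T.P → ℤ) (n : ℕ) (ε : ℝ), T.Dv D → 0 < ε → (∀ O, ε * T.H O + n * R O ≤ D O) →
    ∀ᶠ a : ℕ in atTop, ∃ f : T.F, f ≠ 0 ∧ f ∈ T.L (((p ^ a : ℕ) : ℤ) • D)

theorem psW_of_psEff {p : ℕ} (hp : 1 < p) {R : T.P → ℝ} (h : T.PsEff R) : PsW T p R := by
  intro D n ε hD hε hle
  have h1 := h D n ε hD hε hle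
  exact (tendsto_pow_atTop_atTop_of_one_lt hp).eventually h1

theorem H_nonneg (O : T.P) : 0 ≤ T.H O := le_max_left _ _

theorem psW_add (hAVD : SRF.Stmt_AVD) (hSUP : SRF.Stmt_SUP) {p : ℕ} (hp : 1 < p)
    {R R' : T.P → ℝ} (hR : (Function.support R).Finite) (hR' : (Function.support R').Finite)
    (h : PsW T p R) (h' : PsW T p R') : PsW T p (R + R') := by
  classical
  intro D n ε hD hε hle
  have hHfin := NUM_.supp_H hSUP T
  -- the reduced divisor
  let χ : T.P → ℤ := fun O => if R O ≠ 0 ∨ R' O ≠ 0 then 1 else 0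
  have hχ : (Function.support fun O => 2 * χ O).Finite := by
    refine (hR.union hR').subset fun O hO => ?_
    by_contra h1
    simp only [Set.mem_union, Function.mem_support, ne_eq, not_or, not_not] at h1
    apply hO
    simp [χ, h1.1, h1.2]
  have : Infinite T.k := IsAlgClosed.instInfinite
  obtain ⟨c, hc⟩ := hAVD T.k T.F T.x T.y T.surf (fun O => 2 * χ O) hχ ∅ Set.finite_empty
  obtain ⟨w, hw0, hw, -⟩ := hc c le_rfl
  obtain ⟨b, hb⟩ : ∃ b : ℕ, ((c : ℝ) + 2) / ε ≤ ((p ^ b : ℕ) : ℝ) := by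
    have := (tendsto_natCast_atTop_atTop (R := ℝ)).comp (tendsto_pow_atTop_atTop_of_one_lt hp)
    exact (this.eventually_ge_atTop _).exists
  set s : ℕ := p ^ b with hs
  have hsε : (c : ℝ) + 2 ≤ s * ε := by
    rw [div_le_iff₀ hε] at hb
    exact hb
  let D1 : T.P → ℤ := fun O => ⌈((s * n : ℕ) : ℝ) * R O⌉ + T.H O
  let D2 : T.P → ℤ := fun O => ⌈((s * n : ℕ) : ℝ) * R' O⌉ + T.H O
  have hD1 : T.Dv D1 := by
    refine (hR.union hHfin).subset fun O hO => ?_
    by_contra h1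
    simp only [Set.mem_union, Function.mem_support, ne_eq, not_or, not_not] at h1
    apply hO
    simp [D1, h1.1, h1.2]
  have hD2 : T.Dv D2 := by
    refine (hR'.union hHfin).subset fun O hO => ?_
    by_contra h1
    simp only [Set.mem_union, Function.mem_support, ne_eq, not_or, not_not] at h1
    apply hO
    simp [D2, h1.1, h1.2]
  have e1 := h D1 (s * n) 1 hD1 one_pos (fun O => by
    simp only [D1]; push_cast
    have := Int.le_ceil (((s * n : ℕ) : ℝ) * R O)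
    push_cast at this
    linarith)
  have e2 := h' D2 (s * n) 1 hD2 one_pos (fun O => by
    simp only [D2]; push_cast
    have := Int.le_ceil (((s * n : ℕ) : ℝ) * R' O)
    push_cast at this
    linarith)
  -- comparison
  have hceil : ∀ (Q : T.P → ℝ) (O : T.P), (Q O ≠ 0 → R O ≠ 0 ∨ R' O ≠ 0) →
      ((⌈((s * n : ℕ) : ℝ) * Q O⌉ : ℤ) : ℝ) ≤ s * n * Q O + χ O := by
    intro Q O hQ
    by_cases hq : Q O = 0
    · rw [hq, mul_zero, Int.ceil_zero]
      have : 0 ≤ χ O := by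
        simp only [χ]; split_ifs <;> norm_num
      simp; exact this
    · have hχ1 : χ O = 1 := by simp only [χ]; rw [if_pos (hQ hq)]
      rw [hχ1]
      have := (Int.ceil_lt_add_one (((s * n : ℕ) : ℝ) * Q O)).le
      push_cast at this ⊢
      exact this
  have hcomp : ∀ O, (D1 + D2 + fun O => (c : ℤ) * T.H O - 2 * χ O) O ≤ (s : ℤ) * D O := by
    intro O
    have h1 := hceil R O Or.inl
    have h2 := hceil R' O Or.inr
    have h3 := hle O
    have h4 : (0 : ℝ) ≤ T.H O := by exact_mod_cast H_nonneg T O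
    have h5 : ((D1 + D2 + fun O => (c : ℤ) * T.H O - 2 * χ O) O : ℝ) ≤ ((s : ℤ) * D O : ℤ) := by
      simp only [Pi.add_apply, D1, D2]
      push_cast
      push_cast at h1 h2
      have hs0 : (0 : ℝ) ≤ s := by positivity
      have h6 := mul_le_mul_of_nonneg_left h3 hs0
      simp only [Pi.add_apply] at h6
      have h7 := mul_le_mul_of_nonneg_right hsε h4
      nlinarith
    exact_mod_cast h5
  have h3 : ∀ᶠ a : ℕ in atTop, ∃ f : T.F, f ≠ 0 ∧ f ∈ T.L (((p ^ a : ℕ) : ℤ) • ((s : ℤ) • D)) := by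
    filter_upwards [e1, e2] with a h1 h2
    obtain ⟨f1, h10, h1⟩ := h1
    obtain ⟨f2, h20, h2⟩ := h2
    have h3 := L_pow T hw0 (E := fun O => (c : ℤ) * T.H O - 2 * χ O) hw (p ^ a)
    have h4 := L_mul T (mul_ne_zero h10 h20) (pow_ne_zero (p ^ a) hw0) (L_mul T h10 h20 h1 h2) h3
    refine ⟨_, mul_ne_zero (mul_ne_zero h10 h20) (pow_ne_zero _ hw0), L_mono T ?_ h4⟩
    intro e
    have h5 := hcomp e
    simp only [Pi.add_apply, Pi.smul_apply, smul_eq_mul] at h5 ⊢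
    have h6 : (0 : ℤ) ≤ ((p ^ a : ℕ) : ℤ) := by positivity
    nlinarith
  have h4 := (tendsto_sub_atTop_nat b).eventually h3
  filter_upwards [h4, eventually_ge_atTop b] with a ha hab
  obtain ⟨f, hf0, hf⟩ := ha
  refine ⟨f, hf0, L_mono T ?_ hf⟩
  intro e
  simp only [Pi.smul_apply, smul_eq_mul]
  refine le_of_eq ?_
  rw [← mul_assoc]
  congr 1
  rw [hs]
  rw [← Nat.cast_mul, ← pow_add, Nat.sub_add_cancel hab]

theorem psW_nsmul {p : ℕ} {R : T.P → ℝ} (h : PsW T p R) (c : ℕ) :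
    PsW T p (fun O => (c : ℝ) * R O) := by
  intro D n ε hD hε hle
  refine h D (n * c) ε hD hε fun O => ?_
  have := hle O
  push_cast
  linarith

theorem psW_zsmul {p : ℕ} {R : T.P → ℝ} (h : PsW T p R) (h' : PsW T p (-R)) (c : ℤ) :
    PsW T p (fun O => (c : ℝ) * R O) := by
  rcases le_total 0 c with hc | hc
  · obtain ⟨n, rfl⟩ := Int.eq_ofNat_of_zero_le hc
    have := psW_nsmul T h n
    simpa using this
  · obtain ⟨n, hn⟩ := Int.eq_ofNat_of_zero_le (neg_nonneg.mpr hc)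
    have := psW_nsmul T h' n
    have e : (fun O => (n : ℝ) * (-R) O) = fun O => (c : ℝ) * R O := by
      funext O
      have : (c : ℝ) = - (n : ℝ) := by
        have : c = - (n : ℤ) := by omega
        rw [this]; push_cast; ring
      rw [this]; simp
    rwa [e] at this

/-! ## the generators of the lattice of numerically trivial classes -/

theorem ncr_eq (A : Finset (Fin 10)) : Sf.ncr XV.Disj A =
    (((A ×ˢ A).filter fun p => XV.Disj p.1 p.2).card : ℤ) := by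
  unfold Sf.ncr
  congr 2
  exact Finset.filter_congr_decidable ..

theorem triv_amp : Triv XV.Disj ∅ (Finset.univ : Finset (Fin 10)) 1 := by
  refine ⟨by simp, by simp, by simp, ?_⟩
  rw [ncr_eq, ncr_eq]
  decide

theorem triv_ones (A B : Finset (Fin 10)) (h1 : Disjoint A B)
    (h2 : ∀ i ∈ A, ∀ j ∈ B, ¬ XV.Disj i j ∧ ¬ XV.Disj j i) (h3 : A.card = B.card)
    (h4 : - (A.card : ℤ) - B.card + (((A ×ˢ A).filter fun p => XV.Disj p.1 p.2).card : ℤ) +
      (((B ×ˢ B).filter fun p => XV.Disj p.1 p.2).card : ℤ) = 0) :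
    Triv XV.Disj A B 0 := by
  refine ⟨h1, h2, by rw [h3]; ring, ?_⟩
  rw [ncr_eq, ncr_eq]
  linarith

theorem triv0 : Triv XV.Disj ({4, 9} : Finset (Fin 10)) {5, 8} 0 :=
  triv_ones _ _ (by decide) (by decide) (by decide) (by decide)

theorem triv1 : Triv XV.Disj ({4, 9} : Finset (Fin 10)) {6, 7} 0 :=
  triv_ones _ _ (by decide) (by decide) (by decide) (by decide)

theorem triv2 : Triv XV.Disj ({1, 9} : Finset (Fin 10)) {2, 8} 0 :=
  triv_ones _ _ (by decide) (by decide) (by decide) (by decide)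

theorem triv3 : Triv XV.Disj ({1, 9} : Finset (Fin 10)) {3, 7} 0 :=
  triv_ones _ _ (by decide) (by decide) (by decide) (by decide)

theorem triv4 : Triv XV.Disj ({0, 9} : Finset (Fin 10)) {2, 6} 0 :=
  triv_ones _ _ (by decide) (by decide) (by decide) (by decide)

theorem nt_lin (c₀ : ℤ) (c : Fin 10 → ℤ) (h : DIS.NT c₀ c) (s : Fin 10) :
    2 * c₀ - c s + (∑ t ∈ Finset.univ.filter fun t => XV.Disj s t, c t) = 0 := by
  have := h s
  rw [Finset.sum_filter]
  convert this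

theorem nt_all (c₀ : ℤ) (c : Fin 10 → ℤ) (h : DIS.NT c₀ c) :
    2 * c₀ - c 0 + (c 7 + (c 8 + c 9)) = 0 ∧ 2 * c₀ - c 1 + (c 5 + (c 6 + c 9)) = 0 ∧
    2 * c₀ - c 2 + (c 4 + (c 6 + c 8)) = 0 ∧ 2 * c₀ - c 3 + (c 4 + (c 5 + c 7)) = 0 ∧
    2 * c₀ - c 4 + (c 2 + (c 3 + c 9)) = 0 ∧ 2 * c₀ - c 5 + (c 1 + (c 3 + c 8)) = 0 ∧
    2 * c₀ - c 6 + (c 1 + (c 2 + c 7)) = 0 ∧ 2 * c₀ - c 7 + (c 0 + (c 3 + c 6)) = 0 ∧
    2 * c₀ - c 8 + (c 0 + (c 2 + c 5)) = 0 ∧ 2 * c₀ - c 9 + (c 0 + (c 1 + c 4)) = 0 := by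
  have e : ∀ (s : Fin 10) (a b d : Fin 10), (Finset.univ.filter fun t => XV.Disj s t) = {a, b, d} →
      a ≠ b → a ≠ d → b ≠ d → 2 * c₀ - c s + (c a + (c b + c d)) = 0 := by
    intro s a b d h1 h2 h3 h4
    have := nt_lin c₀ c h s
    rw [h1, Finset.sum_insert, Finset.sum_pair h4] at this
    · exact this
    · simp [h2, h3]
  refine ⟨e 0 7 8 9 ?_ ?_ ?_ ?_, e 1 5 6 9 ?_ ?_ ?_ ?_, e 2 4 6 8 ?_ ?_ ?_ ?_, e 3 4 5 7 ?_ ?_ ?_ ?_,
    e 4 2 3 9 ?_ ?_ ?_ ?_, e 5 1 3 8 ?_ ?_ ?_ ?_, e 6 1 2 7 ?_ ?_ ?_ ?_, e 7 0 3 6 ?_ ?_ ?_ ?_,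
    e 8 0 2 5 ?_ ?_ ?_ ?_, e 9 0 1 4 ?_ ?_ ?_ ?_⟩ <;> decide

theorem nt_eq (c₀ : ℤ) (c : Fin 10 → ℤ) (h : DIS.NT c₀ c) (X : Fin 10 → ℝ) (h0 : ℝ) :
    (c₀ : ℝ) * h0 + ∑ s, (c s : ℝ) * X s =
      (c₀ : ℝ) * (h0 - ∑ s, X s) +
      ((-(c 5 + c₀) : ℤ) : ℝ) * ((X 4 + X 9) - (X 5 + X 8)) +
      ((c 4 + c 5 + 2 * c₀ : ℤ) : ℝ) * ((X 4 + X 9) - (X 6 + X 7)) +
      ((-(c 0 + c 2 + 2 * c₀) : ℤ) : ℝ) * ((X 1 + X 9) - (X 2 + X 8)) +
      ((c 0 + c 1 + c 2 + 3 * c₀ : ℤ) : ℝ) * ((X 1 + X 9) - (X 3 + X 7)) +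
      ((c 0 + c₀ : ℤ) : ℝ) * ((X 0 + X 9) - (X 2 + X 6)) := by
  obtain ⟨h1, h2, h3, h4, h5, h6, h7, h8, h9, h10⟩ := nt_all c₀ c h
  have e3 : (c 3 : ℝ) = -(c 0 + c 1 + c 2 + 4 * c₀) := by
    have : c 3 = -(c 0 + c 1 + c 2 + 4 * c₀) := by omega
    rw [this]; push_cast; ring
  have e6 : (c 6 : ℝ) = -(c 0 + c 4 + c 5 + 4 * c₀) := by
    have : c 6 = -(c 0 + c 4 + c 5 + 4 * c₀) := by omega
    rw [this]; push_cast; ring
  have e7 : (c 7 : ℝ) = -(c 0 + c 1 + c 2 + c 4 + c 5 + 6 * c₀) := by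
    have : c 7 = -(c 0 + c 1 + c 2 + c 4 + c 5 + 6 * c₀) := by omega
    rw [this]; push_cast; ring
  have e8 : (c 8 : ℝ) = c 0 + c 2 + c 5 + 2 * c₀ := by
    have : c 8 = c 0 + c 2 + c 5 + 2 * c₀ := by omega
    rw [this]; push_cast; ring
  have e9 : (c 9 : ℝ) = c 0 + c 1 + c 4 + 2 * c₀ := by
    have : c 9 = c 0 + c 1 + c 4 + 2 * c₀ := by omega
    rw [this]; push_cast; ring
  have hs : ∀ g : Fin 10 → ℝ, ∑ s, g s = g 0 + g 1 + g 2 + g 3 + g 4 + g 5 + g 6 + g 7 + g 8 + g 9 := by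
    intro g
    simp only [Fin.sum_univ_succ, Fin.sum_univ_zero]
    simp
    ring_nf
  rw [hs, hs, e3, e6, e7, e8, e9]
  push_cast
  ring

theorem psW_nt (hAVD : SRF.Stmt_AVD) (hSUP : SRF.Stmt_SUP) {p : ℕ} (hp : 1 < p)
    {Tb : Fin 10 → Set T.P} {N : ℝ} {X : Fin 10 → T.P → ℝ} (hO : T.NumOut XV.Disj Tb N X)
    (c₀ : ℤ) (c : Fin 10 → ℤ) (h : DIS.NT c₀ c) :
    PsW T p (fun O => (c₀ : ℝ) * T.H O + ∑ s, (c s : ℝ) * X s O) := by
  classical
  have hfin : ∀ s, (Function.support (X s)).Finite := hO.fin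
  have hHfin : (Function.support fun O => (T.H O : ℝ)).Finite := by
    refine (NUM_.supp_H hSUP T).subset fun O hO => ?_
    simp only [Function.mem_support, ne_eq, Int.cast_eq_zero] at hO ⊢
    exact hO
  -- the real divisors of the generators
  have hRD : ∀ (A B : Finset (Fin 10)) (d : ℤ), Triv XV.Disj A B d →
      PsW T p (T.RD X A B d) ∧ PsW T p (-(T.RD X A B d)) := by
    intro A B d hd
    refine ⟨psW_of_psEff T hp (hO.pse A B d hd), ?_⟩
    rw [NUM_.neg_RD]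
    exact psW_of_psEff T hp (hO.pse B A (-d) (NUM_.triv_symm hd))
  have hRDfin : ∀ (A B : Finset (Fin 10)) (d : ℤ), (Function.support (T.RD X A B d)).Finite := by
    intro A B d
    refine (hHfin.union (Set.finite_iUnion hfin)).subset ?_
    intro O hO
    by_contra h
    simp only [Set.mem_union, Function.mem_support, ne_eq, Set.mem_iUnion, not_or, not_not,
      not_exists] at h
    apply hO
    simp only [Sf.RD, h.1, h.2, Finset.sum_const_zero, mul_zero, add_zero, sub_self]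
  have hz : ∀ (a : ℤ) (A B : Finset (Fin 10)) (d : ℤ), Triv XV.Disj A B d →
      PsW T p (fun O => (a : ℝ) * T.RD X A B d O) ∧
      (Function.support fun O => (a : ℝ) * T.RD X A B d O).Finite := by
    intro a A B d hd
    obtain ⟨h1, h2⟩ := hRD A B d hd
    refine ⟨psW_zsmul T h1 h2 a, (hRDfin A B d).subset fun O hO => ?_⟩
    intro h0
    apply hO
    simp only [h0, mul_zero]
  have hadd : ∀ R R' : T.P → ℝ, PsW T p R ∧ (Function.support R).Finite →
      PsW T p R' ∧ (Function.support R').Finite →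
      PsW T p (R + R') ∧ (Function.support (R + R')).Finite := by
    intro R R' hR hR'
    refine ⟨psW_add T hAVD hSUP hp hR.2 hR'.2 hR.1 hR'.1, (hR.2.union hR'.2).subset ?_⟩
    intro O hO
    by_contra h
    simp only [Set.mem_union, Function.mem_support, ne_eq, not_or, not_not] at h
    apply hO
    simp only [Pi.add_apply, h.1, h.2, add_zero]
  have key := hadd _ _ (hadd _ _ (hadd _ _ (hadd _ _ (hadd _ _
    (hz c₀ _ _ _ triv_amp) (hz (-(c 5 + c₀)) _ _ _ triv0))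
    (hz (c 4 + c 5 + 2 * c₀) _ _ _ triv1)) (hz (-(c 0 + c 2 + 2 * c₀)) _ _ _ triv2))
    (hz (c 0 + c 1 + c 2 + 3 * c₀) _ _ _ triv3)) (hz (c 0 + c₀) _ _ _ triv4)
  have e : (fun O => (c₀ : ℝ) * T.H O + ∑ s, (c s : ℝ) * X s O) =
      (fun O => (c₀ : ℝ) * T.RD X ∅ Finset.univ 1 O) +
      (fun O => ((-(c 5 + c₀) : ℤ) : ℝ) * T.RD X {4, 9} {5, 8} 0 O) +
      (fun O => ((c 4 + c 5 + 2 * c₀ : ℤ) : ℝ) * T.RD X {4, 9} {6, 7} 0 O) +
      (fun O => ((-(c 0 + c 2 + 2 * c₀) : ℤ) : ℝ) * T.RD X {1, 9} {2, 8} 0 O) +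
      (fun O => ((c 0 + c 1 + c 2 + 3 * c₀ : ℤ) : ℝ) * T.RD X {1, 9} {3, 7} 0 O) +
      (fun O => ((c 0 + c₀ : ℤ) : ℝ) * T.RD X {0, 9} {2, 6} 0 O) := by
    funext O
    simp only [Pi.add_apply]
    rw [nt_eq c₀ c h (fun s => X s O) (T.H O)]
    have h2 : ∀ a b : Fin 10, a ≠ b → ∑ j ∈ ({a, b} : Finset (Fin 10)), X j O = X a O + X b O :=
      fun a b hab => Finset.sum_pair hab
    simp only [Sf.RD]
    rw [h2 4 9 (by decide), h2 5 8 (by decide), h2 6 7 (by decide), h2 1 9 (by decide),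
      h2 2 8 (by decide), h2 3 7 (by decide), h2 0 9 (by decide), h2 2 6 (by decide),
      Finset.sum_empty]
    push_cast
    ring
  rw [e]
  exact key.1

theorem big_of (hAVD : SRF.Stmt_AVD) (hSUP : SRF.Stmt_SUP) {p : ℕ} (hp : 1 < p)
    {Tb : Fin 10 → Set T.P} {N : ℝ} (hN : 0 < N) (hI : T.NumIn XV.Disj Tb N)
    {X : Fin 10 → T.P → ℝ} (hO : T.NumOut XV.Disj Tb N X) :
    ∃ (CC : DIS.Edge → Finset (PP T.k T.x T.y)) (r : PP T.k T.x T.y → ℝ),
      (∀ s, ∀ e ∈ CC s, e ∈ Tb s) ∧ DIS.Big T.x T.y p CC r := by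
  classical
  let CC : Fin 10 → Finset T.P := fun s => (hO.fin s).toFinset
  let r : T.P → ℝ := fun e => ∑ s, X s e
  have hCC : ∀ s e, e ∈ CC s ↔ X s e ≠ 0 := by
    intro s e
    simp [CC]
  have hone : ∀ i j, i ≠ j → ∀ e, X i e ≠ 0 → X j e = 0 := by
    intro i j hij e hi
    by_contra hj
    exact Set.disjoint_left.mp (hI.disj i j hij) (hO.supp i e hi) (hO.supp j e hj)
  have hr : ∀ s e, X s e ≠ 0 → r e = X s e := by
    intro s e h
    exact Finset.sum_eq_single_of_mem s (Finset.mem_univ s) fun j _ hj => hone s j (Ne.symm hj) e h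
  have hX : ∀ s e, (if e ∈ CC s then r e else 0) = X s e := by
    intro s e
    by_cases h : X s e = 0
    · rw [if_neg (by rw [hCC]; simp [h]), h]
    · rw [if_pos ((hCC s e).mpr h), hr s e h]
  refine ⟨CC, r, fun s e he => hO.supp s e ((hCC s e).mp he), ?_, ?_, ?_, ?_, ?_⟩
  · intro s e he
    rw [hCC] at he
    rw [hr s e he]
    exact lt_of_le_of_ne (hO.nonneg s e) (Ne.symm he)
  · intro s
    rw [Finset.nonempty_iff_ne_empty]
    intro h0
    have h1 := hO.deg s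
    have h2 : ∀ e, X s e = 0 := by
      intro e
      by_contra h
      have := (hCC s e).mpr h
      rw [h0] at this
      simp at this
    have h3 : ∑ᶠ e, X s e * (T.degc e : ℝ) = 0 := by
      rw [← finsum_zero (α := T.P)]
      exact finsum_congr fun e => by rw [h2 e, zero_mul]
    rw [h3] at h1
    linarith
  · intro s s' hs
    rw [Finset.disjoint_left]
    intro e he he'
    rw [hCC] at he he'
    exact he' (hone s s' hs e he)
  · intro s s' hs hns e he e' he' V hV h1 h2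
    rw [hCC] at he he'
    exact hI.nomeet s s' hs hns e (hO.supp s e he) e' (hO.supp s' e' he') V hV ⟨h1, h2⟩
  · let C : T.P → ℤ := fun O => T.H O + if ∃ s, X s O ≠ 0 then 1 else 0
    have hCfin : {e | C e ≠ 0}.Finite := by
      refine ((NUM_.supp_H hSUP T).union (Set.finite_iUnion hO.fin)).subset ?_
      intro O hO'
      by_contra h
      simp only [Set.mem_union, Function.mem_support, ne_eq, Set.mem_iUnion, not_or, not_not,
        not_exists] at h
      apply hO'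
      simp [C, h.1, h.2]
    refine ⟨C, hCfin, fun c₀ c hnt n => ?_⟩
    have hps := psW_nt T hAVD hSUP hp hO c₀ c hnt
    let D : T.P → ℤ := fun e => C e + DIS.rdiv T.x T.y CC r c₀ c n e
    have hrd : ∀ e, DIS.rdiv T.x T.y CC r c₀ c n e =
        n * c₀ * T.H e + ⌊(n : ℝ) * ∑ s, (c s : ℝ) * X s e⌋ := by
      intro e
      unfold DIS.rdiv
      congr 3
      exact Finset.sum_congr rfl fun s _ => by rw [← hX s e]
    have hD : T.Dv D := by
      refine ((NUM_.supp_H hSUP T).union (Set.finite_iUnion hO.fin)).subset ?_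
      intro O hO'
      by_contra h
      simp only [Set.mem_union, Function.mem_support, ne_eq, Set.mem_iUnion, not_or, not_not,
        not_exists] at h
      apply hO'
      simp only [D]
      rw [hrd]
      simp [C, h.1, h.2]
    have h1 := hps D n 1 hD one_pos (fun O => by
      simp only [D]
      rw [hrd]
      by_cases h : ∃ s, X s O ≠ 0
      · have hC : C O = T.H O + 1 := by simp only [C]; rw [if_pos h]
        rw [hC]
        push_cast
        have := (Int.sub_one_lt_floor ((n : ℝ) * ∑ s, (c s : ℝ) * X s O)).le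
        linarith
      · have hC : C O = T.H O := by simp only [C]; rw [if_neg h]; ring
        push Not at h
        have h0 : ∑ s, (c s : ℝ) * X s O = 0 := Finset.sum_eq_zero fun s _ => by rw [h s, mul_zero]
        rw [hC, h0]
        push_cast
        simp
        linarith)
    obtain ⟨m, f, hf0, hf⟩ := h1.exists
    refine ⟨m, f, hf0, ?_⟩
    have e1 : (fun e => (p : ℤ) ^ m * (C e + DIS.rdiv T.x T.y CC r c₀ c n e)) =
        ((p ^ m : ℕ) : ℤ) • D := by
      funext e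
      simp [D]
    rw [e1]
    exact hf

end Bridge_

/-- NUMERICS, from the special fibre bounds. -/
theorem stmt_num (hNIN : SFB.Stmt_NIN) (hNUM : Stmt_NUM) (hAVD : SRF.Stmt_AVD)
    (hSUP : SRF.Stmt_SUP) : DIS.Stmt_Num := by
  intro p hp J _ E hE T hT
  have hI := hNIN p J E hE T hT
  obtain ⟨X, hO⟩ := hNUM (SFB.sf T) (Fin 10) XV.Disj _ _ hI
  have hN : (0 : ℝ) < (DIS.deg T.K T.x T.y : ℝ) / 20 := by
    have h1 : 0 < DIS.deg T.K T.x T.y := by
      have := T.surf.fin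
      exact Module.finrank_pos
    have : (0 : ℝ) < DIS.deg T.K T.x T.y := by exact_mod_cast h1
    positivity
  obtain ⟨CC, r, h1, h2⟩ := Bridge_.big_of (SFB.sf T) hAVD hSUP hp.out.one_lt hN hI hO
  exact ⟨CC, r, h1, h2⟩

end Pool.Agent.NUM
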