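import Pool.Agent.SRF.Defs

/-!
# Numerics on surfaces: dimensions of spaces of sections

`Sf` = surface over an algebraically closed field in the sense of `Pool.Agent.SRF`. Divisors are
functions `T.P → ℤ` with finite support.
-/

set_option autoImplicit false

noncomputable section

namespace Pool.Agent.NUM

open Pool.Agent.SRF Filter

/-- A surface over an algebraically closed field. -/
structure Sf where
  k : Type
  F : Type
  [fk : Field k]
  [ack : IsAlgClosed k]
  [fF : Field F]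
  [alg : Algebra k F]
  x : F
  y : F
  surf : IsSurf k x y

attribute [instance] Sf.fk Sf.ack Sf.fF Sf.alg

namespace Sf

variable (T : Sf)

/-- prime divisors -/
abbrev P : Type := PP T.k T.x T.y

/-- the line at infinity -/
abbrev H : T.P → ℤ := SRF.H T.k T.x T.y

/-- sections -/
abbrev L (D : T.P → ℤ) : Submodule T.k T.F := SRF.L T.k T.x T.y D

/-- order -/
abbrev o (e : T.P) (f : T.F) : ℤ := SRF.ord e.1 f

/-- dimension of `L(D)` -/
def hh (D : T.P → ℤ) : ℤ := (Module.finrank T.k (T.L D) : ℤ)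

/-- the prime divisor `e` as a divisor -/
def pr (e : T.P) : T.P → ℤ := fun O => open scoped Classical in if O = e then 1 else 0

/-- the jump of the dimension at `e` -/
def sl (e : T.P) (D : T.P → ℤ) : ℤ := T.hh D - T.hh (D - T.pr e)

/-- degree over the plane -/
def dg : ℤ := (Module.finrank (IntermediateField.adjoin T.k ({T.x, T.y} : Set T.F)) T.F : ℤ)

/-- divisors: finite support -/
def Dv (D : T.P → ℤ) : Prop := (Function.support D).Finite

/-- no valuation ring over the constants has its centre on both curves -/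
def NoMeet (e e' : T.P) : Prop :=
  ∀ V : ValuationSubring T.F, (∀ c : T.k, algebraMap T.k T.F c ∈ V) →
    ¬ (thr T.k T.x T.y e.1 V ∧ thr T.k T.x T.y e'.1 V)

/-- `d` is the degree of the curve `e`: the restrictions of the sections of `n H` have dimension
`≥ d n - C`, and restrictions of sections which are regular along `e` have dimension `≤ d (n+1)`. -/
structure IsDeg (e : T.P) (d : ℤ) : Prop where
  pos : 1 ≤ d
  lower : ∃ C : ℤ, ∀ n : ℕ, d * n - C ≤ T.sl e ((n : ℤ) • T.H)
  upper : ∀ (n : ℕ) (D : T.P → ℤ), T.Dv D → D e = n * T.H e →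
    (∀ O, n * T.H O < D O → T.NoMeet e O) → T.sl e D ≤ d * (n + 1)

/-- the degree of a curve -/
def degc (e : T.P) : ℤ := open scoped Classical in if h : ∃ d, T.IsDeg e d then h.choose else 0

/-- round down the multiple `n X` of a real divisor -/
def fl (n : ℕ) (X : T.P → ℝ) : T.P → ℤ := fun O => ⌊(n : ℝ) * X O⌋

/-- sections of `n H` with arbitrary poles along the curves of the set `S` -/
def WW (S : Set T.P) (n : ℕ) : Submodule T.k T.F where
  carrier := {f | f = 0 ∨ ∀ O : T.P, O ∉ S → - (n * T.H O) ≤ T.o O f}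
  zero_mem' := Or.inl rfl
  add_mem' := by
    intro f g hf hg
    by_cases h0 : f = 0
    · rw [h0, zero_add]; exact hg
    by_cases h1 : g = 0
    · rw [h1, add_zero]; exact hf
    by_cases h2 : f + g = 0
    · exact Or.inl h2
    right
    intro O hO
    exact le_trans (le_min (hf.resolve_left h0 O hO) (hg.resolve_left h1 O hO))
      (O.isOrd.add h0 h1 h2)
  smul_mem' := by
    intro c f hf
    by_cases h0 : f = 0
    · left; rw [h0, smul_zero]
    by_cases hc : c = 0
    · left; rw [hc, zero_smul]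
    right
    intro O hO
    have : T.o O (c • f) = T.o O f := by
      rw [Algebra.smul_def]
      change SRF.ord O.1 _ = _
      rw [O.isOrd.mul _ _ (by rw [Ne, map_eq_zero]; exact hc) h0, ord_const _ _ _ O c hc, zero_add]
    rw [this]
    exact hf.resolve_left h0 O hO

/-- sections of `n H` with poles along `S` whose products with all sections of `q H` with poles
along `S'` are regular along `S'` -/
def WZ (S S' : Set T.P) (n q : ℕ) : Submodule T.k T.F where
  carrier := {f | f ∈ T.WW S n ∧ ∀ g ∈ T.WW S' q, g ≠ 0 → f = 0 ∨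
    ∀ O ∈ S', - ((n + q : ℕ) * T.H O) - T.o O g ≤ T.o O f}
  zero_mem' := ⟨Submodule.zero_mem _, fun _ _ _ => Or.inl rfl⟩
  add_mem' := by
    rintro f f' ⟨hf, hf'⟩ ⟨hg, hg'⟩
    refine ⟨Submodule.add_mem _ hf hg, fun g hgm hg0 => ?_⟩
    by_cases h0 : f = 0
    · rw [h0, zero_add]; exact hg' g hgm hg0
    by_cases h1 : f' = 0
    · rw [h1, add_zero]; exact hf' g hgm hg0
    by_cases h2 : f + f' = 0
    · exact Or.inl h2
    right
    intro O hO
    exact le_trans (le_min ((hf' g hgm hg0).resolve_left h0 O hO)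
      ((hg' g hgm hg0).resolve_left h1 O hO)) (O.isOrd.add h0 h1 h2)
  smul_mem' := by
    rintro c f ⟨hf, hf'⟩
    refine ⟨Submodule.smul_mem _ _ hf, fun g hgm hg0 => ?_⟩
    by_cases h0 : f = 0
    · left; rw [h0, smul_zero]
    by_cases hc : c = 0
    · left; rw [hc, zero_smul]
    right
    intro O hO
    have : T.o O (c • f) = T.o O f := by
      rw [Algebra.smul_def]
      change SRF.ord O.1 _ = _
      rw [O.isOrd.mul _ _ (by rw [Ne, map_eq_zero]; exact hc) h0, ord_const _ _ _ O c hc, zero_add]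
    rw [this]
    exact (hf' g hgm hg0).resolve_left h0 O hO

/-- pseudo-effective real divisor: multiples of integral divisors `≥ ε H + n R` have sections -/
def PsEff (R : T.P → ℝ) : Prop :=
  ∀ (D : T.P → ℤ) (n : ℕ) (ε : ℝ), T.Dv D → 0 < ε →
    (∀ O, ε * T.H O + n * R O ≤ D O) →
    ∀ᶠ m : ℕ in atTop, ∃ f : T.F, f ≠ 0 ∧ f ∈ T.L ((m : ℤ) • D)

/-! ## input and output of the numerics -/

/-- The input: ten (or `J`) tubes with crossing relation `cr`, surface of degree `20 N` over the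
plane, `L² = 20 N`, `L D_j = 2`, `D_j² = -1`, `D_i D_j = 1` if they cross. -/
structure NumIn {J : Type} (cr : J → J → Prop) (Tb : J → Set T.P) (N : ℝ) : Prop where
  deg : (T.dg : ℝ) = 20 * N
  sym : ∀ i j, cr i j → cr j i
  irr : ∀ i, ¬ cr i i
  disj : ∀ i j, i ≠ j → Disjoint (Tb i) (Tb j)
  nomeet : ∀ i j, i ≠ j → ¬ cr i j → ∀ e ∈ Tb i, ∀ e' ∈ Tb j, T.NoMeet e e'
  findim : ∀ j, ∀ n : ℕ, FiniteDimensional T.k (T.WW (Tb j) n)
  up : ∀ j, ∀ ε : ℝ, 0 < ε → ∀ᶠ n : ℕ in atTop,
    (Module.finrank T.k (T.WW (Tb j) n) : ℝ) ≤ (12 * N + ε) * n ^ 2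
  lo : ∀ j, ∀ ε : ℝ, 0 < ε → ∀ᶠ n : ℕ in atTop,
    (12 * N - ε) * n ^ 2 ≤ (Module.finrank T.k (T.WW (Tb j) n) : ℝ)
  cross0 : ∀ j, ∃ C : ℝ, ∀ ε : ℝ, 0 < ε → ∃ n₀ : ℕ, ∀ n q : ℕ, n₀ ≤ q → q ≤ n →
    (Module.finrank T.k (T.WZ ∅ (Tb j) n q) : ℝ) ≤
      N * (10 * n ^ 2 - 4 * q * n) + ε * n ^ 2 + C * q ^ 2
  cross : ∀ i j, cr i j → ∃ C : ℝ, ∀ ε : ℝ, 0 < ε → ∃ n₀ : ℕ, ∀ n q : ℕ, n₀ ≤ q → q ≤ n →
    (Module.finrank T.k (T.WZ (Tb i) (Tb j) n q) : ℝ) ≤
      N * (12 * n ^ 2 - 8 * q * n) + ε * n ^ 2 + C * q ^ 2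

/-- the number of ordered crossing pairs in `A` -/
def ncr {J : Type} (cr : J → J → Prop) (A : Finset J) : ℤ :=
  open scoped Classical in (((A ×ˢ A).filter fun p => cr p.1 p.2).card : ℤ)

/-- `c L + ∑_A D_j - ∑_B D_j` is numerically trivial (and `A`, `B` do not meet) -/
structure Triv {J : Type} (cr : J → J → Prop) (A B : Finset J) (c : ℤ) : Prop where
  disj : Disjoint A B
  nocr : ∀ i ∈ A, ∀ j ∈ B, ¬ cr i j ∧ ¬ cr j i
  lin : 10 * c + A.card - B.card = 0
  quad : 20 * c ^ 2 + 4 * c * (A.card - B.card) - A.card - B.card + ncr cr A + ncr cr B = 0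

/-- the real divisor `c H + ∑_A X_j - ∑_B X_j` -/
def RD {J : Type} (X : J → T.P → ℝ) (A B : Finset J) (c : ℤ) : T.P → ℝ := fun O =>
  c * T.H O + ∑ j ∈ A, X j O - ∑ j ∈ B, X j O

/-- The output: positive real divisors in the tubes, such that the numerically trivial
combinations are pseudo-effective. -/
structure NumOut {J : Type} (cr : J → J → Prop) (Tb : J → Set T.P) (N : ℝ)
    (X : J → T.P → ℝ) : Prop where
  fin : ∀ j, (Function.support (X j)).Finite
  nonneg : ∀ j e, 0 ≤ X j e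
  supp : ∀ j e, X j e ≠ 0 → e ∈ Tb j
  deg : ∀ j, ∑ᶠ e, X j e * T.degc e = 2 * N
  pse : ∀ (A B : Finset J) (c : ℤ), Triv cr A B c → T.PsEff (T.RD X A B c)

end Sf

end Pool.Agent.NUM
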