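import Pool.Agent.NUM.Stmts
import Pool.Agent.SRF.Stmts

set_option autoImplicit false

noncomputable section

namespace Pool.Agent.NUM

open Pool.Agent.SRF Filter

namespace MLH_

variable (T : Sf)

theorem H_nonneg (O : T.P) : 0 ≤ T.H O := le_max_left _ _

theorem H_supp (hSUP : SRF.Stmt_SUP) : {O : T.P | T.H O ≠ 0}.Finite := by
  have hx : T.x ≠ 0 := by
    have := T.surf.indep.ne_zero (0 : Fin 2); simpa using this
  have hy : T.y ≠ 0 := by
    have := T.surf.indep.ne_zero (1 : Fin 2); simpa using this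
  refine ((hSUP T.k T.F T.x T.y T.surf T.x hx).union
    (hSUP T.k T.F T.x T.y T.surf T.y hy)).subset ?_
  intro O hO
  by_contra h
  have h1 : SRF.ord O.1 T.x = 0 := by
    by_contra h1; exact h (Or.inl h1)
  have h2 : SRF.ord O.1 T.y = 0 := by
    by_contra h2; exact h (Or.inr h2)
  apply hO
  change max 0 (max (- ord O.1 T.x) (- ord O.1 T.y)) = 0
  rw [h1, h2]; simp

theorem mL {D : T.P → ℤ} {f : T.F} (h : f ∈ T.L D) (h0 : f ≠ 0) (O : T.P) :
    - D O ≤ ord O.1 f := Or.resolve_left h h0 O

theorem fd (hFDL : SRF.Stmt_FDL) (D : T.P → ℤ) (hD : T.Dv D) :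
    FiniteDimensional T.k (T.L D) := hFDL T.k T.F T.x T.y T.surf D hD

end MLH_

open MLH_ in
theorem mlh_proof (hRAL : Stmt_RAL) (hSUP : SRF.Stmt_SUP) (hFDL : SRF.Stmt_FDL) : Stmt_MLH := by
  classical
  intro T D E w hD hE hw0 hw
  have hHf := H_supp T hSUP
  have hfin : {O : T.P | D O ≠ 0 ∨ E O ≠ 0 ∨ T.o O w ≠ 0 ∨ T.H O ≠ 0}.Finite := by
    refine (hD.union (hE.union ((hSUP T.k T.F T.x T.y T.surf w hw0).union hHf))).subset ?_
    intro O hO
    exact hO
  obtain ⟨c, hc0, hcH, -, hcE⟩ := hRAL T hfin.toFinset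
  set l := T.x - algebraMap T.k T.F c with hl
  have hz : ∀ O : T.P, T.o O l = - T.H O ∨ (D O = 0 ∧ E O = 0 ∧ T.o O w = 0 ∧ T.H O = 0) := by
    intro O
    by_cases h : O ∈ hfin.toFinset
    · exact Or.inl (hcE O h)
    · right
      rw [Set.Finite.mem_toFinset] at h
      by_contra hcon
      apply h
      change D O ≠ 0 ∨ E O ≠ 0 ∨ T.o O w ≠ 0 ∨ T.H O ≠ 0
      by_contra h2
      push Not at h2
      exact hcon h2
  have hHdv : T.Dv T.H := hHf
  have hd1 : T.Dv (D - T.H) := (hD.union hHdv).subset (Function.support_sub _ _)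
  have hd2 : T.Dv (D + E) := (hD.union hE).subset (Function.support_add _ _)
  have hd3 : T.Dv (D + E - T.H) := (hd2.union hHdv).subset (Function.support_sub _ _)
  haveI := fd T hFDL D hD
  haveI := fd T hFDL _ hd1
  haveI := fd T hFDL _ hd2
  haveI := fd T hFDL _ hd3
  let A : Submodule T.k T.F := (T.L D).map (LinearMap.mulLeft T.k w)
  let B : Submodule T.k T.F := (T.L (D + E - T.H)).map (LinearMap.mulLeft T.k l)
  have hwi : Function.Injective (LinearMap.mulLeft T.k w) := fun a b h => by
    have : w * a = w * b := h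
    exact mul_left_cancel₀ hw0 this
  have hli : Function.Injective (LinearMap.mulLeft T.k l) := fun a b h => by
    have : l * a = l * b := h
    exact mul_left_cancel₀ hc0 this
  have eA : Module.finrank T.k A = Module.finrank T.k (T.L D) :=
    (LinearEquiv.finrank_eq (Submodule.equivMapOfInjective _ hwi (T.L D))).symm
  have eB : Module.finrank T.k B = Module.finrank T.k (T.L (D + E - T.H)) :=
    (LinearEquiv.finrank_eq (Submodule.equivMapOfInjective _ hli (T.L (D + E - T.H)))).symm
  have hA : A ≤ T.L (D + E) := by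
    rintro _ ⟨g, hg, rfl⟩
    change w * g ∈ T.L (D + E)
    by_cases hg0 : g = 0
    · rw [hg0, mul_zero]; exact Submodule.zero_mem _
    right
    intro O
    rw [O.isOrd.mul _ _ hw0 hg0]
    have h1 := mL T hw hw0 O
    have h2 := mL T hg hg0 O
    change -(D O + E O) ≤ _
    omega
  have hB : B ≤ T.L (D + E) := by
    rintro _ ⟨g, hg, rfl⟩
    change l * g ∈ T.L (D + E)
    by_cases hg0 : g = 0
    · rw [hg0, mul_zero]; exact Submodule.zero_mem _
    right
    intro O
    rw [O.isOrd.mul _ _ hc0 hg0]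
    have h1 := mL T hcH hc0 O
    have h2 := mL T hg hg0 O
    change -(D O + E O) ≤ _
    change -(D O + E O - T.H O) ≤ _ at h2
    omega
  haveI : FiniteDimensional T.k A := Submodule.finiteDimensional_of_le hA
  haveI : FiniteDimensional T.k B := Submodule.finiteDimensional_of_le hB
  have hinf : Module.finrank T.k ↥(A ⊓ B) ≤ Module.finrank T.k (T.L (D - T.H)) := by
    have hmem : ∀ p : ↥(A ⊓ B), (p : T.F) / (w * l) ∈ T.L (D - T.H) := by
      rintro ⟨p, ⟨g, hg, rfl⟩, ⟨g', hg', hgg⟩⟩
      change w * g / (w * l) ∈ T.L (D - T.H)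
      have hgg' : l * g' = w * g := hgg
      by_cases hg0 : g = 0
      · rw [hg0, mul_zero, zero_div]; exact Submodule.zero_mem _
      have hg0' : g' ≠ 0 := by
        rintro rfl
        rw [mul_zero] at hgg'
        exact (mul_ne_zero hw0 hg0) hgg'.symm
      have h3 : w * g / (w * l) = g / l := by field_simp
      have h4 : g / l = g' / w := by
        rw [div_eq_div_iff hc0 hw0]
        linear_combination -hgg'
      rw [h3]
      right
      intro O
      have h1 := mL T hg hg0 O
      have h2 := mL T hg' hg0' O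
      change -(D O - T.H O) ≤ _
      change -(D O + E O - T.H O) ≤ _ at h2
      rcases hz O with h | ⟨ha, hb, hc, hd⟩
      · have h5 : ord O.1 (g / l) = ord O.1 g - ord O.1 l := by
          rw [div_eq_mul_inv, O.isOrd.mul _ _ hg0 (inv_ne_zero hc0), O.isOrd.inv hc0]; ring
        rw [h5]
        have h6 : ord O.1 l = - T.H O := h
        omega
      · have h5 : ord O.1 (g' / w) = ord O.1 g' - ord O.1 w := by
          rw [div_eq_mul_inv, O.isOrd.mul _ _ hg0' (inv_ne_zero hw0), O.isOrd.inv hw0]; ring
        rw [h4, h5]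
        have h6 : ord O.1 w = 0 := hc
        omega
    let ψ : ↥(A ⊓ B) →ₗ[T.k] T.L (D - T.H) :=
      { toFun := fun p => ⟨(p : T.F) / (w * l), hmem p⟩
        map_add' := fun p q => by
          apply Subtype.ext
          change ((p + q : ↥(A ⊓ B)) : T.F) / (w * l) = (p : T.F) / (w * l) + (q : T.F) / (w * l)
          simp [add_div]
        map_smul' := fun a p => by
          apply Subtype.ext
          change ((a • p : ↥(A ⊓ B)) : T.F) / (w * l) = a • ((p : T.F) / (w * l))
          simp [smul_div_assoc] }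
    have hψ : Function.Injective ψ := by
      rw [injective_iff_map_eq_zero]
      intro p hp
      have h1 : (p : T.F) / (w * l) = 0 := congrArg Subtype.val hp
      apply Subtype.ext
      rcases div_eq_zero_iff.mp h1 with h | h
      · exact h
      · exact absurd h (mul_ne_zero hw0 hc0)
    exact LinearMap.finrank_le_finrank_of_injective hψ
  have d1 := Submodule.finrank_sup_add_finrank_inf_eq A B
  have d2 : Module.finrank T.k ↥(A ⊔ B) ≤ Module.finrank T.k (T.L (D + E)) :=
    Submodule.finrank_mono (sup_le hA hB)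
  rw [eA, eB] at d1
  unfold Sf.hh
  omega

end Pool.Agent.NUM
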