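import Pool.Agent.NUM.Stmts
import Pool.Agent.SRF.Stmts

/-!
# NUM: the output of the numerics
-/

set_option autoImplicit false

namespace Pool.Agent.NUM

open Pool.Agent.SRF Filter

namespace NUM_

open Sf

variable (T : Sf) {J : Type}

/-- A sum with at most one nonzero term. -/
theorem sum_single {M : Type} [AddCommMonoid M] (A : Finset J) (g : J → M) (i : J) (hi : i ∈ A)
    (h : ∀ j ∈ A, j ≠ i → g j = 0) : ∑ j ∈ A, g j = g i := by
  classical
  exact Finset.sum_eq_single_of_mem i hi h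

theorem floor_RD (X : J → T.P → ℝ) (A B : Finset J) (hAB : Disjoint A B) (c : ℤ)
    (h1 : ∀ i j, i ≠ j → ∀ e, X i e ≠ 0 → X j e = 0) (n : ℕ) :
    T.fl n (T.RD X A B c) =
      ((n : ℤ) * c) • T.H + ∑ i ∈ A, T.fl n (X i) - ∑ i ∈ B, T.cl n (X i) := by
  funext O
  have hl : T.fl n (T.RD X A B c) O =
      (n : ℤ) * c * T.H O + ⌊(n : ℝ) * (∑ i ∈ A, X i O - ∑ i ∈ B, X i O)⌋ := by
    unfold Sf.fl Sf.RD
    have : (n : ℝ) * (c * T.H O + ∑ j ∈ A, X j O - ∑ j ∈ B, X j O) =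
        (((n : ℤ) * c * T.H O : ℤ) : ℝ) + (n : ℝ) * (∑ i ∈ A, X i O - ∑ i ∈ B, X i O) := by
      push_cast; ring
    rw [this, Int.floor_intCast_add]
  have hr : (((n : ℤ) * c) • T.H + ∑ i ∈ A, T.fl n (X i) - ∑ i ∈ B, T.cl n (X i)) O =
      (n : ℤ) * c * T.H O + (∑ i ∈ A, ⌊(n : ℝ) * X i O⌋ - ∑ i ∈ B, ⌈(n : ℝ) * X i O⌉) := by
    simp only [Pi.add_apply, Pi.sub_apply, Pi.smul_apply, smul_eq_mul, Finset.sum_apply, Sf.fl,
      Sf.cl]
    ring
  rw [hl, hr]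
  congr 1
  have hzA : ∀ i ∈ A, (∀ j ∈ A, j ≠ i → X j O = 0) →
      ∑ j ∈ A, X j O = X i O ∧ ∑ j ∈ A, ⌊(n : ℝ) * X j O⌋ = ⌊(n : ℝ) * X i O⌋ := by
    intro i hi h
    exact ⟨sum_single A _ i hi h, sum_single A _ i hi fun j hj hji => by
      simp [h j hj hji]⟩
  have hzB : ∀ i ∈ B, (∀ j ∈ B, j ≠ i → X j O = 0) →
      ∑ j ∈ B, X j O = X i O ∧ ∑ j ∈ B, ⌈(n : ℝ) * X j O⌉ = ⌈(n : ℝ) * X i O⌉ := by
    intro i hi h
    exact ⟨sum_single B _ i hi h, sum_single B _ i hi fun j hj hji => by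
      simp [h j hj hji]⟩
  by_cases hA : ∃ i ∈ A, X i O ≠ 0
  · obtain ⟨i, hi, hne⟩ := hA
    have hB0 : ∀ j ∈ B, X j O = 0 := fun j hj =>
      h1 i j (fun h => Finset.disjoint_left.mp hAB hi (h ▸ hj)) O hne
    obtain ⟨h2, h3⟩ := hzA i hi fun j _ hji => h1 i j (Ne.symm hji) O hne
    rw [h2, h3, Finset.sum_eq_zero hB0, Finset.sum_eq_zero fun j hj => by simp [hB0 j hj]]
    simp
  · push Not at hA
    by_cases hB : ∃ i ∈ B, X i O ≠ 0
    · obtain ⟨i, hi, hne⟩ := hB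
      obtain ⟨h2, h3⟩ := hzB i hi fun j _ hji => h1 i j (Ne.symm hji) O hne
      rw [h2, h3, Finset.sum_eq_zero hA, Finset.sum_eq_zero fun j hj => by simp [hA j hj]]
      rw [zero_sub, zero_sub, mul_neg, Int.floor_neg]
    · push Not at hB
      rw [Finset.sum_eq_zero hA, Finset.sum_eq_zero hB,
        Finset.sum_eq_zero fun j hj => by simp [hA j hj],
        Finset.sum_eq_zero fun j hj => by simp [hB j hj]]
      simp

theorem neg_RD (X : J → T.P → ℝ) (A B : Finset J) (c : ℤ) :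
    - T.RD X A B c = T.RD X B A (-c) := by
  funext O
  simp only [Pi.neg_apply, Sf.RD]
  push_cast
  ring

theorem triv_symm {cr : J → J → Prop} {A B : Finset J} {c : ℤ} (h : Triv cr A B c) :
    Triv cr B A (-c) := by
  refine ⟨h.disj.symm, fun i hi j hj => ⟨(h.nocr j hj i hi).2, (h.nocr j hj i hi).1⟩, ?_, ?_⟩
  · have := h.lin
    linarith
  · have := h.quad
    linarith

theorem volume [Fintype J] {cr : J → J → Prop} {Tb : J → Set T.P} {N : ℝ}
    (hVOL : Stmt_VOL) (hN : T.NumIn cr Tb N) (X : J → T.P → ℝ)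
    (hX : ∀ j, T.Tub N (Tb j) (X j)) (A B : Finset J) (c : ℤ) (h : Triv cr A B c) :
    ∃ M₀ : ℕ, ∀ M : ℕ, M₀ ≤ M → ∀ ε : ℝ, 0 < ε → ∀ᶠ n : ℕ in atTop,
      ((T.dg : ℝ) * M ^ 2 / 2 - ε) * n ^ 2 ≤
        (T.hh (((M * n : ℕ) : ℤ) • T.H + T.fl n (T.RD X A B c)) : ℝ) := by
  have h1 : ∀ i j, i ≠ j → ∀ e, X i e ≠ 0 → X j e = 0 := by
    intro i j hij e hi
    by_contra hj
    exact Set.disjoint_left.mp (hN.disj i j hij) ((hX i).supp e hi) ((hX j).supp e hj)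
  obtain ⟨M₀, hM₀⟩ := hVOL T J cr Tb N hN X hX A B h.disj h.nocr
  refine ⟨M₀ + c.natAbs, fun M hM ε hε => ?_⟩
  obtain ⟨M', hM'⟩ : ∃ M' : ℕ, (M' : ℤ) = M + c := by
    refine ⟨(M + c).toNat, Int.toNat_of_nonneg ?_⟩
    omega
  have hM'0 : M₀ ≤ M' := by omega
  filter_upwards [hM₀ M' hM'0 ε hε] with n hn
  have e1 : (((M * n : ℕ) : ℤ) • T.H + T.fl n (T.RD X A B c)) =
      ((M' * n : ℕ) : ℤ) • T.H + ∑ i ∈ A, T.fl n (X i) - ∑ i ∈ B, T.cl n (X i) := by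
    rw [floor_RD T X A B h.disj c h1 n, add_sub_assoc, add_sub_assoc, ← add_assoc, ← add_smul]
    congr 2
    push_cast
    rw [hM']; ring
  rw [e1]
  refine le_trans (le_of_eq ?_) hn
  have e2 : (M' : ℝ) = M + c := by exact_mod_cast hM'
  have e3 : (10 * (c : ℝ) + A.card - B.card) = 0 := by exact_mod_cast h.lin
  have e4 : (20 * (c : ℝ) ^ 2 + 4 * c * (A.card - B.card) - A.card - B.card + Sf.ncr cr A +
      Sf.ncr cr B) = 0 := by exact_mod_cast h.quad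
  have e5 : (20 * (M' : ℝ) ^ 2 + 4 * M' * ((A.card : ℝ) - B.card) - A.card - B.card +
      Sf.ncr cr A + Sf.ncr cr B) = 20 * M ^ 2 := by
    rw [e2]
    have : (20 * ((M : ℝ) + c) ^ 2 + 4 * (M + c) * ((A.card : ℝ) - B.card) - A.card - B.card +
      Sf.ncr cr A + Sf.ncr cr B) = 20 * M ^ 2 + 4 * M * (10 * (c : ℝ) + A.card - B.card) +
      (20 * (c : ℝ) ^ 2 + 4 * c * (A.card - B.card) - A.card - B.card + Sf.ncr cr A +
        Sf.ncr cr B) := by ring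
    rw [this, e3, e4]; ring
  rw [e5, hN.deg]
  ring

theorem x_ne (T : Sf) : T.x ≠ 0 := by
  have h := T.surf.indep
  have := h.ne_zero 0
  simpa using this

theorem y_ne (T : Sf) : T.y ≠ 0 := by
  have h := T.surf.indep
  have := h.ne_zero 1
  simpa using this

theorem supp_H (hSUP : SRF.Stmt_SUP) (T : Sf) : (Function.support T.H).Finite := by
  refine ((hSUP T.k T.F T.x T.y T.surf T.x (x_ne T)).union
    (hSUP T.k T.F T.x T.y T.surf T.y (y_ne T))).subset ?_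
  intro O hO
  by_contra h
  simp only [Set.mem_union, Set.mem_setOf_eq, not_or, not_not] at h
  apply hO
  show max 0 (max (- ord O.1 T.x) (- ord O.1 T.y)) = 0
  rw [h.1, h.2]; simp

end NUM_

theorem num_proof (hTUA : Stmt_TUA) (hTUB : Stmt_TUB) (hVOL : Stmt_VOL) (hPSL : Stmt_PSL)
    (hSUP : SRF.Stmt_SUP) : Stmt_NUM := by
  intro T J _ cr Tb N hN
  choose X hX0 using fun j => hTUA T J cr Tb N hN j
  have hX : ∀ j, T.Tub N (Tb j) (X j) := fun j => hTUB T J cr Tb N hN j (X j) (hX0 j)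
  refine ⟨X, fun j => (hX j).fin, fun j e => (hX j).nonneg e, fun j e h => (hX j).supp e h,
    fun j => (hX j).deg, fun A B c h => ?_⟩
  refine hPSL T _ ?_ (NUM_.volume T hVOL hN X hX A B c h) ?_
  · refine ((NUM_.supp_H hSUP T).union (Set.finite_iUnion fun j => (hX j).fin)).subset ?_
    intro O hO
    by_contra h
    simp only [Set.mem_union, Function.mem_support, ne_eq, Set.mem_iUnion, not_or, not_not,
      not_exists] at h
    apply hO
    simp [Sf.RD, h.1, h.2]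
  · rw [NUM_.neg_RD]
    exact NUM_.volume T hVOL hN X hX B A (-c) (NUM_.triv_symm h)

end Pool.Agent.NUM
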